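import Mathlib

/-!
# MP_d8b8b7_gt, part (L): the local El Mir lemma in a chart of `R^4`

Everything happens on `E4 = EuclideanSpace ℝ (Fin 4)`.  Two-forms are plain functions
`a : E4 → E4 → E4 → ℝ` (point, first vector, second vector).  A positive current of type (1,1) is
a finite measure `m` on pairs `(y, v)`, acting by `a ↦ ∫ a y v (J y v) ∂m`.  The anti-invariant
current `T^-` in `L^2` is a matrix of `L^2` functions `τ i j`, acting by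
`a ↦ ∫ ∑ i j, τ y i j * a y (e i) (e j)`.
-/

noncomputable section

open MeasureTheory Set Filter Topology
open scoped ContDiff ENNReal

namespace TamedLocal

/-- The model space `R^4`. -/
abbrev E4 : Type := EuclideanSpace ℝ (Fin 4)

/-- Standard basis vectors. -/
def ee (i : Fin 4) : E4 := EuclideanSpace.single i 1

/-- Wedge product of two covectors, evaluated on two vectors. -/
def wedge (α β : E4 →L[ℝ] ℝ) (u w : E4) : ℝ := α u * β w - α w * β u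

/-- Exterior derivative of the one-form `α`, at the point `x`, on the vectors `u, w`. -/
def dF (α : E4 → (E4 →L[ℝ] ℝ)) (x u w : E4) : ℝ := fderiv ℝ α x u w - fderiv ℝ α x w u

/-- The standard complex structure: `e0 ↦ e1 ↦ -e0`, `e2 ↦ e3 ↦ -e2`. -/
def J0 : E4 →L[ℝ] E4 :=
  LinearMap.toContinuousLinearMap
    { toFun := fun v => WithLp.toLp 2 ![-(v 1), v 0, -(v 3), v 2]
      map_add' := by
        intro x y
        ext i
        fin_cases i <;> simp <;> ring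
      map_smul' := by
        intro c x
        ext i
        fin_cases i <;> simp }

/-- Two by two minors. -/
def mnr (i j : Fin 4) (a b : E4) : ℝ := a i * b j - a j * b i

/-- The standard volume form: the determinant of four vectors, by Laplace expansion along the
first two. -/
def vol4 (a b c d : E4) : ℝ :=
  mnr 0 1 a b * mnr 2 3 c d - mnr 0 2 a b * mnr 1 3 c d + mnr 0 3 a b * mnr 1 2 c d
    + mnr 1 2 a b * mnr 0 3 c d - mnr 1 3 a b * mnr 0 2 c d + mnr 2 3 a b * mnr 0 1 c d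

/-- A frame adapted to an almost complex structure `J`, defined on all of `R^4`, with uniform
bounds: `g y` is invertible with inverse `gi y`, and `J y = gi y ∘ J0 ∘ g y`. -/
structure Frame (g gi J : E4 → (E4 →L[ℝ] E4)) (B : ℝ) : Prop where
  smooth_g : ContDiff ℝ ∞ g
  smooth_gi : ContDiff ℝ ∞ gi
  left_inv : ∀ y v, gi y (g y v) = v
  right_inv : ∀ y v, g y (gi y v) = v
  J_eq : ∀ y v, J y v = gi y (J0 (g y v))
  one_le : 1 ≤ B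
  bound_g : ∀ y, ‖g y‖ ≤ B
  bound_gi : ∀ y, ‖gi y‖ ≤ B
  bound_dg : ∀ y, ‖fderiv ℝ g y‖ ≤ B
  bound_dgi : ∀ y, ‖fderiv ℝ gi y‖ ≤ B

/-- The action of the `(1,1)`-current given by the measure `m` on a two-form. -/
def pairM (J : E4 → (E4 →L[ℝ] E4)) (m : Measure (E4 × E4)) (a : E4 → E4 → E4 → ℝ) : ℝ :=
  ∫ p, a p.1 p.2 (J p.1 p.2) ∂m

/-- The action of the bivector field `τ` on a two-form. -/
def pairT (τ : E4 → Fin 4 → Fin 4 → ℝ) (a : E4 → E4 → E4 → ℝ) : ℝ :=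
  ∫ y, ∑ i, ∑ j, τ y i j * a y (ee i) (ee j)

/-- Test one-forms of class `C^n` with compact support in `Ω`. -/
structure IsTest (n : ℕ∞) (Ω : Set E4) (α : E4 → (E4 →L[ℝ] ℝ)) : Prop where
  smooth : ContDiff ℝ n α
  compact : HasCompactSupport α
  supp : tsupport α ⊆ Ω

/-- The current `m + τ` is closed on `Ω` (tested with smooth one-forms). -/
def ClosedOn (J : E4 → (E4 →L[ℝ] E4)) (Ω : Set E4) (m : Measure (E4 × E4))
    (τ : E4 → Fin 4 → Fin 4 → ℝ) : Prop :=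
  ∀ α, IsTest ⊤ Ω α → pairM J m (dF α) + pairT τ (dF α) = 0

/-- The same, tested with one-forms of class `C^1`. -/
def ClosedOn1 (J : E4 → (E4 →L[ℝ] E4)) (Ω : Set E4) (m : Measure (E4 × E4))
    (τ : E4 → Fin 4 → Fin 4 → ℝ) : Prop :=
  ∀ α, IsTest 1 Ω α → pairM J m (dF α) + pairT τ (dF α) = 0

/-- `τ` is in `L^2` and anti-invariant on `Ω`: it kills the `J`-invariant two-forms. -/
structure AntiInv (J : E4 → (E4 →L[ℝ] E4)) (Ω : Set E4) (τ : E4 → Fin 4 → Fin 4 → ℝ) :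
    Prop where
  memLp : ∀ i j, MemLp (fun y => τ y i j) 2 volume
  anti : ∀ᵐ y, y ∈ Ω → ∀ α β : E4 →L[ℝ] ℝ,
    ∑ i, ∑ j, τ y i j * (wedge α β (ee i) (ee j)
      + wedge (α.comp (J y)) (β.comp (J y)) (ee i) (ee j)) = 0

/-- Trace measure on `R^4` of a measure on pairs. -/
def trM (m : Measure (E4 × E4)) : Measure E4 :=
  Measure.map Prod.fst (m.withDensity (fun p => ENNReal.ofReal (‖p.2‖ ^ 2)))

/-- Newton type potential of a measure on `R^4`, as an extended nonnegative real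
(the kernel is `⊤` on the diagonal). -/
def newton (μ : Measure E4) (x : E4) : ℝ≥0∞ :=
  ∫⁻ y, (ENNReal.ofReal (‖x - y‖ ^ 2))⁻¹ ∂μ

/-- `d^c f = - df ∘ J`. -/
def dc (J : E4 → (E4 →L[ℝ] E4)) (f : E4 → ℝ) (x : E4) : E4 →L[ℝ] ℝ :=
  -((fderiv ℝ f x).comp (J x))

/-! ### The kernels (pole `y`, frozen frame `g y`) -/

/-- `ρ ↦ (ρ + δ^2)^{-1}`. -/
def K1 (δ ρ : ℝ) : ℝ := (ρ + δ ^ 2)⁻¹
/-- `ρ ↦ 2 (ρ + δ^2)^{-2}`. -/
def K2 (δ ρ : ℝ) : ℝ := 2 * ((ρ + δ ^ 2) ^ 2)⁻¹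
/-- `ρ ↦ 8 δ^2 (ρ + δ^2)^{-3}`. -/
def K3 (δ ρ : ℝ) : ℝ := 8 * δ ^ 2 * ((ρ + δ ^ 2) ^ 3)⁻¹

/-- `W(x,y) = g_y (x - y)`. -/
def Wp (g : E4 → (E4 →L[ℝ] E4)) (x y : E4) : E4 := g y (x - y)

/-- Derivative of `W` in the direction `v` of the pole:
`- g_y v + (g'_y v)(x - y)`. -/
def aV (g : E4 → (E4 →L[ℝ] E4)) (x y v : E4) : E4 := -(g y v) + (fderiv ℝ g y v) (x - y)

/-- The integrand of the primitive `S_δ`. -/
def SK (g : E4 → (E4 →L[ℝ] E4)) (δ : ℝ) (x y u v v' : E4) : ℝ :=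
  K2 δ (‖Wp g x y‖ ^ 2) * vol4 (Wp g x y) (g y u) (aV g x y v) (aV g x y v')

/-- The auxiliary one-form in the pole variable, `η ↦ k(ρ) vol4 (W, g u, g w, a_η)`. -/
def lam (g : E4 → (E4 →L[ℝ] E4)) (δ : ℝ) (x u w y : E4) : E4 →L[ℝ] ℝ :=
  LinearMap.toContinuousLinearMap
    { toFun := fun η => K2 δ (‖Wp g x y‖ ^ 2) * vol4 (Wp g x y) (g y u) (g y w) (aV g x y η)
      map_add' := by
        intro a b
        simp only [aV, vol4, mnr, map_add, add_apply, PiLp.add_apply,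
          PiLp.neg_apply, neg_add_rev]
        ring
      map_smul' := by
        intro c a
        simp only [aV, vol4, mnr, map_smul, smul_apply, PiLp.add_apply,
          PiLp.neg_apply, PiLp.smul_apply, smul_eq_mul, RingHom.id_apply]
        ring }

/-- The one-form `η ↦ (ρ + δ^2)^{-1} <g_y u, g_y η>` in the pole variable `y`. -/
def nTh (g : E4 → (E4 →L[ℝ] E4)) (δ : ℝ) (x u y : E4) : E4 →L[ℝ] ℝ :=
  K1 δ (‖Wp g x y‖ ^ 2) • (innerSL ℝ (g y u)).comp (g y)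

/-- The potential `f_δ(x) = - ∫ χ(y) (|W|^2 + δ^2)^{-1} |g_y v|^2 dm(y,v)`. -/
def fPot (g : E4 → (E4 →L[ℝ] E4)) (χ : E4 → ℝ) (m : Measure (E4 × E4)) (δ : ℝ) (x : E4) : ℝ :=
  -∫ p, χ p.1 * K1 δ (‖Wp g x p.1‖ ^ 2) * ‖g p.1 p.2‖ ^ 2 ∂m

/-- `i`-th component of the primitive `S_δ`. -/
def SComp (g J : E4 → (E4 →L[ℝ] E4)) (χ : E4 → ℝ) (m : Measure (E4 × E4)) (δ : ℝ) (i : Fin 4)
    (x : E4) : ℝ :=
  ∫ p, χ p.1 * SK g δ x p.1 (ee i) p.2 (J p.1 p.2) ∂m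

/-- The primitive `S_δ` as a one-form. -/
def SPot (g J : E4 → (E4 →L[ℝ] E4)) (χ : E4 → ℝ) (m : Measure (E4 × E4)) (δ : ℝ) (x : E4) :
    E4 →L[ℝ] ℝ :=
  ∑ i, SComp g J χ m δ i x • (EuclideanSpace.proj i : E4 →L[ℝ] ℝ)

/-- `u_δ(x) = ∫ χ |v|^2 (|x-y|^2 + δ^2)^{-1} dm`. -/
def uPot (χ : E4 → ℝ) (m : Measure (E4 × E4)) (δ : ℝ) (x : E4) : ℝ :=
  ∫ p, χ p.1 * ‖p.2‖ ^ 2 * (‖x - p.1‖ ^ 2 + δ ^ 2)⁻¹ ∂m

/-- `w_δ(x) = ∫ χ |v|^2 (|x-y|^2 + δ^2)^{-3/2} dm`. -/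
def wPot (χ : E4 → ℝ) (m : Measure (E4 × E4)) (δ : ℝ) (x : E4) : ℝ :=
  ∫ p, χ p.1 * ‖p.2‖ ^ 2 * ((Real.sqrt (‖x - p.1‖ ^ 2 + δ ^ 2)) ^ 3)⁻¹ ∂m

/-- The situation in which the potentials are built: an adapted frame on `R^4`, a closed positive
current `m` on `Ω`, a cut-off `χ` supported in `Ω`, and an open set `Ω'` such that `χ = 1` on the
`r0`-neighbourhood of `Ω'`. -/
structure Setup (g gi J : E4 → (E4 →L[ℝ] E4)) (B : ℝ) (χ : E4 → ℝ) (Ω Ω' : Set E4) (r0 L R : ℝ)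
    (m : Measure (E4 × E4)) : Prop where
  frame : Frame g gi J B
  open_Ω : IsOpen Ω
  open_Ω' : IsOpen Ω'
  χ_smooth : ContDiff ℝ ∞ χ
  χ_compact : HasCompactSupport χ
  χ_supp : tsupport χ ⊆ Ω
  χ_nonneg : ∀ y, 0 ≤ χ y
  χ_le_one : ∀ y, χ y ≤ 1
  r0_pos : 0 < r0
  near : ∀ x ∈ Ω', ∀ y, ‖x - y‖ < r0 → χ y = 1
  one_le_L : 1 ≤ L
  bdd : ∀ x ∈ Ω', ∀ y ∈ tsupport χ, ‖x - y‖ ≤ L
  one_le_R : 1 ≤ R
  fin : IsFiniteMeasure m
  vbdd : ∀ᵐ p ∂m, ‖p.2‖ ≤ R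
  closed : ClosedOn J Ω m (fun _ _ _ => 0)

/-! ### The abstract output of the kernel estimates -/

/-- Everything that is used about the pair `(f_δ, S_δ)` on the open set `Ω'`. -/
structure Pot (J : E4 → (E4 →L[ℝ] E4)) (Ω' : Set E4) (C : ℝ) (f : E4 → ℝ)
    (S : E4 → (E4 →L[ℝ] ℝ)) (w : E4 → ℝ) : Prop where
  f_C1 : ContDiff ℝ 1 f
  S_C1 : ContDiff ℝ 1 S
  w_cont : Continuous w
  w_nonneg : ∀ x, 0 ≤ w x
  f_nonpos : ∀ x, f x ≤ 0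
  b2 : ∀ x ∈ Ω', ‖fderiv ℝ f x‖ ≤ C * w x
  b3 : ∀ x ∈ Ω', ‖S x - dc J f x‖ ≤ C * (1 - f x)
  b4 : ∀ x ∈ Ω', ∀ v, -(C * (1 - f x) * ‖v‖ ^ 2) ≤ dF S x v (J x v)
  b5 : ∀ x ∈ Ω', ∀ u v, |dF S x u v - dF S x (J x u) (J x v)| ≤ C * (1 + w x) * ‖u‖ * ‖v‖
  e2 : ∀ k : ℝ, 1 ≤ k → ∫⁻ x in {x | x ∈ Ω' ∧ -(2 * k) < f x}, ENNReal.ofReal ((1 + w x) ^ 2)
    ≤ ENNReal.ofReal (C * k)

/-! ### Scalar cut-off functions (used only for arguments `t ≤ 0`, `s ≤ 0`) -/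

/-- Positive part. -/
def pp (s : ℝ) : ℝ := max s 0
/-- `h_k(t) = (t + 2k)_+^2 / (4k)`. -/
def hk (k t : ℝ) : ℝ := pp (t + 2 * k) ^ 2 / (4 * k)
/-- Derivative of `hk`. -/
def hkD (k t : ℝ) : ℝ := pp (t + 2 * k) / (2 * k)
/-- Cut-off: for `s ≤ 0` this is the smooth step from `0` (at `s ≤ -1`) to `1` (at `s = 0`). -/
def rho (s : ℝ) : ℝ := 3 * pp (s + 1) ^ 2 - 2 * pp (s + 1) ^ 3
/-- Derivative of `rho`. -/
def rhoD (s : ℝ) : ℝ := 6 * pp (s + 1) - 6 * pp (s + 1) ^ 2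

end TamedLocal
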