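import Mathlib
import Pool.Agent.W_MP_d8b8b7_gt_L.Defs

/-! # Algebra of the pairings with `τ` and with `(v, J v)` -/

noncomputable section

open MeasureTheory Set Filter Topology
open scoped ContDiff ENNReal

namespace TamedLocal

/-- Size of the matrix `τ y`. -/
def normT (τ : E4 → Fin 4 → Fin 4 → ℝ) (y : E4) : ℝ := ∑ i, ∑ j, |τ y i j|

theorem normT_memLp {τ : E4 → Fin 4 → Fin 4 → ℝ}
    (hτ : ∀ i j, MemLp (fun y => τ y i j) 2 volume) : MemLp (normT τ) 2 volume := by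
  have h : normT τ = fun y => ∑ i, ∑ j, |τ y i j| := rfl
  rw [h]
  refine memLp_finsetSum _ fun i _ => memLp_finsetSum _ fun j _ => ?_
  exact (hτ i j).abs

/-- Trivial bound of the pairing (`‖ee i‖ = 1`). -/
theorem abs_pair_le (τ : E4 → Fin 4 → Fin 4 → ℝ) (y : E4) (a : E4 → E4 → ℝ) {M : ℝ}
    (ha : ∀ i j, |a (ee i) (ee j)| ≤ M) :
    |∑ i, ∑ j, τ y i j * a (ee i) (ee j)| ≤ normT τ y * M := by
  unfold normT
  rw [Finset.sum_mul]
  refine (Finset.abs_sum_le_sum_abs _ _).trans (Finset.sum_le_sum fun i _ => ?_)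
  rw [Finset.sum_mul]
  refine (Finset.abs_sum_le_sum_abs _ _).trans (Finset.sum_le_sum fun j _ => ?_)
  rw [abs_mul]
  exact mul_le_mul_of_nonneg_left (ha i j) (abs_nonneg _)

theorem eq_sum_ee (v : E4) : v = ∑ i, v i • ee i := by
  ext k
  simp [ee, Finset.sum_apply, Pi.single_apply]

/-- An antisymmetric bilinear form in coordinates. -/
theorem bilin_coord (a : E4 →L[ℝ] E4 →L[ℝ] ℝ) (u w : E4) :
    a u w = ∑ p, ∑ q, u p * w q * a (ee p) (ee q) := by
  conv_lhs => rw [eq_sum_ee u, eq_sum_ee w]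
  simp only [map_sum, map_smul, sum_apply, smul_apply, smul_eq_mul, Finset.mul_sum]
  rw [Finset.sum_comm]
  refine Finset.sum_congr rfl fun p _ => ?_
  refine Finset.sum_congr rfl fun q _ => ?_
  ring

theorem bilin_wedge (a : E4 →L[ℝ] E4 →L[ℝ] ℝ) (ha : ∀ u w, a u w = -(a w u)) (u w : E4) :
    a u w = ∑ p, ∑ q, (1 / 2 * a (ee p) (ee q)) *
      wedge (EuclideanSpace.proj p : E4 →L[ℝ] ℝ) (EuclideanSpace.proj q : E4 →L[ℝ] ℝ) u w := by
  have h1 : a u w = ∑ p, ∑ q, u p * w q * a (ee p) (ee q) := bilin_coord a u w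
  have h2 : a u w = ∑ p, ∑ q, -(w p * u q * a (ee p) (ee q)) := by
    rw [ha u w, bilin_coord a w u]
    simp only [Finset.sum_neg_distrib]
  have h3 : a u w = 1 / 2 * (a u w + a u w) := by ring
  rw [h3]
  nth_rewrite 1 [h1]
  rw [h2, ← Finset.sum_add_distrib, Finset.mul_sum]
  refine Finset.sum_congr rfl fun p _ => ?_
  rw [← Finset.sum_add_distrib, Finset.mul_sum]
  refine Finset.sum_congr rfl fun q _ => ?_
  have hp : ∀ (k : Fin 4) (v : E4), (EuclideanSpace.proj k : E4 →L[ℝ] ℝ) v = v k :=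
    fun _ _ => rfl
  simp only [wedge, hp]
  ring

/-- Every antisymmetric bilinear form is a combination of wedges of coordinate covectors, so the
anti-invariance of `τ` says that `τ` kills `a + J^* a` for every antisymmetric bilinear `a`. -/
theorem anti_bilin {J : E4 → (E4 →L[ℝ] E4)} {Ω : Set E4} {τ : E4 → Fin 4 → Fin 4 → ℝ}
    (hτ : AntiInv J Ω τ) :
    ∀ᵐ y, y ∈ Ω → ∀ a : E4 →L[ℝ] E4 →L[ℝ] ℝ, (∀ u w, a u w = -(a w u)) →
      ∑ i, ∑ j, τ y i j * (a (ee i) (ee j) + a (J y (ee i)) (J y (ee j))) = 0 := by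
  filter_upwards [hτ.anti] with y hy hyΩ a ha
  have h := hy hyΩ
  have key : ∀ i j, a (ee i) (ee j) + a (J y (ee i)) (J y (ee j)) =
      ∑ p, ∑ q, (1 / 2 * a (ee p) (ee q)) *
        (wedge (EuclideanSpace.proj p : E4 →L[ℝ] ℝ) (EuclideanSpace.proj q : E4 →L[ℝ] ℝ)
            (ee i) (ee j)
          + wedge ((EuclideanSpace.proj p : E4 →L[ℝ] ℝ).comp (J y))
            ((EuclideanSpace.proj q : E4 →L[ℝ] ℝ).comp (J y)) (ee i) (ee j)) := by
    intro i j
    rw [bilin_wedge a ha (ee i) (ee j), bilin_wedge a ha (J y (ee i)) (J y (ee j)),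
      ← Finset.sum_add_distrib]
    refine Finset.sum_congr rfl fun p _ => ?_
    rw [← Finset.sum_add_distrib]
    refine Finset.sum_congr rfl fun q _ => ?_
    simp only [wedge, ContinuousLinearMap.comp_apply]
    ring
  calc ∑ i, ∑ j, τ y i j * (a (ee i) (ee j) + a (J y (ee i)) (J y (ee j)))
      = ∑ i, ∑ j, ∑ p, ∑ q, (1 / 2 * a (ee p) (ee q)) * (τ y i j *
        (wedge (EuclideanSpace.proj p : E4 →L[ℝ] ℝ) (EuclideanSpace.proj q : E4 →L[ℝ] ℝ)
            (ee i) (ee j)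
          + wedge ((EuclideanSpace.proj p : E4 →L[ℝ] ℝ).comp (J y))
            ((EuclideanSpace.proj q : E4 →L[ℝ] ℝ).comp (J y)) (ee i) (ee j))) := by
        refine Finset.sum_congr rfl fun i _ => Finset.sum_congr rfl fun j _ => ?_
        rw [key i j, Finset.mul_sum]
        refine Finset.sum_congr rfl fun p _ => ?_
        rw [Finset.mul_sum]
        refine Finset.sum_congr rfl fun q _ => ?_
        ring
    _ = ∑ p, ∑ q, ∑ i, ∑ j, (1 / 2 * a (ee p) (ee q)) * (τ y i j *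
        (wedge (EuclideanSpace.proj p : E4 →L[ℝ] ℝ) (EuclideanSpace.proj q : E4 →L[ℝ] ℝ)
            (ee i) (ee j)
          + wedge ((EuclideanSpace.proj p : E4 →L[ℝ] ℝ).comp (J y))
            ((EuclideanSpace.proj q : E4 →L[ℝ] ℝ).comp (J y)) (ee i) (ee j))) := by
        calc _ = ∑ i, ∑ p, ∑ j, ∑ q, (1 / 2 * a (ee p) (ee q)) * (τ y i j *
                (wedge (EuclideanSpace.proj p : E4 →L[ℝ] ℝ)
                    (EuclideanSpace.proj q : E4 →L[ℝ] ℝ) (ee i) (ee j)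
                  + wedge ((EuclideanSpace.proj p : E4 →L[ℝ] ℝ).comp (J y))
                    ((EuclideanSpace.proj q : E4 →L[ℝ] ℝ).comp (J y)) (ee i) (ee j))) :=
              Finset.sum_congr rfl fun i _ => Finset.sum_comm
          _ = ∑ p, ∑ i, ∑ j, ∑ q, (1 / 2 * a (ee p) (ee q)) * (τ y i j *
                (wedge (EuclideanSpace.proj p : E4 →L[ℝ] ℝ)
                    (EuclideanSpace.proj q : E4 →L[ℝ] ℝ) (ee i) (ee j)
                  + wedge ((EuclideanSpace.proj p : E4 →L[ℝ] ℝ).comp (J y))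
                    ((EuclideanSpace.proj q : E4 →L[ℝ] ℝ).comp (J y)) (ee i) (ee j))) :=
              Finset.sum_comm
          _ = ∑ p, ∑ i, ∑ q, ∑ j, (1 / 2 * a (ee p) (ee q)) * (τ y i j *
                (wedge (EuclideanSpace.proj p : E4 →L[ℝ] ℝ)
                    (EuclideanSpace.proj q : E4 →L[ℝ] ℝ) (ee i) (ee j)
                  + wedge ((EuclideanSpace.proj p : E4 →L[ℝ] ℝ).comp (J y))
                    ((EuclideanSpace.proj q : E4 →L[ℝ] ℝ).comp (J y)) (ee i) (ee j))) :=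
              Finset.sum_congr rfl fun p _ => Finset.sum_congr rfl fun i _ => Finset.sum_comm
          _ = _ := Finset.sum_congr rfl fun p _ => Finset.sum_comm
    _ = 0 := by
        refine Finset.sum_eq_zero fun p _ => Finset.sum_eq_zero fun q _ => ?_
        simp only [← Finset.mul_sum]
        rw [h (EuclideanSpace.proj p : E4 →L[ℝ] ℝ) (EuclideanSpace.proj q : E4 →L[ℝ] ℝ), mul_zero]

/-- `τ` kills `α ∧ (-(α ∘ J))` (i.e. `df ∧ d^c f`) where `J^2 = -1`: take `β = -(α ∘ J)` in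
`AntiInv.anti`; `wedge (α∘J) (β∘J) = wedge (α∘J) α = wedge α β`. -/
theorem anti_dfdcf {J : E4 → (E4 →L[ℝ] E4)} {Ω : Set E4} {τ : E4 → Fin 4 → Fin 4 → ℝ}
    (hτ : AntiInv J Ω τ) (hJ2 : ∀ y ∈ Ω, ∀ v, J y (J y v) = -v) :
    ∀ᵐ y, y ∈ Ω → ∀ α : E4 →L[ℝ] ℝ,
      ∑ i, ∑ j, τ y i j * wedge α (-(α.comp (J y))) (ee i) (ee j) = 0 := by
  filter_upwards [hτ.anti] with y hy hyΩ α
  have h := hy hyΩ α (-(α.comp (J y)))
  have h2 : ∀ i j, wedge α (-(α.comp (J y))) (ee i) (ee j)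
      + wedge (α.comp (J y)) ((-(α.comp (J y))).comp (J y)) (ee i) (ee j) =
      2 * wedge α (-(α.comp (J y))) (ee i) (ee j) := by
    intro i j
    simp only [wedge, ContinuousLinearMap.comp_apply, neg_apply,
      hJ2 y hyΩ, map_neg]
    ring
  simp only [h2] at h
  have h3 : ∑ i, ∑ j, τ y i j * (2 * wedge α (-(α.comp (J y))) (ee i) (ee j)) =
      2 * ∑ i, ∑ j, τ y i j * wedge α (-(α.comp (J y))) (ee i) (ee j) := by
    rw [Finset.mul_sum]
    refine Finset.sum_congr rfl fun i _ => ?_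
    rw [Finset.mul_sum]
    refine Finset.sum_congr rfl fun j _ => ?_
    ring
  rw [h3] at h
  linarith

/-- `(df ∧ d^c f)(v, Jv) = df(v)^2 + df(Jv)^2`. -/
theorem wedge_dc {J : E4 → (E4 →L[ℝ] E4)} {y : E4} (hJ2 : ∀ v, J y (J y v) = -v)
    (α : E4 →L[ℝ] ℝ) (v : E4) :
    wedge α (-(α.comp (J y))) v (J y v) = α v ^ 2 + α (J y v) ^ 2 := by
  simp only [wedge, ContinuousLinearMap.comp_apply, neg_apply, hJ2, map_neg]
  ring

/-- Cauchy-Schwarz: `|(α∧β)(v,w)| ≤ sqrt(α(v)^2+α(w)^2) sqrt(β(v)^2+β(w)^2)`, in the form with a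
parameter: `|(α∧β)(v,w)| ≤ (s (α(v)^2+α(w)^2) + s⁻¹ (β(v)^2+β(w)^2)) / 2`, `s > 0`. -/
theorem wedge_le (α β : E4 →L[ℝ] ℝ) (v w : E4) {s : ℝ} (hs : 0 < s) :
    |wedge α β v w| ≤ (s * (α v ^ 2 + α w ^ 2) + s⁻¹ * (β v ^ 2 + β w ^ 2)) / 2 := by
  unfold wedge
  have h1 : ∀ a b : ℝ, |a * b| ≤ (s * a ^ 2 + s⁻¹ * b ^ 2) / 2 := by
    intro a b
    have h2 : 0 ≤ s⁻¹ * (s * |a| - |b|) ^ 2 := by positivity
    have h3 : s⁻¹ * (s * |a| - |b|) ^ 2 = s * |a| ^ 2 - 2 * (|a| * |b|) + s⁻¹ * |b| ^ 2 := by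
      field_simp
      ring
    rw [h3, sq_abs, sq_abs] at h2
    rw [abs_mul]
    linarith
  have h2 := h1 (α v) (β w)
  have h3 := h1 (α w) (β v)
  have h4 : |α v * β w - α w * β v| ≤ |α v * β w| + |α w * β v| := abs_sub _ _
  linarith

theorem abs_wedge_le (α β : E4 →L[ℝ] ℝ) (v w : E4) :
    |wedge α β v w| ≤ 2 * ‖α‖ * ‖β‖ * ‖v‖ * ‖w‖ := by
  unfold wedge
  have h1 : ∀ u u' : E4, |α u * β u'| ≤ ‖α‖ * ‖β‖ * ‖u‖ * ‖u'‖ := by
    intro u u'
    rw [abs_mul]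
    have ha : |α u| ≤ ‖α‖ * ‖u‖ := α.le_opNorm u
    have hb : |β u'| ≤ ‖β‖ * ‖u'‖ := β.le_opNorm u'
    calc |α u| * |β u'| ≤ (‖α‖ * ‖u‖) * (‖β‖ * ‖u'‖) :=
          mul_le_mul ha hb (abs_nonneg _) (by positivity)
      _ = _ := by ring
  have h2 := h1 v w
  have h3 := h1 w v
  have h4 : |α v * β w - α w * β v| ≤ |α v * β w| + |α w * β v| := abs_sub _ _
  nlinarith [h2, h3, h4]

/-- Leibniz rule for `dF` of `φ • S`. -/
theorem dF_smul {φ : E4 → ℝ} {S : E4 → (E4 →L[ℝ] ℝ)} {x : E4} (hφ : DifferentiableAt ℝ φ x)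
    (hS : DifferentiableAt ℝ S x) (u w : E4) :
    dF (fun y => φ y • S y) x u w = wedge (fderiv ℝ φ x) (S x) u w + φ x * dF S x u w := by
  unfold dF wedge
  rw [fderiv_fun_smul hφ hS]
  simp only [add_apply, smul_apply,
    ContinuousLinearMap.smulRight_apply, smul_eq_mul]
  ring

theorem wedge_add_right (α β γ : E4 →L[ℝ] ℝ) (u w : E4) :
    wedge α (β + γ) u w = wedge α β u w + wedge α γ u w := by
  simp [wedge]; ring

theorem wedge_smul_left (c : ℝ) (α β : E4 →L[ℝ] ℝ) (u w : E4) :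
    wedge (c • α) β u w = c * wedge α β u w := by
  simp [wedge]; ring

end TamedLocal
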