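import Mathlib
import Pool.Agent.W_MP_d8b8b7_gt_L.Defs

/-! # Scalar cut-off functions -/

noncomputable section

open MeasureTheory Set Filter Topology
open scoped ContDiff ENNReal

namespace TamedLocal

theorem pp_nonneg (s : ℝ) : 0 ≤ pp s := le_max_right _ _

theorem pp_of_nonneg {s : ℝ} (hs : 0 ≤ s) : pp s = s := max_eq_left hs

theorem pp_of_nonpos {s : ℝ} (hs : s ≤ 0) : pp s = 0 := max_eq_right hs

theorem hasDerivAt_pp_pow (n : ℕ) (hn : 2 ≤ n) (s : ℝ) :
    HasDerivAt (fun t => pp t ^ n) (n * pp s ^ (n - 1)) s := by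
  have h1 : HasDerivAt (fun t : ℝ => t ^ n) (n * s ^ (n - 1)) s := hasDerivAt_pow n s
  rcases lt_trichotomy s 0 with h | h | h
  · have e : (fun t => pp t ^ n) =ᶠ[𝓝 s] fun _ => (0 : ℝ) := by
      filter_upwards [Iio_mem_nhds h] with t ht
      rw [pp_of_nonpos (le_of_lt ht), zero_pow (by omega)]
    rw [pp_of_nonpos h.le, zero_pow (by omega), mul_zero]
    exact (hasDerivAt_const s (0 : ℝ)).congr_of_eventuallyEq e
  · subst h
    have e0 : (n : ℝ) * pp 0 ^ (n - 1) = 0 := by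
      rw [pp_of_nonpos le_rfl, zero_pow (by omega), mul_zero]
    have e0' : (n : ℝ) * 0 ^ (n - 1) = 0 := by
      rw [zero_pow (by omega), mul_zero]
    rw [e0]
    rw [e0'] at h1
    have a : HasDerivWithinAt (fun t => pp t ^ n) 0 (Iic 0) 0 := by
      refine (hasDerivWithinAt_const (0 : ℝ) (Iic 0) (0 : ℝ)).congr ?_ ?_
      · intro t ht
        rw [pp_of_nonpos ht, zero_pow (by omega)]
      · rw [pp_of_nonpos le_rfl, zero_pow (by omega)]
    have b : HasDerivWithinAt (fun t => pp t ^ n) 0 (Ici 0) 0 := by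
      refine (h1.hasDerivWithinAt (s := Ici 0)).congr ?_ ?_
      · intro t ht
        rw [pp_of_nonneg ht]
      · rw [pp_of_nonneg le_rfl]
    have c := a.union b
    rw [Iic_union_Ici] at c
    exact c.hasDerivAt univ_mem
  · have e : (fun t => pp t ^ n) =ᶠ[𝓝 s] fun t => t ^ n := by
      filter_upwards [Ioi_mem_nhds h] with t ht
      rw [pp_of_nonneg (le_of_lt ht)]
    rw [pp_of_nonneg h.le]
    exact h1.congr_of_eventuallyEq e

/-- `s ↦ (s_+)^2` is differentiable with derivative `2 s_+`. -/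
theorem hasDerivAt_pp_sq (s : ℝ) : HasDerivAt (fun t => pp t ^ 2) (2 * pp s) s := by
  have h := hasDerivAt_pp_pow 2 le_rfl s
  simpa using h

theorem hasDerivAt_pp_cube (s : ℝ) : HasDerivAt (fun t => pp t ^ 3) (3 * pp s ^ 2) s := by
  have h := hasDerivAt_pp_pow 3 (by norm_num) s
  simpa using h

theorem continuous_pp : Continuous pp := continuous_id.max continuous_const

theorem hasDerivAt_hk {k : ℝ} (hk0 : 0 < k) (t : ℝ) : HasDerivAt (hk k) (hkD k t) t := by
  have h := ((hasDerivAt_pp_sq (t + 2 * k)).comp_add_const t (2 * k)).div_const (4 * k)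
  refine (h.congr_deriv ?_)
  unfold hkD
  field_simp
  ring

theorem contDiff_hk {k : ℝ} (hk0 : 0 < k) : ContDiff ℝ 1 (hk k) := by
  rw [contDiff_one_iff_deriv]
  refine ⟨fun t => (hasDerivAt_hk hk0 t).differentiableAt, ?_⟩
  have : deriv (hk k) = hkD k := funext fun t => (hasDerivAt_hk hk0 t).deriv
  rw [this]
  exact (continuous_pp.comp (continuous_id.add continuous_const)).div_const _

theorem hkD_nonneg {k : ℝ} (hk0 : 0 < k) (t : ℝ) : 0 ≤ hkD k t :=
  div_nonneg (pp_nonneg _) (by positivity)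

theorem pp_le {k t : ℝ} (hk0 : 0 < k) (ht : t ≤ 0) : pp (t + 2 * k) ≤ 2 * k :=
  max_le (by linarith) (by linarith)

theorem hkD_le_one {k t : ℝ} (hk0 : 0 < k) (ht : t ≤ 0) : hkD k t ≤ 1 := by
  unfold hkD
  rw [div_le_one (by positivity)]
  exact pp_le hk0 ht

theorem half_le_hkD {k t : ℝ} (hk0 : 0 < k) (ht : -k ≤ t) : 1 / 2 ≤ hkD k t := by
  unfold hkD
  rw [le_div_iff₀ (by positivity)]
  have : t + 2 * k ≤ pp (t + 2 * k) := le_max_left _ _
  linarith

theorem hkD_eq_zero {k t : ℝ} (hk0 : 0 < k) (ht : t ≤ -(2 * k)) : hkD k t = 0 := by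
  unfold hkD
  rw [pp_of_nonpos (by linarith), zero_div]

theorem hk_eq_zero {k t : ℝ} (hk0 : 0 < k) (ht : t ≤ -(2 * k)) : hk k t = 0 := by
  unfold hk
  rw [pp_of_nonpos (by linarith)]
  simp

theorem hk_nonneg {k : ℝ} (hk0 : 0 < k) (t : ℝ) : 0 ≤ hk k t := by
  unfold hk
  positivity

theorem hk_le {k t : ℝ} (hk0 : 0 < k) (ht : t ≤ 0) : hk k t ≤ k := by
  unfold hk
  rw [div_le_iff₀ (by positivity)]
  nlinarith [pp_nonneg (t + 2 * k), pp_le hk0 ht]

/-- `h_k^2 ≤ k^2 h_k'` for `t ≤ 0`: with `s = (t+2k)_+ ∈ [0, 2k]`, `s^4/(16 k^2) ≤ k s / 2`. -/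
theorem hk_sq_le {k t : ℝ} (hk0 : 0 < k) (ht : t ≤ 0) : hk k t ^ 2 ≤ k ^ 2 * hkD k t := by
  unfold hk hkD
  have h0 := pp_nonneg (t + 2 * k)
  have h1 := pp_le hk0 ht
  set s := pp (t + 2 * k)
  have e1 : (s ^ 2 / (4 * k)) ^ 2 = s ^ 4 / (16 * k ^ 2) := by
    field_simp
    norm_num
  have e2 : k ^ 2 * (s / (2 * k)) = (8 * k ^ 3 * s) / (16 * k ^ 2) := by
    field_simp
    ring
  rw [e1, e2]
  gcongr
  have h3 : s ^ 3 ≤ (2 * k) ^ 3 := pow_le_pow_left₀ h0 h1 3
  nlinarith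

theorem hasDerivAt_rho (s : ℝ) : HasDerivAt rho (rhoD s) s := by
  have h2 := ((hasDerivAt_pp_sq (s + 1)).comp_add_const s 1).const_mul 3
  have h3 := ((hasDerivAt_pp_cube (s + 1)).comp_add_const s 1).const_mul 2
  refine (h2.sub h3).congr_deriv ?_
  unfold rhoD
  ring

theorem continuous_rhoD : Continuous rhoD := by
  unfold rhoD
  have h : Continuous fun s : ℝ => pp (s + 1) :=
    continuous_pp.comp (continuous_id.add continuous_const)
  exact (continuous_const.mul h).sub (continuous_const.mul (h.pow 2))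

theorem contDiff_rho : ContDiff ℝ 1 rho := by
  rw [contDiff_one_iff_deriv]
  refine ⟨fun t => (hasDerivAt_rho t).differentiableAt, ?_⟩
  have : deriv rho = rhoD := funext fun t => (hasDerivAt_rho t).deriv
  rw [this]
  exact continuous_rhoD

theorem pp_le_one {s : ℝ} (hs : s ≤ 0) : pp (s + 1) ≤ 1 := max_le (by linarith) zero_le_one

theorem rho_mem {s : ℝ} (hs : s ≤ 0) : 0 ≤ rho s ∧ rho s ≤ 1 := by
  unfold rho
  have h0 := pp_nonneg (s + 1)
  have h1 := pp_le_one hs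
  set p := pp (s + 1)
  constructor
  · nlinarith [mul_nonneg (sq_nonneg p) (sub_nonneg.2 h1)]
  · nlinarith [mul_nonneg (sq_nonneg (1 - p)) h0, sq_nonneg (1 - p)]

theorem rho_eq_zero {s : ℝ} (hs : s ≤ -1) : rho s = 0 := by
  unfold rho
  rw [pp_of_nonpos (by linarith)]
  norm_num

theorem rho_zero : rho 0 = 1 := by
  unfold rho
  rw [pp_of_nonneg (by norm_num)]
  norm_num

theorem rhoD_mem {s : ℝ} (hs : s ≤ 0) : 0 ≤ rhoD s ∧ rhoD s ≤ 3 / 2 := by
  unfold rhoD
  have h0 := pp_nonneg (s + 1)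
  have h1 := pp_le_one hs
  set p := pp (s + 1)
  constructor
  · nlinarith [mul_nonneg h0 (sub_nonneg.2 h1)]
  · nlinarith [sq_nonneg (p - 1 / 2)]

theorem rhoD_eq_zero {s : ℝ} (hs : s ≤ -1) : rhoD s = 0 := by
  unfold rhoD
  rw [pp_of_nonpos (by linarith)]
  norm_num

theorem rhoD_zero : rhoD 0 = 0 := by
  unfold rhoD
  rw [pp_of_nonneg (by norm_num)]
  norm_num

/-- If `f/k` has `rhoD (f/k) ≠ 0` then `f > -k`, so `rhoD (f/k) ≤ 3 hkD k f` (`f ≤ 0`, `k > 0`). -/
theorem rhoD_le_hkD {k t : ℝ} (hk0 : 0 < k) (ht : t ≤ 0) : rhoD (t / k) ≤ 3 * hkD k t := by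
  rcases le_total (t / k) (-1) with h | h
  · rw [rhoD_eq_zero h]
    have := hkD_nonneg hk0 t
    positivity
  · have h1 : -k ≤ t := by
      rw [le_div_iff₀ hk0] at h
      linarith
    have h2 := half_le_hkD hk0 h1
    have h3 := (rhoD_mem (s := t / k) (div_nonpos_of_nonpos_of_nonneg ht hk0.le)).2
    linarith

end TamedLocal
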