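import Mathlib
import Pool.Agent.W_MP_d8b8b7_gt_L.Scalar
import Pool.Agent.W_MP_d8b8b7_gt_L.AlgT

/-! # The cut-off energy estimate -/

noncomputable section

open MeasureTheory Set Filter Topology
open scoped ContDiff ENNReal

namespace TamedLocal



/-- Pointwise lower bound for the `m`-part. All quantities are plain real numbers:
`h = h_k(f)`, `h' = h_k'(f)`, `x = ξ`. -/
theorem ce_point {J : E4 → (E4 →L[ℝ] E4)} {y : E4} (hJ2 : ∀ v, J y (J y v) = -v)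
    {a d s S : E4 →L[ℝ] ℝ} (hS : S = -(a.comp (J y)) + s)
    {h h' x k C0 R MJ Cξ dFS fy : ℝ} {v : E4}
    (hk : 1 ≤ k) (hh0 : 0 ≤ h) (hh1 : h ≤ k) (hh'0 : 0 ≤ h') (hh'1 : h' ≤ 1)
    (hsq : h ^ 2 ≤ k ^ 2 * h') (hx0 : 0 ≤ x) (hx1 : x ≤ 1) (hC0 : 0 ≤ C0) (hR : 0 ≤ R)
    (hMJ : 0 ≤ MJ) (hCξ : 0 ≤ Cξ) (hf : fy ≤ 0)
    (hs : ‖s‖ ≤ C0 * (1 - fy)) (hd : ‖d‖ ≤ Cξ) (hv : ‖v‖ ≤ R) (hJv : ‖J y v‖ ≤ MJ * R)
    (hdS : -(C0 * (1 - fy) * ‖v‖ ^ 2) ≤ dFS)
    (hz : fy ≤ -(2 * k) → h = 0 ∧ h' = 0) :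
    (1 / 2) * (h' * x ^ 2 * (a v ^ 2 + a (J y v) ^ 2))
      - (9 * C0 ^ 2 * (R ^ 2 + (MJ * R) ^ 2) + 4 * (Cξ ^ 2 * (R ^ 2 + (MJ * R) ^ 2))
        + 12 * (Cξ * C0 * R * (MJ * R)) + 3 * C0 * R ^ 2) * k ^ 2
      ≤ wedge ((h' * x ^ 2) • a + (2 * h * x) • d) S v (J y v) + h * x ^ 2 * dFS := by
  have hv0 := norm_nonneg v
  have hJv0 := norm_nonneg (J y v)
  have hR2 : ‖v‖ ^ 2 ≤ R ^ 2 := pow_le_pow_left₀ hv0 hv 2
  have hJR2 : ‖J y v‖ ^ 2 ≤ (MJ * R) ^ 2 := pow_le_pow_left₀ hJv0 hJv 2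
  by_cases hcase : fy ≤ -(2 * k)
  · obtain ⟨h1, h2⟩ := hz hcase
    subst h1 h2
    have : wedge ((0 * x ^ 2) • a + (2 * 0 * x) • d) S v (J y v) = 0 := by simp [wedge]
    rw [this]
    have hc : 0 ≤ (9 * C0 ^ 2 * (R ^ 2 + (MJ * R) ^ 2) + 4 * (Cξ ^ 2 * (R ^ 2 + (MJ * R) ^ 2))
        + 12 * (Cξ * C0 * R * (MJ * R)) + 3 * C0 * R ^ 2) * k ^ 2 := by positivity
    simp only [zero_mul, mul_zero, zero_sub, add_zero]
    exact neg_nonpos.mpr hc
  push Not at hcase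
  have h3k : 1 - fy ≤ 3 * k := by linarith
  have h1f : 0 ≤ 1 - fy := by linarith
  have hs3 : ‖s‖ ≤ C0 * (3 * k) := hs.trans (mul_le_mul_of_nonneg_left h3k hC0)
  set Q := a v ^ 2 + a (J y v) ^ 2 with hQ
  have hQ0 : 0 ≤ Q := by positivity
  -- values of S
  have hSv : S v = -(a (J y v)) + s v := by rw [hS]; simp
  have hSJ : S (J y v) = a v + s (J y v) := by
    rw [hS]; simp [hJ2]
  have hsv : |s v| ≤ C0 * (3 * k) * ‖v‖ := (s.le_opNorm v).trans (by gcongr)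
  have hsJ : |s (J y v)| ≤ C0 * (3 * k) * ‖J y v‖ := (s.le_opNorm _).trans (by gcongr)
  have hdv : |d v| ≤ Cξ * ‖v‖ := (d.le_opNorm v).trans (by gcongr)
  have hdJ : |d (J y v)| ≤ Cξ * ‖J y v‖ := (d.le_opNorm _).trans (by gcongr)
  have e1 : wedge ((h' * x ^ 2) • a + (2 * h * x) • d) S v (J y v)
      = h' * x ^ 2 * Q + h' * x ^ 2 * (a v * s (J y v) - a (J y v) * s v)
        + 2 * h * x * (d v * a v + d (J y v) * a (J y v))
        + 2 * h * x * (d v * s (J y v) - d (J y v) * s v) := by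
    simp only [wedge, add_apply, smul_apply, smul_eq_mul, hSv, hSJ, hQ]
    ring
  have hk0 : 0 ≤ k := by linarith
  -- first error
  have b1 : -(Q / 4 + 9 * C0 ^ 2 * (R ^ 2 + (MJ * R) ^ 2) * k ^ 2)
      ≤ a v * s (J y v) - a (J y v) * s v := by
    have hs2 : s v ^ 2 + s (J y v) ^ 2 ≤ 9 * C0 ^ 2 * (R ^ 2 + (MJ * R) ^ 2) * k ^ 2 := by
      have q1 : s v ^ 2 ≤ (C0 * (3 * k) * ‖v‖) ^ 2 := by
        rw [← sq_abs]; exact pow_le_pow_left₀ (abs_nonneg _) hsv 2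
      have q2 : s (J y v) ^ 2 ≤ (C0 * (3 * k) * ‖J y v‖) ^ 2 := by
        rw [← sq_abs]; exact pow_le_pow_left₀ (abs_nonneg _) hsJ 2
      have q3 : (C0 * (3 * k) * ‖v‖) ^ 2 ≤ 9 * C0 ^ 2 * k ^ 2 * R ^ 2 := by
        have : (C0 * (3 * k) * ‖v‖) ^ 2 = 9 * C0 ^ 2 * k ^ 2 * ‖v‖ ^ 2 := by ring
        rw [this]; exact mul_le_mul_of_nonneg_left hR2 (by positivity)
      have q4 : (C0 * (3 * k) * ‖J y v‖) ^ 2 ≤ 9 * C0 ^ 2 * k ^ 2 * (MJ * R) ^ 2 := by
        have : (C0 * (3 * k) * ‖J y v‖) ^ 2 = 9 * C0 ^ 2 * k ^ 2 * ‖J y v‖ ^ 2 := by ring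
        rw [this]; exact mul_le_mul_of_nonneg_left hJR2 (by positivity)
      have q5 := add_le_add (q1.trans q3) (q2.trans q4)
      refine q5.trans (le_of_eq ?_)
      ring
    have w1 := sq_nonneg (a v / 2 + s (J y v))
    have w2 := sq_nonneg (a (J y v) / 2 - s v)
    clear_value Q
    subst hQ
    generalize 9 * C0 ^ 2 * (R ^ 2 + (MJ * R) ^ 2) * k ^ 2 = K at hs2 ⊢
    clear * - hs2 w1 w2
    linarith
  -- second error
  have b2 : |2 * h * x * (d v * a v + d (J y v) * a (J y v))|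
      ≤ h' * x ^ 2 * Q / 4 + 4 * (k ^ 2 * (d v ^ 2 + d (J y v) ^ 2)) := by
    apply abs_le_of_sq_le_sq _ (by positivity)
    have cs : (d v * a v + d (J y v) * a (J y v)) ^ 2 ≤ (d v ^ 2 + d (J y v) ^ 2) * Q := by
      have w1 := sq_nonneg (d v * a (J y v) - d (J y v) * a v)
      rw [hQ]
      clear * - w1
      linarith
    have e : (2 * h * x * (d v * a v + d (J y v) * a (J y v))) ^ 2
        = 4 * h ^ 2 * x ^ 2 * (d v * a v + d (J y v) * a (J y v)) ^ 2 := by ring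
    rw [e]
    calc 4 * h ^ 2 * x ^ 2 * (d v * a v + d (J y v) * a (J y v)) ^ 2
        ≤ 4 * (k ^ 2 * h') * x ^ 2 * ((d v ^ 2 + d (J y v) ^ 2) * Q) := by gcongr
      _ ≤ (h' * x ^ 2 * Q / 4 + 4 * (k ^ 2 * (d v ^ 2 + d (J y v) ^ 2))) ^ 2 := by
        have w1 := sq_nonneg (h' * x ^ 2 * Q / 4 - 4 * (k ^ 2 * (d v ^ 2 + d (J y v) ^ 2)))
        generalize d v ^ 2 + d (J y v) ^ 2 = D at w1 ⊢
        clear_value Q
        clear * - w1
        linarith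
  have b2' : d v ^ 2 + d (J y v) ^ 2 ≤ Cξ ^ 2 * (R ^ 2 + (MJ * R) ^ 2) := by
    have q1 : d v ^ 2 ≤ Cξ ^ 2 * R ^ 2 := by
      rw [← sq_abs, ← mul_pow]
      exact pow_le_pow_left₀ (abs_nonneg _) (hdv.trans (by gcongr)) 2
    have q2 : d (J y v) ^ 2 ≤ Cξ ^ 2 * (MJ * R) ^ 2 := by
      rw [← sq_abs, ← mul_pow Cξ]
      exact pow_le_pow_left₀ (abs_nonneg _) (hdJ.trans (by gcongr)) 2
    have q3 := add_le_add q1 q2
    rwa [← mul_add] at q3
  -- third error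
  have b3 : |2 * h * x * (d v * s (J y v) - d (J y v) * s v)|
      ≤ 12 * (Cξ * C0 * R * (MJ * R)) * k ^ 2 := by
    have q : |d v * s (J y v) - d (J y v) * s v| ≤ 6 * (Cξ * C0 * R * (MJ * R)) * k := by
      have q1 : |d v * s (J y v)| ≤ (Cξ * R) * (C0 * (3 * k) * (MJ * R)) := by
        rw [abs_mul]
        exact mul_le_mul (hdv.trans (by gcongr)) (hsJ.trans (by gcongr)) (abs_nonneg _)
          (by positivity)
      have q2 : |d (J y v) * s v| ≤ (Cξ * (MJ * R)) * (C0 * (3 * k) * R) := by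
        rw [abs_mul]
        exact mul_le_mul (hdJ.trans (by gcongr)) (hsv.trans (by gcongr)) (abs_nonneg _)
          (by positivity)
      calc |d v * s (J y v) - d (J y v) * s v|
          ≤ |d v * s (J y v)| + |d (J y v) * s v| := abs_sub _ _
        _ ≤ (Cξ * R) * (C0 * (3 * k) * (MJ * R)) + (Cξ * (MJ * R)) * (C0 * (3 * k) * R) :=
          add_le_add q1 q2
        _ = 6 * (Cξ * C0 * R * (MJ * R)) * k := by ring
    rw [abs_mul]
    have q3 : |2 * h * x| ≤ 2 * k := by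
      rw [abs_of_nonneg (by positivity)]
      have w1 := mul_le_mul hh1 hx1 hx0 hk0
      clear * - w1
      linarith
    calc |2 * h * x| * |d v * s (J y v) - d (J y v) * s v|
        ≤ (2 * k) * (6 * (Cξ * C0 * R * (MJ * R)) * k) :=
          mul_le_mul q3 q (abs_nonneg _) (by positivity)
      _ = 12 * (Cξ * C0 * R * (MJ * R)) * k ^ 2 := by ring
  -- fourth error
  have hx2 : x ^ 2 ≤ 1 := pow_le_one₀ hx0 hx1
  have b4 : -(3 * C0 * R ^ 2 * k ^ 2) ≤ h * x ^ 2 * dFS := by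
    have q1 : C0 * (1 - fy) * ‖v‖ ^ 2 ≤ C0 * (3 * k) * R ^ 2 := by gcongr
    have q2 : -(C0 * (3 * k) * R ^ 2) ≤ dFS := by linarith
    have q3 : h * x ^ 2 ≤ k := by
      calc h * x ^ 2 ≤ k * 1 := mul_le_mul hh1 hx2 (by positivity) hk0
        _ = k := mul_one k
    have q4 : 0 ≤ h * x ^ 2 := by positivity
    have q5 : 0 ≤ C0 * (3 * k) * R ^ 2 := by positivity
    have w1 := mul_le_mul_of_nonneg_left q2 q4
    have w2 := mul_le_mul_of_nonneg_right q3 q5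
    clear * - w1 w2
    linarith
  rw [e1]
  have hhx : 0 ≤ h' * x ^ 2 := by positivity
  have hhx1 : h' * x ^ 2 ≤ 1 :=
    (mul_le_mul hh'1 hx2 (by positivity) zero_le_one).trans (le_of_eq (one_mul 1))
  have c1 : -(h' * x ^ 2 * Q / 4) - 9 * C0 ^ 2 * (R ^ 2 + (MJ * R) ^ 2) * k ^ 2
      ≤ h' * x ^ 2 * (a v * s (J y v) - a (J y v) * s v) := by
    have := mul_le_mul_of_nonneg_left b1 hhx
    have q0 : 0 ≤ 9 * C0 ^ 2 * (R ^ 2 + (MJ * R) ^ 2) * k ^ 2 := by positivity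
    have w1 := mul_le_mul_of_nonneg_right hhx1 q0
    generalize 9 * C0 ^ 2 * (R ^ 2 + (MJ * R) ^ 2) * k ^ 2 = K at this w1 ⊢
    clear_value Q
    clear * - this w1
    linarith
  have c2 := (abs_le.mp b2).1
  have c3 := (abs_le.mp b3).1
  have c4 : 4 * (k ^ 2 * (d v ^ 2 + d (J y v) ^ 2))
      ≤ 4 * (Cξ ^ 2 * (R ^ 2 + (MJ * R) ^ 2)) * k ^ 2 := by
    have w1 := mul_le_mul_of_nonneg_left b2' (sq_nonneg k)
    clear * - w1
    linarith
  clear_value Q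
  clear * - c1 c2 c3 c4 b4
  linarith



theorem norm_ee (i : Fin 4) : ‖ee i‖ = 1 := by simp [ee]

/-- Sum over the matrix is linear. -/
theorem tau_sum_wedge (t : Fin 4 → Fin 4 → ℝ) (c : ℝ) (α β : E4 →L[ℝ] ℝ) :
    ∑ i, ∑ j, t i j * wedge (c • α) β (ee i) (ee j)
      = c * ∑ i, ∑ j, t i j * wedge α β (ee i) (ee j) := by
  simp only [wedge_smul_left, Finset.mul_sum]
  refine Finset.sum_congr rfl fun i _ => Finset.sum_congr rfl fun j _ => ?_
  ring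

/-- Pointwise bound for the `τ`-part. -/
theorem ce_point_tau {τ : E4 → Fin 4 → Fin 4 → ℝ} {J : E4 → (E4 →L[ℝ] E4)} {y : E4}
    (han : ∀ α : E4 →L[ℝ] ℝ, ∑ i, ∑ j, τ y i j * wedge α (-(α.comp (J y))) (ee i) (ee j) = 0)
    {dFS : E4 → E4 → ℝ}
    (hbil : ∑ i, ∑ j, τ y i j * (dFS (ee i) (ee j) + dFS (J y (ee i)) (J y (ee j))) = 0)
    {a d s S : E4 →L[ℝ] ℝ} (hS : S = -(a.comp (J y)) + s)
    {h h' x k C0 MJ Cξ w fy : ℝ}
    (hk : 1 ≤ k) (hh0 : 0 ≤ h) (hh1 : h ≤ k) (hh'0 : 0 ≤ h') (hh'1 : h' ≤ 1)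
    (hx0 : 0 ≤ x) (hx1 : x ≤ 1) (hC0 : 0 ≤ C0) (hMJ : 0 ≤ MJ) (hCξ : 0 ≤ Cξ) (hw : 0 ≤ w)
    (hf3 : 1 - fy ≤ 3 * k)
    (ha : ‖a‖ ≤ C0 * w) (hs : ‖s‖ ≤ C0 * (1 - fy)) (hd : ‖d‖ ≤ Cξ) (hJn : ‖J y‖ ≤ MJ)
    (hb5 : ∀ u v : E4, |dFS u v - dFS (J y u) (J y v)| ≤ C0 * (1 + w) * ‖u‖ * ‖v‖) :
    |∑ i, ∑ j, τ y i j * (wedge ((h' * x ^ 2) • a + (2 * h * x) • d) S (ee i) (ee j)
        + h * x ^ 2 * dFS (ee i) (ee j))|
      ≤ (6 * C0 ^ 2 + 4 * Cξ * MJ * C0 + C0) * (k * ((1 + w) * normT τ y))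
        + 12 * Cξ * C0 * (k ^ 2 * normT τ y) := by
  have hn0 : 0 ≤ normT τ y := by
    unfold normT; exact Finset.sum_nonneg fun i _ => Finset.sum_nonneg fun j _ => abs_nonneg _
  have hk0 : 0 ≤ k := by linarith
  have hs3 : ‖s‖ ≤ C0 * (3 * k) := hs.trans (mul_le_mul_of_nonneg_left hf3 hC0)
  have hSn : ‖S‖ ≤ C0 * w * MJ + C0 * (3 * k) := by
    rw [hS]
    calc ‖-(a.comp (J y)) + s‖ ≤ ‖-(a.comp (J y))‖ + ‖s‖ := norm_add_le _ _
      _ ≤ ‖a‖ * ‖J y‖ + ‖s‖ := by rw [norm_neg]; gcongr; exact a.opNorm_comp_le _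
      _ ≤ C0 * w * MJ + C0 * (3 * k) := by gcongr
  -- split the sum
  have e : ∑ i, ∑ j, τ y i j * (wedge ((h' * x ^ 2) • a + (2 * h * x) • d) S (ee i) (ee j)
        + h * x ^ 2 * dFS (ee i) (ee j))
      = h' * x ^ 2 * (∑ i, ∑ j, τ y i j * wedge a s (ee i) (ee j))
        + 2 * h * x * (∑ i, ∑ j, τ y i j * wedge d S (ee i) (ee j))
        + h * x ^ 2 * ((1 / 2) * ∑ i, ∑ j, τ y i j
            * (dFS (ee i) (ee j) - dFS (J y (ee i)) (J y (ee j)))) := by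
    have e0 := han a
    have e1 : ∑ i, ∑ j, τ y i j * (wedge ((h' * x ^ 2) • a + (2 * h * x) • d) S (ee i) (ee j)
        + h * x ^ 2 * dFS (ee i) (ee j))
      = h' * x ^ 2 * (∑ i, ∑ j, τ y i j * wedge a s (ee i) (ee j))
        + 2 * h * x * (∑ i, ∑ j, τ y i j * wedge d S (ee i) (ee j))
        + h * x ^ 2 * ((1 / 2) * ∑ i, ∑ j, τ y i j
            * (dFS (ee i) (ee j) - dFS (J y (ee i)) (J y (ee j))))
        + h' * x ^ 2 * (∑ i, ∑ j, τ y i j * wedge a (-(a.comp (J y))) (ee i) (ee j))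
        + h * x ^ 2 * ((1 / 2) * ∑ i, ∑ j, τ y i j
            * (dFS (ee i) (ee j) + dFS (J y (ee i)) (J y (ee j)))) := by
      simp only [Finset.mul_sum, ← Finset.sum_add_distrib]
      refine Finset.sum_congr rfl fun i _ => Finset.sum_congr rfl fun j _ => ?_
      rw [hS]
      simp only [wedge, add_apply, smul_apply, smul_eq_mul, neg_apply,
        ContinuousLinearMap.comp_apply]
      ring
    rw [e1, e0, hbil]; ring
  rw [e]
  have hx2 : x ^ 2 ≤ 1 := pow_le_one₀ hx0 hx1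
  have hhx : 0 ≤ h' * x ^ 2 := by positivity
  have hhx1 : h' * x ^ 2 ≤ 1 :=
    (mul_le_mul hh'1 hx2 (by positivity) zero_le_one).trans (le_of_eq (one_mul 1))
  have hx2h : h * x ^ 2 ≤ k := by
    calc h * x ^ 2 ≤ k * 1 := mul_le_mul hh1 hx2 (by positivity) hk0
      _ = k := mul_one k
  have hxh : h * x ≤ k := by
    calc h * x ≤ k * 1 := mul_le_mul hh1 hx1 hx0 hk0
      _ = k := mul_one k
  have t1 : |∑ i, ∑ j, τ y i j * wedge a s (ee i) (ee j)|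
      ≤ normT τ y * (2 * (C0 * w) * (C0 * (3 * k))) := by
    apply abs_pair_le τ y (fun u v => wedge a s u v)
    intro i j
    calc |wedge a s (ee i) (ee j)| ≤ 2 * ‖a‖ * ‖s‖ * ‖ee i‖ * ‖ee j‖ := abs_wedge_le _ _ _ _
      _ = 2 * ‖a‖ * ‖s‖ := by rw [norm_ee, norm_ee]; ring
      _ ≤ 2 * (C0 * w) * (C0 * (3 * k)) := by gcongr
  have t2 : |∑ i, ∑ j, τ y i j * wedge d S (ee i) (ee j)|
      ≤ normT τ y * (2 * Cξ * (C0 * w * MJ + C0 * (3 * k))) := by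
    apply abs_pair_le τ y (fun u v => wedge d S u v)
    intro i j
    calc |wedge d S (ee i) (ee j)| ≤ 2 * ‖d‖ * ‖S‖ * ‖ee i‖ * ‖ee j‖ := abs_wedge_le _ _ _ _
      _ = 2 * ‖d‖ * ‖S‖ := by rw [norm_ee, norm_ee]; ring
      _ ≤ 2 * Cξ * (C0 * w * MJ + C0 * (3 * k)) := by gcongr
  have t3 : |∑ i, ∑ j, τ y i j * (dFS (ee i) (ee j) - dFS (J y (ee i)) (J y (ee j)))|
      ≤ normT τ y * (C0 * (1 + w)) := by
    apply abs_pair_le τ y (fun u v => dFS u v - dFS (J y u) (J y v))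
    intro i j
    have := hb5 (ee i) (ee j)
    rwa [norm_ee, norm_ee, mul_one, mul_one] at this
  have r1 : |h' * x ^ 2 * (∑ i, ∑ j, τ y i j * wedge a s (ee i) (ee j))|
      ≤ normT τ y * (2 * (C0 * w) * (C0 * (3 * k))) := by
    rw [abs_mul, abs_of_nonneg hhx]
    calc _ ≤ 1 * _ := mul_le_mul hhx1 t1 (abs_nonneg _) zero_le_one
      _ = _ := one_mul _
  have r2 : |2 * h * x * (∑ i, ∑ j, τ y i j * wedge d S (ee i) (ee j))|
      ≤ (2 * k) * (normT τ y * (2 * Cξ * (C0 * w * MJ + C0 * (3 * k)))) := by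
    rw [abs_mul, abs_of_nonneg (by positivity : 0 ≤ 2 * h * x)]
    exact mul_le_mul (by linarith) t2 (abs_nonneg _) (by positivity)
  have r3 : |h * x ^ 2 * ((1 / 2) * ∑ i, ∑ j, τ y i j
            * (dFS (ee i) (ee j) - dFS (J y (ee i)) (J y (ee j))))|
      ≤ k * ((1 / 2) * (normT τ y * (C0 * (1 + w)))) := by
    have hhx' : 0 ≤ h * x ^ 2 := by positivity
    rw [abs_mul (h * x ^ 2), abs_of_nonneg hhx', abs_mul (1 / 2 : ℝ),
      abs_of_nonneg (by norm_num : (0:ℝ) ≤ 1 / 2)]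
    exact mul_le_mul hx2h (mul_le_mul_of_nonneg_left t3 (by norm_num)) (by positivity) hk0
  calc _ ≤ |h' * x ^ 2 * (∑ i, ∑ j, τ y i j * wedge a s (ee i) (ee j))|
        + |2 * h * x * (∑ i, ∑ j, τ y i j * wedge d S (ee i) (ee j))|
        + |h * x ^ 2 * ((1 / 2) * ∑ i, ∑ j, τ y i j
            * (dFS (ee i) (ee j) - dFS (J y (ee i)) (J y (ee j))))| := abs_add_three _ _ _
    _ ≤ normT τ y * (2 * (C0 * w) * (C0 * (3 * k)))
        + (2 * k) * (normT τ y * (2 * Cξ * (C0 * w * MJ + C0 * (3 * k))))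
        + k * ((1 / 2) * (normT τ y * (C0 * (1 + w)))) := by gcongr
    _ ≤ _ := by
      have p1 : 0 ≤ C0 ^ 2 * (k * normT τ y) := by positivity
      have p2 : 0 ≤ Cξ * MJ * C0 * (k * normT τ y) := by positivity
      have p3 : 0 ≤ C0 * (k * ((1 + w) * normT τ y)) := by positivity
      clear * - p1 p2 p3
      linarith



/-- The cut-off function `h_k(f) ξ^2`. -/
def cphi (k : ℝ) (f ξ : E4 → ℝ) (y : E4) : ℝ := hk k (f y) * ξ y ^ 2

theorem cphi_fderiv {k : ℝ} (hk0 : 0 < k) {f ξ : E4 → ℝ} (hf : ContDiff ℝ 1 f)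
    (hξ : ContDiff ℝ ∞ ξ) (y : E4) :
    DifferentiableAt ℝ (cphi k f ξ) y ∧ fderiv ℝ (cphi k f ξ) y
      = (hkD k (f y) * ξ y ^ 2) • fderiv ℝ f y + (2 * hk k (f y) * ξ y) • fderiv ℝ ξ y := by
  have h1 : HasFDerivAt (fun y => hk k (f y)) (hkD k (f y) • fderiv ℝ f y) y :=
    (hasDerivAt_hk hk0 (f y)).comp_hasFDerivAt y
      ((hf.differentiable one_ne_zero) y).hasFDerivAt
  have h2 : HasFDerivAt ξ (fderiv ℝ ξ y) y :=
    ((hξ.differentiable (by simp)) y).hasFDerivAt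
  have h3 := h2.pow 2
  have h4 := h1.mul h3
  have h5 : HasFDerivAt (cphi k f ξ) ((hkD k (f y) * ξ y ^ 2) • fderiv ℝ f y
      + (2 * hk k (f y) * ξ y) • fderiv ℝ ξ y) y := by
    refine h4.congr_fderiv ?_
    ext v
    simp only [add_apply, smul_apply, smul_eq_mul]
    simp
    ring
  exact ⟨h5.differentiableAt, h5.fderiv⟩

theorem cphi_contDiff {k : ℝ} (hk0 : 0 < k) {f ξ : E4 → ℝ} (hf : ContDiff ℝ 1 f)
    (hξ : ContDiff ℝ ∞ ξ) : ContDiff ℝ 1 (cphi k f ξ) := by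
  have h1 : ContDiff ℝ 1 (fun y => hk k (f y)) := (contDiff_hk hk0).comp hf
  have h2 : ContDiff ℝ 1 ξ := hξ.of_le (by exact_mod_cast le_top)
  exact h1.mul (h2.pow 2)

theorem cphi_test {k : ℝ} (hk0 : 0 < k) {f ξ : E4 → ℝ} (hf : ContDiff ℝ 1 f)
    (hξ : ContDiff ℝ ∞ ξ) (hξc : HasCompactSupport ξ) {Ω' : Set E4} (hξs : tsupport ξ ⊆ Ω')
    {S : E4 → (E4 →L[ℝ] ℝ)} (hS : ContDiff ℝ 1 S) :
    IsTest 1 Ω' (fun y => cphi k f ξ y • S y) := by
  have hsub : Function.support (fun y => cphi k f ξ y • S y) ⊆ Function.support ξ := by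
    intro y hy
    rw [Function.mem_support] at hy ⊢
    intro h0
    apply hy
    simp [cphi, h0]
  refine ⟨?_, ?_, ?_⟩
  · exact_mod_cast (cphi_contDiff hk0 hf hξ).smul hS
  · exact hξc.mono hsub
  · exact (closure_mono hsub).trans hξs

private theorem ce_aux_sum {c1 c2 k I C0 N VK : ℝ}
    (h1 : c1 * k * I ≤ c1 * k * (C0 * k)) (h2 : c1 * k * N ≤ c1 * k ^ 2 * N) :
    c1 * k * I + c1 * k * N + (c2 * k ^ 2 * VK + c2 * k ^ 2 * N)
      ≤ (c1 * (C0 + N) + c2 * (VK + N)) * k ^ 2 := by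
  linarith

private theorem ce_aux_mul (a b : ℝ) : a * b ≤ a ^ 2 + b ^ 2 := by
  have h1 := sq_nonneg (a - b)
  have h2 := sq_nonneg a
  have h3 := sq_nonneg b
  linarith

private theorem ce_aux_one (b : ℝ) : b ≤ 1 + b ^ 2 := by
  have h1 := sq_nonneg (b - 1)
  have h2 := sq_nonneg b
  linarith

private theorem ce_aux_fin {c1 c2 k a n : ℝ}
    (q3 : c1 * k * (a * n) ≤ c1 * k * (a ^ 2 + n ^ 2))
    (q4 : c2 * k ^ 2 * n ≤ c2 * k ^ 2 * (1 + n ^ 2)) :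
    c1 * (k * (a * n)) + c2 * (k ^ 2 * n)
      ≤ c1 * k * a ^ 2 + c1 * k * n ^ 2 + (c2 * k ^ 2 + c2 * k ^ 2 * n ^ 2) := by
  linarith

private theorem ce_aux_last {X k c4 c5 M : ℝ} (h : (1 / 2) * X - c4 * k ^ 2 * M ≤ c5 * k ^ 2) :
    (1 / 2) * X ≤ (c4 * M + c5) * k ^ 2 := by
  linarith

/-- **Energy estimate.** `∫ h_k'(f) ξ^2 (df(v)^2 + df(Jv)^2) dm ≤ C2 k^2`, with `C2` independent of
`f, S, w` and `k ≥ 1`.

Proof. Write `T = m`, `h = hk k`, `h' = hkD k`, and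
`X = ∫ h'(f) ξ^2 (df(v)^2+df(Jv)^2) dm` (finite: `f` is `C^1`, `ξ` has compact support, `|v| ≤ R`).
The one-form `β = (h(f) ξ^2) • S` is a `C^1` test form on `Ω'`. By `dF_smul`,
`dF β = wedge (h'(f) ξ^2 df + 2 h(f) ξ dξ) S + h(f) ξ^2 dF S`. Write `S = dc J f + S'`,
`|S'| ≤ C (1 - f)` on `Ω'` (`b3`). Closedness: `0 = pairM J m (dF β) + pairT τ (dF β)`, i.e.
`X = -(A1 + A2 + A3 + A4) - (B1 + B2 + B3)` where (all integrals are over `tsupport ξ ⊆ Ω'`, and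
`h, h'` vanish when `f ≤ -2k`, so `|f| ≤ 2k` and `1 - f ≤ 3k` there)
* `A1 = ∫ h' ξ^2 wedge df S' (v,Jv) dm`, `|A1| ≤ X/4 + ∫ h' ξ^2 (S'(v)^2+S'(Jv)^2) dm ≤ X/4 + C' k^2`
  (`wedge_le` with `s = 1/2`; `|S'| ≤ 3 C k`, `h' ≤ 1`, `|v| ≤ R`, `|Jv| ≤ C_J R` on `tsupport ξ`);
* `A2 = ∫ h ξ^2 dF S (v, Jv) dm ≥ - ∫ h ξ^2 C (1-f) |v|^2 ≥ - C' k^2` (`b4`, `0 ≤ h ≤ k`);
* `A3 = ∫ 2 h ξ wedge dξ (dc f) (v,Jv) dm`: `h ≤ k sqrt(h')` (`hk_sq_le`), so
  `|A3| ≤ X/4 + C' k^2` (`wedge_le`; the pair `(dc f(v), dc f(Jv)) = (-df(Jv), df(v))`);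
* `A4 = ∫ 2 h ξ wedge dξ S' dm`, `|A4| ≤ C' k * k`;
* `B1 = ∫ h' ξ^2 <τ, wedge df (dc f + S')> dy = ∫ h' ξ^2 <τ, wedge df S'> dy` by `anti_dfdcf`, so
  `|B1| ≤ C' ∫_{Ω' ∩ f>-2k} w (3 k) |τ| dy ≤ C' k (C k)^{1/2} ‖τ‖_2 ≤ C' k^2` (`b2`, `e2`,
  Cauchy-Schwarz);
* `B2 = ∫ h ξ^2 <τ, dF S> dy`: by `anti_bilin` `<τ, dF S> = <τ, dF S - J^* dF S>/2`, and `b5`:
  `|B2| ≤ C' k ∫_{Ω' ∩ f>-2k} (1+w) |τ| dy ≤ C' k (Ck)^{1/2}`;
* `B3 = ∫ 2 h ξ <τ, wedge dξ S> dy`, `|S| ≤ |dc f| + |S'| ≤ C' (w + k)`: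
  `|B3| ≤ C' k ∫_{Ω' ∩ f > -2k} (w + k) |τ| 1_{tsupport ξ} dy ≤ C' (k^{3/2} + k^2)`
  (here `∫_{tsupport ξ} |τ| < ∞`).
Hence `X ≤ X/2 + C' k^2`. (`k ≥ 1` so `k^{3/2} ≤ k^2`.) -/
theorem cut_energy {J : E4 → (E4 →L[ℝ] E4)} (hJ : Continuous J) {Ω' : Set E4}
    (hΩ' : IsOpen Ω') (hJ2 : ∀ y ∈ Ω', ∀ v, J y (J y v) = -v)
    {m : Measure (E4 × E4)} [IsFiniteMeasure m] {R : ℝ} (hR : ∀ᵐ p ∂m, ‖p.2‖ ≤ R)
    {τ : E4 → Fin 4 → Fin 4 → ℝ} (hτ : AntiInv J Ω' τ) (hcl : ClosedOn1 J Ω' m τ)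
    {ξ : E4 → ℝ} (hξ : ContDiff ℝ ∞ ξ) (hξc : HasCompactSupport ξ) (hξs : tsupport ξ ⊆ Ω')
    (hξ0 : ∀ x, 0 ≤ ξ x) (hξ1 : ∀ x, ξ x ≤ 1) (C : ℝ) :
    ∃ C2 : ℝ, 0 ≤ C2 ∧ ∀ (f : E4 → ℝ) (S : E4 → (E4 →L[ℝ] ℝ)) (w : E4 → ℝ),
      Pot J Ω' C f S w → ∀ k : ℝ, 1 ≤ k →
      ∫ p, hkD k (f p.1) * ξ p.1 ^ 2
          * ((fderiv ℝ f p.1 p.2) ^ 2 + (fderiv ℝ f p.1 (J p.1 p.2)) ^ 2) ∂m ≤ C2 * k ^ 2 := by
  classical
  set K := tsupport ξ with hK
  have hKc : IsCompact K := hξc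
  -- constants
  obtain ⟨MJ0, hMJ0⟩ := hKc.exists_bound_of_continuousOn hJ.continuousOn
  set MJ := max MJ0 0 with hMJdef
  have hMJnn : 0 ≤ MJ := le_max_right _ _
  have hMJ : ∀ y ∈ K, ‖J y‖ ≤ MJ := fun y hy => (hMJ0 y hy).trans (le_max_left _ _)
  have hdξc : Continuous (fderiv ℝ ξ) := hξ.continuous_fderiv (by simp)
  obtain ⟨Cξ0, hCξ0⟩ := hdξc.bounded_above_of_compact_support (hξc.fderiv (𝕜 := ℝ))
  set Cξ := max Cξ0 0 with hCξdef
  have hCξnn : 0 ≤ Cξ := le_max_right _ _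
  have hCξ : ∀ y, ‖fderiv ℝ ξ y‖ ≤ Cξ := fun y => (hCξ0 y).trans (le_max_left _ _)
  set C0 := max C 0 with hC0def
  have hC0nn : 0 ≤ C0 := le_max_right _ _
  have hCC0 : C ≤ C0 := le_max_left _ _
  set R0 := max R 0 with hR0def
  have hR0nn : 0 ≤ R0 := le_max_right _ _
  have hRR0 : ∀ᵐ p ∂m, ‖p.2‖ ≤ R0 := hR.mono fun p hp => hp.trans (le_max_left _ _)
  set N := ∫ y, normT τ y ^ 2 with hN
  have hNint : Integrable (fun y => normT τ y ^ 2) := (normT_memLp hτ.memLp).integrable_sq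
  have hNnn : 0 ≤ N := integral_nonneg fun y => sq_nonneg _
  set VK := (volume K).toReal with hVK
  have hVKnn : 0 ≤ VK := ENNReal.toReal_nonneg
  set c4 := (9 * C0 ^ 2 * (R0 ^ 2 + (MJ * R0) ^ 2) + 4 * (Cξ ^ 2 * (R0 ^ 2 + (MJ * R0) ^ 2))
        + 12 * (Cξ * C0 * R0 * (MJ * R0)) + 3 * C0 * R0 ^ 2) with hc4
  have hc4nn : 0 ≤ c4 := by positivity
  set c1 := (6 * C0 ^ 2 + 4 * Cξ * MJ * C0 + C0) with hc1
  have hc1nn : 0 ≤ c1 := by positivity
  set c2 := 12 * Cξ * C0 with hc2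
  have hc2nn : 0 ≤ c2 := by positivity
  set c5 := c1 * (C0 + N) + c2 * (VK + N) with hc5
  have hc5nn : 0 ≤ c5 := by positivity
  refine ⟨2 * (c4 * m.real univ + c5), by positivity, ?_⟩
  intro f S w hpot k hk1
  have hk0 : 0 < k := by linarith
  have hclosed := hcl _ (cphi_test hk0 hpot.f_C1 hξ hξc hξs hpot.S_C1)
  set β : E4 → (E4 →L[ℝ] ℝ) := fun y => cphi k f ξ y • S y with hβ
  have hfdiff : Differentiable ℝ f := hpot.f_C1.differentiable one_ne_zero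
  have hSdiff : Differentiable ℝ S := hpot.S_C1.differentiable one_ne_zero
  have hfd : Continuous (fderiv ℝ f) := hpot.f_C1.continuous_fderiv one_ne_zero
  have hSd : Continuous (fderiv ℝ S) := hpot.S_C1.continuous_fderiv one_ne_zero
  -- formula for dF β
  have hdF : ∀ y u v, dF β y u v
      = wedge ((hkD k (f y) * ξ y ^ 2) • fderiv ℝ f y + (2 * hk k (f y) * ξ y) • fderiv ℝ ξ y)
          (S y) u v + hk k (f y) * ξ y ^ 2 * dF S y u v := by
    intro y u v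
    obtain ⟨hd1, hd2⟩ := cphi_fderiv hk0 hpot.f_C1 hξ y
    rw [hβ, dF_smul hd1 (hSdiff y), hd2]
    rfl
  -- bounds inside K
  have hb : ∀ y ∈ K, ‖S y - dc J f y‖ ≤ C0 * (1 - f y) := by
    intro y hy
    refine (hpot.b3 y (hξs hy)).trans ?_
    exact mul_le_mul_of_nonneg_right hCC0 (by linarith [hpot.f_nonpos y])
  have hξ0' : ∀ y, y ∉ K → ξ y = 0 := fun y hy => image_eq_zero_of_notMem_tsupport hy
  have hdξ0' : ∀ y, y ∉ K → fderiv ℝ ξ y = 0 := fun y hy => by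
    have := image_eq_zero_of_notMem_tsupport (f := fderiv ℝ ξ)
      (fun h => hy (tsupport_fderiv_subset ℝ h))
    exact this
  -- the m-part
  set X : E4 × E4 → ℝ := fun p => hkD k (f p.1) * ξ p.1 ^ 2
          * ((fderiv ℝ f p.1 p.2) ^ 2 + (fderiv ℝ f p.1 (J p.1 p.2)) ^ 2) with hX
  have hmpt : ∀ p : E4 × E4, ‖p.2‖ ≤ R0 →
      (1 / 2) * X p - c4 * k ^ 2 ≤ dF β p.1 p.2 (J p.1 p.2) := by
    intro p hp
    by_cases hy : p.1 ∈ K
    · have hyΩ := hξs hy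
      rw [hdF]
      have hS : S p.1 = -((fderiv ℝ f p.1).comp (J p.1)) + (S p.1 - dc J f p.1) := by
        simp only [dc]; abel
      refine ce_point (R := R0) (MJ := MJ) (Cξ := Cξ) (C0 := C0) (fy := f p.1)
        (s := S p.1 - dc J f p.1) (hJ2 p.1 hyΩ) hS hk1 (hk_nonneg hk0 _)
        (hk_le hk0 (hpot.f_nonpos _)) (hkD_nonneg hk0 _) (hkD_le_one hk0 (hpot.f_nonpos _))
        (hk_sq_le hk0 (hpot.f_nonpos _)) (hξ0 _) (hξ1 _) hC0nn hR0nn hMJnn hCξnn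
        (hpot.f_nonpos _) (hb _ hy) (hCξ _) hp ?_ ?_ ?_
      · calc ‖J p.1 p.2‖ ≤ ‖J p.1‖ * ‖p.2‖ := (J p.1).le_opNorm _
          _ ≤ MJ * R0 := by gcongr; exact hMJ _ hy
      · refine le_trans ?_ (hpot.b4 p.1 hyΩ p.2)
        have h1f : 0 ≤ 1 - f p.1 := by linarith [hpot.f_nonpos p.1]
        have : C * (1 - f p.1) * ‖p.2‖ ^ 2 ≤ C0 * (1 - f p.1) * ‖p.2‖ ^ 2 := by gcongr
        linarith
      · intro hle
        exact ⟨hk_eq_zero hk0 hle, hkD_eq_zero hk0 hle⟩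
    · have h1 : X p = 0 := by simp [hX, hξ0' _ hy]
      have h2 : dF β p.1 p.2 (J p.1 p.2) = 0 := by
        rw [hdF, hξ0' _ hy]; simp [wedge]
      rw [h1, h2]
      have : 0 ≤ c4 * k ^ 2 := by positivity
      linarith
  -- continuity of hkD ∘ f, etc.
  have hcont_hkD : Continuous (hkD k) := by
    unfold hkD
    exact (continuous_pp.comp (by fun_prop)).div_const _
  have hXcont : Continuous X := by
    rw [hX]
    have h1 : Continuous fun p : E4 × E4 => fderiv ℝ f p.1 p.2 :=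
      (hfd.comp continuous_fst).clm_apply continuous_snd
    have h2 : Continuous fun p : E4 × E4 => fderiv ℝ f p.1 (J p.1 p.2) :=
      (hfd.comp continuous_fst).clm_apply ((hJ.comp continuous_fst).clm_apply continuous_snd)
    have h3 : Continuous fun p : E4 × E4 => hkD k (f p.1) :=
      hcont_hkD.comp (hpot.f_C1.continuous.comp continuous_fst)
    have h4 : Continuous fun p : E4 × E4 => ξ p.1 := hξ.continuous.comp continuous_fst
    exact (h3.mul (h4.pow 2)).mul ((h1.pow 2).add (h2.pow 2))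
  have hβfd : Continuous (fderiv ℝ β) := by
    have := (cphi_test hk0 hpot.f_C1 hξ hξc hξs hpot.S_C1).smooth
    exact this.continuous_fderiv (by simp)
  have hYcont : Continuous fun p : E4 × E4 => dF β p.1 p.2 (J p.1 p.2) := by
    unfold dF
    have h1 : Continuous fun p : E4 × E4 => J p.1 p.2 :=
      (hJ.comp continuous_fst).clm_apply continuous_snd
    exact (((hβfd.comp continuous_fst).clm_apply continuous_snd).clm_apply h1).sub
      (((hβfd.comp continuous_fst).clm_apply h1).clm_apply continuous_snd)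
  -- integrability from compact support
  have hint : ∀ F : E4 × E4 → ℝ, Continuous F → (∀ p, p.1 ∉ K → F p = 0) → Integrable F m := by
    intro F hF hF0
    have hcomp : IsCompact (K ×ˢ Metric.closedBall (0 : E4) R0) :=
      hKc.prod (isCompact_closedBall _ _)
    obtain ⟨M, hM⟩ := hcomp.exists_bound_of_continuousOn hF.continuousOn
    refine Integrable.mono' (integrable_const (max M 0)) hF.aestronglyMeasurable ?_
    filter_upwards [hRR0] with p hp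
    by_cases hy : p.1 ∈ K
    · exact (hM p ⟨hy, by simpa using hp⟩).trans (le_max_left _ _)
    · rw [hF0 p hy]; simp
  have hXint : Integrable X m := hint X hXcont (fun p hy => by simp [hX, hξ0' _ hy])
  have hYint : Integrable (fun p : E4 × E4 => dF β p.1 p.2 (J p.1 p.2)) m :=
    hint _ hYcont (fun p hy => by rw [hdF, hξ0' _ hy]; simp [wedge])
  have hmint : (1 / 2) * ∫ p, X p ∂m - c4 * k ^ 2 * m.real univ
      ≤ pairM J m (dF β) := by
    unfold pairM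
    have h1 : ∫ p, ((1 / 2) * X p - c4 * k ^ 2) ∂m
        = (1 / 2) * ∫ p, X p ∂m - c4 * k ^ 2 * m.real univ := by
      rw [integral_sub (hXint.const_mul _) (integrable_const _), integral_const_mul,
        integral_const]
      simp [smul_eq_mul, mul_comm]
    rw [← h1]
    refine integral_mono_ae ((hXint.const_mul _).sub (integrable_const _)) hYint ?_
    filter_upwards [hRR0] with p hp using hmpt p hp
  -- the τ-part
  set A : Set E4 := {x | x ∈ Ω' ∧ -(2 * k) < f x} with hA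
  have hAm : MeasurableSet A :=
    hΩ'.measurableSet.inter (isOpen_lt continuous_const hpot.f_C1.continuous).measurableSet
  have hwmeas : Continuous fun x => (1 + w x) ^ 2 := (continuous_const.add hpot.w_cont).pow 2
  have hAint : IntegrableOn (fun x => (1 + w x) ^ 2) A := by
    refine ⟨hwmeas.aestronglyMeasurable, ?_⟩
    rw [hasFiniteIntegral_iff_ofReal (Filter.Eventually.of_forall fun x => sq_nonneg _)]
    exact lt_of_le_of_lt (hpot.e2 k hk1) ENNReal.ofReal_lt_top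
  have hAle : ∫ x in A, (1 + w x) ^ 2 ≤ C0 * k := by
    rw [integral_eq_lintegral_of_nonneg_ae (Filter.Eventually.of_forall fun x => sq_nonneg _)
      hwmeas.aestronglyMeasurable]
    refine ENNReal.toReal_le_of_le_ofReal (by positivity) ((hpot.e2 k hk1).trans ?_)
    exact ENNReal.ofReal_le_ofReal (by gcongr)
  have hKfin : volume K < ⊤ := hKc.measure_lt_top
  have hKm : MeasurableSet K := hKc.isClosed.measurableSet
  set G : E4 → ℝ := fun y => A.indicator (fun y => c1 * k * (1 + w y) ^ 2) y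
      + c1 * k * normT τ y ^ 2 + (K.indicator (fun _ => c2 * k ^ 2) y
      + c2 * k ^ 2 * normT τ y ^ 2) with hG
  have hG1 : Integrable (fun y => A.indicator (fun y => c1 * k * (1 + w y) ^ 2) y) :=
    IntegrableOn.integrable_indicator (hAint.const_mul (c1 * k)) hAm
  have hG2 : Integrable (fun y => c1 * k * normT τ y ^ 2) := hNint.const_mul _
  have hG3 : Integrable (fun y => K.indicator (fun _ => c2 * k ^ 2) y) :=
    ((integrableOn_const_iff).mpr (Or.inr hKfin)).integrable_indicator hKm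
  have hG4 : Integrable (fun y => c2 * k ^ 2 * normT τ y ^ 2) := hNint.const_mul _
  have hGint : Integrable G := (hG1.add hG2).add (hG3.add hG4)
  have hGle : ∫ y, G y ≤ c5 * k ^ 2 := by
    have e : ∫ y, G y = c1 * k * (∫ x in A, (1 + w x) ^ 2) + c1 * k * N
        + (c2 * k ^ 2 * VK + c2 * k ^ 2 * N) := by
      have e1 : ∫ y, G y
          = (∫ y, (A.indicator (fun y => c1 * k * (1 + w y) ^ 2) y + c1 * k * normT τ y ^ 2))
            + ∫ y, (K.indicator (fun _ => c2 * k ^ 2) y + c2 * k ^ 2 * normT τ y ^ 2) :=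
        integral_add (hG1.add hG2) (hG3.add hG4)
      rw [e1, integral_add hG1 hG2,
        integral_add hG3 hG4, integral_indicator hAm, integral_indicator hKm,
        setIntegral_const]
      have e2 : ∫ y, c1 * k * normT τ y ^ 2 = c1 * k * N := integral_const_mul _ _
      have e3 : ∫ y, c2 * k ^ 2 * normT τ y ^ 2 = c2 * k ^ 2 * N := integral_const_mul _ _
      have e4 : ∫ x in A, c1 * k * (1 + w x) ^ 2 = c1 * k * ∫ x in A, (1 + w x) ^ 2 :=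
        integral_const_mul _ _
      rw [e2, e3, e4]
      simp only [smul_eq_mul, hVK, Measure.real]
      ring
    rw [e, hc5]
    have h1 : c1 * k * (∫ x in A, (1 + w x) ^ 2) ≤ c1 * k * (C0 * k) := by gcongr
    have h2 : c1 * k * N ≤ c1 * k ^ 2 * N := by
      have : k ≤ k ^ 2 := le_self_pow₀ hk1 two_ne_zero
      gcongr
    exact ce_aux_sum h1 h2
  have hn0 : ∀ y, 0 ≤ normT τ y := fun y =>
    Finset.sum_nonneg fun i _ => Finset.sum_nonneg fun j _ => abs_nonneg _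
  have hτint : |pairT τ (dF β)| ≤ c5 * k ^ 2 := by
    unfold pairT
    rw [← Real.norm_eq_abs]
    refine (norm_integral_le_integral_norm _).trans (le_trans ?_ hGle)
    refine integral_mono_of_nonneg (Filter.Eventually.of_forall fun y => norm_nonneg _) hGint ?_
    filter_upwards [anti_bilin hτ, anti_dfdcf hτ hJ2] with y han1 han2
    have hGnn : 0 ≤ G y := by
      have a1 : 0 ≤ A.indicator (fun y => c1 * k * (1 + w y) ^ 2) y :=
        indicator_nonneg (fun x _ => by positivity) y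
      have a2 : 0 ≤ K.indicator (fun _ : E4 => c2 * k ^ 2) y :=
        indicator_nonneg (fun x _ => by positivity) y
      have a3 : 0 ≤ c1 * k * normT τ y ^ 2 := by positivity
      have a4 : 0 ≤ c2 * k ^ 2 * normT τ y ^ 2 := by positivity
      simp only [hG]; linarith
    by_cases hy : y ∈ K
    · by_cases hfy : f y ≤ -(2 * k)
      · have : ∀ u v, dF β y u v = 0 := by
          intro u v
          rw [hdF, hk_eq_zero hk0 hfy, hkD_eq_zero hk0 hfy]; simp [wedge]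
        simpa [this] using hGnn
      · push Not at hfy
        have hyΩ := hξs hy
        have hyA : y ∈ A := ⟨hyΩ, hfy⟩
        have hS : S y = -((fderiv ℝ f y).comp (J y)) + (S y - dc J f y) := by
          simp only [dc]; abel
        have hbil : ∑ i, ∑ j, τ y i j * (dF S y (ee i) (ee j)
            + dF S y (J y (ee i)) (J y (ee j))) = 0 := by
          have h1 := han1 hyΩ (fderiv ℝ S y - (fderiv ℝ S y).flip) (by
            intro u v; simp)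
          simpa [dF] using h1
        have hmain := ce_point_tau (τ := τ) (J := J) (y := y) (fun α => han2 hyΩ α)
          (dFS := dF S y) hbil (a := fderiv ℝ f y) (d := fderiv ℝ ξ y)
          (s := S y - dc J f y) (S := S y) hS (C0 := C0) (MJ := MJ) (Cξ := Cξ) (w := w y)
          (fy := f y) hk1 (hk_nonneg hk0 (f y)) (hk_le hk0 (hpot.f_nonpos _))
          (hkD_nonneg hk0 (f y)) (hkD_le_one hk0 (hpot.f_nonpos _)) (hξ0 y) (hξ1 y) hC0nn hMJnn
          hCξnn (hpot.w_nonneg y) (by linarith)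
          ((hpot.b2 y hyΩ).trans (mul_le_mul_of_nonneg_right hCC0 (hpot.w_nonneg y)))
          (hb y hy) (hCξ y) (hMJ y hy) (by
            intro u v
            refine (hpot.b5 y hyΩ u v).trans ?_
            have := hpot.w_nonneg y
            gcongr)
        simp only [hdF, Real.norm_eq_abs]
        refine hmain.trans ?_
        simp only [hG, indicator_of_mem hyA, indicator_of_mem hy]
        have hw0 := hpot.w_nonneg y
        have q1 : (1 + w y) * normT τ y ≤ (1 + w y) ^ 2 + normT τ y ^ 2 :=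
          ce_aux_mul (1 + w y) (normT τ y)
        have q2 : normT τ y ≤ 1 + normT τ y ^ 2 := ce_aux_one (normT τ y)
        have q3 := mul_le_mul_of_nonneg_left q1 (by positivity : 0 ≤ c1 * k)
        have q4 := mul_le_mul_of_nonneg_left q2 (by positivity : 0 ≤ c2 * k ^ 2)
        simp only [← hc1, ← hc2]
        exact ce_aux_fin q3 q4
    · have : ∀ u v, dF β y u v = 0 := by
        intro u v
        rw [hdF, hξ0' _ hy]; simp [wedge]
      simpa [this] using hGnn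
  -- conclusion
  have h1 := (abs_le.mp hτint).2
  have h2 := (abs_le.mp hτint).1
  have hfin : (1 / 2) * ∫ p, X p ∂m ≤ (c4 * m.real univ + c5) * k ^ 2 := by
    have : pairM J m (dF β) ≤ c5 * k ^ 2 := by linarith
    exact ce_aux_last (hmint.trans this)
  have : ∫ p, X p ∂m ≤ 2 * (c4 * m.real univ + c5) * k ^ 2 := by linarith
  exact this

end TamedLocal
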