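import Mathlib
import Pool.Agent.W_MP_d8b8b7_gt_L.CutEnergy

/-! # Auxiliary lemmas for the pairing with cut-off test forms -/

noncomputable section

open MeasureTheory Set Filter Topology
open scoped ContDiff ENNReal

namespace TamedLocal

/-- optimisation of the parameter in Cauchy-Schwarz -/
theorem cp_le_sqrt_mul {X A B : ℝ} (hA : 0 ≤ A) (hB : 0 ≤ B)
    (h : ∀ s : ℝ, 0 < s → X ≤ (s * A + s⁻¹ * B) / 2) : X ≤ Real.sqrt A * Real.sqrt B := by
  have key : ∀ ε : ℝ, 0 < ε → X ≤ Real.sqrt (A + ε) * Real.sqrt (B + ε) := by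
    intro ε hε
    have ha : 0 < Real.sqrt (A + ε) := Real.sqrt_pos.2 (by linarith)
    have hb : 0 < Real.sqrt (B + ε) := Real.sqrt_pos.2 (by linarith)
    have h1 := h (Real.sqrt (B + ε) / Real.sqrt (A + ε)) (by positivity)
    have h2 : Real.sqrt (B + ε) / Real.sqrt (A + ε) * A ≤
        Real.sqrt (A + ε) * Real.sqrt (B + ε) := by
      have : Real.sqrt (B + ε) / Real.sqrt (A + ε) * A ≤
          Real.sqrt (B + ε) / Real.sqrt (A + ε) * (Real.sqrt (A + ε) * Real.sqrt (A + ε)) := by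
        apply mul_le_mul_of_nonneg_left _ (by positivity)
        rw [Real.mul_self_sqrt (by linarith)]
        linarith
      refine this.trans (le_of_eq ?_)
      field_simp
    have h3 : (Real.sqrt (B + ε) / Real.sqrt (A + ε))⁻¹ * B ≤
        Real.sqrt (A + ε) * Real.sqrt (B + ε) := by
      have : (Real.sqrt (B + ε) / Real.sqrt (A + ε))⁻¹ * B ≤
          (Real.sqrt (B + ε) / Real.sqrt (A + ε))⁻¹ *
            (Real.sqrt (B + ε) * Real.sqrt (B + ε)) := by
        apply mul_le_mul_of_nonneg_left _ (by positivity)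
        rw [Real.mul_self_sqrt (by linarith)]
        linarith
      refine this.trans (le_of_eq ?_)
      field_simp
    linarith
  have hlim : Tendsto (fun ε : ℝ => Real.sqrt (A + ε) * Real.sqrt (B + ε)) (𝓝[>] 0)
      (𝓝 (Real.sqrt A * Real.sqrt B)) := by
    have hc : Continuous fun ε : ℝ => Real.sqrt (A + ε) * Real.sqrt (B + ε) := by fun_prop
    have := (hc.tendsto 0).mono_left (nhdsWithin_le_nhds (s := Set.Ioi (0 : ℝ)))
    simpa using this
  refine ge_of_tendsto hlim ?_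
  filter_upwards [self_mem_nhdsWithin] with ε hε
  exact key ε hε

theorem cp_exists_cutoff {K Ω' : Set E4} (hK : IsCompact K) (hΩ' : IsOpen Ω') (hKΩ : K ⊆ Ω') :
    ∃ ξ : E4 → ℝ, ContDiff ℝ ∞ ξ ∧ HasCompactSupport ξ ∧ tsupport ξ ⊆ Ω' ∧
      (∀ x, 0 ≤ ξ x) ∧ (∀ x, ξ x ≤ 1) ∧ ∀ x ∈ K, ξ x = 1 := by
  obtain ⟨L, hL, hKL, hLΩ⟩ := exists_compact_between hK hΩ' hKΩ
  obtain ⟨f, hf0, hf1, hf⟩ := exists_contMDiffMap_zero_one_of_isClosed
    (modelWithCornersSelf ℝ E4) (M := E4) (n := ⊤) (s := (interior L)ᶜ) (t := K)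
    isOpen_interior.isClosed_compl hK.isClosed
    (Set.disjoint_left.2 fun x hx hx' => hx (hKL hx'))
  have hsub : tsupport (f : E4 → ℝ) ⊆ L := by
    apply closure_minimal _ hL.isClosed
    intro x hx
    by_contra hxL
    exact hx (hf0 (fun h => hxL (interior_subset h)))
  refine ⟨f, ?_, HasCompactSupport.intro hL ?_, hsub.trans hLΩ, fun x => (hf x).1,
    fun x => (hf x).2, fun x hx => hf1 hx⟩
  · have := f.contMDiff
    exact contMDiff_iff_contDiff.1 this
  · intro x hx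
    exact hf0 (fun h => hx (interior_subset h))

theorem cp_norm_ee (i : Fin 4) : ‖ee i‖ = 1 := by
  simp [ee]

theorem cp_abs_dF_le (α : E4 → (E4 →L[ℝ] ℝ)) (y u w : E4) :
    |dF α y u w| ≤ 2 * ‖fderiv ℝ α y‖ * ‖u‖ * ‖w‖ := by
  have h1 : |fderiv ℝ α y u w| ≤ ‖fderiv ℝ α y‖ * ‖u‖ * ‖w‖ := by
    calc |fderiv ℝ α y u w| = ‖fderiv ℝ α y u w‖ := (Real.norm_eq_abs _).symm
      _ ≤ ‖fderiv ℝ α y u‖ * ‖w‖ := (fderiv ℝ α y u).le_opNorm w
      _ ≤ ‖fderiv ℝ α y‖ * ‖u‖ * ‖w‖ := by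
        gcongr; exact (fderiv ℝ α y).le_opNorm u
  have h2 : |fderiv ℝ α y w u| ≤ ‖fderiv ℝ α y‖ * ‖w‖ * ‖u‖ := by
    calc |fderiv ℝ α y w u| = ‖fderiv ℝ α y w u‖ := (Real.norm_eq_abs _).symm
      _ ≤ ‖fderiv ℝ α y w‖ * ‖u‖ := (fderiv ℝ α y w).le_opNorm u
      _ ≤ ‖fderiv ℝ α y‖ * ‖w‖ * ‖u‖ := by
        gcongr; exact (fderiv ℝ α y).le_opNorm w
  unfold dF
  calc |fderiv ℝ α y u w - fderiv ℝ α y w u| ≤ |fderiv ℝ α y u w| + |fderiv ℝ α y w u| :=
        abs_sub _ _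
    _ ≤ _ := by nlinarith

theorem cp_continuous_dF {α : E4 → (E4 →L[ℝ] ℝ)} (hα : ContDiff ℝ 1 α) {J : E4 → (E4 →L[ℝ] E4)}
    (hJ : Continuous J) : Continuous fun p : E4 × E4 => dF α p.1 p.2 (J p.1 p.2) := by
  have h1 : Continuous (fderiv ℝ α) := hα.continuous_fderiv (by norm_num)
  unfold dF
  fun_prop

theorem cp_continuous_wedge {α β : E4 → (E4 →L[ℝ] ℝ)} (hα : Continuous α) (hβ : Continuous β)
    {J : E4 → (E4 →L[ℝ] E4)}
    (hJ : Continuous J) :
    Continuous fun p : E4 × E4 => wedge (α p.1) (β p.1) p.2 (J p.1 p.2) := by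
  unfold wedge
  fun_prop

theorem cp_bdd_fderiv {E F : Type*} [NormedAddCommGroup E] [NormedSpace ℝ E]
    [NormedAddCommGroup F] [NormedSpace ℝ F] {α : E → F} (hc : HasCompactSupport α)
    (h1 : ContDiff ℝ 1 α) : ∃ C : ℝ, 0 ≤ C ∧ ∀ x, ‖fderiv ℝ α x‖ ≤ C := by
  have h2 : Continuous (fun x => ‖fderiv ℝ α x‖) := (h1.continuous_fderiv (by norm_num)).norm
  obtain ⟨C, hC⟩ := hc.isCompact.exists_bound_of_continuousOn h2.continuousOn
  refine ⟨max C 0, le_max_right _ _, fun x => ?_⟩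
  by_cases hx : x ∈ tsupport α
  · have := hC x hx
    rw [norm_norm] at this
    exact this.trans (le_max_left _ _)
  · have : fderiv ℝ α x = 0 := by
      have h3 := tsupport_fderiv_subset ℝ (f := α)
      by_contra h
      exact hx (h3 (subset_tsupport _ h))
    rw [this, norm_zero]
    exact le_max_right _ _

theorem cp_bdd {E F : Type*} [NormedAddCommGroup E] [NormedSpace ℝ E]
    [NormedAddCommGroup F] [NormedSpace ℝ F] {α : E → F} (hc : HasCompactSupport α)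
    (h1 : Continuous α) : ∃ C : ℝ, 0 ≤ C ∧ ∀ x, ‖α x‖ ≤ C := by
  obtain ⟨C, hC⟩ := hc.exists_bound_of_continuous h1
  exact ⟨max C 0, le_max_right _ _, fun x => (hC x).trans (le_max_left _ _)⟩

theorem cp_bddOn {E F : Type*} [NormedAddCommGroup E] [NormedSpace ℝ E]
    [NormedAddCommGroup F] [NormedSpace ℝ F] {α : E → F} {K : Set E} (hK : IsCompact K)
    (h1 : Continuous α) : ∃ C : ℝ, 0 ≤ C ∧ ∀ x ∈ K, ‖α x‖ ≤ C := by
  obtain ⟨C, hC⟩ := hK.exists_bound_of_continuousOn h1.continuousOn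
  exact ⟨max C 0, le_max_right _ _, fun x hx => (hC x hx).trans (le_max_left _ _)⟩

theorem cp_bddOn_fderiv {E F : Type*} [NormedAddCommGroup E] [NormedSpace ℝ E]
    [NormedAddCommGroup F] [NormedSpace ℝ F] {α : E → F} {K : Set E} (hK : IsCompact K)
    (h1 : ContDiff ℝ 1 α) : ∃ C : ℝ, 0 ≤ C ∧ ∀ x ∈ K, ‖fderiv ℝ α x‖ ≤ C :=
  cp_bddOn hK (h1.continuous_fderiv (by norm_num))

/-- a continuous function on `E4 × E4` which is bounded by `M` at the points with `‖v‖ ≤ R` is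
integrable -/
theorem cp_integrable {m : Measure (E4 × E4)} [IsFiniteMeasure m] {R : ℝ}
    (hR : ∀ᵐ p ∂m, ‖p.2‖ ≤ R) {F : E4 × E4 → ℝ} (hF : Continuous F) {M : ℝ}
    (hM : ∀ p : E4 × E4, ‖p.2‖ ≤ R → |F p| ≤ M) : Integrable F m := by
  refine Integrable.of_bound hF.aestronglyMeasurable M ?_
  filter_upwards [hR] with p hp
  rw [Real.norm_eq_abs]
  exact hM p hp

/-- `τ`-pairing of a continuous compactly supported form is integrable -/
theorem cp_integrable_pairT {τ : E4 → Fin 4 → Fin 4 → ℝ}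
    (hτ : ∀ i j, MemLp (fun y => τ y i j) 2 volume) {a : E4 → E4 → E4 → ℝ}
    (hac : ∀ u v, Continuous fun y => a y u v)
    (has : ∀ u v, HasCompactSupport fun y => a y u v) :
    Integrable (fun y => ∑ i, ∑ j, τ y i j * a y (ee i) (ee j)) volume := by
  refine integrable_finsetSum _ fun i _ => integrable_finsetSum _ fun j _ => ?_
  have h2 : MemLp (fun y => a y (ee i) (ee j)) 2 volume :=
    (hac (ee i) (ee j)).memLp_of_hasCompactSupport (has _ _)
  exact (hτ i j).integrable_mul h2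

theorem cp_contDiff_smul {E F : Type*} [NormedAddCommGroup E] [NormedSpace ℝ E]
    [NormedAddCommGroup F] [NormedSpace ℝ F] {φ : E → ℝ} {α : E → F} (h1 : ContDiff ℝ 1 φ)
    (h2 : ContDiff ℝ 1 α) : ContDiff ℝ ((1 : ℕ∞) : WithTop ℕ∞) (fun y => φ y • α y) := by
  have := h1.smul h2
  exact_mod_cast this

theorem cp_contDiff_one {E F : Type*} [NormedAddCommGroup E] [NormedSpace ℝ E]
    [NormedAddCommGroup F] [NormedSpace ℝ F] {α : E → F}
    (h2 : ContDiff ℝ ((1 : ℕ∞) : WithTop ℕ∞) α) : ContDiff ℝ 1 α := by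
  exact_mod_cast h2

theorem cp_continuous_apply2 {E F G : Type*} [NormedAddCommGroup E] [NormedSpace ℝ E]
    [NormedAddCommGroup F] [NormedSpace ℝ F] [NormedAddCommGroup G] [NormedSpace ℝ G]
    {α : E → (F →L[ℝ] G)} (h : ContDiff ℝ 1 α) (u : E) (v : F) :
    Continuous fun y => fderiv ℝ α y u v :=
  ((h.continuous_fderiv (by norm_num)).clm_apply continuous_const).clm_apply continuous_const

theorem cp_continuous_apply1 {E F : Type*} [NormedAddCommGroup E] [NormedSpace ℝ E]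
    [NormedAddCommGroup F] [NormedSpace ℝ F]
    {α : E → F} (h : ContDiff ℝ 1 α) (u : E) :
    Continuous fun y => fderiv ℝ α y u :=
  (h.continuous_fderiv (by norm_num)).clm_apply continuous_const

theorem cp_continuous_clm {E F G : Type*} [NormedAddCommGroup E] [NormedSpace ℝ E]
    [NormedAddCommGroup F] [NormedSpace ℝ F] [NormedAddCommGroup G] [NormedSpace ℝ G]
    {α : E → (F →L[ℝ] G)} (h : Continuous α) (u : F) :
    Continuous fun y => α y u :=
  h.clm_apply continuous_const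

theorem cp_tsupport_smul {E F : Type*} [NormedAddCommGroup E] [NormedSpace ℝ E]
    [NormedAddCommGroup F] [NormedSpace ℝ F] {φ : E → ℝ} {α : E → F}
    (h2 : HasCompactSupport α) : HasCompactSupport (fun y => φ y • α y) ∧
      tsupport (fun y => φ y • α y) ⊆ tsupport α :=
  ⟨h2.smul_left, tsupport_smul_subset_right _ _⟩

theorem cp_zero_of_notMem' {E F : Type*} [NormedAddCommGroup E] [NormedSpace ℝ E]
    [NormedAddCommGroup F] [NormedSpace ℝ F] {α : E → F} {y : E} (hy : y ∉ tsupport α) :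
    α y = 0 ∧ fderiv ℝ α y = 0 := by
  refine ⟨image_eq_zero_of_notMem_tsupport hy, ?_⟩
  by_contra h
  exact hy (tsupport_fderiv_subset ℝ (subset_tsupport _ h))

theorem cp_zero_of_notMem {α : E4 → (E4 →L[ℝ] ℝ)} {y : E4} (hy : y ∉ tsupport α) :
    α y = 0 ∧ fderiv ℝ α y = 0 := cp_zero_of_notMem' hy

/-- the form `k⁻¹ ρ'(f/k) df ∧ α` -/
def cpW (α : E4 → (E4 →L[ℝ] ℝ)) (f : E4 → ℝ) (k : ℝ) (y u v : E4) : ℝ :=
  rhoD (f y / k) / k * wedge (fderiv ℝ f y) (α y) u v

theorem cp_hasFDerivAt {E : Type*} [NormedAddCommGroup E] [NormedSpace ℝ E] {f : E → ℝ}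
    (hf : ContDiff ℝ 1 f) (k : ℝ) (y : E) :
    HasFDerivAt (fun y => rho (f y / k)) ((rhoD (f y / k) / k) • fderiv ℝ f y) y := by
  have hfd : HasFDerivAt f (fderiv ℝ f y) y :=
    (hf.differentiable (by norm_num) y).hasFDerivAt
  have h1 : HasFDerivAt (fun y => f y / k) (k⁻¹ • fderiv ℝ f y) y := by
    have := hfd.const_mul k⁻¹
    refine this.congr_of_eventuallyEq (Eventually.of_forall fun z => ?_)
    simp only
    rw [div_eq_inv_mul]
  have h2 := (hasDerivAt_rho (f y / k)).comp_hasFDerivAt y h1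
  rw [smul_smul, ← div_eq_mul_inv] at h2
  exact h2

theorem cp_dF_beta {α : E4 → (E4 →L[ℝ] ℝ)} (hα : ContDiff ℝ 1 α) {f : E4 → ℝ}
    (hf : ContDiff ℝ 1 f) {k : ℝ} (y u v : E4) :
    dF (fun y => rho (f y / k) • α y) y u v = cpW α f k y u v + rho (f y / k) * dF α y u v := by
  have h2 := cp_hasFDerivAt hf k y
  rw [dF_smul h2.differentiableAt (hα.differentiable (by norm_num) y), h2.fderiv,
    wedge_smul_left]
  rfl

end TamedLocal
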