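import Mathlib
import Pool.Agent.W_MP_d8b8b7_gt_L.CutEnergy
import Pool.Agent.W_MP_d8b8b7_gt_L.CutPairingAux

/-! # Pairing with cut-off test forms -/

noncomputable section

open MeasureTheory Set Filter Topology
open scoped ContDiff ENNReal

namespace TamedLocal

/-- integrability, measure part -/
theorem cp_int1 {J : E4 → (E4 →L[ℝ] E4)} (hJ : Continuous J)
    {m : Measure (E4 × E4)} [IsFiniteMeasure m] {R : ℝ} (hR : ∀ᵐ p ∂m, ‖p.2‖ ≤ R)
    {α : E4 → (E4 →L[ℝ] ℝ)} (hα1 : ContDiff ℝ 1 α) (hαc : HasCompactSupport α) {f : E4 → ℝ}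
    (hf : ContDiff ℝ 1 f) (hf0 : ∀ y, f y ≤ 0) {k : ℝ} (hk0 : 0 < k) :
    Integrable (fun p : E4 × E4 => cpW α f k p.1 p.2 (J p.1 p.2)) m := by
  have hK : IsCompact (tsupport α) := hαc
  obtain ⟨MA, hMA0, hMA⟩ := cp_bdd hαc hα1.continuous
  obtain ⟨MJ, hMJ0, hMJ⟩ := cp_bddOn hK hJ
  obtain ⟨MF, hMF0, hMF⟩ := cp_bddOn_fderiv hK hf
  have hfk : ∀ y, f y / k ≤ 0 := fun y => div_nonpos_of_nonpos_of_nonneg (hf0 y) hk0.le
  have hfkc : Continuous fun y => f y / k := hf.continuous.div_const k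
  have hrDc : Continuous fun y => rhoD (f y / k) := continuous_rhoD.comp hfkc
  have hfd : Continuous (fderiv ℝ f) := hf.continuous_fderiv (by norm_num)
  have hJv : ∀ y ∈ tsupport α, ∀ v, ‖J y v‖ ≤ MJ * ‖v‖ := fun y hy v =>
    ((J y).le_opNorm v).trans (mul_le_mul_of_nonneg_right (hMJ y hy) (norm_nonneg _))
  refine cp_integrable hR (M := 3 / 2 / k * (2 * MF * MA * R * (MJ * R))) ?_ ?_
  · unfold cpW
    exact ((hrDc.comp continuous_fst).div_const k).mul (cp_continuous_wedge hfd hα1.continuous hJ)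
  · intro p hp
    have hR0 : 0 ≤ R := (norm_nonneg _).trans hp
    by_cases hy : p.1 ∈ tsupport α
    · unfold cpW
      rw [abs_mul, abs_div, abs_of_pos hk0]
      have h1 := rhoD_mem (hfk p.1)
      have h2 := abs_wedge_le (fderiv ℝ f p.1) (α p.1) p.2 (J p.1 p.2)
      have h3 := hMF p.1 hy
      have h4 := hMA p.1
      have h5 : ‖J p.1 p.2‖ ≤ MJ * R := (hJv p.1 hy p.2).trans (by gcongr)
      rw [abs_of_nonneg h1.1]
      gcongr
      · exact h1.2
      · exact h2.trans (by gcongr)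
    · unfold cpW wedge
      rw [(cp_zero_of_notMem hy).1]
      simp only [zero_apply, mul_zero, sub_zero, abs_zero]
      positivity

/-- integrability, measure part -/
theorem cp_int2 {J : E4 → (E4 →L[ℝ] E4)} (hJ : Continuous J)
    {m : Measure (E4 × E4)} [IsFiniteMeasure m] {R : ℝ} (hR : ∀ᵐ p ∂m, ‖p.2‖ ≤ R)
    {α : E4 → (E4 →L[ℝ] ℝ)} (hα1 : ContDiff ℝ 1 α) (hαc : HasCompactSupport α) {f : E4 → ℝ}
    (hf : ContDiff ℝ 1 f) (hf0 : ∀ y, f y ≤ 0) {k : ℝ} (hk0 : 0 < k) :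
    Integrable (fun p : E4 × E4 => rho (f p.1 / k) * dF α p.1 p.2 (J p.1 p.2)) m := by
  have hK : IsCompact (tsupport α) := hαc
  obtain ⟨MD, hMD0, hMD⟩ := cp_bdd_fderiv hαc hα1
  obtain ⟨MJ, hMJ0, hMJ⟩ := cp_bddOn hK hJ
  have hfk : ∀ y, f y / k ≤ 0 := fun y => div_nonpos_of_nonpos_of_nonneg (hf0 y) hk0.le
  have hfkc : Continuous fun y => f y / k := hf.continuous.div_const k
  have hrc : Continuous fun y => rho (f y / k) := contDiff_rho.continuous.comp hfkc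
  have hJv : ∀ y ∈ tsupport α, ∀ v, ‖J y v‖ ≤ MJ * ‖v‖ := fun y hy v =>
    ((J y).le_opNorm v).trans (mul_le_mul_of_nonneg_right (hMJ y hy) (norm_nonneg _))
  refine cp_integrable hR (M := 1 * (2 * MD * R * (MJ * R))) ?_ ?_
  · exact (hrc.comp continuous_fst).mul (cp_continuous_dF hα1 hJ)
  · intro p hp
    have hR0 : 0 ≤ R := (norm_nonneg _).trans hp
    by_cases hy : p.1 ∈ tsupport α
    · rw [abs_mul]
      have h1 := rho_mem (hfk p.1)
      have h2 := cp_abs_dF_le α p.1 p.2 (J p.1 p.2)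
      have h4 := hMD p.1
      have h5 : ‖J p.1 p.2‖ ≤ MJ * R := (hJv p.1 hy p.2).trans (by gcongr)
      rw [abs_of_nonneg h1.1]
      gcongr
      · exact h1.2
      · exact h2.trans (by gcongr)
    · unfold dF
      rw [(cp_zero_of_notMem hy).2]
      simp only [zero_apply, mul_zero, sub_zero, abs_zero]
      positivity

theorem cp_int3 {τ : E4 → Fin 4 → Fin 4 → ℝ} (hτ : ∀ i j, MemLp (fun y => τ y i j) 2 volume)
    {α : E4 → (E4 →L[ℝ] ℝ)} (hα1 : ContDiff ℝ 1 α) (hαc : HasCompactSupport α) {f : E4 → ℝ}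
    (hf : ContDiff ℝ 1 f) {k : ℝ} :
    Integrable (fun y => ∑ i, ∑ j, τ y i j * cpW α f k y (ee i) (ee j)) volume := by
  have hfkc : Continuous fun y => f y / k := hf.continuous.div_const k
  have hrDc : Continuous fun y => rhoD (f y / k) := continuous_rhoD.comp hfkc
  refine cp_integrable_pairT hτ ?_ ?_
  · intro u v
    unfold cpW wedge
    have h1 := cp_continuous_apply1 hf u
    have h2 := cp_continuous_apply1 hf v
    have h3 := cp_continuous_clm hα1.continuous u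
    have h4 := cp_continuous_clm hα1.continuous v
    exact (hrDc.div_const k).mul ((h1.mul h4).sub (h2.mul h3))
  · intro u v
    refine HasCompactSupport.intro hαc fun y hy => ?_
    unfold cpW wedge
    rw [(cp_zero_of_notMem hy).1]
    simp

theorem cp_int4 {τ : E4 → Fin 4 → Fin 4 → ℝ} (hτ : ∀ i j, MemLp (fun y => τ y i j) 2 volume)
    {α : E4 → (E4 →L[ℝ] ℝ)} (hα1 : ContDiff ℝ 1 α) (hαc : HasCompactSupport α) {f : E4 → ℝ}
    (hf : ContDiff ℝ 1 f) {k : ℝ} :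
    Integrable (fun y => ∑ i, ∑ j, τ y i j *
      (rho (f y / k) * dF α y (ee i) (ee j))) volume := by
  have hfkc : Continuous fun y => f y / k := hf.continuous.div_const k
  have hrc : Continuous fun y => rho (f y / k) := contDiff_rho.continuous.comp hfkc
  refine cp_integrable_pairT hτ (a := fun y u v => rho (f y / k) * dF α y u v) ?_ ?_
  · intro u v
    unfold dF
    exact hrc.mul ((cp_continuous_apply2 hα1 u v).sub (cp_continuous_apply2 hα1 v u))
  · intro u v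
    refine HasCompactSupport.intro hαc fun y hy => ?_
    unfold dF
    rw [(cp_zero_of_notMem hy).2]
    simp

theorem cp_test {Ω' : Set E4} {α : E4 → (E4 →L[ℝ] ℝ)} (hα : IsTest 1 Ω' α) {f : E4 → ℝ}
    (hf : ContDiff ℝ 1 f) {k : ℝ} : IsTest 1 Ω' (fun y => rho (f y / k) • α y) := by
  have h1 : ContDiff ℝ 1 (fun y => rho (f y / k)) := contDiff_rho.comp (hf.div_const k)
  have h3 := cp_tsupport_smul (φ := fun y => rho (f y / k)) hα.compact
  exact ⟨cp_contDiff_smul h1 (cp_contDiff_one hα.smooth), h3.1, h3.2.trans hα.supp⟩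

theorem cp_decomp {J : E4 → (E4 →L[ℝ] E4)} (hJ : Continuous J) {Ω' : Set E4}
    {m : Measure (E4 × E4)} [IsFiniteMeasure m] {R : ℝ} (hR : ∀ᵐ p ∂m, ‖p.2‖ ≤ R)
    {τ : E4 → Fin 4 → Fin 4 → ℝ} (hτ : ∀ i j, MemLp (fun y => τ y i j) 2 volume)
    (hcl : ClosedOn1 J Ω' m τ)
    {α : E4 → (E4 →L[ℝ] ℝ)} (hα : IsTest 1 Ω' α) {f : E4 → ℝ} (hf : ContDiff ℝ 1 f)
    (hf0 : ∀ y, f y ≤ 0) {k : ℝ} (hk0 : 0 < k) :
    pairM J m (fun y u v => rho (f y / k) * dF α y u v)
          + pairT τ (fun y u v => rho (f y / k) * dF α y u v) =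
      -(pairM J m (cpW α f k) + pairT τ (cpW α f k)) := by
  have hα1 : ContDiff ℝ 1 α := cp_contDiff_one hα.smooth
  have h0 := hcl _ (cp_test (k := k) hα hf)
  have hM : pairM J m (dF (fun y => rho (f y / k) • α y)) =
      pairM J m (cpW α f k) + pairM J m (fun y u v => rho (f y / k) * dF α y u v) := by
    unfold pairM
    rw [← integral_add (cp_int1 hJ hR hα1 hα.compact hf hf0 hk0)
      (cp_int2 hJ hR hα1 hα.compact hf hf0 hk0)]
    refine integral_congr_ae (Eventually.of_forall fun p => ?_)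
    exact cp_dF_beta hα1 hf p.1 p.2 (J p.1 p.2)
  have hT : pairT τ (dF (fun y => rho (f y / k) • α y)) =
      pairT τ (cpW α f k) + pairT τ (fun y u v => rho (f y / k) * dF α y u v) := by
    unfold pairT
    rw [← integral_add (cp_int3 hτ hα1 hα.compact hf)
      (cp_int4 hτ hα1 hα.compact hf)]
    refine integral_congr_ae (Eventually.of_forall fun y => ?_)
    simp only [← Finset.sum_add_distrib]
    refine Finset.sum_congr rfl fun i _ => Finset.sum_congr rfl fun j _ => ?_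
    rw [cp_dF_beta hα1 hf y (ee i) (ee j)]
    ring
  rw [hM, hT] at h0
  linarith

theorem cp_int5 {J : E4 → (E4 →L[ℝ] E4)} (hJ : Continuous J)
    {m : Measure (E4 × E4)} [IsFiniteMeasure m] {R : ℝ} (hR : ∀ᵐ p ∂m, ‖p.2‖ ≤ R)
    {ξ : E4 → ℝ} (hξ : Continuous ξ) (hξc : HasCompactSupport ξ)
    (hξ0 : ∀ x, 0 ≤ ξ x) (hξ1 : ∀ x, ξ x ≤ 1) {f : E4 → ℝ}
    (hf : ContDiff ℝ 1 f) (hf0 : ∀ y, f y ≤ 0) {k : ℝ} (hk0 : 0 < k) :
    Integrable (fun p : E4 × E4 => hkD k (f p.1) * ξ p.1 ^ 2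
          * ((fderiv ℝ f p.1 p.2) ^ 2 + (fderiv ℝ f p.1 (J p.1 p.2)) ^ 2)) m := by
  have hK : IsCompact (tsupport ξ) := hξc
  obtain ⟨MJ, hMJ0, hMJ⟩ := cp_bddOn hK hJ
  obtain ⟨MF, hMF0, hMF⟩ := cp_bddOn_fderiv hK hf
  have hfc : Continuous f := hf.continuous
  have hhc : Continuous fun y => hkD k (f y) := by
    unfold hkD
    exact (continuous_pp.comp (hfc.add continuous_const)).div_const _
  have hfd : Continuous (fderiv ℝ f) := hf.continuous_fderiv (by norm_num)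
  have hJv : ∀ y ∈ tsupport ξ, ∀ v, ‖J y v‖ ≤ MJ * ‖v‖ := fun y hy v =>
    ((J y).le_opNorm v).trans (mul_le_mul_of_nonneg_right (hMJ y hy) (norm_nonneg _))
  refine cp_integrable hR (M := 1 * 1 ^ 2 * ((MF * R) ^ 2 + (MF * (MJ * R)) ^ 2)) ?_ ?_
  · have h1 : Continuous fun p : E4 × E4 => fderiv ℝ f p.1 p.2 := by fun_prop
    have h2 : Continuous fun p : E4 × E4 => fderiv ℝ f p.1 (J p.1 p.2) := by fun_prop
    exact ((hhc.comp continuous_fst).mul ((hξ.comp continuous_fst).pow 2)).mul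
      ((h1.pow 2).add (h2.pow 2))
  · intro p hp
    have hR0 : 0 ≤ R := (norm_nonneg _).trans hp
    by_cases hy : p.1 ∈ tsupport ξ
    · have h1 := hkD_nonneg hk0 (f p.1)
      have h1' := hkD_le_one hk0 (hf0 p.1)
      have h2 : |fderiv ℝ f p.1 p.2| ≤ MF * R := by
        rw [← Real.norm_eq_abs]
        exact ((fderiv ℝ f p.1).le_opNorm _).trans (by gcongr; exact hMF p.1 hy)
      have h3 : |fderiv ℝ f p.1 (J p.1 p.2)| ≤ MF * (MJ * R) := by
        rw [← Real.norm_eq_abs]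
        refine ((fderiv ℝ f p.1).le_opNorm _).trans ?_
        have := hJv p.1 hy p.2
        gcongr
        · exact hMF p.1 hy
        · exact this.trans (by gcongr)
      have h4 : (fderiv ℝ f p.1 p.2) ^ 2 ≤ (MF * R) ^ 2 := by
        rw [← sq_abs]; gcongr
      have h5 : (fderiv ℝ f p.1 (J p.1 p.2)) ^ 2 ≤ (MF * (MJ * R)) ^ 2 := by
        rw [← sq_abs]; gcongr
      have h6 := hξ0 p.1
      have h7 := hξ1 p.1
      rw [abs_of_nonneg (by positivity)]
      gcongr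
    · rw [image_eq_zero_of_notMem_tsupport hy]
      simp only [ne_eq, OfNat.ofNat_ne_zero, not_false_eq_true, zero_pow, mul_zero, zero_mul,
        abs_zero]
      positivity

/-- the measure part of the error -/
theorem cp_boundM {J : E4 → (E4 →L[ℝ] E4)} (hJ : Continuous J)
    {m : Measure (E4 × E4)} [IsFiniteMeasure m] {R : ℝ} (hR : ∀ᵐ p ∂m, ‖p.2‖ ≤ R)
    {α : E4 → (E4 →L[ℝ] ℝ)} {MA MJ : ℝ}
    (hMA0 : 0 ≤ MA) (hMA : ∀ y, ‖α y‖ ≤ MA) (hMJ0 : 0 ≤ MJ) (hMJ : ∀ y ∈ tsupport α, ‖J y‖ ≤ MJ)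
    {ξ : E4 → ℝ} (hξ : Continuous ξ) (hξc : HasCompactSupport ξ)
    (hξ0 : ∀ x, 0 ≤ ξ x) (hξ1 : ∀ x, ξ x ≤ 1) (hξK : ∀ x ∈ tsupport α, ξ x = 1) {f : E4 → ℝ}
    (hf : ContDiff ℝ 1 f) (hf0 : ∀ y, f y ≤ 0) {k : ℝ} (hk0 : 0 < k) {A : ℝ}
    (hA : ∫ p, hkD k (f p.1) * ξ p.1 ^ 2
          * ((fderiv ℝ f p.1 p.2) ^ 2 + (fderiv ℝ f p.1 (J p.1 p.2)) ^ 2) ∂m ≤ A)
    {s : ℝ} (hs : 0 < s) :
    |pairM J m (cpW α f k)| ≤ (s * (k⁻¹ ^ 2 * (3 * A)) +
      s⁻¹ * (MA ^ 2 * R ^ 2 * (1 + MJ ^ 2) *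
        ∫ p in {p : E4 × E4 | p.1 ∈ tsupport α}, rhoD (f p.1 / k) ∂m)) / 2 := by
  have hfk : ∀ y, f y / k ≤ 0 := fun y => div_nonpos_of_nonpos_of_nonneg (hf0 y) hk0.le
  have hfkc : Continuous fun y => f y / k := hf.continuous.div_const k
  have hrDc : Continuous fun y => rhoD (f y / k) := continuous_rhoD.comp hfkc
  have hJv : ∀ y ∈ tsupport α, ∀ v, ‖J y v‖ ≤ MJ * ‖v‖ := fun y hy v =>
    ((J y).le_opNorm v).trans (mul_le_mul_of_nonneg_right (hMJ y hy) (norm_nonneg _))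
  have hI5 := cp_int5 hJ hR hξ hξc hξ0 hξ1 hf hf0 hk0
  have hms : MeasurableSet {p : E4 × E4 | p.1 ∈ tsupport α} :=
    measurable_fst (isClosed_tsupport α).measurableSet
  have hI6 : Integrable (fun p : E4 × E4 => rhoD (f p.1 / k)) m := by
    refine cp_integrable hR (M := 3 / 2) (hrDc.comp continuous_fst) fun p _ => ?_
    rw [abs_of_nonneg (rhoD_mem (hfk p.1)).1]
    exact (rhoD_mem (hfk p.1)).2
  have hI7 : Integrable ({p : E4 × E4 | p.1 ∈ tsupport α}.indicator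
      (fun p : E4 × E4 => rhoD (f p.1 / k))) m := hI6.indicator hms
  have hG : Integrable (fun p : E4 × E4 => (s * (k⁻¹ ^ 2 * (3 * (hkD k (f p.1) * ξ p.1 ^ 2
          * ((fderiv ℝ f p.1 p.2) ^ 2 + (fderiv ℝ f p.1 (J p.1 p.2)) ^ 2)))) +
      s⁻¹ * (MA ^ 2 * R ^ 2 * (1 + MJ ^ 2) * {p : E4 × E4 | p.1 ∈ tsupport α}.indicator
      (fun p : E4 × E4 => rhoD (f p.1 / k)) p)) / 2) m :=
    ((((hI5.const_mul 3).const_mul _).const_mul _).add ((hI7.const_mul _).const_mul _)).div_const 2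
  have hle := norm_integral_le_of_norm_le hG
    (f := fun p : E4 × E4 => cpW α f k p.1 p.2 (J p.1 p.2)) (μ := m) ?_
  · rw [Real.norm_eq_abs] at hle
    refine hle.trans ?_
    rw [integral_div, integral_add, integral_const_mul, integral_const_mul, integral_const_mul,
      integral_const_mul, integral_const_mul, integral_indicator hms]
    · gcongr
    · exact ((hI5.const_mul 3).const_mul _).const_mul _
    · exact (hI7.const_mul _).const_mul _
  · filter_upwards [hR] with p hp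
    have hR0 : 0 ≤ R := (norm_nonneg _).trans hp
    rw [Real.norm_eq_abs]
    have h0 : 0 ≤ hkD k (f p.1) * ξ p.1 ^ 2
          * ((fderiv ℝ f p.1 p.2) ^ 2 + (fderiv ℝ f p.1 (J p.1 p.2)) ^ 2) := by
      have := hkD_nonneg hk0 (f p.1)
      positivity
    by_cases hy : p.1 ∈ tsupport α
    · rw [indicator_of_mem (show p ∈ {p : E4 × E4 | p.1 ∈ tsupport α} from hy), hξK p.1 hy]
      have h1 := rhoD_mem (hfk p.1)
      have h2 := rhoD_le_hkD hk0 (hf0 p.1)
      have h3 := wedge_le (fderiv ℝ f p.1) (α p.1) p.2 (J p.1 p.2) (s := s / k)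
        (by positivity)
      have h4 : α p.1 p.2 ^ 2 + α p.1 (J p.1 p.2) ^ 2 ≤ MA ^ 2 * R ^ 2 * (1 + MJ ^ 2) := by
        have h41 : |α p.1 p.2| ≤ MA * R := by
          rw [← Real.norm_eq_abs]
          exact ((α p.1).le_opNorm _).trans (by gcongr; exact hMA p.1)
        have h42 : |α p.1 (J p.1 p.2)| ≤ MA * (MJ * R) := by
          rw [← Real.norm_eq_abs]
          refine ((α p.1).le_opNorm _).trans ?_
          have := hJv p.1 hy p.2
          gcongr
          · exact hMA p.1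
          · exact this.trans (by gcongr)
        have h43 : α p.1 p.2 ^ 2 ≤ (MA * R) ^ 2 := by rw [← sq_abs]; gcongr
        have h44 : α p.1 (J p.1 p.2) ^ 2 ≤ (MA * (MJ * R)) ^ 2 := by rw [← sq_abs]; gcongr
        nlinarith
      unfold cpW
      rw [abs_mul, abs_div, abs_of_pos hk0, abs_of_nonneg h1.1]
      set a := (fderiv ℝ f p.1 p.2) ^ 2 + (fderiv ℝ f p.1 (J p.1 p.2)) ^ 2 with ha
      have ha0 : 0 ≤ a := by positivity
      set W := |wedge (fderiv ℝ f p.1) (α p.1) p.2 (J p.1 p.2)| with hW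
      set r := rhoD (f p.1 / k) with hr
      set b := α p.1 p.2 ^ 2 + α p.1 (J p.1 p.2) ^ 2 with hb
      calc r / k * W ≤ r / k * ((s / k * a + (s / k)⁻¹ * b) / 2) := by
            gcongr
            exact div_nonneg h1.1 hk0.le
        _ = (s * (k⁻¹ ^ 2 * (r * a)) + s⁻¹ * (b * r)) / 2 := by
            field_simp
        _ ≤ (s * (k⁻¹ ^ 2 * (3 * (hkD k (f p.1) * 1 ^ 2 * a))) +
              s⁻¹ * (MA ^ 2 * R ^ 2 * (1 + MJ ^ 2) * r)) / 2 := by
            have h5 : r * a ≤ 3 * (hkD k (f p.1) * 1 ^ 2 * a) := by nlinarith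
            have h6 : b * r ≤ MA ^ 2 * R ^ 2 * (1 + MJ ^ 2) * r := by gcongr; exact h1.1
            gcongr
    · rw [indicator_of_notMem (show p ∉ {p : E4 × E4 | p.1 ∈ tsupport α} from hy)]
      unfold cpW wedge
      rw [(cp_zero_of_notMem hy).1]
      simp only [zero_apply, mul_zero, sub_zero, abs_zero, add_zero]
      positivity

/-- the density part of the error -/
theorem cp_boundT {J : E4 → (E4 →L[ℝ] E4)} {Ω' : Set E4} (hΩ' : IsOpen Ω')
    {τ : E4 → Fin 4 → Fin 4 → ℝ} (hτ : ∀ i j, MemLp (fun y => τ y i j) 2 volume)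
    {α : E4 → (E4 →L[ℝ] ℝ)} (hαs : tsupport α ⊆ Ω') {MA : ℝ} (hMA0 : 0 ≤ MA)
    (hMA : ∀ y, ‖α y‖ ≤ MA) {C : ℝ} {f : E4 → ℝ} {S : E4 → (E4 →L[ℝ] ℝ)} {w : E4 → ℝ}
    (hP : Pot J Ω' C f S w) {k : ℝ} (hk : 1 ≤ k) {s : ℝ} (hs : 0 < s) :
    |pairT τ (cpW α f k)| ≤ 3 * |C| * MA * ((s * (k⁻¹ ^ 2 * (|C| * k)) +
      s⁻¹ * ∫ y, normT τ y ^ 2) / 2) := by
  have hk0 : 0 < k := by linarith
  have hfk : ∀ y, f y / k ≤ 0 := fun y => div_nonpos_of_nonpos_of_nonneg (hP.f_nonpos y) hk0.le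
  set A : Set E4 := {x | x ∈ Ω' ∧ -(2 * k) < f x} with hA
  have hAm : MeasurableSet A :=
    hΩ'.measurableSet.inter (measurableSet_lt measurable_const hP.f_C1.continuous.measurable)
  have hwc : Continuous fun x => (1 + w x) ^ 2 := (continuous_const.add hP.w_cont).pow 2
  -- the energy of `w`
  have hl : ∫⁻ x in A, ENNReal.ofReal ((1 + w x) ^ 2) ≤ ENNReal.ofReal (|C| * k) :=
    (hP.e2 k hk).trans (ENNReal.ofReal_le_ofReal (by gcongr; exact le_abs_self C))
  have hIw : Integrable (fun x => (1 + w x) ^ 2) (volume.restrict A) := by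
    refine ⟨hwc.aestronglyMeasurable, ?_⟩
    rw [hasFiniteIntegral_iff_ofReal (Eventually.of_forall fun x => by positivity)]
    exact hl.trans_lt ENNReal.ofReal_lt_top
  have hIw2 : ∫ x in A, (1 + w x) ^ 2 ≤ |C| * k := by
    rw [integral_eq_lintegral_of_nonneg_ae (Eventually.of_forall fun x => by positivity)
      hwc.aestronglyMeasurable]
    exact ENNReal.toReal_le_of_le_ofReal (by positivity) hl
  have hIw3 : Integrable (A.indicator fun x => (1 + w x) ^ 2) volume :=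
    (integrable_indicator_iff hAm).2 hIw
  have hIt : Integrable (fun y => normT τ y ^ 2) volume := (normT_memLp hτ).integrable_sq
  have hG : Integrable (fun y => 3 * |C| * MA * ((s * (k⁻¹ ^ 2 *
      A.indicator (fun x => (1 + w x) ^ 2) y) + s⁻¹ * normT τ y ^ 2) / 2)) volume :=
    ((((hIw3.const_mul _).const_mul _).add (hIt.const_mul _)).div_const 2).const_mul _
  have hle := norm_integral_le_of_norm_le hG
    (f := fun y => ∑ i, ∑ j, τ y i j * cpW α f k y (ee i) (ee j)) ?_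
  · rw [Real.norm_eq_abs] at hle
    refine hle.trans ?_
    rw [integral_const_mul, integral_div, integral_add, integral_const_mul, integral_const_mul,
      integral_const_mul, integral_indicator hAm]
    · gcongr
    · exact (hIw3.const_mul _).const_mul _
    · exact hIt.const_mul _
  · refine Eventually.of_forall fun y => ?_
    rw [Real.norm_eq_abs]
    have hn0 : 0 ≤ normT τ y :=
      Finset.sum_nonneg fun i _ => Finset.sum_nonneg fun j _ => abs_nonneg _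
    by_cases hy : y ∈ tsupport α ∧ -(2 * k) < f y
    · have hyA : y ∈ A := ⟨hαs hy.1, hy.2⟩
      rw [indicator_of_mem hyA]
      have hw0 := hP.w_nonneg y
      have hC0 := abs_nonneg C
      have hb2 : ‖fderiv ℝ f y‖ ≤ |C| * w y :=
        (hP.b2 y (hαs hy.1)).trans (by gcongr; exact le_abs_self C)
      have h1 := rhoD_mem (hfk y)
      have h2 : ∀ i j, |cpW α f k y (ee i) (ee j)| ≤ 3 * |C| * MA * (k⁻¹ * (1 + w y)) := by
        intro i j
        have h3 := abs_wedge_le (fderiv ℝ f y) (α y) (ee i) (ee j)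
        rw [cp_norm_ee, cp_norm_ee, mul_one, mul_one] at h3
        unfold cpW
        rw [abs_mul, abs_div, abs_of_pos hk0, abs_of_nonneg h1.1]
        calc rhoD (f y / k) / k * |wedge (fderiv ℝ f y) (α y) (ee i) (ee j)|
            ≤ 3 / 2 / k * (2 * (|C| * w y) * MA) := by
              gcongr
              · exact h1.2
              · refine h3.trans ?_
                have := hMA y
                gcongr
          _ = 3 * |C| * MA * (k⁻¹ * w y) := by field_simp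
          _ ≤ 3 * |C| * MA * (k⁻¹ * (1 + w y)) := by gcongr; linarith
      refine (abs_pair_le τ y (cpW α f k y) h2).trans ?_
      have h4 : normT τ y * (k⁻¹ * (1 + w y)) ≤
          (s * (k⁻¹ ^ 2 * (1 + w y) ^ 2) + s⁻¹ * normT τ y ^ 2) / 2 := by
        have h5 : 0 ≤ s⁻¹ * (normT τ y - s * (k⁻¹ * (1 + w y))) ^ 2 := by positivity
        have h6 : s⁻¹ * (normT τ y - s * (k⁻¹ * (1 + w y))) ^ 2 =
            s⁻¹ * normT τ y ^ 2 - 2 * (normT τ y * (k⁻¹ * (1 + w y))) +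
              s * (k⁻¹ ^ 2 * (1 + w y) ^ 2) := by
          field_simp
          ring
        linarith
      calc normT τ y * (3 * |C| * MA * (k⁻¹ * (1 + w y)))
          = 3 * |C| * MA * (normT τ y * (k⁻¹ * (1 + w y))) := by ring
        _ ≤ _ := by gcongr
    · have h0 : ∀ i j, cpW α f k y (ee i) (ee j) = 0 := by
        intro i j
        by_cases hy1 : y ∈ tsupport α
        · have hy2 : f y ≤ -(2 * k) := by
            by_contra h
            exact hy ⟨hy1, by linarith⟩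
          have : f y / k ≤ -1 := by
            rw [div_le_iff₀ hk0]; linarith
          unfold cpW
          rw [rhoD_eq_zero this]
          simp
        · unfold cpW wedge
          rw [(cp_zero_of_notMem hy1).1]
          simp
      simp only [h0, mul_zero, Finset.sum_const_zero, abs_zero]
      have : 0 ≤ A.indicator (fun x => (1 + w x) ^ 2) y :=
        indicator_nonneg (fun x _ => by positivity) y
      positivity

/-- **Cut-off pairing.** `|Θ(ρ(f/k) dα)| ≤ C3 (∫_{tsupport α} ρ'(f/k) dm)^{1/2} + C3 k^{-1/2}`.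

Proof. `β = ρ(f/k) • α` is a `C^1` test form, so
`0 = Θ(dF β) = Θ(k^{-1} ρ'(f/k) df ∧ α) + Θ(ρ(f/k) dF α)` (`dF_smul`). Choose `ξ` smooth with compact
support in `Ω'`, `0 ≤ ξ ≤ 1`, `ξ = 1` on `tsupport α` (`exists_contDiff_tsupport_subset` or
`exists_smooth_one_nhds_of_subset_interior`) and take `C2` from `cut_energy`.
`m`-part: `|∫ k^{-1} ρ'(f/k) wedge df α (v, Jv) dm|
≤ k^{-1} (∫ ρ'(f/k) ξ^2 (df(v)^2+df(Jv)^2) dm)^{1/2} (∫_{tsupport α} ρ'(f/k) (α(v)^2+α(Jv)^2) dm)^{1/2}`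
by Cauchy-Schwarz, the first factor is `≤ (3 C2 k^2)^{1/2}` by `rhoD_le_hkD` and `cut_energy`, the
second is `≤ C (∫_{tsupport α} ρ'(f/k) dm)^{1/2}` (`α`, `J` bounded on the compact set, `|v| ≤ R`).
`τ`-part: `≤ k^{-1} (3/2) C ∫_{Ω' ∩ f > -2k} w |τ| dy ≤ C' k^{-1} (C k)^{1/2} ‖τ‖_2` (`b2`, `e2`). -/
theorem cut_pairing {J : E4 → (E4 →L[ℝ] E4)} (hJ : Continuous J) {Ω' : Set E4}
    (hΩ' : IsOpen Ω') (hJ2 : ∀ y ∈ Ω', ∀ v, J y (J y v) = -v)
    {m : Measure (E4 × E4)} [IsFiniteMeasure m] {R : ℝ} (hR : ∀ᵐ p ∂m, ‖p.2‖ ≤ R)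
    {τ : E4 → Fin 4 → Fin 4 → ℝ} (hτ : AntiInv J Ω' τ) (hcl : ClosedOn1 J Ω' m τ)
    {α : E4 → (E4 →L[ℝ] ℝ)} (hα : IsTest 1 Ω' α) (C : ℝ) :
    ∃ C3 : ℝ, 0 ≤ C3 ∧ ∀ (f : E4 → ℝ) (S : E4 → (E4 →L[ℝ] ℝ)) (w : E4 → ℝ),
      Pot J Ω' C f S w → ∀ k : ℝ, 1 ≤ k →
      |pairM J m (fun y u v => rho (f y / k) * dF α y u v)
          + pairT τ (fun y u v => rho (f y / k) * dF α y u v)|
        ≤ C3 * Real.sqrt (∫ p in {p : E4 × E4 | p.1 ∈ tsupport α}, rhoD (f p.1 / k) ∂m)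
          + C3 / Real.sqrt k := by
  have hα1 : ContDiff ℝ 1 α := cp_contDiff_one hα.smooth
  have hK : IsCompact (tsupport α) := hα.compact
  obtain ⟨ξ, hξ, hξc, hξs, hξ0, hξ1, hξK⟩ := cp_exists_cutoff hK hΩ' hα.supp
  obtain ⟨C2, hC20, hC2⟩ := cut_energy hJ hΩ' hJ2 hR hτ hcl hξ hξc hξs hξ0 hξ1 C
  obtain ⟨MA, hMA0, hMA⟩ := cp_bdd hα.compact hα1.continuous
  obtain ⟨MJ, hMJ0, hMJ⟩ := cp_bddOn hK hJ
  set N : ℝ := ∫ y, normT τ y ^ 2 with hN
  have hN0 : 0 ≤ N := integral_nonneg fun y => sq_nonneg _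
  set M2 : ℝ := MA ^ 2 * R ^ 2 * (1 + MJ ^ 2) with hM2
  have hM20 : 0 ≤ M2 := by positivity
  refine ⟨Real.sqrt (3 * C2) * Real.sqrt M2 + 3 * |C| * MA * (Real.sqrt |C| * Real.sqrt N),
    by positivity, ?_⟩
  intro f S w hP k hk
  have hk0 : 0 < k := by linarith
  rw [cp_decomp hJ hR hτ.memLp hcl hα hP.f_C1 hP.f_nonpos hk0, abs_neg]
  set I : ℝ := ∫ p in {p : E4 × E4 | p.1 ∈ tsupport α}, rhoD (f p.1 / k) ∂m with hI
  have hI0 : 0 ≤ I := by
    refine integral_nonneg fun p => ?_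
    exact (rhoD_mem (div_nonpos_of_nonpos_of_nonneg (hP.f_nonpos p.1) hk0.le)).1
  have h1 : |pairM J m (cpW α f k)| ≤ Real.sqrt (3 * C2) * Real.sqrt M2 * Real.sqrt I := by
    have h11 := cp_le_sqrt_mul (X := |pairM J m (cpW α f k)|)
      (A := k⁻¹ ^ 2 * (3 * (C2 * k ^ 2))) (B := M2 * I) (by positivity) (by positivity)
      fun s hs => cp_boundM hJ hR hMA0 hMA hMJ0 hMJ hξ.continuous hξc hξ0 hξ1 hξK hP.f_C1
        hP.f_nonpos hk0 (hC2 f S w hP k hk) hs
    have h12 : k⁻¹ ^ 2 * (3 * (C2 * k ^ 2)) = 3 * C2 := by field_simp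
    rw [h12, Real.sqrt_mul hM20] at h11
    linarith
  have h2 : |pairT τ (cpW α f k)| ≤ 3 * |C| * MA * (Real.sqrt |C| * Real.sqrt N) / Real.sqrt k := by
    rcases eq_or_lt_of_le (show 0 ≤ 3 * |C| * MA by positivity) with h0 | h0
    · have h21 := cp_boundT hΩ' hτ.memLp hα.supp hMA0 hMA hP hk one_pos
      rw [← h0, zero_mul] at h21
      rw [← h0]
      simpa using h21
    · have h21 := cp_le_sqrt_mul (X := |pairT τ (cpW α f k)| / (3 * |C| * MA))
        (A := k⁻¹ ^ 2 * (|C| * k)) (B := N) (by positivity) hN0 fun s hs => by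
          rw [div_le_iff₀ h0, mul_comm]
          exact cp_boundT hΩ' hτ.memLp hα.supp hMA0 hMA hP hk hs
      have h22 : k⁻¹ ^ 2 * (|C| * k) = |C| / k := by field_simp
      rw [h22, Real.sqrt_div (abs_nonneg C), div_le_iff₀ h0] at h21
      refine h21.trans (le_of_eq ?_)
      ring
  have h3 : 0 ≤ Real.sqrt (3 * C2) * Real.sqrt M2 / Real.sqrt k := by positivity
  have h4 : 0 ≤ 3 * |C| * MA * (Real.sqrt |C| * Real.sqrt N) * Real.sqrt I := by positivity
  calc |pairM J m (cpW α f k) + pairT τ (cpW α f k)|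
      ≤ |pairM J m (cpW α f k)| + |pairT τ (cpW α f k)| := abs_add_le _ _
    _ ≤ Real.sqrt (3 * C2) * Real.sqrt M2 * Real.sqrt I +
        3 * |C| * MA * (Real.sqrt |C| * Real.sqrt N) / Real.sqrt k := add_le_add h1 h2
    _ ≤ _ := by
        rw [add_mul, add_div]
        linarith

end TamedLocal
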