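import Mathlib
import Pool.Agent.W_MP_d8b8b7_gt_L.CutPairing

/-! # Limit of the cut-off pairings -/

noncomputable section

open MeasureTheory Set Filter Topology
open scoped ContDiff ENNReal

namespace TamedLocal

/-- two dominated convergence passages -/
theorem dct_two {X : Type*} [MeasurableSpace X] {μ : Measure X} {D : X → ℝ}
    (hD : Integrable D μ) {b : ℝ} (u : ℕ → ℕ → X → ℝ)
    (hm : ∀ n k, AEStronglyMeasurable (u n k) μ) (hb : ∀ n k x, |u n k x| ≤ b)
    (φ : ℕ → X → ℝ)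
    (hφ : ∀ k x, D x ≠ 0 → Tendsto (fun n => u n k x) atTop (𝓝 (φ k x)))
    (ψ : X → ℝ) (hψ : ∀ x, D x ≠ 0 → Tendsto (fun k => φ k x) atTop (𝓝 (ψ x))) :
    (∀ k, Tendsto (fun n => ∫ x, u n k x * D x ∂μ) atTop (𝓝 (∫ x, φ k x * D x ∂μ))) ∧
      Tendsto (fun k => ∫ x, φ k x * D x ∂μ) atTop (𝓝 (∫ x, ψ x * D x ∂μ)) := by
  have hint : Integrable (fun x => b * |D x|) μ := hD.abs.const_mul b
  have h1 : ∀ k x, Tendsto (fun n => u n k x * D x) atTop (𝓝 (φ k x * D x)) := by
    intro k x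
    by_cases hx : D x = 0
    · simp [hx]
    · exact (hφ k x hx).mul_const _
  have hub : ∀ n k x, ‖u n k x * D x‖ ≤ b * |D x| := by
    intro n k x
    rw [Real.norm_eq_abs, abs_mul]
    exact mul_le_mul_of_nonneg_right (hb n k x) (abs_nonneg _)
  have hm1 : ∀ n k, AEStronglyMeasurable (fun x => u n k x * D x) μ := fun n k =>
    (hm n k).mul hD.aestronglyMeasurable
  refine ⟨fun k => ?_, ?_⟩
  · exact tendsto_integral_of_dominated_convergence (fun x => b * |D x|) (fun n => hm1 n k) hint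
      (fun n => Eventually.of_forall (hub n k)) (Eventually.of_forall (h1 k))
  · refine tendsto_integral_of_dominated_convergence (fun x => b * |D x|) (fun k => ?_) hint
      (fun k => ?_) ?_
    · exact aestronglyMeasurable_of_tendsto_ae atTop (fun n => hm1 n k)
        (Eventually.of_forall (h1 k))
    · exact Eventually.of_forall fun x =>
        le_of_tendsto ((h1 k x).norm) (Eventually.of_forall fun n => hub n k x)
    · refine Eventually.of_forall fun x => ?_
      by_cases hx : D x = 0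
      · simp [hx]
      · exact (hψ x hx).mul_const _

theorem fderiv_zero_of_notMem {α : E4 → (E4 →L[ℝ] ℝ)} {x : E4} (hx : x ∉ tsupport α) :
    fderiv ℝ α x = 0 := by
  by_contra h
  exact hx (support_fderiv_subset ℝ (Function.mem_support.2 h))

theorem dF_zero_of_notMem {α : E4 → (E4 →L[ℝ] ℝ)} {x : E4} (hx : x ∉ tsupport α) (u v : E4) :
    dF α x u v = 0 := by
  unfold dF
  rw [fderiv_zero_of_notMem hx]
  simp

theorem continuous_dF_pair {α : E4 → (E4 →L[ℝ] ℝ)} (h : Continuous (fderiv ℝ α))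
    {J : E4 → (E4 →L[ℝ] E4)} (hJ : Continuous J) :
    Continuous (fun p : E4 × E4 => dF α p.1 p.2 (J p.1 p.2)) := by
  unfold dF
  have h1 : Continuous (fun p : E4 × E4 => fderiv ℝ α p.1) := h.comp continuous_fst
  have h2 : Continuous (fun p : E4 × E4 => J p.1 p.2) :=
    (hJ.comp continuous_fst).clm_apply continuous_snd
  exact ((h1.clm_apply continuous_snd).clm_apply h2).sub
    ((h1.clm_apply h2).clm_apply continuous_snd)

theorem cl_exists_bound_fderiv {E F : Type*} [NormedAddCommGroup E] [NormedSpace ℝ E]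
    [NormedAddCommGroup F] [NormedSpace ℝ F] {α : E → F} (h : ContDiff ℝ 1 α)
    (hs : HasCompactSupport α) : ∃ M : ℝ, ∀ x, ‖fderiv ℝ α x‖ ≤ M :=
  (h.continuous_fderiv (by norm_num)).bounded_above_of_compact_support (hs.fderiv ℝ)

theorem exists_bound_on {E F : Type*} [TopologicalSpace E] [NormedAddCommGroup F]
    {J : E → F} (h : Continuous J) {K : Set E} (hs : IsCompact K) :
    ∃ N : ℝ, ∀ x ∈ K, ‖J x‖ ≤ N :=
  hs.exists_bound_of_continuousOn h.continuousOn

theorem cl_abs_dF_le {α : E4 → (E4 →L[ℝ] ℝ)} {x : E4} {M : ℝ} (hM : ‖fderiv ℝ α x‖ ≤ M)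
    (u v : E4) : |dF α x u v| ≤ 2 * (M * ‖u‖ * ‖v‖) := by
  have key : ∀ u v : E4, ‖fderiv ℝ α x u v‖ ≤ M * ‖u‖ * ‖v‖ := by
    intro u v
    have h1 : ‖fderiv ℝ α x u‖ ≤ M * ‖u‖ :=
      ((fderiv ℝ α x).le_opNorm u).trans (mul_le_mul_of_nonneg_right hM (norm_nonneg u))
    exact ((fderiv ℝ α x u).le_opNorm v).trans (mul_le_mul_of_nonneg_right h1 (norm_nonneg v))
  have k1 := key u v
  have k2 := key v u
  have k3 : |dF α x u v| ≤ ‖fderiv ℝ α x u v‖ + ‖fderiv ℝ α x v u‖ := by
    unfold dF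
    rw [← Real.norm_eq_abs]
    exact norm_sub_le _ _
  have k4 : M * ‖v‖ * ‖u‖ = M * ‖u‖ * ‖v‖ := by ring
  rw [k4] at k2
  generalize M * ‖u‖ * ‖v‖ = A at *
  generalize ‖fderiv ℝ α x u v‖ = a at *
  generalize ‖fderiv ℝ α x v u‖ = b at *
  linarith

theorem integrable_dF_pair {J : E4 → (E4 →L[ℝ] E4)} (hJ : Continuous J) {Ω' : Set E4}
    {m : Measure (E4 × E4)} [IsFiniteMeasure m] {R : ℝ} (hR : ∀ᵐ p ∂m, ‖p.2‖ ≤ R)
    {α : E4 → (E4 →L[ℝ] ℝ)} (hα : IsTest 1 Ω' α) :
    Integrable (fun p : E4 × E4 => dF α p.1 p.2 (J p.1 p.2)) m := by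
  have hc : Continuous (fderiv ℝ α) := hα.smooth.continuous_fderiv (by norm_num)
  obtain ⟨M, hM⟩ := cl_exists_bound_fderiv hα.smooth hα.compact
  obtain ⟨N, hN⟩ := exists_bound_on hJ hα.compact.isCompact
  have hM0 : 0 ≤ M := (norm_nonneg _).trans (hM 0)
  refine Integrable.of_bound (continuous_dF_pair hc hJ).aestronglyMeasurable
    (2 * (M * R * (|N| * R))) ?_
  filter_upwards [hR] with p hp
  have hR0 : 0 ≤ R := (norm_nonneg _).trans hp
  by_cases hx : p.1 ∈ tsupport α
  · have h1 : ‖J p.1 p.2‖ ≤ |N| * R := by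
      refine ((J p.1).le_opNorm _).trans ?_
      exact mul_le_mul ((hN _ hx).trans (le_abs_self N)) hp (norm_nonneg _) (abs_nonneg _)
    have h2 : M * ‖p.2‖ * ‖J p.1 p.2‖ ≤ M * R * (|N| * R) :=
      mul_le_mul (mul_le_mul_of_nonneg_left hp hM0) h1 (norm_nonneg _)
        (mul_nonneg hM0 hR0)
    rw [Real.norm_eq_abs]
    exact (cl_abs_dF_le (hM p.1) _ _).trans (mul_le_mul_of_nonneg_left h2 (by norm_num))
  · rw [dF_zero_of_notMem hx, norm_zero]
    exact mul_nonneg (by norm_num)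
      (mul_nonneg (mul_nonneg hM0 hR0) (mul_nonneg (abs_nonneg _) hR0))

theorem integrable_pairT {J : E4 → (E4 →L[ℝ] E4)} {Ω' : Set E4}
    {τ : E4 → Fin 4 → Fin 4 → ℝ} (hτ : AntiInv J Ω' τ)
    {α : E4 → (E4 →L[ℝ] ℝ)} (hα : IsTest 1 Ω' α) :
    Integrable (fun y => ∑ i, ∑ j, τ y i j * dF α y (ee i) (ee j)) := by
  have hc : Continuous (fderiv ℝ α) := hα.smooth.continuous_fderiv (by norm_num)
  refine integrable_finsetSum _ fun i _ => integrable_finsetSum _ fun j _ => ?_
  have h1 : Continuous (fun y => dF α y (ee i) (ee j)) := by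
    unfold dF
    exact ((hc.clm_apply continuous_const).clm_apply continuous_const).sub
      ((hc.clm_apply continuous_const).clm_apply continuous_const)
  have h2 : HasCompactSupport (fun y => dF α y (ee i) (ee j)) := by
    refine HasCompactSupport.intro hα.compact fun x hx => dF_zero_of_notMem hx _ _
  have h3 : MemLp (fun y => dF α y (ee i) (ee j)) 2 (volume : Measure E4) :=
    h1.memLp_of_hasCompactSupport h2
  exact (hτ.memLp i j).integrable_mul h3

/-- **Limit.** Let `(f n, S n, w n)` satisfy `Pot` with the same constant, and let `G` be a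
measurable set such that on `Ω' ∩ G` the sequence `f n x` converges to a finite limit, on `Ω' \ G`
it tends to `-∞`, and `Ω' \ G` is Lebesgue negligible. Then `Θ(1_G dα) = 0`.

Proof. Fix `k ∈ ℕ`, `k ≥ 1`. As `n → ∞`: `rho (f n x / k) → ρ_k(x) := rho (l(x)/k)` on `Ω' ∩ G` and
`→ 0` on `Ω' \ G` (`rho_eq_zero`), and the same for `rhoD`; everything is bounded, `dF α` is bounded
with compact support in `Ω'`, `m` is finite and `τ` is integrable on compact sets: dominated
convergence in `cut_pairing` gives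
`|∫ 1_G ρ_k dF α (v,Jv) dm + ∫ 1_G ρ_k <τ, dF α>| ≤ C3 (∫_{tsupport α, G} rhoD (l/k) dm)^{1/2}
+ C3/sqrt k`. Now `k → ∞`: `l(x)/k → 0`, so `rho → 1`, `rhoD → 0` (continuity, `rho_zero`,
`rhoD_zero`), dominated convergence again. Finally `∫ 1_G <τ, dF α> = ∫ <τ, dF α>` as
`Ω' \ G` is negligible and `dF α = 0` outside `Ω'`. -/
theorem cut_limit {J : E4 → (E4 →L[ℝ] E4)} (hJ : Continuous J) {Ω' : Set E4}
    (hΩ' : IsOpen Ω') (hJ2 : ∀ y ∈ Ω', ∀ v, J y (J y v) = -v)
    {m : Measure (E4 × E4)} [IsFiniteMeasure m] {R : ℝ} (hR : ∀ᵐ p ∂m, ‖p.2‖ ≤ R)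
    {τ : E4 → Fin 4 → Fin 4 → ℝ} (hτ : AntiInv J Ω' τ) (hcl : ClosedOn1 J Ω' m τ)
    {C : ℝ} {f : ℕ → E4 → ℝ} {S : ℕ → E4 → (E4 →L[ℝ] ℝ)} {w : ℕ → E4 → ℝ}
    (hpot : ∀ n, Pot J Ω' C (f n) (S n) (w n))
    {G : Set E4} (hG : MeasurableSet G)
    (hfin : ∀ x ∈ Ω' ∩ G, ∃ l : ℝ, Tendsto (fun n => f n x) atTop (𝓝 l))
    (hinf : ∀ x ∈ Ω' \ G, Tendsto (fun n => f n x) atTop atBot)
    (hnull : volume (Ω' \ G) = 0)
    {α : E4 → (E4 →L[ℝ] ℝ)} (hα : IsTest 1 Ω' α) :
    pairM J m (fun y u v => G.indicator (fun _ => (1 : ℝ)) y * dF α y u v)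
      + pairT τ (dF α) = 0 := by
  classical
  obtain ⟨C3, hC3, hpair⟩ := cut_pairing hJ hΩ' hJ2 hR hτ hcl hα C
  choose! l hl using hfin
  -- the limit functions
  obtain ⟨φ, hφ⟩ : ∃ φ : ℕ → E4 → ℝ, φ = fun (k : ℕ) x =>
    if x ∈ Ω' ∩ G then rho (l x / ((k : ℝ) + 1)) else 0 := ⟨_, rfl⟩
  obtain ⟨φ', hφ'⟩ : ∃ φ' : ℕ → E4 → ℝ, φ' = fun (k : ℕ) x =>
    if x ∈ Ω' ∩ G then rhoD (l x / ((k : ℝ) + 1)) else 0 := ⟨_, rfl⟩
  have hk0 : ∀ k : ℕ, (0 : ℝ) < k + 1 := fun k => by positivity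
  have hneg : ∀ (n k : ℕ) x, f n x / (k + 1 : ℝ) ≤ 0 := fun n k x =>
    div_nonpos_of_nonpos_of_nonneg ((hpot n).f_nonpos x) (hk0 k).le
  have hlim : ∀ (k : ℕ) x, x ∈ Ω' →
      Tendsto (fun n => rho (f n x / (k + 1))) atTop (𝓝 (φ k x)) := by
    intro k x hx
    rw [hφ]
    by_cases hG' : x ∈ G
    · simp only [mem_inter_iff, hx, hG', and_self, if_true]
      exact (contDiff_rho.continuous.tendsto _).comp ((hl x ⟨hx, hG'⟩).div_const _)
    · simp only [mem_inter_iff, hx, hG', and_false, if_false]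
      refine tendsto_const_nhds.congr' ?_
      filter_upwards [(hinf x ⟨hx, hG'⟩).eventually_le_atBot (-((k : ℝ) + 1))] with n hn
      rw [rho_eq_zero]
      rw [div_le_iff₀ (hk0 k)]
      linarith
  have hlim' : ∀ (k : ℕ) x, x ∈ Ω' →
      Tendsto (fun n => rhoD (f n x / (k + 1))) atTop (𝓝 (φ' k x)) := by
    intro k x hx
    rw [hφ']
    by_cases hG' : x ∈ G
    · simp only [mem_inter_iff, hx, hG', and_self, if_true]
      exact (continuous_rhoD.tendsto _).comp ((hl x ⟨hx, hG'⟩).div_const _)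
    · simp only [mem_inter_iff, hx, hG', and_false, if_false]
      refine tendsto_const_nhds.congr' ?_
      filter_upwards [(hinf x ⟨hx, hG'⟩).eventually_le_atBot (-((k : ℝ) + 1))] with n hn
      rw [rhoD_eq_zero]
      rw [div_le_iff₀ (hk0 k)]
      linarith
  have hdiv : ∀ a : ℝ, Tendsto (fun k : ℕ => a / ((k : ℝ) + 1)) atTop (𝓝 0) := by
    intro a
    have h1 : Tendsto (fun k : ℕ => (k : ℝ) + 1) atTop atTop :=
      tendsto_atTop_add_const_right _ _ tendsto_natCast_atTop_atTop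
    exact h1.const_div_atTop a
  have hlim2 : ∀ x, x ∈ Ω' →
      Tendsto (fun k => φ k x) atTop (𝓝 (G.indicator (fun _ => (1 : ℝ)) x)) := by
    intro x hx
    rw [hφ]
    by_cases hG' : x ∈ G
    · simp only [mem_inter_iff, hx, hG', and_self, if_true, indicator_of_mem]
      have := (contDiff_rho.continuous.tendsto 0).comp (hdiv (l x))
      rwa [rho_zero] at this
    · simp only [mem_inter_iff, hx, hG', and_false, if_false, not_false_eq_true,
        indicator_of_notMem]
      exact tendsto_const_nhds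
  have hlim2' : ∀ x, x ∈ Ω' → Tendsto (fun k => φ' k x) atTop (𝓝 0) := by
    intro x hx
    rw [hφ']
    by_cases hG' : x ∈ G
    · simp only [mem_inter_iff, hx, hG', and_self, if_true]
      have := (continuous_rhoD.tendsto 0).comp (hdiv (l x))
      rwa [rhoD_zero] at this
    · simp only [mem_inter_iff, hx, hG', and_false, if_false]
      exact tendsto_const_nhds
  have hsub : ∀ {x u v}, dF α x u v ≠ 0 → x ∈ Ω' := by
    intro x u v h
    by_contra hx
    exact h (dF_zero_of_notMem (fun h' => hx (hα.supp h')) u v)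
  have hcont : ∀ n k : ℕ, Continuous (fun x => rho (f n x / (k + 1 : ℝ))) := fun n k =>
    contDiff_rho.continuous.comp ((hpot n).f_C1.continuous.div_const _)
  have hcont' : ∀ n k : ℕ, Continuous (fun x => rhoD (f n x / (k + 1 : ℝ))) := fun n k =>
    continuous_rhoD.comp ((hpot n).f_C1.continuous.div_const _)
  -- the measure part
  obtain ⟨a1, a2⟩ := dct_two (μ := m) (integrable_dF_pair hJ hR hα) (b := 1)
    (fun n k p => rho (f n p.1 / (k + 1)))
    (fun n k => ((hcont n k).comp continuous_fst).aestronglyMeasurable)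
    (fun n k p => by
      have := rho_mem (hneg n k p.1)
      rw [abs_of_nonneg this.1]; exact this.2)
    (fun k p => φ k p.1) (fun k p hp => hlim k p.1 (hsub hp))
    (fun p => G.indicator (fun _ => (1 : ℝ)) p.1) (fun p hp => hlim2 p.1 (hsub hp))
  -- the function part
  have hsubT : ∀ y, (∑ i, ∑ j, τ y i j * dF α y (ee i) (ee j)) ≠ 0 → y ∈ Ω' := by
    intro y hy
    by_contra hx
    apply hy
    refine Finset.sum_eq_zero fun i _ => Finset.sum_eq_zero fun j _ => ?_
    rw [dF_zero_of_notMem (fun h' => hx (hα.supp h')), mul_zero]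
  obtain ⟨b1, b2⟩ := dct_two (μ := (volume : Measure E4)) (integrable_pairT hτ hα) (b := 1)
    (fun n k y => rho (f n y / (k + 1)))
    (fun n k => (hcont n k).aestronglyMeasurable)
    (fun n k y => by
      have := rho_mem (hneg n k y)
      rw [abs_of_nonneg this.1]; exact this.2)
    φ (fun k y hy => hlim k y (hsubT y hy))
    (fun y => G.indicator (fun _ => (1 : ℝ)) y) (fun y hy => hlim2 y (hsubT y hy))
  -- the error part
  have hKm : MeasurableSet {p : E4 × E4 | p.1 ∈ tsupport α} :=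
    (isClosed_tsupport α).measurableSet.preimage measurable_fst
  obtain ⟨c1, c2⟩ := dct_two (μ := m) (D := fun p =>
      {p : E4 × E4 | p.1 ∈ tsupport α}.indicator (fun _ => (1 : ℝ)) p)
    ((integrable_const (1 : ℝ)).indicator hKm) (b := 3 / 2)
    (fun n k p => rhoD (f n p.1 / (k + 1)))
    (fun n k => ((hcont' n k).comp continuous_fst).aestronglyMeasurable)
    (fun n k p => by
      have := rhoD_mem (hneg n k p.1)
      rw [abs_of_nonneg this.1]; exact this.2)
    (fun k p => φ' k p.1) (fun k p hp => hlim' k p.1 (by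
      by_contra hx
      apply hp
      exact indicator_of_notMem
        (show p ∉ {p : E4 × E4 | p.1 ∈ tsupport α} from fun h' => hx (hα.supp h')) _))
    (fun _ => 0) (fun p hp => hlim2' p.1 (by
      by_contra hx
      apply hp
      exact indicator_of_notMem
        (show p ∉ {p : E4 × E4 | p.1 ∈ tsupport α} from fun h' => hx (hα.supp h')) _))
  have hset : ∀ g : E4 × E4 → ℝ, ∫ p in {p : E4 × E4 | p.1 ∈ tsupport α}, g p ∂m =
      ∫ p, g p * {p : E4 × E4 | p.1 ∈ tsupport α}.indicator (fun _ => (1 : ℝ)) p ∂m := by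
    intro g
    rw [← integral_indicator hKm]
    congr 1
    ext p
    by_cases hp : p ∈ {p : E4 × E4 | p.1 ∈ tsupport α}
    · rw [indicator_of_mem hp, indicator_of_mem hp, mul_one]
    · rw [indicator_of_notMem hp, indicator_of_notMem hp, mul_zero]
  -- inequality for every `k`
  have hk : ∀ k : ℕ, |(∫ p, φ k p.1 * dF α p.1 p.2 (J p.1 p.2) ∂m) +
      ∫ y, φ k y * ∑ i, ∑ j, τ y i j * dF α y (ee i) (ee j)| ≤
      C3 * Real.sqrt (∫ p, φ' k p.1 *
        {p : E4 × E4 | p.1 ∈ tsupport α}.indicator (fun _ => (1 : ℝ)) p ∂m)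
        + C3 / Real.sqrt ((k : ℝ) + 1) := by
    intro k
    refine le_of_tendsto_of_tendsto ((a1 k).add (b1 k)).abs
      ((((Real.continuous_sqrt.tendsto _).comp (c1 k)).const_mul C3).add_const
        (C3 / Real.sqrt ((k : ℝ) + 1))) (Eventually.of_forall fun n => ?_)
    have h1 := hpair (f n) (S n) (w n) (hpot n) ((k : ℝ) + 1) (by
      have : (0 : ℝ) ≤ k := by positivity
      linarith)
    rw [hset] at h1
    have h2 : pairT τ (fun y u v => rho (f n y / ((k : ℝ) + 1)) * dF α y u v) =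
        ∫ y, rho (f n y / ((k : ℝ) + 1)) * ∑ i, ∑ j, τ y i j * dF α y (ee i) (ee j) := by
      unfold pairT
      congr 1
      ext y
      rw [Finset.mul_sum]
      refine Finset.sum_congr rfl fun i _ => ?_
      rw [Finset.mul_sum]
      refine Finset.sum_congr rfl fun j _ => ?_
      ring
    rw [h2] at h1
    exact h1
  -- passage to the limit
  have hfinal : |(∫ p, G.indicator (fun _ => (1 : ℝ)) p.1 * dF α p.1 p.2 (J p.1 p.2) ∂m) +
      ∫ y, G.indicator (fun _ => (1 : ℝ)) y * ∑ i, ∑ j, τ y i j * dF α y (ee i) (ee j)| ≤ 0 := by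
    have hR1 : Tendsto (fun k : ℕ => C3 / Real.sqrt ((k : ℝ) + 1)) atTop (𝓝 0) := by
      have h1 : Tendsto (fun k : ℕ => (k : ℝ) + 1) atTop atTop :=
        tendsto_atTop_add_const_right _ _ tendsto_natCast_atTop_atTop
      exact (Real.tendsto_sqrt_atTop.comp h1).const_div_atTop C3
    have hR2 := (((Real.continuous_sqrt.tendsto _).comp c2).const_mul C3).add hR1
    have h3 := le_of_tendsto_of_tendsto (a2.add b2).abs hR2 (Eventually.of_forall fun k => hk k)
    simpa using h3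
  have h4 := abs_nonpos_iff.1 hfinal
  have h5 : pairT τ (dF α) =
      ∫ y, G.indicator (fun _ => (1 : ℝ)) y * ∑ i, ∑ j, τ y i j * dF α y (ee i) (ee j) := by
    unfold pairT
    refine integral_congr_ae ?_
    have hae : ∀ᵐ y ∂(volume : Measure E4), y ∉ Ω' \ G :=
      measure_eq_zero_iff_ae_notMem.1 hnull
    filter_upwards [hae] with y hy
    by_cases hG' : y ∈ G
    · rw [indicator_of_mem hG', one_mul]
    · have hyΩ : y ∉ Ω' := fun h => hy ⟨h, hG'⟩
      rw [indicator_of_notMem hG', zero_mul]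
      refine Finset.sum_eq_zero fun i _ => Finset.sum_eq_zero fun j _ => ?_
      rw [dF_zero_of_notMem (fun h' => hyΩ (hα.supp h')), mul_zero]
  rw [h5]
  exact h4

end TamedLocal
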