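import Mathlib
import Pool.Agent.W_MP_d8b8b7_gt_L.Defs

/-! # The Newton potential is finite almost everywhere -/

noncomputable section

open MeasureTheory Set Filter Topology
open scoped ContDiff ENNReal

namespace TamedLocal

/-- The kernel `|z|^{-2}` with value `⊤` at `0`. -/
def newtonKer (z : E4) : ℝ≥0∞ := (ENNReal.ofReal (‖z‖ ^ 2))⁻¹

theorem measurable_newtonKer : Measurable newtonKer :=
  ((measurable_norm.pow_const 2).ennreal_ofReal).inv

/-- `|z|^{-2}` is integrable near `0` in `R^4`. -/
theorem lintegral_newtonKer_ball : ∫⁻ z in Metric.ball (0 : E4) 1, newtonKer z < ⊤ := by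
  have h1 : IntegrableOn (fun z : E4 => ‖z‖ ^ (-(2 : ℝ))) (Metric.ball 0 1) := by
    refine integrableOn_ball_of_norm_le_rpow (C := 1) (α := 2) ?_ ?_ ?_ ?_
    · simp
    · simp only [finrank_euclideanSpace, Fintype.card_fin]
      norm_num
    · refine Eventually.of_forall fun x => ?_
      rw [Real.norm_of_nonneg (by positivity), one_mul]
    · exact (measurable_norm.pow_const _).aestronglyMeasurable
  have h2 := Integrable.lintegral_lt_top h1
  refine lt_of_le_of_lt (le_of_eq ?_) h2
  have h3 : ∀ᵐ z : E4, z ≠ 0 := by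
    have h4 : (volume : Measure E4) {z | ¬ z ≠ 0} = 0 := by
      simp
    exact h4
  refine lintegral_congr_ae ?_
  filter_upwards [ae_restrict_of_ae h3] with z hz
  have hz' : 0 < ‖z‖ := norm_pos_iff.mpr hz
  unfold newtonKer
  rw [← ENNReal.ofReal_inv_of_pos (by positivity), Real.rpow_neg hz'.le]
  norm_num

/-- Pointwise domination of the kernel. -/
theorem newtonKer_le (z : E4) :
    newtonKer z ≤ 1 + (Metric.ball (0 : E4) 1).indicator newtonKer z := by
  by_cases h : z ∈ Metric.ball (0 : E4) 1
  · rw [indicator_of_mem h]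
    exact le_add_self
  · rw [indicator_of_notMem h, add_zero]
    unfold newtonKer
    rw [mem_ball_zero_iff, not_lt] at h
    rw [ENNReal.inv_le_one]
    rw [ENNReal.one_le_ofReal]
    nlinarith

theorem newton_eq_ker (μ : Measure E4) (x : E4) : newton μ x = ∫⁻ y, newtonKer (x - y) ∂μ := rfl

theorem measurable_newton (μ : Measure E4) [IsFiniteMeasure μ] : Measurable (newton μ) := by
  have h1 : Measurable fun p : E4 × E4 => newtonKer (p.1 - p.2) :=
    measurable_newtonKer.comp (measurable_fst.sub measurable_snd)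
  exact h1.lintegral_prod_right'

/-- The Newton type potential `∫ |x-y|^{-2} dμ(y)` of a finite measure is finite almost everywhere:
on every ball `∫_{|x| ≤ M} |x-y|^{-2} dx ≤ C(M)` uniformly in `y` (local integrability of `|z|^{-2}`
in `R^4`, e.g. `|z|^{-2} ≤ 1 + |z|^{-2} 1_{|z|<1}` and polar coordinates), then Tonelli. -/
theorem newton_ae_lt_top (μ : Measure E4) [IsFiniteMeasure μ] :
    ∀ᵐ x, newton μ x < ⊤ := by
  have h0 : ∀ M : ℕ, ∀ᵐ x, x ∈ Metric.ball (0 : E4) M → newton μ x < ⊤ := by
    intro M
    rw [← ae_restrict_iff' measurableSet_ball]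
    refine ae_lt_top (measurable_newton μ) (ne_of_lt ?_)
    have h1 : Measurable fun p : E4 × E4 => newtonKer (p.1 - p.2) :=
      measurable_newtonKer.comp (measurable_fst.sub measurable_snd)
    have h2 : ∫⁻ x in Metric.ball (0 : E4) M, newton μ x =
        ∫⁻ y, (∫⁻ x in Metric.ball (0 : E4) M, newtonKer (x - y)) ∂μ :=
      lintegral_lintegral_swap (f := fun x y => newtonKer (x - y)) h1.aemeasurable
    rw [h2]
    obtain ⟨C, hC⟩ : ∃ C : ℝ≥0∞, C = volume (Metric.ball (0 : E4) M) +
      ∫⁻ z in Metric.ball (0 : E4) 1, newtonKer z := ⟨_, rfl⟩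
    have hCt : C < ⊤ := by
      rw [hC]
      exact ENNReal.add_lt_top.mpr ⟨measure_ball_lt_top, lintegral_newtonKer_ball⟩
    have h3 : ∀ y : E4, ∫⁻ x in Metric.ball (0 : E4) M, newtonKer (x - y) ≤ C := by
      intro y
      calc ∫⁻ x in Metric.ball (0 : E4) M, newtonKer (x - y)
          ≤ ∫⁻ x in Metric.ball (0 : E4) M,
            (1 + (Metric.ball (0 : E4) 1).indicator newtonKer (x - y)) :=
            lintegral_mono fun x => newtonKer_le (x - y)
        _ = volume (Metric.ball (0 : E4) M) + ∫⁻ x in Metric.ball (0 : E4) M,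
            (Metric.ball (0 : E4) 1).indicator newtonKer (x - y) := by
            rw [lintegral_add_left measurable_const]
            simp
        _ ≤ volume (Metric.ball (0 : E4) M) + ∫⁻ x : E4,
            (Metric.ball (0 : E4) 1).indicator newtonKer (x - y) := by
            gcongr
            exact Measure.restrict_le_self
        _ = C := by
            rw [hC]
            congr 1
            rw [lintegral_sub_right_eq_self (fun z =>
              (Metric.ball (0 : E4) 1).indicator newtonKer z) y]
            rw [lintegral_indicator measurableSet_ball]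
    refine lt_of_le_of_lt (lintegral_mono fun y => h3 y) ?_
    rw [lintegral_const]
    exact ENNReal.mul_lt_top hCt (measure_lt_top μ _)
  have h4 : ∀ᵐ x, ∀ M : ℕ, x ∈ Metric.ball (0 : E4) M → newton μ x < ⊤ := ae_all_iff.mpr h0
  filter_upwards [h4] with x hx
  obtain ⟨M, hM⟩ := exists_nat_gt ‖x‖
  exact hx M (mem_ball_zero_iff.mpr hM)

end TamedLocal
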