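import Mathlib
import Pool.Agent.W_MP_d8b8b7_gt_L.Defs

/-! # Differentiation under the integral sign, `C^1` version -/

noncomputable section

open MeasureTheory Set Filter Topology
open scoped ContDiff ENNReal

namespace TamedLocal

/-- constant bound on a neighbourhood of `x₀`, for almost every parameter -/
theorem ParamInt.bound {V : Type*} [NormedAddCommGroup V] {m : Measure (E4 × E4)}
    {H : E4 × (E4 × E4) → V} (hH : Continuous H) {K : Set (E4 × E4)} (hK : IsCompact K)
    (hsupp : ∀ᵐ p ∂m, p ∈ K ∨ ∀ x, H (x, p) = 0) (x₀ : E4) :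
    ∃ C : ℝ, ∀ᵐ p ∂m, ∀ x ∈ Metric.closedBall x₀ 1, ‖H (x, p)‖ ≤ C := by
  obtain ⟨C, hC⟩ := ((isCompact_closedBall x₀ 1).prod hK).exists_bound_of_continuousOn
    hH.continuousOn
  refine ⟨|C|, ?_⟩
  filter_upwards [hsupp] with p hp x hx
  rcases hp with hp | hp
  · exact (hC (x, p) ⟨hx, hp⟩).trans (le_abs_self C)
  · rw [hp x, norm_zero]
    exact abs_nonneg C

theorem ParamInt.integrable {V : Type*} [NormedAddCommGroup V] {m : Measure (E4 × E4)}
    [IsFiniteMeasure m]
    {H : E4 × (E4 × E4) → V} (hH : Continuous H) {K : Set (E4 × E4)} (hK : IsCompact K)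
    (hsupp : ∀ᵐ p ∂m, p ∈ K ∨ ∀ x, H (x, p) = 0) (x₀ : E4) :
    Integrable (fun p => H (x₀, p)) m := by
  obtain ⟨C, hC⟩ := ParamInt.bound hH hK hsupp x₀
  refine Integrable.of_bound (C := C) ?_ ?_
  · exact (hH.comp (by fun_prop)).aestronglyMeasurable
  · filter_upwards [hC] with p hp
    exact hp x₀ (Metric.mem_closedBall_self zero_le_one)

theorem ParamInt.cont {V : Type*} [NormedAddCommGroup V] [NormedSpace ℝ V]
    {m : Measure (E4 × E4)} [IsFiniteMeasure m]
    {H : E4 × (E4 × E4) → V} (hH : Continuous H) {K : Set (E4 × E4)} (hK : IsCompact K)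
    (hsupp : ∀ᵐ p ∂m, p ∈ K ∨ ∀ x, H (x, p) = 0) :
    Continuous (fun x => ∫ p, H (x, p) ∂m) := by
  rw [continuous_iff_continuousAt]
  intro x₀
  obtain ⟨C, hC⟩ := ParamInt.bound hH hK hsupp x₀
  refine continuousAt_of_dominated (bound := fun _ => C) ?_ ?_ (integrable_const C) ?_
  · exact Eventually.of_forall fun x => (hH.comp (by fun_prop)).aestronglyMeasurable
  · filter_upwards [Metric.closedBall_mem_nhds x₀ zero_lt_one] with x hx
    filter_upwards [hC] with p hp
    exact hp x hx
  · exact Eventually.of_forall fun p => (hH.comp (by fun_prop)).continuousAt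

/-- If `F : E4 × (E4 × E4) → ℝ` is jointly `C^1` and vanishes for `p` outside a compact set (for
almost every `p`), then `x ↦ ∫ F (x, p) ∂m` is `C^1` and one may differentiate under the integral.

Proof. Bounds are uniform for `x` in a ball and `p ∈ K` (compactness), so
`hasFDerivAt_integral_of_dominated_of_fderiv_le` applies on balls; continuity of the derivative
`x ↦ ∫ fderiv (F (·, p)) x ∂m` by dominated convergence (`continuous_of_dominated` or
`continuousAt_of_dominated`), again with a constant bound on a ball. `contDiff_one_iff_fderiv`.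
Note that `fderiv (fun x' => F (x', p)) x = (fderiv F (x,p)).comp (ContinuousLinearMap.inl ..)`. -/
theorem contDiff_one_integral {m : Measure (E4 × E4)} [IsFiniteMeasure m]
    {F : E4 × (E4 × E4) → ℝ} (hF : ContDiff ℝ 1 F) {K : Set (E4 × E4)} (hK : IsCompact K)
    (hsupp : ∀ᵐ p ∂m, p ∈ K ∨ ∀ x, F (x, p) = 0) :
    ContDiff ℝ 1 (fun x => ∫ p, F (x, p) ∂m) ∧
      ∀ x u, fderiv ℝ (fun x => ∫ p, F (x, p) ∂m) x u
        = ∫ p, fderiv ℝ (fun x' => F (x', p)) x u ∂m := by
  set H : E4 × (E4 × E4) → (E4 →L[ℝ] ℝ) := fun q =>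
    (fderiv ℝ F q).comp (ContinuousLinearMap.inl ℝ E4 (E4 × E4)) with hHdef
  have hFc : Continuous F := hF.continuous
  have hH : Continuous H := (hF.continuous_fderiv one_ne_zero).clm_comp continuous_const
  have hder : ∀ x p, HasFDerivAt (fun x' => F (x', p)) (H (x, p)) x := by
    intro x p
    have h1 : HasFDerivAt F (fderiv ℝ F (x, p)) (x, p) :=
      (hF.differentiable one_ne_zero (x, p)).hasFDerivAt
    exact h1.comp x (hasFDerivAt_prodMk_left x p)
  have hsuppH : ∀ᵐ p ∂m, p ∈ K ∨ ∀ x, H (x, p) = 0 := by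
    filter_upwards [hsupp] with p hp
    refine hp.imp id fun h x => ?_
    have h2 : (fun x' => F (x', p)) = fun _ => (0 : ℝ) := funext h
    have h3 := hder x p
    rw [h2] at h3
    exact h3.unique (hasFDerivAt_const (0 : ℝ) x)
  have hmain : ∀ x₀, HasFDerivAt (fun x => ∫ p, F (x, p) ∂m) (∫ p, H (x₀, p) ∂m) x₀ := by
    intro x₀
    obtain ⟨C, hC⟩ := ParamInt.bound hH hK hsuppH x₀
    refine hasFDerivAt_integral_of_dominated_of_fderiv_le (bound := fun _ => C)
      (F := fun x p => F (x, p)) (F' := fun x p => H (x, p))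
      (Metric.closedBall_mem_nhds x₀ zero_lt_one) ?_ ?_ ?_ ?_ (integrable_const C) ?_
    · exact Eventually.of_forall fun x => (hFc.comp (by fun_prop)).aestronglyMeasurable
    · exact ParamInt.integrable hFc hK hsupp x₀
    · exact (hH.comp (by fun_prop)).aestronglyMeasurable
    · exact hC
    · exact Eventually.of_forall fun p x _ => hder x p
  have hfd : (fderiv ℝ fun x => ∫ p, F (x, p) ∂m) = fun x => ∫ p, H (x, p) ∂m :=
    funext fun x => (hmain x).fderiv
  refine ⟨?_, ?_⟩
  · rw [contDiff_one_iff_fderiv]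
    refine ⟨fun x => (hmain x).differentiableAt, ?_⟩
    rw [hfd]
    exact ParamInt.cont hH hK hsuppH
  · intro x u
    rw [(hmain x).fderiv, ContinuousLinearMap.integral_apply
      (ParamInt.integrable hH hK hsuppH x)]
    refine integral_congr_ae (Eventually.of_forall fun p => ?_)
    show H (x, p) u = fderiv ℝ (fun x' => F (x', p)) x u
    rw [(hder x p).fderiv]

/-- Continuity of a parameter integral under the same assumptions (only continuity of `F`). -/
theorem continuous_integral_param {m : Measure (E4 × E4)} [IsFiniteMeasure m]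
    {F : E4 × (E4 × E4) → ℝ} (hF : Continuous F) {K : Set (E4 × E4)} (hK : IsCompact K)
    (hsupp : ∀ᵐ p ∂m, p ∈ K ∨ ∀ x, F (x, p) = 0) :
    Continuous (fun x => ∫ p, F (x, p) ∂m) :=
  ParamInt.cont hF hK hsupp

end TamedLocal
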