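import Mathlib
import Pool.Agent.W_MP_d8b8b7_gt_L.Defs

/-! # Multilinear algebra of `vol4` and `J0` -/

noncomputable section

open MeasureTheory Set Filter Topology
open scoped ContDiff ENNReal

namespace TamedLocal

theorem inner_four (a b : E4) : inner ℝ a b = a 0 * b 0 + a 1 * b 1 + a 2 * b 2 + a 3 * b 3 := by
  simp only [PiLp.inner_apply, Fin.sum_univ_four, RCLike.inner_apply, conj_trivial]
  ring

theorem norm_sq_four (a : E4) : ‖a‖ ^ 2 = a 0 ^ 2 + a 1 ^ 2 + a 2 ^ 2 + a 3 ^ 2 := by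
  rw [← real_inner_self_eq_norm_sq, inner_four]; ring

@[simp] theorem J0_apply0 (v : E4) : J0 v 0 = -(v 1) := by simp [J0]
@[simp] theorem J0_apply1 (v : E4) : J0 v 1 = v 0 := by simp [J0]
@[simp] theorem J0_apply2 (v : E4) : J0 v 2 = -(v 3) := by simp [J0]
@[simp] theorem J0_apply3 (v : E4) : J0 v 3 = v 2 := by simp [J0]

theorem J0_sq (v : E4) : J0 (J0 v) = -v := by
  ext i; fin_cases i <;> simp

theorem J0_inner (a b : E4) : inner ℝ (J0 a) (J0 b) = inner ℝ a b := by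
  simp only [inner_four, J0_apply0, J0_apply1, J0_apply2, J0_apply3]; ring

theorem J0_norm (v : E4) : ‖J0 v‖ = ‖v‖ := by
  have h : ‖J0 v‖ ^ 2 = ‖v‖ ^ 2 := by
    rw [← real_inner_self_eq_norm_sq, ← real_inner_self_eq_norm_sq, J0_inner]
  nlinarith [norm_nonneg (J0 v), norm_nonneg v, abs_eq_abs.mpr (Or.inl rfl : ‖v‖ = ‖v‖ ∨ _),
    sq_nonneg (‖J0 v‖ - ‖v‖), sq_nonneg (‖J0 v‖ + ‖v‖)]

/-- The flat identity behind `S = d^c f + lower order`. -/
theorem vol4_flat (Z U V : E4) :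
    vol4 Z U V (J0 V) = inner ℝ (J0 Z) U * ‖V‖ ^ 2
      - (inner ℝ Z V * inner ℝ U (J0 V) - inner ℝ Z (J0 V) * inner ℝ U V) := by
  simp only [inner_four, norm_sq_four, vol4, mnr, J0_apply0, J0_apply1, J0_apply2, J0_apply3]
  ring

theorem vol4_J0 (U W a : E4) : vol4 (J0 U) (J0 W) a (J0 a) = vol4 U W a (J0 a) := by
  simp only [vol4, mnr, J0_apply0, J0_apply1, J0_apply2, J0_apply3]
  ring

theorem vol4_contract (w a b c d : E4) :
    inner ℝ w a * vol4 w b c d - inner ℝ w b * vol4 w a c d + inner ℝ w c * vol4 w a b d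
      - inner ℝ w d * vol4 w a b c = ‖w‖ ^ 2 * vol4 a b c d := by
  simp only [inner_four, norm_sq_four, vol4, mnr]
  ring

/-- `vol4 c (J0 c) a (J0 a) = |c|^2 |a|^2 - <c,a>^2 - <J0 c, a>^2`. -/
theorem vol4_hermitian (c a : E4) :
    vol4 c (J0 c) a (J0 a) = ‖c‖ ^ 2 * ‖a‖ ^ 2 - inner ℝ c a ^ 2 - inner ℝ (J0 c) a ^ 2 := by
  simp only [inner_four, norm_sq_four, vol4, mnr, J0_apply0, J0_apply1, J0_apply2, J0_apply3]
  ring

end TamedLocal
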