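import Mathlib
import Pool.Agent.W_MP_d8b8b7_gt_L.Algebra

/-! # Estimates for `vol4` -/

noncomputable section

open MeasureTheory Set Filter Topology
open scoped ContDiff ENNReal

namespace TamedLocal

theorem abs_mnr_le (i j : Fin 4) (a b : E4) : |mnr i j a b| ≤ ‖a‖ * ‖b‖ := by
  rcases eq_or_ne i j with rfl | hij
  · have h0 : mnr i i a b = 0 := by simp [mnr]
    rw [h0, abs_zero]
    positivity
  · have hsq : ∀ x : E4, x i ^ 2 + x j ^ 2 ≤ ‖x‖ ^ 2 := by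
      intro x
      rw [norm_sq_four]
      fin_cases i <;> fin_cases j <;>
        first
          | exact absurd rfl hij
          | (simp only [Fin.zero_eta, Fin.mk_one, Fin.reduceFinMk, Fin.isValue]
             nlinarith [sq_nonneg (x 0), sq_nonneg (x 1), sq_nonneg (x 2), sq_nonneg (x 3)])
    have h1 : mnr i j a b ^ 2 ≤ (‖a‖ * ‖b‖) ^ 2 := by
      have h2 : mnr i j a b ^ 2 ≤ (a i ^ 2 + a j ^ 2) * (b i ^ 2 + b j ^ 2) := by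
        unfold mnr
        nlinarith [sq_nonneg (a i * b i + a j * b j)]
      rw [mul_pow]
      refine h2.trans ?_
      exact mul_le_mul (hsq a) (hsq b) (by positivity) (by positivity)
    exact abs_le_of_sq_le_sq h1 (by positivity)

/-- Real part of the complex determinant of `c, a`. -/
def dr (c a : E4) : ℝ := c 0 * a 2 - c 1 * a 3 - c 2 * a 0 + c 3 * a 1

/-- Imaginary part of the complex determinant of `c, a`. -/
def di (c a : E4) : ℝ := c 0 * a 3 + c 1 * a 2 - c 2 * a 1 - c 3 * a 0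

theorem dr_sq_add_di_sq (c a : E4) :
    dr c a ^ 2 + di c a ^ 2 = vol4 c (J0 c) a (J0 a) := by
  simp only [dr, di, vol4, mnr, J0_apply0, J0_apply1, J0_apply2, J0_apply3]
  ring

theorem dr_sq_add_di_sq_le (c a : E4) : dr c a ^ 2 + di c a ^ 2 ≤ (‖c‖ * ‖a‖) ^ 2 := by
  rw [dr_sq_add_di_sq, vol4_hermitian, mul_pow]
  nlinarith [sq_nonneg (inner ℝ c a : ℝ), sq_nonneg (inner ℝ (J0 c) a : ℝ)]

theorem vol4_pol (c e a : E4) :
    vol4 c e a (J0 a) = -(dr c a * dr (J0 e) a + di c a * di (J0 e) a) := by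
  simp only [dr, di, vol4, mnr, J0_apply0, J0_apply1, J0_apply2, J0_apply3]
  ring

theorem vol4_exch (a b c d : E4) : vol4 a b c d = vol4 c d a b := by
  simp only [vol4]
  ring

theorem dr_symm (c a : E4) : dr a c = -dr c a := by
  simp only [dr]
  ring

theorem di_symm (c a : E4) : di a c = -di c a := by
  simp only [di]
  ring

/-- Cauchy-Schwarz in the plane, with square roots removed. -/
theorem two_cs {x y u v s t : ℝ} (hs : 0 ≤ s) (ht : 0 ≤ t) (h1 : x ^ 2 + y ^ 2 = s ^ 2)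
    (h2 : u ^ 2 + v ^ 2 ≤ t ^ 2) : |x * u + y * v| ≤ s * t := by
  apply abs_le_of_sq_le_sq _ (by positivity)
  have h3 : (x * u + y * v) ^ 2 ≤ (x ^ 2 + y ^ 2) * (u ^ 2 + v ^ 2) := by
    nlinarith [sq_nonneg (x * v - y * u)]
  rw [h1] at h3
  have h4 : s ^ 2 * (u ^ 2 + v ^ 2) ≤ s ^ 2 * t ^ 2 := by gcongr
  nlinarith

/-- Crude Hadamard bound. Each minor `mnr i j a b` is at most `‖a‖ ‖b‖` (Cauchy-Schwarz in the
plane `i,j`), and there are six products of two minors. -/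
theorem abs_vol4_le (a b c d : E4) : |vol4 a b c d| ≤ 6 * (‖a‖ * ‖b‖ * ‖c‖ * ‖d‖) := by
  have key : ∀ i j k l : Fin 4, |mnr i j a b * mnr k l c d| ≤ ‖a‖ * ‖b‖ * ‖c‖ * ‖d‖ := by
    intro i j k l
    rw [abs_mul, mul_assoc (‖a‖ * ‖b‖)]
    exact mul_le_mul (abs_mnr_le i j a b) (abs_mnr_le k l c d) (abs_nonneg _) (by positivity)
  have h1 := abs_le.1 (key 0 1 2 3)
  have h2 := abs_le.1 (key 0 2 1 3)
  have h3 := abs_le.1 (key 0 3 1 2)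
  have h4 := abs_le.1 (key 1 2 0 3)
  have h5 := abs_le.1 (key 1 3 0 2)
  have h6 := abs_le.1 (key 2 3 0 1)
  rw [abs_le, vol4]
  constructor <;> linarith [h1.1, h1.2, h2.1, h2.2, h3.1, h3.2, h4.1, h4.2, h5.1, h5.2, h6.1,
    h6.2]

/-- Second order positivity of the volume form on almost complex pairs.
Proof. Put `H = vol4 c (J0 c) a (J0 a)`. By `vol4_hermitian` and Bessel's inequality for the
orthogonal vectors `c, J0 c` of equal norm, `H ≥ 0`.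
By multilinearity the left side expands as `H + T1 + T2 + T3` with
`T1 = vol4 c e a (J0 a)`, `T2 = vol4 c (J0 c) a r`, `T3 = vol4 c e a r`.
For fixed `a`, `h_a(c,c') = vol4 c (J0 c') a (J0 a) = <c,c'>|a|^2 - <c,a><c',a> - <J0 c,a><J0 c',a>`
is a positive semidefinite symmetric bilinear form, `T1 = h_a(c, - J0 e)` (because
`J0 (-(J0 e)) = e`), so `|T1| ≤ sqrt H * sqrt (h_a(J0 e, J0 e)) ≤ sqrt H * ‖e‖ * ‖a‖`. In the same
way `|T2| ≤ sqrt H * ‖c‖ * ‖r‖` (exchange the two pairs: `vol4 a b c d = vol4 c d a b`).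
Finally `|T3| ≤ 6 ‖c‖‖e‖‖a‖‖r‖` by `abs_vol4_le`. With `q = ‖e‖‖a‖ + ‖c‖‖r‖`:
`H - sqrt H * q ≥ - q^2/4` and `‖c‖‖e‖‖a‖‖r‖ ≤ q^2/4`, total `≥ - (7/4) q^2 ≥ -2 q^2`. -/
theorem vol4_pos (c e a r : E4) :
    -(2 * (‖e‖ * ‖a‖ + ‖c‖ * ‖r‖) ^ 2) ≤ vol4 c (J0 c + e) a (J0 a + r) := by
  have hexp : vol4 c (J0 c + e) a (J0 a + r) =
      vol4 c (J0 c) a (J0 a) + vol4 c e a (J0 a) + vol4 c (J0 c) a r + vol4 c e a r := by
    simp only [vol4, mnr, PiLp.add_apply]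
    ring
  obtain ⟨s, hs, hs2⟩ : ∃ s : ℝ, 0 ≤ s ∧ dr c a ^ 2 + di c a ^ 2 = s ^ 2 :=
    ⟨Real.sqrt (dr c a ^ 2 + di c a ^ 2), Real.sqrt_nonneg _, (Real.sq_sqrt (by positivity)).symm⟩
  have hH : vol4 c (J0 c) a (J0 a) = s ^ 2 := by rw [← dr_sq_add_di_sq, hs2]
  have h1 : |vol4 c e a (J0 a)| ≤ s * (‖e‖ * ‖a‖) := by
    rw [vol4_pol, abs_neg]
    refine two_cs hs (by positivity) hs2 ?_
    have := dr_sq_add_di_sq_le (J0 e) a
    rwa [J0_norm] at this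
  have h2 : |vol4 c (J0 c) a r| ≤ s * (‖c‖ * ‖r‖) := by
    rw [vol4_exch, vol4_pol, abs_neg]
    refine two_cs hs (by positivity) ?_ ?_
    · rw [dr_symm c a, di_symm c a]
      linarith
    · have := dr_sq_add_di_sq_le (J0 r) c
      rw [J0_norm] at this
      rwa [mul_comm ‖c‖ ‖r‖]
  have h3 := abs_vol4_le c e a r
  have e1 := (abs_le.1 h1).1
  have e2 := (abs_le.1 h2).1
  have e3 := (abs_le.1 h3).1
  rw [hexp, hH]
  have e4 : ‖c‖ * ‖e‖ * ‖a‖ * ‖r‖ = (‖e‖ * ‖a‖) * (‖c‖ * ‖r‖) := by ring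
  rw [e4] at e3
  set x := ‖e‖ * ‖a‖
  set y := ‖c‖ * ‖r‖
  nlinarith [sq_nonneg (x - y), sq_nonneg (s - (x + y) / 2), sq_nonneg (x + y)]

/-- Anti-invariant part of the volume form on almost complex pairs is of first order.
Proof: `vol4 (J0 U + e) (J0 W + f) a (J0 a + r) - vol4 U W a (J0 a + r)`; expand by multilinearity,
use `vol4_J0` for the leading term and `abs_vol4_le` for all the other ones:
`vol4 (J0 U) (J0 W) a r - vol4 U W a r`, `vol4 e (J0 W) a (J0 a + r)`, `vol4 (J0 U) f a (J0 a + r)`,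
`vol4 e f a (J0 a + r)`. -/
theorem vol4_anti (U W a e f r : E4) :
    |vol4 U W a (J0 a + r) - vol4 (J0 U + e) (J0 W + f) a (J0 a + r)|
      ≤ 6 * (2 * ‖U‖ * ‖W‖ * ‖a‖ * ‖r‖
        + (‖e‖ * ‖W‖ + ‖U‖ * ‖f‖ + ‖e‖ * ‖f‖) * ‖a‖ * (‖a‖ + ‖r‖)) := by
  have hexp : vol4 U W a (J0 a + r) - vol4 (J0 U + e) (J0 W + f) a (J0 a + r) =
      (vol4 U W a (J0 a) - vol4 (J0 U) (J0 W) a (J0 a)) +
      (vol4 U W a r - vol4 (J0 U) (J0 W) a r - vol4 e (J0 W) a (J0 a + r)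
        - vol4 (J0 U) f a (J0 a + r) - vol4 e f a (J0 a + r)) := by
    simp only [vol4, mnr, PiLp.add_apply]
    ring
  rw [hexp, vol4_J0, sub_self, zero_add]
  have hn : ‖J0 a + r‖ ≤ ‖a‖ + ‖r‖ := by
    have := norm_add_le (J0 a) r
    rwa [J0_norm] at this
  have h1 := abs_vol4_le U W a r
  have h2 := abs_vol4_le (J0 U) (J0 W) a r
  have h3 := abs_vol4_le e (J0 W) a (J0 a + r)
  have h4 := abs_vol4_le (J0 U) f a (J0 a + r)
  have h5 := abs_vol4_le e f a (J0 a + r)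
  rw [J0_norm, J0_norm] at h2
  rw [J0_norm] at h3 h4
  have h3' : ‖e‖ * ‖W‖ * ‖a‖ * ‖J0 a + r‖ ≤ ‖e‖ * ‖W‖ * ‖a‖ * (‖a‖ + ‖r‖) := by gcongr
  have h4' : ‖U‖ * ‖f‖ * ‖a‖ * ‖J0 a + r‖ ≤ ‖U‖ * ‖f‖ * ‖a‖ * (‖a‖ + ‖r‖) := by gcongr
  have h5' : ‖e‖ * ‖f‖ * ‖a‖ * ‖J0 a + r‖ ≤ ‖e‖ * ‖f‖ * ‖a‖ * (‖a‖ + ‖r‖) := by gcongr
  rw [abs_le] at h1 h2 h3 h4 h5 ⊢
  have e0 : 6 * (2 * ‖U‖ * ‖W‖ * ‖a‖ * ‖r‖
        + (‖e‖ * ‖W‖ + ‖U‖ * ‖f‖ + ‖e‖ * ‖f‖) * ‖a‖ * (‖a‖ + ‖r‖)) =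
      6 * (‖U‖ * ‖W‖ * ‖a‖ * ‖r‖) + 6 * (‖U‖ * ‖W‖ * ‖a‖ * ‖r‖) +
      6 * (‖e‖ * ‖W‖ * ‖a‖ * (‖a‖ + ‖r‖)) + 6 * (‖U‖ * ‖f‖ * ‖a‖ * (‖a‖ + ‖r‖)) +
      6 * (‖e‖ * ‖f‖ * ‖a‖ * (‖a‖ + ‖r‖)) := by ring
  rw [e0]
  constructor <;> linarith [h1.1, h1.2, h2.1, h2.2, h3.1, h3.2, h4.1, h4.2, h5.1, h5.2]

end TamedLocal
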