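import Mathlib
import Pool.Agent.W_MP_d8b8b7_gt_L.Algebra2

/-! # Pointwise estimates for the kernels -/

noncomputable section

open MeasureTheory Set Filter Topology
open scoped ContDiff ENNReal

namespace TamedLocal

variable {g gi J : E4 → (E4 →L[ℝ] E4)} {B : ℝ}

theorem Frame.B_nonneg (hF : Frame g gi J B) : 0 ≤ B := zero_le_one.trans hF.one_le

theorem Frame.B_le_cube (hF : Frame g gi J B) : B ≤ B ^ 3 := by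
  have h := hF.one_le
  have h2 : 1 ≤ B ^ 2 := one_le_pow₀ h
  nlinarith [hF.B_nonneg]

theorem Frame.norm_g_le (hF : Frame g gi J B) (y v : E4) : ‖g y v‖ ≤ B * ‖v‖ :=
  ((g y).le_opNorm v).trans (mul_le_mul_of_nonneg_right (hF.bound_g y) (norm_nonneg _))

theorem Frame.norm_gi_le (hF : Frame g gi J B) (y v : E4) : ‖gi y v‖ ≤ B * ‖v‖ :=
  ((gi y).le_opNorm v).trans (mul_le_mul_of_nonneg_right (hF.bound_gi y) (norm_nonneg _))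

theorem Frame.norm_dg_le (hF : Frame g gi J B) (y v z : E4) :
    ‖(fderiv ℝ g y v) z‖ ≤ B * ‖v‖ * ‖z‖ := by
  refine ((fderiv ℝ g y v).le_opNorm z).trans ?_
  refine mul_le_mul_of_nonneg_right ?_ (norm_nonneg _)
  exact ((fderiv ℝ g y).le_opNorm v).trans
    (mul_le_mul_of_nonneg_right (hF.bound_dg y) (norm_nonneg _))

theorem Frame.J_fun (hF : Frame g gi J B) : J = fun y => (gi y).comp (J0.comp (g y)) := by
  funext y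
  ext1 v
  exact hF.J_eq y v

/-- `g` is `B`-Lipschitz (mean value inequality, `Convex.norm_image_sub_le_of_norm_fderiv_le`). -/
theorem Frame.lip (hF : Frame g gi J B) (x y : E4) : ‖g x - g y‖ ≤ B * ‖x - y‖ := by
  have h := Convex.norm_image_sub_le_of_norm_fderiv_le (𝕜 := ℝ) (f := g) (C := B) (s := Set.univ)
    (x := y) (y := x) (fun z _ => (hF.smooth_g.differentiable (by simp)).differentiableAt)
    (fun z _ => hF.bound_dg z) convex_univ (Set.mem_univ _) (Set.mem_univ _)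
  exact h

theorem Frame.norm_J_le (hF : Frame g gi J B) (y v : E4) : ‖J y v‖ ≤ B ^ 2 * ‖v‖ := by
  have hB : 0 ≤ B := hF.B_nonneg
  rw [hF.J_eq]
  have h1 : ‖g y v‖ ≤ B * ‖v‖ := hF.norm_g_le y v
  have h2 : ‖gi y (J0 (g y v))‖ ≤ B * ‖J0 (g y v)‖ := hF.norm_gi_le y _
  rw [J0_norm] at h2
  calc ‖gi y (J0 (g y v))‖ ≤ B * ‖g y v‖ := h2
    _ ≤ B * (B * ‖v‖) := mul_le_mul_of_nonneg_left h1 hB
    _ = B ^ 2 * ‖v‖ := by ring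

theorem Frame.J_smooth (hF : Frame g gi J B) : ContDiff ℝ ∞ J := by
  rw [hF.J_fun]
  exact hF.smooth_gi.clm_comp (contDiff_const.clm_comp hF.smooth_g)

theorem Frame.J_continuous (hF : Frame g gi J B) : Continuous J := hF.J_smooth.continuous

theorem Frame.J_sq (hF : Frame g gi J B) (y v : E4) : J y (J y v) = -v := by
  rw [hF.J_eq y (J y v), hF.J_eq y v, hF.right_inv, J0_sq, map_neg, hF.left_inv]

/-- `g_y J_y = J0 g_y`. -/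
theorem Frame.g_J (hF : Frame g gi J B) (y v : E4) : g y (J y v) = J0 (g y v) := by
  rw [hF.J_eq, hF.right_inv]

theorem Frame.norm_W_le (hF : Frame g gi J B) (x y : E4) : ‖Wp g x y‖ ≤ B * ‖x - y‖ := hF.norm_g_le y _

theorem Frame.le_norm_W (hF : Frame g gi J B) (x y : E4) : ‖x - y‖ ≤ B * ‖Wp g x y‖ := by
  have h := hF.norm_gi_le y (g y (x - y))
  rw [hF.left_inv] at h
  exact h

/-- `g_y J_x u - J0 g_y u = (g_y - g_x) J_x u + J0 (g_x - g_y) u`. -/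
theorem Frame.defect (hF : Frame g gi J B) (x y u : E4) :
    ‖g y (J x u) - J0 (g y u)‖ ≤ 2 * B ^ 3 * ‖x - y‖ * ‖u‖ := by
  have hB : 0 ≤ B := hF.B_nonneg
  have hB1 := hF.one_le
  have h0 : g y (J x u) - J0 (g y u) = (g y - g x) (J x u) + J0 ((g x - g y) u) := by
    simp only [sub_apply, map_sub]
    rw [hF.g_J x u]
    abel
  rw [h0]
  have h1 : ‖(g y - g x) (J x u)‖ ≤ B * ‖x - y‖ * (B ^ 2 * ‖u‖) := by
    refine ((g y - g x).le_opNorm _).trans ?_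
    refine mul_le_mul ?_ (hF.norm_J_le x u) (norm_nonneg _) (mul_nonneg hB (norm_nonneg _))
    have h := hF.lip x y
    rwa [norm_sub_rev] at h
  have h2 : ‖J0 ((g x - g y) u)‖ ≤ B * ‖x - y‖ * ‖u‖ := by
    rw [J0_norm]
    refine ((g x - g y).le_opNorm _).trans ?_
    exact mul_le_mul_of_nonneg_right (hF.lip x y) (norm_nonneg _)
  refine (norm_add_le _ _).trans ?_
  refine (add_le_add h1 h2).trans ?_
  have h3 : 0 ≤ ‖x - y‖ * ‖u‖ := mul_nonneg (norm_nonneg _) (norm_nonneg _)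
  have h4 : B ≤ B ^ 3 := hF.B_le_cube
  have h5 := mul_le_mul_of_nonneg_right h4 h3
  nlinarith [h5]

/-- `aV (J v) - J0 (aV v) = g'_y[J v](x-y) - J0 (g'_y[v](x-y))`. -/
theorem Frame.defect_aV (hF : Frame g gi J B) (x y v : E4) :
    ‖aV g x y (J y v) - J0 (aV g x y v)‖ ≤ 2 * B ^ 3 * ‖x - y‖ * ‖v‖ := by
  have hB : 0 ≤ B := hF.B_nonneg
  have h0 : aV g x y (J y v) - J0 (aV g x y v) =
      (fderiv ℝ g y (J y v)) (x - y) - J0 ((fderiv ℝ g y v) (x - y)) := by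
    unfold aV
    rw [map_add, map_neg, hF.g_J y v]
    abel
  rw [h0]
  have h1 : ‖(fderiv ℝ g y (J y v)) (x - y)‖ ≤ B * (B ^ 2 * ‖v‖) * ‖x - y‖ := by
    refine (hF.norm_dg_le y (J y v) (x - y)).trans ?_
    refine mul_le_mul_of_nonneg_right ?_ (norm_nonneg _)
    exact mul_le_mul_of_nonneg_left (hF.norm_J_le y v) hB
  have h2 : ‖J0 ((fderiv ℝ g y v) (x - y))‖ ≤ B * ‖v‖ * ‖x - y‖ := by
    rw [J0_norm]
    exact hF.norm_dg_le y v (x - y)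
  refine (norm_sub_le _ _).trans ?_
  refine (add_le_add h1 h2).trans ?_
  have h3 : 0 ≤ ‖x - y‖ * ‖v‖ := mul_nonneg (norm_nonneg _) (norm_nonneg _)
  have h4 : B ≤ B ^ 3 := hF.B_le_cube
  have h5 := mul_le_mul_of_nonneg_right h4 h3
  nlinarith [h5]

theorem Frame.norm_aV_le (hF : Frame g gi J B) (x y v : E4) :
    ‖aV g x y v‖ ≤ B * (1 + ‖x - y‖) * ‖v‖ := by
  unfold aV
  refine (norm_add_le _ _).trans ?_
  rw [norm_neg]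
  have h1 := hF.norm_g_le y v
  have h2 := hF.norm_dg_le y v (x - y)
  calc ‖g y v‖ + ‖(fderiv ℝ g y v) (x - y)‖ ≤ B * ‖v‖ + B * ‖v‖ * ‖x - y‖ := add_le_add h1 h2
    _ = B * (1 + ‖x - y‖) * ‖v‖ := by ring

/-- Second order positivity of the kernel of `dS` (use `vol4_pos` with `c = g y u`,
`e = g y (J x u) - J0 (g y u)`, `a = aV g x y v`, `r = aV g x y (J y v) - J0 (aV g x y v)`). -/
theorem Frame.pos_est (hF : Frame g gi J B) (x y u v : E4) :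
    -(8 * B ^ 8 * (2 + ‖x - y‖) ^ 2 * ‖x - y‖ ^ 2 * ‖u‖ ^ 2 * ‖v‖ ^ 2)
      ≤ vol4 (g y u) (g y (J x u)) (aV g x y v) (aV g x y (J y v)) := by
  have hB : 0 ≤ B := hF.B_nonneg
  have hd : 0 ≤ ‖x - y‖ := norm_nonneg _
  have hu : 0 ≤ ‖u‖ := norm_nonneg _
  have hv : 0 ≤ ‖v‖ := norm_nonneg _
  have h := vol4_pos (g y u) (g y (J x u) - J0 (g y u)) (aV g x y v)
    (aV g x y (J y v) - J0 (aV g x y v))
  rw [add_sub_cancel, add_sub_cancel] at h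
  refine le_trans ?_ h
  have h1 := hF.defect x y u
  have h2 := hF.defect_aV x y v
  have h3 := hF.norm_aV_le x y v
  have h4 := hF.norm_g_le y u
  have h5 : ‖g y (J x u) - J0 (g y u)‖ * ‖aV g x y v‖ ≤
      (2 * B ^ 3 * ‖x - y‖ * ‖u‖) * (B * (1 + ‖x - y‖) * ‖v‖) :=
    mul_le_mul h1 h3 (norm_nonneg _) (by positivity)
  have h6 : ‖g y u‖ * ‖aV g x y (J y v) - J0 (aV g x y v)‖ ≤
      (B * ‖u‖) * (2 * B ^ 3 * ‖x - y‖ * ‖v‖) :=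
    mul_le_mul h4 h2 (norm_nonneg _) (by positivity)
  have h7 : ‖g y (J x u) - J0 (g y u)‖ * ‖aV g x y v‖ +
      ‖g y u‖ * ‖aV g x y (J y v) - J0 (aV g x y v)‖ ≤
      2 * B ^ 4 * (2 + ‖x - y‖) * ‖x - y‖ * ‖u‖ * ‖v‖ := by
    refine (add_le_add h5 h6).trans (le_of_eq ?_)
    ring
  have h8 := pow_le_pow_left₀ (by positivity) h7 2
  have h9 : (2 * B ^ 4 * (2 + ‖x - y‖) * ‖x - y‖ * ‖u‖ * ‖v‖) ^ 2 =
      4 * B ^ 8 * (2 + ‖x - y‖) ^ 2 * ‖x - y‖ ^ 2 * ‖u‖ ^ 2 * ‖v‖ ^ 2 := by ring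
  rw [h9] at h8
  linarith

/-- First order bound of the anti-invariant part of the kernel of `dS` (use `vol4_anti`, with
`U = g y u`, `W = g y w`, `e = g y (J x u) - J0 (g y u)`, `f = g y (J x w) - J0 (g y w)`). Any
explicit constant depending on `B` and `L` is fine. -/
theorem Frame.anti_est (hF : Frame g gi J B) (L : ℝ) :
    ∃ C : ℝ, 0 ≤ C ∧ ∀ x y u w v : E4, ‖x - y‖ ≤ L →
      |vol4 (g y u) (g y w) (aV g x y v) (aV g x y (J y v))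
        - vol4 (g y (J x u)) (g y (J x w)) (aV g x y v) (aV g x y (J y v))|
      ≤ C * ‖x - y‖ * ‖u‖ * ‖w‖ * ‖v‖ ^ 2 := by
  have hB : 0 ≤ B := hF.B_nonneg
  obtain ⟨M, hM⟩ : ∃ M : ℝ, M = |L| := ⟨_, rfl⟩
  have hM0 : 0 ≤ M := hM ▸ abs_nonneg L
  refine ⟨6 * (4 * B ^ 6 * (1 + M) + (4 * B ^ 4 + 4 * B ^ 6 * M) * (B * (1 + M)) *
    (B * (1 + M) + 2 * B ^ 3 * M)), by positivity, ?_⟩
  intro x y u w v hxy
  have hdM : ‖x - y‖ ≤ M := hxy.trans (hM ▸ le_abs_self L)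
  have hd : 0 ≤ ‖x - y‖ := norm_nonneg _
  have hu : 0 ≤ ‖u‖ := norm_nonneg _
  have hw : 0 ≤ ‖w‖ := norm_nonneg _
  have hv : 0 ≤ ‖v‖ := norm_nonneg _
  have h := vol4_anti (g y u) (g y w) (aV g x y v) (g y (J x u) - J0 (g y u))
    (g y (J x w) - J0 (g y w)) (aV g x y (J y v) - J0 (aV g x y v))
  rw [add_sub_cancel, add_sub_cancel, add_sub_cancel] at h
  refine h.trans ?_
  have he := hF.defect x y u
  have hf := hF.defect x y w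
  have hr := hF.defect_aV x y v
  have hU := hF.norm_g_le y u
  have hW := hF.norm_g_le y w
  have ha : ‖aV g x y v‖ ≤ B * (1 + M) * ‖v‖ := by
    refine (hF.norm_aV_le x y v).trans ?_
    gcongr
  have hr' : ‖aV g x y (J y v) - J0 (aV g x y v)‖ ≤ 2 * B ^ 3 * M * ‖v‖ := by
    refine hr.trans ?_
    gcongr
  have he' : ‖g y (J x u) - J0 (g y u)‖ ≤ 2 * B ^ 3 * M * ‖u‖ := by
    refine he.trans ?_
    gcongr
  calc 6 * (2 * ‖g y u‖ * ‖g y w‖ * ‖aV g x y v‖ * ‖aV g x y (J y v) - J0 (aV g x y v)‖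
        + (‖g y (J x u) - J0 (g y u)‖ * ‖g y w‖ + ‖g y u‖ * ‖g y (J x w) - J0 (g y w)‖
          + ‖g y (J x u) - J0 (g y u)‖ * ‖g y (J x w) - J0 (g y w)‖) * ‖aV g x y v‖ *
          (‖aV g x y v‖ + ‖aV g x y (J y v) - J0 (aV g x y v)‖))
      ≤ 6 * (2 * (B * ‖u‖) * (B * ‖w‖) * (B * (1 + M) * ‖v‖) * (2 * B ^ 3 * ‖x - y‖ * ‖v‖)
        + ((2 * B ^ 3 * ‖x - y‖ * ‖u‖) * (B * ‖w‖) + (B * ‖u‖) * (2 * B ^ 3 * ‖x - y‖ * ‖w‖)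
          + (2 * B ^ 3 * M * ‖u‖) * (2 * B ^ 3 * ‖x - y‖ * ‖w‖)) * (B * (1 + M) * ‖v‖) *
          (B * (1 + M) * ‖v‖ + 2 * B ^ 3 * M * ‖v‖)) := by
        gcongr
    _ = 6 * (4 * B ^ 6 * (1 + M) + (4 * B ^ 4 + 4 * B ^ 6 * M) * (B * (1 + M)) *
    (B * (1 + M) + 2 * B ^ 3 * M)) * ‖x - y‖ * ‖u‖ * ‖w‖ * ‖v‖ ^ 2 := by ring

/-! ### Scalar comparisons of kernels, with `q = ‖x-y‖^2 + δ^2` -/

theorem pe_q_pos {δ : ℝ} (hδ : 0 < δ) (x y : E4) : 0 < ‖x - y‖ ^ 2 + δ ^ 2 := by positivity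

theorem Frame.pe_p_pos (_hF : Frame g gi J B) {δ : ℝ} (hδ : 0 < δ) (x y : E4) :
    0 < ‖Wp g x y‖ ^ 2 + δ ^ 2 := by positivity

theorem Frame.pe_q_le (hF : Frame g gi J B) (δ : ℝ) (x y : E4) :
    ‖x - y‖ ^ 2 + δ ^ 2 ≤ B ^ 2 * (‖Wp g x y‖ ^ 2 + δ ^ 2) := by
  have hB1 := hF.one_le
  have h2 := pow_le_pow_left₀ (norm_nonneg _) (hF.le_norm_W x y) 2
  have h3 : δ ^ 2 ≤ B ^ 2 * δ ^ 2 := by
    have : 1 ≤ B ^ 2 := one_le_pow₀ hB1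
    nlinarith [sq_nonneg δ]
  rw [mul_pow] at h2
  linarith

theorem pe_scal1 {δ : ℝ} (hδ : 0 < δ) (x y : E4) :
    ((‖x - y‖ ^ 2 + δ ^ 2) ^ 2)⁻¹ * ‖x - y‖ ≤ ((Real.sqrt (‖x - y‖ ^ 2 + δ ^ 2)) ^ 3)⁻¹ := by
  have hq := pe_q_pos hδ x y
  obtain ⟨s, hs⟩ : ∃ s : ℝ, s = Real.sqrt (‖x - y‖ ^ 2 + δ ^ 2) := ⟨_, rfl⟩
  have hs0 : 0 < s := hs ▸ Real.sqrt_pos.2 hq
  have hs2 : ‖x - y‖ ^ 2 + δ ^ 2 = s ^ 2 := by
    rw [hs, Real.sq_sqrt hq.le]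
  have hds : ‖x - y‖ ≤ s := by
    rw [hs]
    exact Real.le_sqrt_of_sq_le (by nlinarith [sq_nonneg δ])
  rw [← hs, hs2, ← div_eq_inv_mul, div_le_iff₀ (by positivity)]
  have h : (s ^ 3)⁻¹ * (s ^ 2) ^ 2 = s := by
    field_simp
  rw [h]
  exact hds

theorem pe_scal2 {δ : ℝ} (hδ : 0 < δ) (x y : E4) :
    ((‖x - y‖ ^ 2 + δ ^ 2) ^ 2)⁻¹ * ‖x - y‖ ^ 2 ≤ (‖x - y‖ ^ 2 + δ ^ 2)⁻¹ := by
  have hq := pe_q_pos hδ x y
  rw [← div_eq_inv_mul, div_le_iff₀ (by positivity)]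
  have h : (‖x - y‖ ^ 2 + δ ^ 2)⁻¹ * (‖x - y‖ ^ 2 + δ ^ 2) ^ 2 = ‖x - y‖ ^ 2 + δ ^ 2 := by
    field_simp
  rw [h]
  nlinarith [sq_nonneg δ]

theorem Frame.K1_le (hF : Frame g gi J B) {δ : ℝ} (hδ : 0 < δ) (x y : E4) :
    K1 δ (‖Wp g x y‖ ^ 2) ≤ B ^ 2 * (‖x - y‖ ^ 2 + δ ^ 2)⁻¹ := by
  have hp := hF.pe_p_pos (g := g) hδ x y
  have hq := pe_q_pos hδ x y
  unfold K1
  rw [← div_eq_mul_inv, le_div_iff₀ hq, ← div_eq_inv_mul, div_le_iff₀ hp]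
  exact hF.pe_q_le δ x y

theorem Frame.le_K1 (hF : Frame g gi J B) {δ : ℝ} (hδ : 0 < δ) (x y : E4) :
    (‖x - y‖ ^ 2 + δ ^ 2)⁻¹ ≤ B ^ 2 * K1 δ (‖Wp g x y‖ ^ 2) := by
  have hp := hF.pe_p_pos (g := g) hδ x y
  have hq := pe_q_pos hδ x y
  unfold K1
  rw [← div_eq_mul_inv, le_div_iff₀ hp, ← div_eq_inv_mul, div_le_iff₀ hq]
  have hB : 0 ≤ B := hF.B_nonneg
  have hB1 := hF.one_le
  have h1 := hF.norm_W_le x y
  have h2 := pow_le_pow_left₀ (norm_nonneg _) h1 2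
  have h3 : δ ^ 2 ≤ B ^ 2 * δ ^ 2 := by
    have : 1 ≤ B ^ 2 := one_le_pow₀ hB1
    nlinarith [sq_nonneg δ]
  rw [mul_pow] at h2
  linarith

theorem Frame.K2_le (hF : Frame g gi J B) {δ : ℝ} (hδ : 0 < δ) (x y : E4) :
    K2 δ (‖Wp g x y‖ ^ 2) ≤ 2 * B ^ 4 * ((‖x - y‖ ^ 2 + δ ^ 2) ^ 2)⁻¹ := by
  have h := hF.K1_le hδ x y
  have hp := hF.pe_p_pos (g := g) hδ x y
  have hq := pe_q_pos hδ x y
  have h2 := pow_le_pow_left₀ (by unfold K1; positivity) h 2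
  unfold K1 at h2
  unfold K2
  rw [mul_pow, inv_pow, inv_pow] at h2
  calc 2 * ((‖Wp g x y‖ ^ 2 + δ ^ 2) ^ 2)⁻¹ ≤ 2 * ((B ^ 2) ^ 2 * ((‖x - y‖ ^ 2 + δ ^ 2) ^ 2)⁻¹) :=
        mul_le_mul_of_nonneg_left h2 (by norm_num)
    _ = 2 * B ^ 4 * ((‖x - y‖ ^ 2 + δ ^ 2) ^ 2)⁻¹ := by ring

/-- `K2 |x-y| ≤ 2 B^4 q^{-3/2}`. -/
theorem Frame.K2_mul_le (hF : Frame g gi J B) {δ : ℝ} (hδ : 0 < δ) (x y : E4) :
    K2 δ (‖Wp g x y‖ ^ 2) * ‖x - y‖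
      ≤ 2 * B ^ 4 * ((Real.sqrt (‖x - y‖ ^ 2 + δ ^ 2)) ^ 3)⁻¹ := by
  have hB : 0 ≤ B := hF.B_nonneg
  refine (mul_le_mul_of_nonneg_right (hF.K2_le hδ x y) (norm_nonneg _)).trans ?_
  rw [mul_assoc]
  refine mul_le_mul_of_nonneg_left ?_ (by positivity)
  exact pe_scal1 hδ x y

/-- `K2 |x-y|^2 ≤ 2 B^4 q^{-1}`. -/
theorem Frame.K2_mul_sq_le (hF : Frame g gi J B) {δ : ℝ} (hδ : 0 < δ) (x y : E4) :
    K2 δ (‖Wp g x y‖ ^ 2) * ‖x - y‖ ^ 2 ≤ 2 * B ^ 4 * (‖x - y‖ ^ 2 + δ ^ 2)⁻¹ := by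
  have hB : 0 ≤ B := hF.B_nonneg
  refine (mul_le_mul_of_nonneg_right (hF.K2_le hδ x y) (by positivity)).trans ?_
  rw [mul_assoc]
  refine mul_le_mul_of_nonneg_left ?_ (by positivity)
  exact pe_scal2 hδ x y

/-- `K3 ≤ 8 B^6 q^{-2}`. -/
theorem Frame.pe_K3_le (hF : Frame g gi J B) {δ : ℝ} (hδ : 0 < δ) (x y : E4) :
    K3 δ (‖Wp g x y‖ ^ 2) ≤ 8 * B ^ 6 * ((‖x - y‖ ^ 2 + δ ^ 2) ^ 2)⁻¹ := by
  have hB : 0 ≤ B := hF.B_nonneg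
  have h := hF.K1_le hδ x y
  have hp := hF.pe_p_pos (g := g) hδ x y
  have hq := pe_q_pos hδ x y
  have h2 := pow_le_pow_left₀ (by unfold K1; positivity) h 3
  unfold K1 at h2
  unfold K3
  rw [mul_pow, inv_pow, inv_pow] at h2
  have h3 : δ ^ 2 * ((‖x - y‖ ^ 2 + δ ^ 2) ^ 3)⁻¹ ≤ ((‖x - y‖ ^ 2 + δ ^ 2) ^ 2)⁻¹ := by
    rw [← div_eq_mul_inv, div_le_iff₀ (by positivity)]
    have h4 : ((‖x - y‖ ^ 2 + δ ^ 2) ^ 2)⁻¹ * (‖x - y‖ ^ 2 + δ ^ 2) ^ 3 =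
        ‖x - y‖ ^ 2 + δ ^ 2 := by
      field_simp
    rw [h4]
    nlinarith [sq_nonneg ‖x - y‖]
  calc 8 * δ ^ 2 * ((‖Wp g x y‖ ^ 2 + δ ^ 2) ^ 3)⁻¹
      ≤ 8 * δ ^ 2 * ((B ^ 2) ^ 3 * ((‖x - y‖ ^ 2 + δ ^ 2) ^ 3)⁻¹) :=
        mul_le_mul_of_nonneg_left h2 (by positivity)
    _ = 8 * B ^ 6 * (δ ^ 2 * ((‖x - y‖ ^ 2 + δ ^ 2) ^ 3)⁻¹) := by ring
    _ ≤ 8 * B ^ 6 * ((‖x - y‖ ^ 2 + δ ^ 2) ^ 2)⁻¹ :=
        mul_le_mul_of_nonneg_left h3 (by positivity)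

/-- `K3 |x-y| ≤ 8 B^6 q^{-3/2}` (as `δ^2 ≤ q`, `|x-y| ≤ sqrt q`). -/
theorem Frame.K3_mul_le (hF : Frame g gi J B) {δ : ℝ} (hδ : 0 < δ) (x y : E4) :
    K3 δ (‖Wp g x y‖ ^ 2) * ‖x - y‖
      ≤ 8 * B ^ 6 * ((Real.sqrt (‖x - y‖ ^ 2 + δ ^ 2)) ^ 3)⁻¹ := by
  have hB : 0 ≤ B := hF.B_nonneg
  refine (mul_le_mul_of_nonneg_right (hF.pe_K3_le hδ x y) (norm_nonneg _)).trans ?_
  rw [mul_assoc]
  refine mul_le_mul_of_nonneg_left ?_ (by positivity)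
  exact pe_scal1 hδ x y

/-- `K3 |x-y|^2 ≤ 8 B^6 q^{-1}`. -/
theorem Frame.K3_mul_sq_le (hF : Frame g gi J B) {δ : ℝ} (hδ : 0 < δ) (x y : E4) :
    K3 δ (‖Wp g x y‖ ^ 2) * ‖x - y‖ ^ 2 ≤ 8 * B ^ 6 * (‖x - y‖ ^ 2 + δ ^ 2)⁻¹ := by
  have hB : 0 ≤ B := hF.B_nonneg
  refine (mul_le_mul_of_nonneg_right (hF.pe_K3_le hδ x y) (by positivity)).trans ?_
  rw [mul_assoc]
  refine mul_le_mul_of_nonneg_left ?_ (by positivity)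
  exact pe_scal2 hδ x y

end TamedLocal
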