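import Mathlib
import Pool.Agent.W_MP_d8b8b7_gt_L.PointEst
import Pool.Agent.W_MP_d8b8b7_gt_L.ParamInt

/-! # The potential `f_δ` -/

noncomputable section

open MeasureTheory Set Filter Topology
open scoped ContDiff ENNReal

namespace TamedLocal

variable {g gi J : E4 → (E4 →L[ℝ] E4)} {B r0 L R : ℝ} {χ : E4 → ℝ} {Ω Ω' : Set E4}
  {m : Measure (E4 × E4)}

/-- A continuous function which almost everywhere vanishes outside a compact set is integrable. -/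
theorem integrable_of_compact {F : E4 × E4 → ℝ} [IsFiniteMeasure m] (hF : Continuous F)
    {K : Set (E4 × E4)} (hK : IsCompact K) (hsupp : ∀ᵐ p ∂m, p ∈ K ∨ F p = 0) :
    Integrable F m := by
  obtain ⟨C, hC⟩ := hK.exists_bound_of_continuousOn hF.continuousOn
  refine Integrable.of_bound hF.aestronglyMeasurable (max C 0) ?_
  filter_upwards [hsupp] with p hp
  rcases hp with hp | hp
  · exact (hC p hp).trans (le_max_left _ _)
  · rw [hp, norm_zero]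
    exact le_max_right _ _

theorem Setup.ae_supp (h : Setup g gi J B χ Ω Ω' r0 L R m) :
    ∀ᵐ p ∂m, p ∈ tsupport χ ×ˢ Metric.closedBall (0 : E4) R ∨ χ p.1 = 0 := by
  filter_upwards [h.vbdd] with p hp
  by_cases hx : p.1 ∈ tsupport χ
  · left
    exact ⟨hx, by simpa using hp⟩
  · right
    exact image_eq_zero_of_notMem_tsupport hx

theorem Setup.compactK (h : Setup g gi J B χ Ω Ω' r0 L R m) :
    IsCompact (tsupport χ ×ˢ Metric.closedBall (0 : E4) R) :=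
  h.χ_compact.isCompact.prod (isCompact_closedBall _ _)

theorem Setup.integrable_aux (h : Setup g gi J B χ Ω Ω' r0 L R m) {G : E4 × E4 → ℝ}
    (hG : Continuous G) : Integrable (fun p => χ p.1 * G p) m := by
  have hfin := h.fin
  refine integrable_of_compact ((h.χ_smooth.continuous.comp continuous_fst).mul hG) h.compactK ?_
  filter_upwards [h.ae_supp] with p hp
  rcases hp with hp | hp
  · exact Or.inl hp
  · right
    rw [hp, zero_mul]

theorem Frame.B_pos (hF : Frame g gi J B) : 0 < B := lt_of_lt_of_le one_pos hF.one_le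

theorem Frame.le_norm_g (hF : Frame g gi J B) (y v : E4) : ‖v‖ ≤ B * ‖g y v‖ := by
  have h1 := (gi y).le_of_opNorm_le (hF.bound_gi y) (g y v)
  rwa [hF.left_inv] at h1

theorem K1_pos {δ : ℝ} (hδ : 0 < δ) (w : E4) : 0 < K1 δ (‖w‖ ^ 2) := by
  unfold K1
  positivity

/-- joint continuity of `W` -/
theorem Frame.contW (hF : Frame g gi J B) (x : E4) :
    Continuous fun p : E4 × E4 => Wp g x p.1 := by
  have h1 : Continuous g := hF.smooth_g.continuous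
  exact (h1.comp continuous_fst).clm_apply (continuous_const.sub continuous_fst)

theorem Frame.contGv (hF : Frame g gi J B) :
    Continuous fun p : E4 × E4 => g p.1 p.2 := by
  have h1 : Continuous g := hF.smooth_g.continuous
  exact (h1.comp continuous_fst).clm_apply continuous_snd

theorem Frame.contK1 (hF : Frame g gi J B) {δ : ℝ} (hδ : 0 < δ) (x : E4) :
    Continuous fun p : E4 × E4 => K1 δ (‖Wp g x p.1‖ ^ 2) := by
  unfold K1
  refine Continuous.inv₀ (((hF.contW x).norm.pow 2).add continuous_const) fun p => ?_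
  positivity

/-- `f_δ` is `C^1` and its derivative is `u ↦ ∫ χ K2 <W, g_y u> |g_y v|^2 dm`.
Use `contDiff_one_integral` with `F (x, (y, v)) = - χ y * K1 δ (|W|^2) * |g y v|^2` and the compact set
`K = tsupport χ ×ˢ closedBall 0 R`; the integrand is smooth because `ρ + δ^2 > 0`. Derivative of
`x ↦ - K1 δ |g_y (x-y)|^2` is `K2 <W, g_y u>`. -/
theorem Setup.f_deriv (h : Setup g gi J B χ Ω Ω' r0 L R m) {δ : ℝ} (hδ : 0 < δ) :
    ContDiff ℝ 1 (fPot g χ m δ) ∧ ∀ x u, fderiv ℝ (fPot g χ m δ) x u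
      = ∫ p, χ p.1 * (K2 δ (‖Wp g x p.1‖ ^ 2) * inner ℝ (Wp g x p.1) (g p.1 u) * ‖g p.1 p.2‖ ^ 2)
          ∂m := by
  have hfin := h.fin
  have hsg : ContDiff ℝ 1 g := h.frame.smooth_g.of_le (by norm_cast)
  set F : E4 × (E4 × E4) → ℝ :=
    fun z => χ z.2.1 * K1 δ (‖Wp g z.1 z.2.1‖ ^ 2) * ‖g z.2.1 z.2.2‖ ^ 2 with hFdef
  have hF : ContDiff ℝ 1 F := by
    have c1 : ContDiff ℝ 1 fun z : E4 × (E4 × E4) => z.2.1 := contDiff_fst.comp contDiff_snd
    have c2 : ContDiff ℝ 1 fun z : E4 × (E4 × E4) => z.2.2 := contDiff_snd.comp contDiff_snd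
    have c0 : ContDiff ℝ 1 fun z : E4 × (E4 × E4) => z.1 := contDiff_fst
    have cχ : ContDiff ℝ 1 fun z : E4 × (E4 × E4) => χ z.2.1 :=
      (h.χ_smooth.of_le (by norm_cast)).comp c1
    have cW : ContDiff ℝ 1 fun z : E4 × (E4 × E4) => Wp g z.1 z.2.1 :=
      (hsg.comp c1).clm_apply (c0.sub c1)
    have cV : ContDiff ℝ 1 fun z : E4 × (E4 × E4) => g z.2.1 z.2.2 :=
      (hsg.comp c1).clm_apply c2
    have cK : ContDiff ℝ 1 fun z : E4 × (E4 × E4) => K1 δ (‖Wp g z.1 z.2.1‖ ^ 2) := by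
      unfold K1
      refine ContDiff.inv ((cW.norm_sq ℝ).add contDiff_const) fun z => ?_
      positivity
    exact (cχ.mul cK).mul (cV.norm_sq ℝ)
  have hsupp : ∀ᵐ p ∂m, p ∈ tsupport χ ×ˢ Metric.closedBall (0 : E4) R ∨ ∀ x, F (x, p) = 0 := by
    filter_upwards [h.ae_supp] with p hp
    rcases hp with hp | hp
    · exact Or.inl hp
    · right
      intro x
      simp only [hFdef, hp, zero_mul]
  obtain ⟨hC, hD⟩ := contDiff_one_integral hF h.compactK hsupp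
  have hf : fPot g χ m δ = fun x => -∫ p, F (x, p) ∂m := rfl
  refine ⟨by rw [hf]; exact hC.neg, fun x u => ?_⟩
  rw [hf]
  have e1 : fderiv ℝ (fun x => -∫ p, F (x, p) ∂m) x = -fderiv ℝ (fun x => ∫ p, F (x, p) ∂m) x :=
    fderiv_fun_neg
  rw [e1, neg_apply, hD, ← integral_neg]
  congr 1
  funext p
  have hW : HasFDerivAt (fun x' : E4 => Wp g x' p.1) (g p.1) x := by
    have := (g p.1).hasFDerivAt (x := x - p.1)
    exact this.comp x ((hasFDerivAt_id x).sub_const p.1)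
  have hN := hW.norm_sq
  have hne : ‖Wp g x p.1‖ ^ 2 + δ ^ 2 ≠ 0 := by positivity
  have hK : HasDerivAt (fun ρ : ℝ => K1 δ ρ) (-(((‖Wp g x p.1‖ ^ 2 + δ ^ 2) ^ 2)⁻¹))
      (‖Wp g x p.1‖ ^ 2) := by
    have h1 := ((hasDerivAt_id (‖Wp g x p.1‖ ^ 2)).add_const (δ ^ 2)).inv hne
    refine h1.congr_deriv ?_
    simp only [id_eq]
    rw [neg_div, one_div]
  have hc := hK.comp_hasFDerivAt x hN
  have hfin : HasFDerivAt (fun x' => F (x', p)) _ x :=
    (hc.const_mul (χ p.1)).mul_const (‖g p.1 p.2‖ ^ 2)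
  rw [hfin.fderiv]
  simp [K2]
  ring

/-- Sign, comparison with `uPot` (both with constant `B^4`: `K1` is comparable with
`(|x-y|^2+δ^2)^{-1}` up to `B^2` and `B^{-1}|v| ≤ |g_y v| ≤ B |v|`). -/
theorem Setup.f_compare (h : Setup g gi J B χ Ω Ω' r0 L R m) {δ : ℝ} (hδ : 0 < δ) (x : E4) :
    fPot g χ m δ x ≤ 0 ∧ uPot χ m δ x ≤ B ^ 4 * (-fPot g χ m δ x) ∧
      -fPot g χ m δ x ≤ B ^ 4 * uPot χ m δ x := by
  have hF := h.frame
  have hB := hF.B_pos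
  have hq : ∀ p : E4 × E4, 0 < (‖x - p.1‖ ^ 2 + δ ^ 2)⁻¹ := fun p => by positivity
  have hk : ∀ p : E4 × E4, 0 < K1 δ (‖Wp g x p.1‖ ^ 2) := fun p => K1_pos hδ _
  have hi1 : Integrable (fun p => χ p.1 * (K1 δ (‖Wp g x p.1‖ ^ 2) * ‖g p.1 p.2‖ ^ 2)) m :=
    h.integrable_aux ((hF.contK1 hδ x).mul (hF.contGv.norm.pow 2))
  have hcq : Continuous fun p : E4 × E4 => (‖x - p.1‖ ^ 2 + δ ^ 2)⁻¹ := by
    refine Continuous.inv₀ (((continuous_const.sub continuous_fst).norm.pow 2).add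
      continuous_const) fun p => ?_
    positivity
  have hi2 : Integrable (fun p => χ p.1 * (‖p.2‖ ^ 2 * (‖x - p.1‖ ^ 2 + δ ^ 2)⁻¹)) m :=
    h.integrable_aux ((continuous_snd.norm.pow 2).mul hcq)
  have e1 : -fPot g χ m δ x =
      ∫ p, χ p.1 * (K1 δ (‖Wp g x p.1‖ ^ 2) * ‖g p.1 p.2‖ ^ 2) ∂m := by
    unfold fPot
    rw [neg_neg]
    simp only [mul_assoc]
  have e2 : uPot χ m δ x = ∫ p, χ p.1 * (‖p.2‖ ^ 2 * (‖x - p.1‖ ^ 2 + δ ^ 2)⁻¹) ∂m := by
    unfold uPot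
    simp only [mul_assoc]
  refine ⟨?_, ?_, ?_⟩
  · have h0 : 0 ≤ -fPot g χ m δ x := by
      rw [e1]
      refine integral_nonneg fun p => ?_
      have := hk p
      have := h.χ_nonneg p.1
      positivity
    linarith
  · rw [e1, e2, ← integral_const_mul]
    refine integral_mono hi2 (hi1.const_mul _) fun p => ?_
    dsimp only
    have a1 := hF.le_K1 hδ x p.1
    have a2 : ‖p.2‖ ^ 2 ≤ B ^ 2 * ‖g p.1 p.2‖ ^ 2 := by
      rw [← mul_pow]
      exact pow_le_pow_left₀ (norm_nonneg _) (hF.le_norm_g p.1 p.2) 2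
    have a3 := mul_le_mul a2 a1 (hq p).le (by positivity)
    have a4 := mul_le_mul_of_nonneg_left a3 (h.χ_nonneg p.1)
    refine a4.trans (le_of_eq ?_)
    ring
  · rw [e1, e2, ← integral_const_mul]
    refine integral_mono hi1 (hi2.const_mul _) fun p => ?_
    dsimp only
    have a1 := hF.K1_le hδ x p.1
    have a2 : ‖g p.1 p.2‖ ^ 2 ≤ B ^ 2 * ‖p.2‖ ^ 2 := by
      rw [← mul_pow]
      exact pow_le_pow_left₀ (norm_nonneg _) (hF.norm_g_le p.1 p.2) 2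
    have a3 := mul_le_mul a1 a2 (by positivity) (by have := hq p; positivity)
    have a4 := mul_le_mul_of_nonneg_left a3 (h.χ_nonneg p.1)
    refine a4.trans (le_of_eq ?_)
    ring

/-- `|df_δ| ≤ 2 B^8 w_δ`: in the formula of `Setup.f_deriv`, `|<W, g_y u>| ≤ B |x-y| * B |u|`,
`|g_y v|^2 ≤ B^2 |v|^2` and `Frame.K2_mul_le`. -/
theorem Setup.f_grad (h : Setup g gi J B χ Ω Ω' r0 L R m) {δ : ℝ} (hδ : 0 < δ) (x : E4) :
    ‖fderiv ℝ (fPot g χ m δ) x‖ ≤ 2 * B ^ 8 * wPot χ m δ x := by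
  have hF := h.frame
  have hB := hF.B_pos
  have hcq : Continuous fun p : E4 × E4 => ((Real.sqrt (‖x - p.1‖ ^ 2 + δ ^ 2)) ^ 3)⁻¹ := by
    refine Continuous.inv₀ ((((continuous_const.sub continuous_fst).norm.pow 2).add
      continuous_const).sqrt.pow 3) fun p => ?_
    have : 0 < Real.sqrt (‖x - p.1‖ ^ 2 + δ ^ 2) := Real.sqrt_pos.2 (by positivity)
    positivity
  have hi : Integrable (fun p => χ p.1 * (‖p.2‖ ^ 2 *
      ((Real.sqrt (‖x - p.1‖ ^ 2 + δ ^ 2)) ^ 3)⁻¹)) m :=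
    h.integrable_aux ((continuous_snd.norm.pow 2).mul hcq)
  have e2 : wPot χ m δ x = ∫ p, χ p.1 * (‖p.2‖ ^ 2 *
      ((Real.sqrt (‖x - p.1‖ ^ 2 + δ ^ 2)) ^ 3)⁻¹) ∂m := by
    unfold wPot
    simp only [mul_assoc]
  have hw0 : 0 ≤ wPot χ m δ x := by
    rw [e2]
    refine integral_nonneg fun p => ?_
    have := h.χ_nonneg p.1
    positivity
  refine ContinuousLinearMap.opNorm_le_bound _ (by positivity) fun u => ?_
  rw [(h.f_deriv hδ).2 x u, e2, ← integral_const_mul, mul_comm _ ‖u‖, ← integral_const_mul]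
  refine norm_integral_le_of_norm_le ((hi.const_mul _).const_mul _)
    (Filter.Eventually.of_forall fun p => ?_)
  have hk2 : 0 ≤ K2 δ (‖Wp g x p.1‖ ^ 2) := by
    unfold K2
    positivity
  have hχ := h.χ_nonneg p.1
  have a1 : |inner ℝ (Wp g x p.1) (g p.1 u)| ≤ (B * ‖x - p.1‖) * (B * ‖u‖) :=
    (abs_real_inner_le_norm _ _).trans
      (mul_le_mul (hF.norm_W_le x p.1) (hF.norm_g_le p.1 u) (norm_nonneg _) (by positivity))
  have a2 : ‖g p.1 p.2‖ ^ 2 ≤ B ^ 2 * ‖p.2‖ ^ 2 := by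
    rw [← mul_pow]
    exact pow_le_pow_left₀ (norm_nonneg _) (hF.norm_g_le p.1 p.2) 2
  have a3 := hF.K2_mul_le hδ x p.1
  have e3 : ‖χ p.1 * (K2 δ (‖Wp g x p.1‖ ^ 2) * inner ℝ (Wp g x p.1) (g p.1 u)
      * ‖g p.1 p.2‖ ^ 2)‖ = χ p.1 * (K2 δ (‖Wp g x p.1‖ ^ 2) * |inner ℝ (Wp g x p.1) (g p.1 u)|
      * ‖g p.1 p.2‖ ^ 2) := by
    rw [Real.norm_eq_abs, abs_mul, abs_mul, abs_mul, abs_of_nonneg hχ, abs_of_nonneg hk2,
      abs_of_nonneg (by positivity : (0 : ℝ) ≤ ‖g p.1 p.2‖ ^ 2)]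
  rw [e3]
  calc χ p.1 * (K2 δ (‖Wp g x p.1‖ ^ 2) * |inner ℝ (Wp g x p.1) (g p.1 u)| * ‖g p.1 p.2‖ ^ 2)
      ≤ χ p.1 * (K2 δ (‖Wp g x p.1‖ ^ 2) * ((B * ‖x - p.1‖) * (B * ‖u‖)) *
        (B ^ 2 * ‖p.2‖ ^ 2)) := by
        gcongr
    _ = χ p.1 * ((K2 δ (‖Wp g x p.1‖ ^ 2) * ‖x - p.1‖) * (B ^ 4 * ‖u‖ * ‖p.2‖ ^ 2)) := by ring
    _ ≤ χ p.1 * ((2 * B ^ 4 * ((Real.sqrt (‖x - p.1‖ ^ 2 + δ ^ 2)) ^ 3)⁻¹) *
        (B ^ 4 * ‖u‖ * ‖p.2‖ ^ 2)) := by
        gcongr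
    _ = ‖u‖ * (2 * B ^ 8 * (χ p.1 * (‖p.2‖ ^ 2 *
        ((Real.sqrt (‖x - p.1‖ ^ 2 + δ ^ 2)) ^ 3)⁻¹))) := by ring

/-- `u_δ, w_δ` are nonnegative and continuous. -/
theorem Setup.uw_basic (h : Setup g gi J B χ Ω Ω' r0 L R m) {δ : ℝ} (hδ : 0 < δ) :
    Continuous (uPot χ m δ) ∧ Continuous (wPot χ m δ) ∧ (∀ x, 0 ≤ uPot χ m δ x) ∧
      ∀ x, 0 ≤ wPot χ m δ x := by
  have hfin := h.fin
  have hχc : Continuous fun z : E4 × (E4 × E4) => χ z.2.1 :=
    h.χ_smooth.continuous.comp (continuous_fst.comp continuous_snd)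
  have hvc : Continuous fun z : E4 × (E4 × E4) => ‖z.2.2‖ ^ 2 :=
    (continuous_snd.comp continuous_snd).norm.pow 2
  have hqc : Continuous fun z : E4 × (E4 × E4) => ‖z.1 - z.2.1‖ ^ 2 + δ ^ 2 :=
    ((continuous_fst.sub (continuous_fst.comp continuous_snd)).norm.pow 2).add continuous_const
  have hsupp : ∀ G : E4 × (E4 × E4) → ℝ,
      ∀ᵐ p ∂m, p ∈ tsupport χ ×ˢ Metric.closedBall (0 : E4) R ∨
        ∀ x, (fun z : E4 × (E4 × E4) => χ z.2.1 * ‖z.2.2‖ ^ 2 * G z) (x, p) = 0 := by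
    intro G
    filter_upwards [h.ae_supp] with p hp
    rcases hp with hp | hp
    · exact Or.inl hp
    · right
      intro x
      simp only [hp, zero_mul]
  refine ⟨?_, ?_, fun x => integral_nonneg fun p => ?_, fun x => integral_nonneg fun p => ?_⟩
  · refine continuous_integral_param
      (F := fun z => χ z.2.1 * ‖z.2.2‖ ^ 2 * (‖z.1 - z.2.1‖ ^ 2 + δ ^ 2)⁻¹) ?_ h.compactK
      (hsupp fun z => (‖z.1 - z.2.1‖ ^ 2 + δ ^ 2)⁻¹)
    refine (hχc.mul hvc).mul (hqc.inv₀ fun z => ?_)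
    positivity
  · refine continuous_integral_param
      (F := fun z => χ z.2.1 * ‖z.2.2‖ ^ 2 *
        ((Real.sqrt (‖z.1 - z.2.1‖ ^ 2 + δ ^ 2)) ^ 3)⁻¹) ?_ h.compactK
      (hsupp fun z => ((Real.sqrt (‖z.1 - z.2.1‖ ^ 2 + δ ^ 2)) ^ 3)⁻¹)
    refine (hχc.mul hvc).mul ((hqc.sqrt.pow 3).inv₀ fun z => ?_)
    exact pow_ne_zero 3 (Real.sqrt_pos.2 (by positivity)).ne'
  · have := h.χ_nonneg p.1
    dsimp only
    positivity
  · have := h.χ_nonneg p.1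
    dsimp only
    positivity

end TamedLocal
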