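import Mathlib
import Pool.Agent.W_MP_d8b8b7_gt_L.Defs

/-! # Closedness against `C^1` test forms -/

noncomputable section

open MeasureTheory Set Filter Topology
open scoped ContDiff ENNReal

namespace TamedLocal

section Moll

open ContinuousLinearMap

/-- bumps shrinking to the origin -/
def mbump (n : ℕ) : ContDiffBump (0 : E4) where
  rIn := 1 / (2 * ((n : ℝ) + 1))
  rOut := 1 / ((n : ℝ) + 1)
  rIn_pos := by positivity
  rIn_lt_rOut := by
    have h : (0 : ℝ) < (n : ℝ) + 1 := by positivity
    rw [div_lt_div_iff₀ (by positivity) h]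
    linarith

variable {F : Type*} [NormedAddCommGroup F] [NormedSpace ℝ F] [CompleteSpace F]

/-- mollification -/
def moll (n : ℕ) (f : E4 → F) : E4 → F :=
  convolution ((mbump n).normed volume) f (lsmul ℝ ℝ) volume

omit [CompleteSpace F] in
theorem contDiff_moll (n : ℕ) {f : E4 → F} (hf : Continuous f) {k : ℕ∞} :
    ContDiff ℝ k (moll n f) :=
  (mbump n).hasCompactSupport_normed.contDiff_convolution_left (lsmul ℝ ℝ)
    (mbump n).contDiff_normed hf.locallyIntegrable

omit [CompleteSpace F] in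
theorem support_moll (n : ℕ) (f : E4 → F) :
    Function.support (moll n f) ⊆ Metric.cthickening (1 / ((n : ℝ) + 1)) (tsupport f) := by
  intro x hx
  have h := support_convolution_subset (L := lsmul ℝ ℝ) (μ := volume) hx
  obtain ⟨t, ht, y, hy, rfl⟩ := h
  rw [(mbump n).support_normed_eq] at ht
  refine Metric.mem_cthickening_of_dist_le _ y _ _ (subset_tsupport f hy) ?_
  rw [dist_eq_norm]
  simp only [add_sub_cancel_right]
  rw [mem_ball_zero_iff] at ht
  exact ht.le

omit [CompleteSpace F] in
theorem tsupport_moll (n : ℕ) (f : E4 → F) :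
    tsupport (moll n f) ⊆ Metric.cthickening (1 / ((n : ℝ) + 1)) (tsupport f) :=
  closure_minimal (support_moll n f) Metric.isClosed_cthickening

omit [CompleteSpace F] in
theorem hasCompactSupport_moll (n : ℕ) {f : E4 → F} (hf : HasCompactSupport f) :
    HasCompactSupport (moll n f) :=
  HasCompactSupport.of_support_subset_isCompact (IsCompact.cthickening hf) (support_moll n f)

omit [CompleteSpace F] in
theorem fderiv_moll (n : ℕ) {f : E4 → F} (hf : ContDiff ℝ 1 f) (hc : HasCompactSupport f) :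
    fderiv ℝ (moll n f) = moll n (fderiv ℝ f) := by
  funext x
  have h := hc.hasFDerivAt_convolution_right (lsmul ℝ ℝ) (μ := volume)
    (f := (mbump n).normed volume)
    ((mbump n).continuous_normed.locallyIntegrable) hf x
  unfold moll
  rw [h.fderiv]
  simp only [convolution_def]
  refine integral_congr_ae (Eventually.of_forall fun t => ?_)
  ext v
  simp [precompR_apply]

theorem moll_close {f : E4 → F} (hf : UniformContinuous f) {ε : ℝ} (hε : 0 < ε) :
    ∃ N : ℕ, ∀ n ≥ N, ∀ x, dist (moll n f x) (f x) ≤ ε := by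
  obtain ⟨δ, hδ, h⟩ := Metric.uniformContinuous_iff.1 hf ε hε
  obtain ⟨N, hN⟩ := exists_nat_one_div_lt hδ
  refine ⟨N, fun n hn x => ?_⟩
  refine (mbump n).dist_normed_convolution_le hf.continuous.aestronglyMeasurable fun y hy => ?_
  refine (h ?_).le
  have h1 : (mbump n).rOut = 1 / ((n : ℝ) + 1) := rfl
  rw [Metric.mem_ball, h1] at hy
  refine hy.trans_le (le_trans ?_ hN.le)
  have h2 : (0 : ℝ) < (N : ℝ) + 1 := by positivity
  have h3 : (N : ℝ) ≤ n := by exact_mod_cast hn
  gcongr

theorem moll_bound {f : E4 → F} (hf : UniformContinuous f) {C : ℝ} (hC : ∀ x, ‖f x‖ ≤ C) :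
    ∃ N : ℕ, ∀ n ≥ N, ∀ x, ‖moll n f x‖ ≤ C + 1 := by
  obtain ⟨N, hN⟩ := moll_close hf one_pos
  refine ⟨N, fun n hn x => ?_⟩
  have h1 := hN n hn x
  rw [dist_eq_norm] at h1
  have h2 := norm_add_le (moll n f x - f x) (f x)
  rw [sub_add_cancel] at h2
  linarith [hC x]

theorem tendsto_moll {f : E4 → F} (hf : UniformContinuous f) (N : ℕ) (x : E4) :
    Tendsto (fun n => moll (n + N) f x) atTop (𝓝 (f x)) := by
  rw [Metric.tendsto_atTop]
  intro ε hε
  obtain ⟨M, hM⟩ := moll_close hf (half_pos hε)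
  refine ⟨M, fun n hn => ?_⟩
  exact (hM (n + N) (le_trans hn (Nat.le_add_right _ _)) x).trans_lt (half_lt_self hε)

end Moll

theorem abs_dF_le (α : E4 → (E4 →L[ℝ] ℝ)) (x u w : E4) :
    |dF α x u w| ≤ 2 * ‖fderiv ℝ α x‖ * ‖u‖ * ‖w‖ := by
  unfold dF
  have h1 : ∀ a b : E4, |fderiv ℝ α x a b| ≤ ‖fderiv ℝ α x‖ * ‖a‖ * ‖b‖ := by
    intro a b
    have := (fderiv ℝ α x).le_opNorm₂ a b
    simpa [Real.norm_eq_abs] using this
  have h2 := h1 u w
  have h3 := h1 w u
  have h4 := abs_sub (fderiv ℝ α x u w) (fderiv ℝ α x w u)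
  nlinarith

theorem exists_bound_fderiv {α : E4 → (E4 →L[ℝ] ℝ)} (hβc : Continuous (fderiv ℝ α))
    (hβs : HasCompactSupport α) : ∃ C : ℝ, 0 ≤ C ∧ ∀ x, ‖fderiv ℝ α x‖ ≤ C := by
  obtain ⟨C, hC⟩ := hβs.isCompact.exists_bound_of_continuousOn (f := fderiv ℝ α) hβc.continuousOn
  refine ⟨max C 0, le_max_right _ _, fun x => ?_⟩
  by_cases hx : x ∈ tsupport α
  · exact (hC x hx).trans (le_max_left _ _)
  · rw [fderiv_of_notMem_tsupport _ hx]
    exact (norm_zero (E := (E4 →L[ℝ] (E4 →L[ℝ] ℝ)))).le.trans (le_max_right _ _)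

/-- Closedness tested with smooth one-forms implies closedness tested with `C^1` one-forms.

Proof. Let `α` be `C^1` with compact support `K ⊆ Ω`. Take a smooth bump `φ_n` (`ContDiffBump`,
normed) of radius `≤ 1/(n+1)` and `α_n = φ_n ⋆ α` (vector valued convolution,
`MeasureTheory.convolution`, Mathlib: `HasCompactSupport.contDiff_convolution_left`,
`ContDiffBump.dist_normed_convolution_le`, `HasCompactSupport.hasFDerivAt_convolution_right`).
Then `α_n` is smooth, its support lies in the closed `1/(n+1)`-thickening of `K`, which is a compact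
subset of `Ω` for `n` large, and `α_n → α`, `fderiv α_n = φ_n ⋆ fderiv α → fderiv α` uniformly
(uniform continuity of the compactly supported `fderiv α`). So `dF α_n → dF α` uniformly, with
supports in a fixed compact set `K'`. For `pairM`: `|dF α_n y v (J y v) - dF α y v (J y v)| ≤
2 ‖fderiv α_n y - fderiv α y‖ ‖v‖ ‖J y v‖` is bounded by (const) on `K'` because `J` is continuous
and `‖v‖ ≤ R`, and `m` is finite. For `pairT`: `τ i j ∈ L^2` is integrable on the compact set `K'`.
Pass to the limit in `pairM J m (dF α_n) + pairT τ (dF α_n) = 0`. -/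
theorem closedOn1_of_closedOn {J : E4 → (E4 →L[ℝ] E4)} (hJ : Continuous J) {Ω : Set E4}
    (hΩ : IsOpen Ω) {m : Measure (E4 × E4)} [IsFiniteMeasure m] {R : ℝ}
    (hR : ∀ᵐ p ∂m, ‖p.2‖ ≤ R) {τ : E4 → Fin 4 → Fin 4 → ℝ}
    (hτ : ∀ i j, MemLp (fun y => τ y i j) 2 volume)
    (h : ClosedOn J Ω m τ) : ClosedOn1 J Ω m τ := by
  intro α hα
  have hα1 : ContDiff ℝ 1 α := hα.smooth
  have hβc : Continuous (fderiv ℝ α) := hα1.continuous_fderiv one_ne_zero
  have hβs : HasCompactSupport (fderiv ℝ α) := hα.compact.fderiv ℝ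
  have hβu : UniformContinuous (fderiv ℝ α) := hβs.uniformContinuous_of_continuous hβc
  obtain ⟨C, hC0, hC⟩ := exists_bound_fderiv hβc hα.compact
  obtain ⟨δ, hδ, hδΩ⟩ := hα.compact.isCompact.exists_cthickening_subset_open hΩ hα.supp
  obtain ⟨N1, hN1⟩ := moll_bound (F := E4 →L[ℝ] (E4 →L[ℝ] ℝ)) hβu hC
  obtain ⟨N2, hN2⟩ := exists_nat_one_div_lt hδ
  set N := max N1 N2 with hN
  set K' : Set E4 := Metric.cthickening 1 (tsupport α) with hK'
  have hK'c : IsCompact K' := hα.compact.isCompact.cthickening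
  obtain ⟨CJ, hCJ⟩ : ∃ CJ, ∀ y ∈ K', ‖J y‖ ≤ CJ := hK'c.exists_bound_of_continuousOn hJ.continuousOn
  set a : ℕ → E4 → (E4 →L[ℝ] ℝ) := fun n => moll (n + N) α with ha
  have hinv : ∀ n : ℕ, 1 / (((n + N : ℕ) : ℝ) + 1) ≤ 1 / ((N2 : ℝ) + 1) := by
    intro n
    have h1 : (N2 : ℝ) ≤ ((n + N : ℕ) : ℝ) := by
      have : N2 ≤ n + N := le_trans (le_max_right N1 N2) (Nat.le_add_left _ _)
      exact_mod_cast this
    have h2 : (0 : ℝ) < (N2 : ℝ) + 1 := by positivity
    gcongr
  have hda : ∀ n, fderiv ℝ (a n) = moll (n + N) (fderiv ℝ α) := fun n =>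
    fderiv_moll (n + N) hα1 hα.compact
  have hab : ∀ n x, ‖fderiv ℝ (a n) x‖ ≤ C + 1 := by
    intro n x
    have h1 := hN1 (n + N) (le_trans (le_max_left N1 N2) (Nat.le_add_left _ _)) x
    rw [← hda] at h1
    exact h1
  have hasupp : ∀ n x, x ∉ K' → fderiv ℝ (a n) x = 0 := by
    intro n x hx
    by_contra hne
    apply hx
    have h1 : x ∈ tsupport (a n) := support_fderiv_subset ℝ hne
    have h2 := tsupport_moll (n + N) α h1
    refine Metric.cthickening_mono ?_ _ h2
    have : (0 : ℝ) ≤ ((n + N : ℕ) : ℝ) := by positivity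
    rw [div_le_one (by positivity)]
    linarith
  have hlim : ∀ x, Tendsto (fun n => fderiv ℝ (a n) x) atTop (𝓝 (fderiv ℝ α x)) := by
    intro x
    have h1 := tendsto_moll (F := E4 →L[ℝ] (E4 →L[ℝ] ℝ)) hβu N x
    simp only [hda]
    exact h1
  have hcl : ∀ n, pairM J m (dF (a n)) + pairT τ (dF (a n)) = 0 := by
    intro n
    refine h (a n) ⟨contDiff_moll (n + N) hα1.continuous, hasCompactSupport_moll _ hα.compact, ?_⟩
    refine (tsupport_moll (n + N) α).trans ((Metric.cthickening_mono ?_ _).trans hδΩ)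
    exact (hinv n).trans hN2.le
  have hsm : ∀ n, ContDiff ℝ 1 (a n) := fun n => by
    have := contDiff_moll (n + N) hα1.continuous (k := 1)
    exact_mod_cast this
  have hdlim : ∀ x u w, Tendsto (fun n => dF (a n) x u w) atTop (𝓝 (dF α x u w)) := by
    intro x u w
    unfold dF
    have h1 : ∀ b c : E4, Tendsto (fun n => fderiv ℝ (a n) x b c) atTop
        (𝓝 (fderiv ℝ α x b c)) := by
      intro b c
      have h2 : Tendsto (fun n => fderiv ℝ (a n) x b) atTop (𝓝 (fderiv ℝ α x b)) :=
        ((ContinuousLinearMap.apply ℝ (E4 →L[ℝ] ℝ) b).continuous.tendsto _).comp (hlim x)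
      exact ((ContinuousLinearMap.apply ℝ ℝ c).continuous.tendsto _).comp h2
    exact (h1 u w).sub (h1 w u)
  have hM : Tendsto (fun n => pairM J m (dF (a n))) atTop (𝓝 (pairM J m (dF α))) := by
    unfold pairM
    refine tendsto_integral_of_dominated_convergence
      (fun _ => 2 * (C + 1) * |R| * (|CJ| * |R|)) ?_ (integrable_const _) ?_ ?_
    · intro n
      have h1 : Continuous (fderiv ℝ (a n)) := (hsm n).continuous_fderiv one_ne_zero
      have h2 : Continuous fun p : E4 × E4 => dF (a n) p.1 p.2 (J p.1 p.2) := by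
        unfold dF
        fun_prop
      exact h2.aestronglyMeasurable
    · intro n
      filter_upwards [hR] with p hp
      have hp' : ‖p.2‖ ≤ |R| := hp.trans (le_abs_self R)
      rw [Real.norm_eq_abs]
      by_cases hpK : p.1 ∈ K'
      · refine (abs_dF_le _ _ _ _).trans ?_
        have h1 : ‖J p.1 p.2‖ ≤ |CJ| * |R| := by
          refine ((J p.1).le_opNorm p.2).trans ?_
          have := (hCJ p.1 hpK).trans (le_abs_self CJ)
          gcongr
        have h2 := hab n p.1
        gcongr
      · have h1 : dF (a n) p.1 p.2 (J p.1 p.2) = 0 := by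
          unfold dF
          rw [hasupp n p.1 hpK]
          simp
        rw [h1, abs_zero]
        positivity
    · exact Eventually.of_forall fun p => hdlim _ _ _
  have hT : Tendsto (fun n => pairT τ (dF (a n))) atTop (𝓝 (pairT τ (dF α))) := by
    unfold pairT
    have hK'f : volume K' < (⊤ : ℝ≥0∞) := hK'c.measure_lt_top
    refine tendsto_integral_of_dominated_convergence
      (K'.indicator fun y => ∑ i, ∑ j, |τ y i j| * (2 * (C + 1) * ‖ee i‖ * ‖ee j‖)) ?_ ?_ ?_ ?_
    · intro n
      have h1 : Continuous (fderiv ℝ (a n)) := (hsm n).continuous_fderiv one_ne_zero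
      refine Finset.aestronglyMeasurable_fun_sum _ fun i _ =>
        Finset.aestronglyMeasurable_fun_sum _ fun j _ => ?_
      refine (hτ i j).1.mul ?_
      have h2 : Continuous fun y => dF (a n) y (ee i) (ee j) := by
        unfold dF
        fun_prop
      exact h2.aestronglyMeasurable
    · rw [integrable_indicator_iff hK'c.measurableSet]
      refine integrable_finsetSum _ fun i _ => integrable_finsetSum _ fun j _ => ?_
      have : Fact (volume K' < (⊤ : ℝ≥0∞)) := ⟨hK'f⟩
      have h1 : MemLp (fun y => τ y i j) 1 (volume.restrict K') :=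
        ((hτ i j).restrict K').mono_exponent (by norm_num)
      exact (memLp_one_iff_integrable.1 h1).abs.mul_const _
    · intro n
      refine Eventually.of_forall fun y => ?_
      by_cases hy : y ∈ K'
      · rw [indicator_of_mem hy, Real.norm_eq_abs]
        refine (Finset.abs_sum_le_sum_abs _ _).trans (Finset.sum_le_sum fun i _ => ?_)
        refine (Finset.abs_sum_le_sum_abs _ _).trans (Finset.sum_le_sum fun j _ => ?_)
        rw [abs_mul]
        refine mul_le_mul_of_nonneg_left ?_ (abs_nonneg _)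
        refine (abs_dF_le _ _ _ _).trans ?_
        have h2 := hab n y
        gcongr
      · rw [indicator_of_notMem hy]
        have h1 : ∀ i j, dF (a n) y (ee i) (ee j) = 0 := by
          intro i j
          unfold dF
          rw [hasupp n y hy]
          simp
        simp [h1]
    · refine Eventually.of_forall fun y => ?_
      refine tendsto_finsetSum _ fun i _ => tendsto_finsetSum _ fun j _ => ?_
      exact tendsto_const_nhds.mul (hdlim _ _ _)
  have hsum := hM.add hT
  simp only [hcl] at hsum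
  exact (tendsto_nhds_unique tendsto_const_nhds hsum).symm

end TamedLocal
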