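import Mathlib
import Pool.Agent.W_MP_d8b8b7_gt_L.PointEst

/-! # Pointwise comparison of the kernel of `S` with the kernel of `d^c f` -/

noncomputable section

open MeasureTheory Set Filter Topology
open scoped ContDiff ENNReal

namespace TamedLocal

variable {g gi J : E4 → (E4 →L[ℝ] E4)} {B : ℝ}

/-- Derivative of `g`. -/
theorem Frame.hasFDerivAt_g (hF : Frame g gi J B) (y : E4) :
    HasFDerivAt g (fderiv ℝ g y) y :=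
  (hF.smooth_g.differentiable (by simp)).differentiableAt.hasFDerivAt

/-- Derivative of `y ↦ W(x,y)`: it is `η ↦ aV g x y η`. -/
theorem Frame.hasFDerivAt_Wp (hF : Frame g gi J B) (x y : E4) :
    ∃ W' : E4 →L[ℝ] E4, HasFDerivAt (fun y' => Wp g x y') W' y ∧ ∀ η, W' η = aV g x y η := by
  have h1 := (hF.hasFDerivAt_g y).clm_apply ((hasFDerivAt_id y).const_sub x)
  refine ⟨_, h1, fun η => ?_⟩
  simp [aV]

/-- Derivative of `y ↦ K1 δ |W(x,y)|^2`. -/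
theorem Frame.hasFDerivAt_K1' (hF : Frame g gi J B) {δ : ℝ} (hδ : 0 < δ) (x y : E4) :
    ∃ D : E4 →L[ℝ] ℝ, HasFDerivAt (fun y' => K1 δ (‖Wp g x y'‖ ^ 2)) D y ∧
      ∀ η, D η = -(K2 δ (‖Wp g x y‖ ^ 2) * inner ℝ (Wp g x y) (aV g x y η)) := by
  obtain ⟨W', hW, hW'⟩ := hF.hasFDerivAt_Wp x y
  have h1 := hW.norm_sq
  have hpos : ‖Wp g x y‖ ^ 2 + δ ^ 2 ≠ 0 := by positivity
  have h2 := (hasDerivAt_inv hpos).comp_hasFDerivAt y (h1.add_const (δ ^ 2))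
  refine ⟨_, h2, fun η => ?_⟩
  simp only [K2, hW', smul_apply, ContinuousLinearMap.comp_apply, innerSL_apply_apply,
    smul_eq_mul, nsmul_eq_mul]
  push_cast
  ring

/-- Derivative of `y ↦ K1 δ |W(x,y)|^2` in the direction `η`: `- K2 <W, a_η>`. -/
theorem hasFDerivAt_K1 (hF : Frame g gi J B) {δ : ℝ} (hδ : 0 < δ) (x y η : E4) :
    fderiv ℝ (fun y' => K1 δ (‖Wp g x y'‖ ^ 2)) y η
      = -(K2 δ (‖Wp g x y‖ ^ 2) * inner ℝ (Wp g x y) (aV g x y η)) := by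
  obtain ⟨D, hD, hD'⟩ := hF.hasFDerivAt_K1' hδ x y
  rw [hD.fderiv, hD']

theorem K1_nonneg (δ : ℝ) {ρ : ℝ} (hρ : 0 ≤ ρ) : 0 ≤ K1 δ ρ := by
  unfold K1; positivity

theorem K2_nonneg (δ ρ : ℝ) : 0 ≤ K2 δ ρ := by
  unfold K2; positivity

/-- Derivative of `nTh` in the pole variable. -/
theorem Frame.fderiv_nTh (hF : Frame g gi J B) {δ : ℝ} (hδ : 0 < δ) (x u y v η : E4) :
    fderiv ℝ (nTh g δ x u) y v η
      = -(K2 δ (‖Wp g x y‖ ^ 2) * inner ℝ (Wp g x y) (aV g x y v)) * inner ℝ (g y u) (g y η)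
        + K1 δ (‖Wp g x y‖ ^ 2) * (inner ℝ (fderiv ℝ g y v u) (g y η)
          + inner ℝ (g y u) (fderiv ℝ g y v η)) := by
  obtain ⟨D, hD, hD'⟩ := hF.hasFDerivAt_K1' hδ x y
  have hg := hF.hasFDerivAt_g y
  have hgu : HasFDerivAt (fun y' => g y' u) ((ContinuousLinearMap.apply ℝ E4 u).comp
      (fderiv ℝ g y)) y := (ContinuousLinearMap.apply ℝ E4 u).hasFDerivAt.comp y hg
  have hin : HasFDerivAt (fun y' => innerSL ℝ (g y' u)) ((innerSL ℝ).comp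
      ((ContinuousLinearMap.apply ℝ E4 u).comp (fderiv ℝ g y))) y :=
    (innerSL ℝ (E := E4)).hasFDerivAt.comp y hgu
  have hcomp := hin.clm_comp hg
  have hall := hD.smul hcomp
  have heq : nTh g δ x u = (fun y' => K1 δ (‖Wp g x y'‖ ^ 2)) •
      fun y' => (innerSL ℝ (g y' u)).comp (g y') := by
    funext y'; rfl
  rw [heq, hall.fderiv]
  simp [hD']
  ring

/-- Multilinear expansion. -/
theorem vol4_expand (Z U V a a' : E4) :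
    vol4 Z U (-V + a) (-(J0 V) + a') = vol4 Z U V (J0 V) - vol4 Z U V a' - vol4 Z U a (J0 V)
      + vol4 Z U a a' := by
  simp only [vol4, mnr, PiLp.add_apply, PiLp.neg_apply]
  ring

theorem inner_J0_left (a b : E4) : inner ℝ (J0 a) b = - inner ℝ a (J0 b) := by
  simp only [inner_four, J0_apply0, J0_apply1, J0_apply2, J0_apply3]; ring

/-- The pointwise comparison. Write `Z = Wp g x y`, `V = g y v`, `U = g y u`, `z = x - y`,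
`k = K2 δ |Z|^2`.
* `SK = k vol4 Z U (aV v) (aV (J v))`, and `aV v = -V + O(|z||v|)`,
  `aV (J v) = - J0 V + O(|z||v|)` with constants `B`, so by `abs_vol4_le`
  `|SK - k vol4 Z U V (J0 V)| ≤ C k |Z| |z| |u| |v|^2 ≤ C k |z|^2 |u| |v|^2`.
* `vol4_flat`: `vol4 Z U V (J0 V) = <J0 Z, U>|V|^2 - (<Z,V><U,J0 V> - <Z,J0 V><U,V>)`.
* `<Z, g y (J x u)> = <Z, J0 U> + O(|z|^2|u|) = -<J0 Z, U> + O(..)` (`Frame.defect`).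
* `dF (nTh g δ x u) y v (J y v) = dN(v) θ(Jv) - dN(Jv) θ(v) + N dθ(v, Jv)` with
  `N y = K1 δ |W(x,y)|^2`, `θ_y η = <g_y u, g_y η>`, `dN(η) = -k <Z, a_η>
  = k <Z, g_y η> - k <Z, g'_y[η] z>`, `θ(Jv) = <U, J0 V>`, `θ(v) = <U, V>`, `g_y J v = J0 V`,
  `|N dθ(v,Jv)| ≤ C K1 |u||v|^2`.
So the sum is `O((k |z|^2 + K1) |u||v|^2)`; use `Frame.K2_mul_sq_le`, `Frame.K1_le`. -/
theorem Frame.S_est (hF : Frame g gi J B) (L : ℝ) :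
    ∃ C : ℝ, 0 ≤ C ∧ ∀ (δ : ℝ), 0 < δ → ∀ x y u v : E4, ‖x - y‖ ≤ L →
      |SK g δ x y u v (J y v)
          + K2 δ (‖Wp g x y‖ ^ 2) * inner ℝ (Wp g x y) (g y (J x u)) * ‖g y v‖ ^ 2
          + dF (nTh g δ x u) y v (J y v)|
        ≤ C * (‖x - y‖ ^ 2 + δ ^ 2)⁻¹ * ‖u‖ * ‖v‖ ^ 2 := by
  have hB1 : 1 ≤ B := hF.one_le
  have hB0 : 0 ≤ B := by linarith
  refine ⟨(6 * B ^ 6 + 6 * B ^ 4 + 6 * B ^ 6 * |L| + 2 * B ^ 6 + B ^ 4 + B ^ 6) * (2 * B ^ 4)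
    + (B ^ 2 + 3 * B ^ 4) * B ^ 2, by positivity, ?_⟩
  intro δ hδ x y u v hL
  -- notation
  set t := ‖x - y‖ with ht
  have ht0 : 0 ≤ t := norm_nonneg _
  have htL : t ≤ |L| := hL.trans (le_abs_self L)
  set Z := Wp g x y with hZ
  set U := g y u with hU
  set V := g y v with hV
  set k := K2 δ (‖Z‖ ^ 2) with hk
  set N := K1 δ (‖Z‖ ^ 2) with hN
  set a : E4 := fderiv ℝ g y v (x - y) with ha
  set a' : E4 := fderiv ℝ g y (J y v) (x - y) with ha'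
  set e : E4 := g y (J x u) - J0 U with he
  have hk0 : 0 ≤ k := K2_nonneg _ _
  have hN0 : 0 ≤ N := K1_nonneg _ (by positivity)
  have hgJ : g y (J y v) = J0 V := hF.g_J y v
  have hav : aV g x y v = -V + a := rfl
  have hav' : aV g x y (J y v) = -(J0 V) + a' := by
    rw [← hgJ]; rfl
  have hZn : ‖Z‖ ≤ B * t := hF.norm_W_le x y
  have hUn : ‖U‖ ≤ B * ‖u‖ := (g y).le_of_opNorm_le (hF.bound_g y) u
  have hVn : ‖V‖ ≤ B * ‖v‖ := (g y).le_of_opNorm_le (hF.bound_g y) v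
  have hJVn : ‖J0 V‖ ≤ B * ‖v‖ := by rw [J0_norm]; exact hVn
  have hJv : ‖J y v‖ ≤ B ^ 2 * ‖v‖ := hF.norm_J_le y v
  have hdg : ∀ w s : E4, ‖fderiv ℝ g y w s‖ ≤ B * ‖w‖ * ‖s‖ := by
    intro w s
    refine ((fderiv ℝ g y w).le_opNorm s).trans ?_
    exact mul_le_mul_of_nonneg_right ((fderiv ℝ g y).le_of_opNorm_le (hF.bound_dg y) w)
      (norm_nonneg s)
  have han : ‖a‖ ≤ B * ‖v‖ * t := hdg v (x - y)
  have han' : ‖a'‖ ≤ B ^ 3 * ‖v‖ * t := by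
    refine (hdg (J y v) (x - y)).trans ?_
    have : B * ‖J y v‖ * ‖x - y‖ ≤ B * (B ^ 2 * ‖v‖) * t := by gcongr
    refine this.trans (le_of_eq ?_)
    ring
  have hen : ‖e‖ ≤ 2 * B ^ 3 * t * ‖u‖ := hF.defect x y u
  have hgJx : g y (J x u) = J0 U + e := by rw [he]; abel
  -- the algebraic identity
  have hid : SK g δ x y u v (J y v)
          + k * inner ℝ Z (g y (J x u)) * ‖V‖ ^ 2
          + dF (nTh g δ x u) y v (J y v)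
      = k * (-vol4 Z U V a' - vol4 Z U a (J0 V) + vol4 Z U a a' + inner ℝ Z e * ‖V‖ ^ 2
          - inner ℝ Z a * inner ℝ U (J0 V) + inner ℝ Z a' * inner ℝ U V)
        + N * (inner ℝ (fderiv ℝ g y v u) (J0 V) + inner ℝ U (fderiv ℝ g y v (J y v))
          - inner ℝ (fderiv ℝ g y (J y v) u) V - inner ℝ U (fderiv ℝ g y (J y v) v)) := by
    have h1 : SK g δ x y u v (J y v) = k * vol4 Z U (-V + a) (-(J0 V) + a') := by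
      unfold SK
      rw [hav, hav']
    unfold dF
    rw [h1, hF.fderiv_nTh hδ, hF.fderiv_nTh hδ, vol4_expand, vol4_flat, hgJx, hgJ, hav, hav']
    simp only [← hZ, ← hk, ← hN, ← hU, ← hV, inner_add_right, inner_neg_right, inner_J0_left]
    ring
  rw [hid]
  have hvol : ∀ (p1 p2 p3 p4 : E4) (q1 q2 q3 q4 : ℝ), ‖p1‖ ≤ q1 → ‖p2‖ ≤ q2 → ‖p3‖ ≤ q3 →
      ‖p4‖ ≤ q4 → |vol4 p1 p2 p3 p4| ≤ 6 * (q1 * q2 * q3 * q4) := by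
    intro p1 p2 p3 p4 q1 q2 q3 q4 h1 h2 h3 h4
    have e1 := (norm_nonneg p1).trans h1
    have e2 := (norm_nonneg p2).trans h2
    have e3 := (norm_nonneg p3).trans h3
    have e4 := (norm_nonneg p4).trans h4
    refine (abs_vol4_le p1 p2 p3 p4).trans ?_
    gcongr
  have hinn : ∀ (p1 p2 : E4) (q1 q2 : ℝ), ‖p1‖ ≤ q1 → ‖p2‖ ≤ q2 →
      |inner ℝ p1 p2| ≤ q1 * q2 := by
    intro p1 p2 q1 q2 h1 h2
    have e1 := (norm_nonneg p1).trans h1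
    refine (abs_real_inner_le_norm p1 p2).trans ?_
    gcongr
  have c1 : |vol4 Z U V a'| ≤ 6 * B ^ 6 * (t ^ 2 * ‖u‖ * ‖v‖ ^ 2) := by
    refine (hvol Z U V a' _ _ _ _ hZn hUn hVn han').trans (le_of_eq ?_)
    ring
  have c2 : |vol4 Z U a (J0 V)| ≤ 6 * B ^ 4 * (t ^ 2 * ‖u‖ * ‖v‖ ^ 2) := by
    refine (hvol Z U a (J0 V) _ _ _ _ hZn hUn han hJVn).trans (le_of_eq ?_)
    ring
  have c3 : |vol4 Z U a a'| ≤ 6 * B ^ 6 * |L| * (t ^ 2 * ‖u‖ * ‖v‖ ^ 2) := by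
    refine (hvol Z U a a' _ _ _ _ hZn hUn han han').trans ?_
    have : 6 * (B * t * (B * ‖u‖) * (B * ‖v‖ * t) * (B ^ 3 * ‖v‖ * t))
        = 6 * B ^ 6 * t * (t ^ 2 * ‖u‖ * ‖v‖ ^ 2) := by ring
    rw [this]
    gcongr
  have c4 : |inner ℝ Z e * ‖V‖ ^ 2| ≤ 2 * B ^ 6 * (t ^ 2 * ‖u‖ * ‖v‖ ^ 2) := by
    rw [abs_mul, abs_of_nonneg (by positivity : (0:ℝ) ≤ ‖V‖ ^ 2)]
    have h1 := hinn Z e _ _ hZn hen
    have h2 : ‖V‖ ^ 2 ≤ (B * ‖v‖) ^ 2 := by gcongr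
    calc |inner ℝ Z e| * ‖V‖ ^ 2 ≤ (B * t * (2 * B ^ 3 * t * ‖u‖)) * (B * ‖v‖) ^ 2 := by
          gcongr
      _ = 2 * B ^ 6 * (t ^ 2 * ‖u‖ * ‖v‖ ^ 2) := by ring
  have c5 : |inner ℝ Z a * inner ℝ U (J0 V)| ≤ B ^ 4 * (t ^ 2 * ‖u‖ * ‖v‖ ^ 2) := by
    rw [abs_mul]
    have h1 := hinn Z a _ _ hZn han
    have h2 := hinn U (J0 V) _ _ hUn hJVn
    calc |inner ℝ Z a| * |inner ℝ U (J0 V)|
        ≤ (B * t * (B * ‖v‖ * t)) * (B * ‖u‖ * (B * ‖v‖)) := by gcongr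
      _ = B ^ 4 * (t ^ 2 * ‖u‖ * ‖v‖ ^ 2) := by ring
  have c6 : |inner ℝ Z a' * inner ℝ U V| ≤ B ^ 6 * (t ^ 2 * ‖u‖ * ‖v‖ ^ 2) := by
    rw [abs_mul]
    have h1 := hinn Z a' _ _ hZn han'
    have h2 := hinn U V _ _ hUn hVn
    calc |inner ℝ Z a'| * |inner ℝ U V|
        ≤ (B * t * (B ^ 3 * ‖v‖ * t)) * (B * ‖u‖ * (B * ‖v‖)) := by gcongr
      _ = B ^ 6 * (t ^ 2 * ‖u‖ * ‖v‖ ^ 2) := by ring
  have d1 : |inner ℝ (fderiv ℝ g y v u) (J0 V)| ≤ B ^ 2 * (‖u‖ * ‖v‖ ^ 2) := by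
    refine (hinn _ _ _ _ (hdg v u) hJVn).trans (le_of_eq ?_)
    ring
  have d2 : |inner ℝ U (fderiv ℝ g y v (J y v))| ≤ B ^ 4 * (‖u‖ * ‖v‖ ^ 2) := by
    refine (hinn _ _ _ _ hUn (hdg v (J y v))).trans ?_
    calc B * ‖u‖ * (B * ‖v‖ * ‖J y v‖) ≤ B * ‖u‖ * (B * ‖v‖ * (B ^ 2 * ‖v‖)) := by gcongr
      _ = B ^ 4 * (‖u‖ * ‖v‖ ^ 2) := by ring
  have d3 : |inner ℝ (fderiv ℝ g y (J y v) u) V| ≤ B ^ 4 * (‖u‖ * ‖v‖ ^ 2) := by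
    refine (hinn _ _ _ _ (hdg (J y v) u) hVn).trans ?_
    calc B * ‖J y v‖ * ‖u‖ * (B * ‖v‖) ≤ B * (B ^ 2 * ‖v‖) * ‖u‖ * (B * ‖v‖) := by gcongr
      _ = B ^ 4 * (‖u‖ * ‖v‖ ^ 2) := by ring
  have d4 : |inner ℝ U (fderiv ℝ g y (J y v) v)| ≤ B ^ 4 * (‖u‖ * ‖v‖ ^ 2) := by
    refine (hinn _ _ _ _ hUn (hdg (J y v) v)).trans ?_
    calc B * ‖u‖ * (B * ‖J y v‖ * ‖v‖) ≤ B * ‖u‖ * (B * (B ^ 2 * ‖v‖) * ‖v‖) := by gcongr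
      _ = B ^ 4 * (‖u‖ * ‖v‖ ^ 2) := by ring
  have hK2 : k * t ^ 2 ≤ 2 * B ^ 4 * (t ^ 2 + δ ^ 2)⁻¹ := hF.K2_mul_sq_le hδ x y
  have hK1 : N ≤ B ^ 2 * (t ^ 2 + δ ^ 2)⁻¹ := hF.K1_le hδ x y
  set c : ℝ := 6 * B ^ 6 + 6 * B ^ 4 + 6 * B ^ 6 * |L| + 2 * B ^ 6 + B ^ 4 + B ^ 6 with hc
  set d : ℝ := B ^ 2 + 3 * B ^ 4 with hd
  have hc0 : 0 ≤ c := by positivity
  have hd0 : 0 ≤ d := by positivity
  have e1 : |(-vol4 Z U V a' - vol4 Z U a (J0 V) + vol4 Z U a a' + inner ℝ Z e * ‖V‖ ^ 2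
          - inner ℝ Z a * inner ℝ U (J0 V) + inner ℝ Z a' * inner ℝ U V)|
      ≤ c * (t ^ 2 * ‖u‖ * ‖v‖ ^ 2) := by
    rw [abs_le] at c1 c2 c3 c4 c5 c6 ⊢
    constructor
    · rw [hc]; linarith [c1.1, c1.2, c2.1, c2.2, c3.1, c3.2, c4.1, c4.2, c5.1, c5.2, c6.1, c6.2]
    · rw [hc]; linarith [c1.1, c1.2, c2.1, c2.2, c3.1, c3.2, c4.1, c4.2, c5.1, c5.2, c6.1, c6.2]
  have e2 : |(inner ℝ (fderiv ℝ g y v u) (J0 V) + inner ℝ U (fderiv ℝ g y v (J y v))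
          - inner ℝ (fderiv ℝ g y (J y v) u) V - inner ℝ U (fderiv ℝ g y (J y v) v))|
      ≤ d * (‖u‖ * ‖v‖ ^ 2) := by
    rw [abs_le] at d1 d2 d3 d4 ⊢
    constructor
    · rw [hd]; linarith [d1.1, d1.2, d2.1, d2.2, d3.1, d3.2, d4.1, d4.2]
    · rw [hd]; linarith [d1.1, d1.2, d2.1, d2.2, d3.1, d3.2, d4.1, d4.2]
  refine (abs_add_le _ _).trans ?_
  rw [abs_mul, abs_mul, abs_of_nonneg hk0, abs_of_nonneg hN0]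
  calc k * |_| + N * |_| ≤ k * (c * (t ^ 2 * ‖u‖ * ‖v‖ ^ 2)) + N * (d * (‖u‖ * ‖v‖ ^ 2)) := by
        gcongr
    _ = c * (k * t ^ 2) * (‖u‖ * ‖v‖ ^ 2) + d * N * (‖u‖ * ‖v‖ ^ 2) := by ring
    _ ≤ c * (2 * B ^ 4 * (t ^ 2 + δ ^ 2)⁻¹) * (‖u‖ * ‖v‖ ^ 2)
        + d * (B ^ 2 * (t ^ 2 + δ ^ 2)⁻¹) * (‖u‖ * ‖v‖ ^ 2) := by gcongr
    _ = (c * (2 * B ^ 4) + d * B ^ 2) * (t ^ 2 + δ ^ 2)⁻¹ * ‖u‖ * ‖v‖ ^ 2 := by ring

/-- Away from the pole the auxiliary one-form `nTh` is bounded. -/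
theorem Frame.nTh_far (hF : Frame g gi J B) {r0 : ℝ} (hr : 0 < r0) :
    ∃ C : ℝ, 0 ≤ C ∧ ∀ (δ : ℝ), 0 < δ → ∀ x y u η : E4, r0 ≤ ‖x - y‖ →
      |nTh g δ x u y η| ≤ C * ‖u‖ * ‖η‖ := by
  have hB1 : 1 ≤ B := hF.one_le
  have hB0 : 0 ≤ B := by linarith
  refine ⟨B ^ 4 * (r0 ^ 2)⁻¹, by positivity, ?_⟩
  intro δ hδ x y u η hxy
  have h1 : nTh g δ x u y η = K1 δ (‖Wp g x y‖ ^ 2) * inner ℝ (g y u) (g y η) := rfl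
  have hN0 : 0 ≤ K1 δ (‖Wp g x y‖ ^ 2) := K1_nonneg _ (by positivity)
  have hUn : ‖g y u‖ ≤ B * ‖u‖ := (g y).le_of_opNorm_le (hF.bound_g y) u
  have hVn : ‖g y η‖ ≤ B * ‖η‖ := (g y).le_of_opNorm_le (hF.bound_g y) η
  have hK : K1 δ (‖Wp g x y‖ ^ 2) ≤ B ^ 2 * (r0 ^ 2)⁻¹ := by
    refine (hF.K1_le hδ x y).trans ?_
    gcongr
    nlinarith [sq_nonneg δ, norm_nonneg (x - y)]
  rw [h1, abs_mul, abs_of_nonneg hN0]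
  calc K1 δ (‖Wp g x y‖ ^ 2) * |inner ℝ (g y u) (g y η)|
      ≤ (B ^ 2 * (r0 ^ 2)⁻¹) * (‖g y u‖ * ‖g y η‖) := by
        gcongr
        exact abs_real_inner_le_norm _ _
    _ ≤ (B ^ 2 * (r0 ^ 2)⁻¹) * ((B * ‖u‖) * (B * ‖η‖)) := by gcongr
    _ = B ^ 4 * (r0 ^ 2)⁻¹ * ‖u‖ * ‖η‖ := by ring

/-- Away from the pole the auxiliary one-form `lam` is bounded. -/
theorem Frame.lam_far (hF : Frame g gi J B) {r0 : ℝ} (hr : 0 < r0) (L : ℝ) :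
    ∃ C : ℝ, 0 ≤ C ∧ ∀ (δ : ℝ), 0 < δ → ∀ x y u w η : E4, r0 ≤ ‖x - y‖ → ‖x - y‖ ≤ L →
      |lam g δ x u w y η| ≤ C * ‖u‖ * ‖w‖ * ‖η‖ := by
  have hB1 : 1 ≤ B := hF.one_le
  have hB0 : 0 ≤ B := by linarith
  refine ⟨12 * B ^ 8 * (|L| * (1 + |L|)) * ((r0 ^ 2) ^ 2)⁻¹, by positivity, ?_⟩
  intro δ hδ x y u w η hxy hL
  have h1 : lam g δ x u w y η
      = K2 δ (‖Wp g x y‖ ^ 2) * vol4 (Wp g x y) (g y u) (g y w) (aV g x y η) := rfl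
  have hN0 : 0 ≤ K2 δ (‖Wp g x y‖ ^ 2) := K2_nonneg _ _
  have htL : ‖x - y‖ ≤ |L| := hL.trans (le_abs_self L)
  have hZn : ‖Wp g x y‖ ≤ B * |L| :=
    (hF.norm_W_le x y).trans (mul_le_mul_of_nonneg_left htL hB0)
  have hUn : ‖g y u‖ ≤ B * ‖u‖ := (g y).le_of_opNorm_le (hF.bound_g y) u
  have hVn : ‖g y w‖ ≤ B * ‖w‖ := (g y).le_of_opNorm_le (hF.bound_g y) w
  have hAn : ‖aV g x y η‖ ≤ B * (1 + |L|) * ‖η‖ := by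
    refine (hF.norm_aV_le x y η).trans ?_
    gcongr
  have hK : K2 δ (‖Wp g x y‖ ^ 2) ≤ 2 * B ^ 4 * ((r0 ^ 2) ^ 2)⁻¹ := by
    refine (hF.K2_le hδ x y).trans ?_
    gcongr
    nlinarith [sq_nonneg δ, norm_nonneg (x - y)]
  rw [h1, abs_mul, abs_of_nonneg hN0]
  calc K2 δ (‖Wp g x y‖ ^ 2) * |vol4 (Wp g x y) (g y u) (g y w) (aV g x y η)|
      ≤ (2 * B ^ 4 * ((r0 ^ 2) ^ 2)⁻¹)
          * (6 * (‖Wp g x y‖ * ‖g y u‖ * ‖g y w‖ * ‖aV g x y η‖)) := by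
        gcongr
        exact abs_vol4_le _ _ _ _
    _ ≤ (2 * B ^ 4 * ((r0 ^ 2) ^ 2)⁻¹)
          * (6 * ((B * |L|) * (B * ‖u‖) * (B * ‖w‖) * (B * (1 + |L|) * ‖η‖))) := by gcongr
    _ = 12 * B ^ 8 * (|L| * (1 + |L|)) * ((r0 ^ 2) ^ 2)⁻¹ * ‖u‖ * ‖w‖ * ‖η‖ := by ring

end TamedLocal
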