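import Mathlib
import Pool.Agent.W_MP_d8b8b7_gt_L.BoundF
import Pool.Agent.W_MP_d8b8b7_gt_L.PointS
import Pool.Agent.W_MP_d8b8b7_gt_L.C1Closed

/-! # The primitive `S_δ`: regularity and comparison with `d^c f_δ` -/

noncomputable section

open MeasureTheory Set Filter Topology
open scoped ContDiff ENNReal

namespace TamedLocal

variable {g gi J : E4 → (E4 →L[ℝ] E4)} {B r0 L R : ℝ} {χ : E4 → ℝ} {Ω Ω' : Set E4}
  {m : Measure (E4 × E4)}

/-! ### Smoothness of the kernels -/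

section Smooth

variable {T : Type*} [NormedAddCommGroup T] [NormedSpace ℝ T]

theorem bs_contDiff_vol4 {n : WithTop ℕ∞} {a b c d : T → E4} (ha : ContDiff ℝ n a)
    (hb : ContDiff ℝ n b) (hc : ContDiff ℝ n c) (hd : ContDiff ℝ n d) :
    ContDiff ℝ n fun t => vol4 (a t) (b t) (c t) (d t) := by
  rw [contDiff_euclidean] at ha hb hc hd
  unfold vol4 mnr
  exact (((((((ha 0).mul (hb 1)).sub ((ha 1).mul (hb 0))).mul
    (((hc 2).mul (hd 3)).sub ((hc 3).mul (hd 2)))).sub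
    ((((ha 0).mul (hb 2)).sub ((ha 2).mul (hb 0))).mul
    (((hc 1).mul (hd 3)).sub ((hc 3).mul (hd 1))))).add
    ((((ha 0).mul (hb 3)).sub ((ha 3).mul (hb 0))).mul
    (((hc 1).mul (hd 2)).sub ((hc 2).mul (hd 1))))).add
    ((((ha 1).mul (hb 2)).sub ((ha 2).mul (hb 1))).mul
    (((hc 0).mul (hd 3)).sub ((hc 3).mul (hd 0))))).sub
    ((((ha 1).mul (hb 3)).sub ((ha 3).mul (hb 1))).mul
    (((hc 0).mul (hd 2)).sub ((hc 2).mul (hd 0)))) |>.add
    ((((ha 2).mul (hb 3)).sub ((ha 3).mul (hb 2))).mul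
    (((hc 0).mul (hd 1)).sub ((hc 1).mul (hd 0))))

theorem bs_contDiff_K1 {n : WithTop ℕ∞} {δ : ℝ} (hδ : 0 < δ) {a : T → E4}
    (ha : ContDiff ℝ n a) : ContDiff ℝ n fun t => K1 δ (‖a t‖ ^ 2) := by
  unfold K1
  refine ContDiff.inv ((ha.norm_sq ℝ).add contDiff_const) ?_
  intro t
  positivity

theorem bs_contDiff_K2 {n : WithTop ℕ∞} {δ : ℝ} (hδ : 0 < δ) {a : T → E4}
    (ha : ContDiff ℝ n a) : ContDiff ℝ n fun t => K2 δ (‖a t‖ ^ 2) := by
  unfold K2
  refine contDiff_const.mul (ContDiff.inv (((ha.norm_sq ℝ).add contDiff_const).pow 2) ?_)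
  intro t
  positivity

theorem bs_contDiff_Wp {g : E4 → (E4 →L[ℝ] E4)} (hg : ContDiff ℝ ∞ g) {x y : T → E4}
    (hx : ContDiff ℝ ∞ x) (hy : ContDiff ℝ ∞ y) :
    ContDiff ℝ ∞ fun t => Wp g (x t) (y t) := by
  unfold Wp
  exact (hg.comp hy).clm_apply (hx.sub hy)

theorem bs_contDiff_aV {g : E4 → (E4 →L[ℝ] E4)} (hg : ContDiff ℝ ∞ g) {x y v : T → E4}
    (hx : ContDiff ℝ ∞ x) (hy : ContDiff ℝ ∞ y) (hv : ContDiff ℝ ∞ v) :
    ContDiff ℝ ∞ fun t => aV g (x t) (y t) (v t) := by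
  unfold aV
  have hdg : ContDiff ℝ ∞ (fderiv ℝ g) := hg.fderiv_right (by norm_num)
  exact ((hg.comp hy).clm_apply hv).neg.add
    (((hdg.comp hy).clm_apply hv).clm_apply (hx.sub hy))

theorem bs_contDiff_nTh {g : E4 → (E4 →L[ℝ] E4)} (hg : ContDiff ℝ ∞ g) {δ : ℝ} (hδ : 0 < δ)
    (x u : E4) : ContDiff ℝ ∞ (nTh g δ x u) := by
  rw [contDiff_clm_apply_iff]
  intro η
  change ContDiff ℝ ∞ fun y : E4 =>
    K1 δ (‖Wp g x y‖ ^ 2) * inner ℝ (g y u) (g y η)
  have hW : ContDiff ℝ ∞ fun y : E4 => Wp g x y := bs_contDiff_Wp hg contDiff_const contDiff_id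
  exact (bs_contDiff_K1 hδ hW).mul
    ((hg.clm_apply contDiff_const).inner ℝ (hg.clm_apply contDiff_const))

end Smooth

/-- The kernel `SK` is linear in `u`. -/
theorem bs_SK_sum (g : E4 → (E4 →L[ℝ] E4)) (δ : ℝ) (x y u v v' : E4) :
    SK g δ x y u v v' = ∑ i, SK g δ x y (ee i) v v' * u i := by
  have hu : u = u 0 • ee 0 + u 1 • ee 1 + u 2 • ee 2 + u 3 • ee 3 := by
    ext i
    fin_cases i <;> simp [ee]
  have hgu : g y u = u 0 • g y (ee 0) + u 1 • g y (ee 1) + u 2 • g y (ee 2)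
      + u 3 • g y (ee 3) := by
    conv_lhs => rw [hu]
    simp only [map_add, map_smul]
  unfold SK
  rw [hgu, Fin.sum_univ_four]
  simp only [vol4, mnr, PiLp.add_apply, PiLp.smul_apply, smul_eq_mul]
  ring

/-- Exterior derivative of a function times a one-form. -/
theorem bs_dF_smul {χ : E4 → ℝ} {l : E4 → (E4 →L[ℝ] ℝ)} (hχ : Differentiable ℝ χ)
    (hl : Differentiable ℝ l) (y v v' : E4) :
    dF (fun y => χ y • l y) y v v' = χ y * dF l y v v' + wedge (fderiv ℝ χ y) (l y) v v' := by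
  unfold dF wedge
  rw [fderiv_fun_smul (hχ y) (hl y)]
  simp only [add_apply, smul_apply, ContinuousLinearMap.smulRight_apply, smul_eq_mul]
  ring

theorem Setup.bs_fderiv_χ_zero (_h : Setup g gi J B χ Ω Ω' r0 L R m) {y : E4}
    (hy : y ∉ tsupport χ) : fderiv ℝ χ y = 0 := by
  by_contra hne
  exact hy (support_fderiv_subset ℝ hne)

/-- Joint smoothness of the kernel. -/
theorem Setup.bs_contDiff_SK (h : Setup g gi J B χ Ω Ω' r0 L R m) {δ : ℝ} (hδ : 0 < δ)
    (u : E4) : ContDiff ℝ ∞ fun q : E4 × (E4 × E4) =>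
      SK g δ q.1 q.2.1 u q.2.2 (J q.2.1 q.2.2) := by
  have hg := h.frame.smooth_g
  have hJ := h.frame.J_smooth
  have hy : ContDiff ℝ ∞ fun q : E4 × (E4 × E4) => q.2.1 := contDiff_fst.comp contDiff_snd
  have hv : ContDiff ℝ ∞ fun q : E4 × (E4 × E4) => q.2.2 := contDiff_snd.comp contDiff_snd
  have hx : ContDiff ℝ ∞ fun q : E4 × (E4 × E4) => q.1 := contDiff_fst
  have hJv : ContDiff ℝ ∞ fun q : E4 × (E4 × E4) => J q.2.1 q.2.2 :=
    (hJ.comp hy).clm_apply hv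
  have hW := bs_contDiff_Wp hg hx hy
  unfold SK
  exact (bs_contDiff_K2 hδ hW).mul (bs_contDiff_vol4 hW
      ((hg.comp hy).clm_apply contDiff_const) (bs_contDiff_aV hg hx hy hv)
      (bs_contDiff_aV hg hx hy hJv))

theorem Setup.bs_contDiff_SK_x (h : Setup g gi J B χ Ω Ω' r0 L R m) {δ : ℝ} (hδ : 0 < δ)
    (u : E4) (p : E4 × E4) : ContDiff ℝ ∞ fun x : E4 =>
      SK g δ x p.1 u p.2 (J p.1 p.2) := by
  have hg := h.frame.smooth_g
  have hW : ContDiff ℝ ∞ fun x : E4 => Wp g x p.1 :=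
    bs_contDiff_Wp hg contDiff_id contDiff_const
  have h1 : ContDiff ℝ ∞ fun x : E4 => aV g x p.1 p.2 :=
    bs_contDiff_aV hg contDiff_id contDiff_const contDiff_const
  have h2 : ContDiff ℝ ∞ fun x : E4 => aV g x p.1 (J p.1 p.2) :=
    bs_contDiff_aV hg contDiff_id contDiff_const contDiff_const
  have h3 : ContDiff ℝ ∞ fun _ : E4 => g p.1 u := contDiff_const
  exact (bs_contDiff_K2 hδ hW).mul (bs_contDiff_vol4 hW h3 h1 h2)

theorem Setup.bs_continuous_SK (h : Setup g gi J B χ Ω Ω' r0 L R m) {δ : ℝ} (hδ : 0 < δ)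
    (x u : E4) : Continuous fun p : E4 × E4 => SK g δ x p.1 u p.2 (J p.1 p.2) := by
  have hg := h.frame.smooth_g
  have hJ := h.frame.J_smooth
  have hy : ContDiff ℝ ∞ fun q : E4 × E4 => q.1 := contDiff_fst
  have hv : ContDiff ℝ ∞ fun q : E4 × E4 => q.2 := contDiff_snd
  have hx : ContDiff ℝ ∞ fun _ : E4 × E4 => x := contDiff_const
  have hJv : ContDiff ℝ ∞ fun q : E4 × E4 => J q.1 q.2 := (hJ.comp hy).clm_apply hv
  have hW : ContDiff ℝ ∞ fun q : E4 × E4 => Wp g x q.1 := bs_contDiff_Wp hg hx hy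
  have h1 : ContDiff ℝ ∞ fun q : E4 × E4 => aV g x q.1 q.2 := bs_contDiff_aV hg hx hy hv
  have h2 : ContDiff ℝ ∞ fun q : E4 × E4 => aV g x q.1 (J q.1 q.2) :=
    bs_contDiff_aV hg hx hy hJv
  have h3 : ContDiff ℝ ∞ fun q : E4 × E4 => g q.1 u := (hg.comp hy).clm_apply contDiff_const
  have h4 : ContDiff ℝ ∞ fun p : E4 × E4 => SK g δ x p.1 u p.2 (J p.1 p.2) :=
    (bs_contDiff_K2 hδ hW).mul (bs_contDiff_vol4 hW h3 h1 h2)
  exact h4.continuous

/-- The scalar version of `Setup.S_basic`. -/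
theorem Setup.bs_base (h : Setup g gi J B χ Ω Ω' r0 L R m) {δ : ℝ} (hδ : 0 < δ) (u : E4) :
    ContDiff ℝ 1 (fun x => ∫ p, χ p.1 * SK g δ x p.1 u p.2 (J p.1 p.2) ∂m) ∧
      ∀ x w, fderiv ℝ (fun x => ∫ p, χ p.1 * SK g δ x p.1 u p.2 (J p.1 p.2) ∂m) x w
        = ∫ p, χ p.1 * fderiv ℝ (fun x' => SK g δ x' p.1 u p.2 (J p.1 p.2)) x w ∂m := by
  have hfin := h.fin
  have hSK := h.bs_contDiff_SK hδ u
  have hF : ContDiff ℝ 1 (fun q : E4 × (E4 × E4) =>
      χ q.2.1 * SK g δ q.1 q.2.1 u q.2.2 (J q.2.1 q.2.2)) := by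
    have c1 : ContDiff ℝ ∞ fun z : E4 × (E4 × E4) => z.2.1 := contDiff_fst.comp contDiff_snd
    have c2 : ContDiff ℝ ∞ fun z : E4 × (E4 × E4) => χ z.2.1 := h.χ_smooth.comp c1
    exact (c2.mul hSK).of_le (by norm_cast)
  have hsupp : ∀ᵐ p ∂m,
      p ∈ tsupport χ ×ˢ Metric.closedBall (0 : E4) R ∨
        ∀ x : E4, (fun q : E4 × (E4 × E4) =>
          χ q.2.1 * SK g δ q.1 q.2.1 u q.2.2 (J q.2.1 q.2.2)) (x, p) = 0 := by
    filter_upwards [h.ae_supp] with p hp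
    rcases hp with hp | hp
    · exact Or.inl hp
    · right
      intro x
      simp only [hp, zero_mul]
  obtain ⟨hC, hD⟩ := contDiff_one_integral hF h.compactK hsupp
  refine ⟨hC, fun x w => ?_⟩
  refine (hD x w).trans ?_
  refine integral_congr_ae (Eventually.of_forall fun p => ?_)
  have hd : DifferentiableAt ℝ (fun x' => SK g δ x' p.1 u p.2 (J p.1 p.2)) x :=
    ((h.bs_contDiff_SK_x hδ u p).differentiable (by norm_num)) x
  have h5 := fderiv_const_mul hd (χ p.1)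
  have h6 := congrArg (fun l : E4 →L[ℝ] ℝ => l w) h5
  exact h6

/-- Regularity of `S_δ` and differentiation under the integral sign
(`contDiff_one_integral` for every component; `J` is smooth by `Frame.J_smooth`; the integrand is
`C^1`, even smooth, in `(x, y, v)`). By linearity of `SK` in the vector `u`,
`SPot x u = ∫ χ SK(x, y; u)`. -/
theorem Setup.S_basic (h : Setup g gi J B χ Ω Ω' r0 L R m) {δ : ℝ} (hδ : 0 < δ) :
    ContDiff ℝ 1 (SPot g J χ m δ) ∧
      (∀ x u, SPot g J χ m δ x u = ∫ p, χ p.1 * SK g δ x p.1 u p.2 (J p.1 p.2) ∂m) ∧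
      ∀ x u w, fderiv ℝ (SPot g J χ m δ) x u w
        = ∫ p, χ p.1 * fderiv ℝ (fun x' => SK g δ x' p.1 w p.2 (J p.1 p.2)) x u ∂m := by
  have hbase := fun u : E4 => h.bs_base hδ u
  have hcd : ContDiff ℝ 1 (SPot g J χ m δ) := by
    unfold SPot
    exact ContDiff.sum fun i _ => ((hbase (ee i)).1).smul contDiff_const
  have hval : ∀ x u, SPot g J χ m δ x u
      = ∫ p, χ p.1 * SK g δ x p.1 u p.2 (J p.1 p.2) ∂m := by
    intro x u
    have hint : ∀ i : Fin 4,
        Integrable (fun p : E4 × E4 => χ p.1 * SK g δ x p.1 (ee i) p.2 (J p.1 p.2)) m := by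
      intro i
      exact h.integrable_aux (h.bs_continuous_SK hδ x (ee i))
    have e1 : SPot g J χ m δ x u = ∑ i, SComp g J χ m δ i x * u i := by
      simp [SPot]
    have e2 : ∀ i : Fin 4, SComp g J χ m δ i x * u i
        = ∫ p, χ p.1 * SK g δ x p.1 (ee i) p.2 (J p.1 p.2) * u i ∂m := by
      intro i
      rw [integral_mul_const]
      rfl
    rw [e1, Finset.sum_congr rfl fun i _ => e2 i, ← integral_finset_sum]
    · congr 1
      funext p
      rw [bs_SK_sum g δ x p.1 u, Finset.mul_sum]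
      exact Finset.sum_congr rfl fun i _ => by ring
    · intro i _
      exact (hint i).mul_const (u i)
  refine ⟨hcd, hval, fun x u w => ?_⟩
  have hd : DifferentiableAt ℝ (SPot g J χ m δ) x := (hcd.differentiable (by norm_num)) x
  have h1 : HasFDerivAt (fun x' => SPot g J χ m δ x' w)
      ((ContinuousLinearMap.apply ℝ ℝ w).comp (fderiv ℝ (SPot g J χ m δ) x)) x :=
    (ContinuousLinearMap.apply ℝ ℝ w).hasFDerivAt.comp x hd.hasFDerivAt
  have h2 : (fun x' => SPot g J χ m δ x' w)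
      = fun x' => ∫ p, χ p.1 * SK g δ x' p.1 w p.2 (J p.1 p.2) ∂m :=
    funext fun x' => hval x' w
  rw [h2] at h1
  have h3 := (hbase w).2 x u
  rw [h1.fderiv] at h3
  rw [← h3]
  rfl

/-- `|S_δ - d^c f_δ| ≤ C (1 + u_δ)` on `Ω'`.
Proof. For a vector `u`: `S_δ(x)(u) - d^c f_δ(x)(u) = ∫ χ (SK + K2 <W, g_y J_x u> |g_y v|^2) dm`
(`Setup.S_basic`, `Setup.f_deriv`, `dc J f x u = - df(J_x u)`). By `Frame.S_est` this is
`- ∫ χ dF (nTh g δ x u) y v (J y v) dm + O(C u_δ(x) |u|)`. Now `χ • nTh g δ x u` is a smooth (hence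
`C^1`) compactly supported test form in `Ω` in the variable `y`, and
`dF (χ • θ) y v w = χ y dF θ y v w + wedge (fderiv χ y) (θ y) v w`. Closedness of `m`
(`closedOn1_of_closedOn`, with `τ = 0`) gives
`∫ χ dF θ (v, Jv) dm = - ∫ wedge (fderiv χ y) (θ y) v (J v) dm`, and this is bounded by `C |u|`
because `fderiv χ y = 0` unless `|x - y| ≥ r0` (`Setup.near`; `χ` is constant on the open ball) and
`Frame.nTh_far`, `m` finite, `|v| ≤ R`, `|J v| ≤ B^2 R`. -/
theorem Setup.S_compare (h : Setup g gi J B χ Ω Ω' r0 L R m) :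
    ∃ C : ℝ, 0 ≤ C ∧ ∀ δ, 0 < δ → ∀ x ∈ Ω',
      ‖SPot g J χ m δ x - dc J (fPot g χ m δ) x‖ ≤ C * (1 + uPot χ m δ x) := by
  have hfin := h.fin
  obtain ⟨C1, hC1, hest⟩ := h.frame.S_est L
  obtain ⟨C2, hC2, hfar⟩ := h.frame.nTh_far h.r0_pos
  have hcfd : Continuous (fderiv ℝ χ) := h.χ_smooth.continuous_fderiv (by norm_num)
  obtain ⟨M, hM⟩ := (h.χ_compact.fderiv ℝ).exists_bound_of_continuous hcfd
  have hM0 : 0 ≤ M := (norm_nonneg _).trans (hM 0)
  have hR0 : 0 ≤ R := zero_le_one.trans h.one_le_R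
  have hB0 : 0 ≤ B := zero_le_one.trans h.frame.one_le
  have hg := h.frame.smooth_g
  have hJ := h.frame.J_smooth
  have hχ0 : ∀ y : E4, y ∉ tsupport χ → χ y = 0 := fun y hy => image_eq_zero_of_notMem_tsupport hy
  set C3 : ℝ := 2 * M * C2 * R * (B ^ 2 * R) * m.real univ with hC3
  have hC3' : 0 ≤ C3 := by positivity
  refine ⟨C1 + C3, by positivity, ?_⟩
  intro δ hδ x hx
  have hu0 : 0 ≤ uPot χ m δ x := (h.uw_basic hδ).2.2.1 x
  refine ContinuousLinearMap.opNorm_le_bound _ (by positivity) fun u => ?_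
  have hl := bs_contDiff_nTh hg hδ x u
  have hcJ : Continuous fun p : E4 × E4 => J p.1 p.2 :=
    (hJ.continuous.comp continuous_fst).clm_apply continuous_snd
  have hcdl : Continuous fun p : E4 × E4 => dF (nTh g δ x u) p.1 p.2 (J p.1 p.2) := by
    have h1 : Continuous (fderiv ℝ (nTh g δ x u)) := hl.continuous_fderiv (by norm_num)
    have h2 : Continuous fun p : E4 × E4 => fderiv ℝ (nTh g δ x u) p.1 := h1.comp continuous_fst
    unfold dF
    exact ((h2.clm_apply continuous_snd).clm_apply hcJ).sub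
      ((h2.clm_apply hcJ).clm_apply continuous_snd)
  have hcSK : Continuous fun p : E4 × E4 => SK g δ x p.1 u p.2 (J p.1 p.2) :=
    h.bs_continuous_SK hδ x u
  have hcW : Continuous fun p : E4 × E4 => Wp g x p.1 := h.frame.contW x
  have hcgu : ∀ a : E4, Continuous fun p : E4 × E4 => g p.1 a := fun a =>
    (hg.continuous.comp continuous_fst).clm_apply continuous_const
  have hcK2 : Continuous fun p : E4 × E4 => K2 δ (‖Wp g x p.1‖ ^ 2) := by
    have hW : ContDiff ℝ ∞ fun q : E4 × E4 => Wp g x q.1 :=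
      bs_contDiff_Wp hg contDiff_const contDiff_fst
    exact (bs_contDiff_K2 hδ hW).continuous
  have hcf : Continuous fun p : E4 × E4 =>
      K2 δ (‖Wp g x p.1‖ ^ 2) * inner ℝ (Wp g x p.1) (g p.1 (J x u)) * ‖g p.1 p.2‖ ^ 2 :=
    (hcK2.mul (hcW.inner (hcgu (J x u)))).mul (h.frame.contGv.norm.pow 2)
  have i1 : Integrable (fun p : E4 × E4 => χ p.1 * SK g δ x p.1 u p.2 (J p.1 p.2)) m :=
    h.integrable_aux hcSK
  have i2 : Integrable (fun p : E4 × E4 => χ p.1 * (K2 δ (‖Wp g x p.1‖ ^ 2)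
      * inner ℝ (Wp g x p.1) (g p.1 (J x u)) * ‖g p.1 p.2‖ ^ 2)) m :=
    h.integrable_aux hcf
  have i3 : Integrable (fun p : E4 × E4 => χ p.1 *
      dF (nTh g δ x u) p.1 p.2 (J p.1 p.2)) m :=
    h.integrable_aux hcdl
  have i4 : Integrable (fun p : E4 × E4 =>
      wedge (fderiv ℝ χ p.1) (nTh g δ x u p.1) p.2 (J p.1 p.2)) m := by
    have hc : Continuous fun p : E4 × E4 =>
        wedge (fderiv ℝ χ p.1) (nTh g δ x u p.1) p.2 (J p.1 p.2) := by
      have h2 : Continuous fun p : E4 × E4 => fderiv ℝ χ p.1 := hcfd.comp continuous_fst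
      have h3 : Continuous fun p : E4 × E4 => nTh g δ x u p.1 := hl.continuous.comp continuous_fst
      unfold wedge
      exact ((h2.clm_apply continuous_snd).mul (h3.clm_apply hcJ)).sub
        ((h2.clm_apply hcJ).mul (h3.clm_apply continuous_snd))
    refine integrable_of_compact hc h.compactK ?_
    filter_upwards [h.vbdd] with p hp
    by_cases hp1 : p.1 ∈ tsupport χ
    · left
      exact ⟨hp1, by simpa using hp⟩
    · right
      rw [h.bs_fderiv_χ_zero hp1]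
      simp [wedge]
  -- closedness
  have hclosed : (∫ p, χ p.1 * dF (nTh g δ x u) p.1 p.2 (J p.1 p.2) ∂m)
      + ∫ p, wedge (fderiv ℝ χ p.1) (nTh g δ x u p.1) p.2 (J p.1 p.2) ∂m = 0 := by
    have htest : IsTest ⊤ Ω (fun y => χ y • nTh g δ x u y) := by
      refine ⟨h.χ_smooth.smul hl, h.χ_compact.smul_right, ?_⟩
      refine (closure_mono ?_).trans h.χ_supp
      intro y hy hχy
      exact hy (by simp [hχy])
    have h1 := h.closed _ htest
    have h2 : pairT (fun _ _ _ => 0) (dF (fun y => χ y • nTh g δ x u y)) = 0 := by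
      simp [pairT]
    rw [h2, add_zero] at h1
    rw [← integral_add i3 i4, ← h1]
    unfold pairM
    refine integral_congr_ae (Eventually.of_forall fun p => ?_)
    exact (bs_dF_smul (h.χ_smooth.differentiable (by norm_num)) (hl.differentiable (by norm_num))
      p.1 p.2 (J p.1 p.2)).symm
  -- the decomposition
  have hdec : (SPot g J χ m δ x - dc J (fPot g χ m δ) x) u
      = (∫ p, χ p.1 * (SK g δ x p.1 u p.2 (J p.1 p.2)
          + K2 δ (‖Wp g x p.1‖ ^ 2) * inner ℝ (Wp g x p.1) (g p.1 (J x u)) * ‖g p.1 p.2‖ ^ 2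
          + dF (nTh g δ x u) p.1 p.2 (J p.1 p.2)) ∂m)
        + ∫ p, wedge (fderiv ℝ χ p.1) (nTh g δ x u p.1) p.2 (J p.1 p.2) ∂m := by
    have e1 : (SPot g J χ m δ x - dc J (fPot g χ m δ) x) u
        = SPot g J χ m δ x u + fderiv ℝ (fPot g χ m δ) x (J x u) := by
      simp [dc]
    have e2 : (∫ p, χ p.1 * (SK g δ x p.1 u p.2 (J p.1 p.2)
          + K2 δ (‖Wp g x p.1‖ ^ 2) * inner ℝ (Wp g x p.1) (g p.1 (J x u)) * ‖g p.1 p.2‖ ^ 2
          + dF (nTh g δ x u) p.1 p.2 (J p.1 p.2)) ∂m)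
        = (∫ p, χ p.1 * SK g δ x p.1 u p.2 (J p.1 p.2) ∂m)
          + (∫ p, χ p.1 * (K2 δ (‖Wp g x p.1‖ ^ 2)
              * inner ℝ (Wp g x p.1) (g p.1 (J x u)) * ‖g p.1 p.2‖ ^ 2) ∂m)
          + ∫ p, χ p.1 * dF (nTh g δ x u) p.1 p.2 (J p.1 p.2) ∂m := by
      have i12 : Integrable (fun p : E4 × E4 => χ p.1 * SK g δ x p.1 u p.2 (J p.1 p.2)
          + χ p.1 * (K2 δ (‖Wp g x p.1‖ ^ 2)
              * inner ℝ (Wp g x p.1) (g p.1 (J x u)) * ‖g p.1 p.2‖ ^ 2)) m := i1.add i2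
      rw [← integral_add i1 i2, ← integral_add i12 i3]
      refine integral_congr_ae (Eventually.of_forall fun p => ?_)
      simp only
      ring
    rw [e1, (h.S_basic hδ).2.1 x u, (h.f_deriv hδ).2 x (J x u), e2]
    linarith
  -- the main term
  have hmain : |∫ p, χ p.1 * (SK g δ x p.1 u p.2 (J p.1 p.2)
          + K2 δ (‖Wp g x p.1‖ ^ 2) * inner ℝ (Wp g x p.1) (g p.1 (J x u)) * ‖g p.1 p.2‖ ^ 2
          + dF (nTh g δ x u) p.1 p.2 (J p.1 p.2)) ∂m| ≤ C1 * ‖u‖ * uPot χ m δ x := by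
    have hcu : Continuous fun p : E4 × E4 => ‖p.2‖ ^ 2 * (‖x - p.1‖ ^ 2 + δ ^ 2)⁻¹ := by
      refine (continuous_snd.norm.pow 2).mul (Continuous.inv₀ ?_ fun p => ?_)
      · exact (((continuous_const.sub continuous_fst).norm).pow 2).add continuous_const
      · positivity
    have i6 : Integrable (fun p : E4 × E4 =>
        C1 * ‖u‖ * (χ p.1 * ‖p.2‖ ^ 2 * (‖x - p.1‖ ^ 2 + δ ^ 2)⁻¹)) m := by
      refine Integrable.const_mul ?_ _
      have := h.integrable_aux hcu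
      refine this.congr (Eventually.of_forall fun p => ?_)
      simp only
      ring
    have h1 := norm_integral_le_of_norm_le i6 (f := fun p : E4 × E4 =>
      χ p.1 * (SK g δ x p.1 u p.2 (J p.1 p.2)
          + K2 δ (‖Wp g x p.1‖ ^ 2) * inner ℝ (Wp g x p.1) (g p.1 (J x u)) * ‖g p.1 p.2‖ ^ 2
          + dF (nTh g δ x u) p.1 p.2 (J p.1 p.2))) (Eventually.of_forall fun p => ?_)
    · rw [Real.norm_eq_abs, integral_const_mul] at h1
      exact h1
    · by_cases hp1 : p.1 ∈ tsupport χ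
      · have hL := h.bdd x hx p.1 hp1
        have h2 := hest δ hδ x p.1 u p.2 hL
        rw [Real.norm_eq_abs, abs_mul, abs_of_nonneg (h.χ_nonneg p.1)]
        calc _ ≤ χ p.1 * (C1 * (‖x - p.1‖ ^ 2 + δ ^ 2)⁻¹ * ‖u‖ * ‖p.2‖ ^ 2) :=
              mul_le_mul_of_nonneg_left h2 (h.χ_nonneg p.1)
          _ = _ := by ring
      · rw [hχ0 _ hp1]
        simp
  -- the far term
  have hfarint : |∫ p, wedge (fderiv ℝ χ p.1) (nTh g δ x u p.1) p.2 (J p.1 p.2) ∂m|
      ≤ C3 * ‖u‖ := by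
    have hbound : ∀ᵐ p ∂m, ‖wedge (fderiv ℝ χ p.1) (nTh g δ x u p.1) p.2 (J p.1 p.2)‖ ≤
        2 * M * C2 * R * (B ^ 2 * R) * ‖u‖ := by
      filter_upwards [h.vbdd] with p hp
      by_cases hz : fderiv ℝ χ p.1 = 0
      · rw [hz]
        simp only [wedge, zero_apply, zero_mul, sub_self, norm_zero]
        positivity
      · have hr : r0 ≤ ‖x - p.1‖ := by
          by_contra hc
          rw [not_le] at hc
          apply hz
          have h1 : χ =ᶠ[𝓝 p.1] fun _ => (1 : ℝ) := by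
            have h2 : ∀ᶠ y in 𝓝 p.1, ‖x - y‖ < r0 :=
              (continuous_const.sub continuous_id).norm.continuousAt.eventually_lt_const hc
            filter_upwards [h2] with y hy
            exact h.near x hx y hy
          rw [h1.fderiv_eq, fderiv_fun_const, Pi.zero_apply]
        have hJn : ‖J p.1 p.2‖ ≤ B ^ 2 * R :=
          (h.frame.norm_J_le p.1 p.2).trans (mul_le_mul_of_nonneg_left hp (by positivity))
        have e1 : |fderiv ℝ χ p.1 p.2| ≤ M * R :=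
          ((fderiv ℝ χ p.1).le_opNorm p.2).trans (mul_le_mul (hM _) hp (norm_nonneg _) hM0)
        have e2 : |fderiv ℝ χ p.1 (J p.1 p.2)| ≤ M * (B ^ 2 * R) :=
          ((fderiv ℝ χ p.1).le_opNorm _).trans (mul_le_mul (hM _) hJn (norm_nonneg _) hM0)
        have e3 : |nTh g δ x u p.1 (J p.1 p.2)| ≤ C2 * ‖u‖ * (B ^ 2 * R) :=
          (hfar δ hδ x p.1 u _ hr).trans (mul_le_mul_of_nonneg_left hJn (by positivity))
        have e4 : |nTh g δ x u p.1 p.2| ≤ C2 * ‖u‖ * R :=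
          (hfar δ hδ x p.1 u _ hr).trans (mul_le_mul_of_nonneg_left hp (by positivity))
        rw [Real.norm_eq_abs]
        unfold wedge
        calc |fderiv ℝ χ p.1 p.2 * nTh g δ x u p.1 (J p.1 p.2)
              - fderiv ℝ χ p.1 (J p.1 p.2) * nTh g δ x u p.1 p.2|
            ≤ |fderiv ℝ χ p.1 p.2 * nTh g δ x u p.1 (J p.1 p.2)|
              + |fderiv ℝ χ p.1 (J p.1 p.2) * nTh g δ x u p.1 p.2| := abs_sub _ _
          _ ≤ M * R * (C2 * ‖u‖ * (B ^ 2 * R))
              + M * (B ^ 2 * R) * (C2 * ‖u‖ * R) := by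
            rw [abs_mul, abs_mul]
            exact add_le_add (mul_le_mul e1 e3 (abs_nonneg _) (by positivity))
              (mul_le_mul e2 e4 (abs_nonneg _) (by positivity))
          _ = _ := by ring
    have h3 := norm_integral_le_of_norm_le_const hbound
    rw [Real.norm_eq_abs] at h3
    calc _ ≤ _ := h3
      _ = _ := by rw [hC3]; ring
  rw [hdec, Real.norm_eq_abs]
  have hn : 0 ≤ ‖u‖ := norm_nonneg u
  calc _ ≤ C1 * ‖u‖ * uPot χ m δ x + C3 * ‖u‖ := (abs_add_le _ _).trans (add_le_add hmain hfarint)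
    _ ≤ (C1 + C3) * (1 + uPot χ m δ x) * ‖u‖ := by
      have a1 : 0 ≤ C1 * ‖u‖ := by positivity
      have a2 : 0 ≤ C3 * ‖u‖ * uPot χ m δ x := by positivity
      nlinarith

end TamedLocal
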