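import Mathlib
import Pool.Agent.W_MP_d8b8b7_gt_L.Algebra

/-! # The key identity: exterior derivative of the Bochner-Martinelli type kernel -/

noncomputable section

open MeasureTheory Set Filter Topology
open scoped ContDiff ENNReal

namespace TamedLocal

/-! ### Derivatives of `vol4` and `K2` along curves -/

theorem keyId_coord {A : ℝ → E4} {A' : E4} {t : ℝ} (hA : HasDerivAt A A' t) (i : Fin 4) :
    HasDerivAt (fun t => A t i) (A' i) t := by
  have h := (EuclideanSpace.proj i : E4 →L[ℝ] ℝ).hasFDerivAt.comp_hasDerivAt t hA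
  exact h

theorem keyId_vol4 {A B C D : ℝ → E4} {A' B' C' D' : E4} {t : ℝ} (hA : HasDerivAt A A' t)
    (hB : HasDerivAt B B' t) (hC : HasDerivAt C C' t) (hD : HasDerivAt D D' t) :
    HasDerivAt (fun t => vol4 (A t) (B t) (C t) (D t))
      (vol4 A' (B t) (C t) (D t) + vol4 (A t) B' (C t) (D t) + vol4 (A t) (B t) C' (D t)
        + vol4 (A t) (B t) (C t) D') t := by
  have a := keyId_coord hA
  have b := keyId_coord hB
  have c := keyId_coord hC
  have d := keyId_coord hD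
  have m : ∀ i j : Fin 4, HasDerivAt (fun t => mnr i j (A t) (B t))
      (A' i * B t j + A t i * B' j - (A' j * B t i + A t j * B' i)) t := fun i j =>
    ((a i).mul (b j)).sub ((a j).mul (b i))
  have n : ∀ i j : Fin 4, HasDerivAt (fun t => mnr i j (C t) (D t))
      (C' i * D t j + C t i * D' j - (C' j * D t i + C t j * D' i)) t := fun i j =>
    ((c i).mul (d j)).sub ((c j).mul (d i))
  have h := (((((m 0 1).mul (n 2 3)).sub ((m 0 2).mul (n 1 3))).add ((m 0 3).mul (n 1 2))).add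
    ((m 1 2).mul (n 0 3))).sub ((m 1 3).mul (n 0 2)) |>.add ((m 2 3).mul (n 0 1))
  refine h.congr_deriv ?_
  simp only [vol4, mnr]
  ring

theorem keyId_K2 {δ : ℝ} (hδ : 0 < δ) {W : ℝ → E4} {W' : E4} {t : ℝ} (hW : HasDerivAt W W' t) :
    HasDerivAt (fun t => K2 δ (‖W t‖ ^ 2))
      (-4 * ((‖W t‖ ^ 2 + δ ^ 2) ^ 3)⁻¹ * (2 * inner ℝ (W t) W')) t := by
  have hpos : 0 < ‖W t‖ ^ 2 + δ ^ 2 := by positivity
  have h1 : HasDerivAt (fun t => ‖W t‖ ^ 2) (2 * inner ℝ (W t) W') t := hW.norm_sq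
  have h2 := ((h1.add_const (δ ^ 2)).pow 2).inv (pow_ne_zero 2 hpos.ne')
  have h3 := h2.const_mul 2
  refine h3.congr_deriv ?_
  simp only [Pi.pow_apply]
  field_simp
  ring

theorem keyId_prod {δ : ℝ} (hδ : 0 < δ) {A B C D : ℝ → E4} {A' B' C' D' : E4} {t : ℝ}
    (hA : HasDerivAt A A' t) (hB : HasDerivAt B B' t) (hC : HasDerivAt C C' t)
    (hD : HasDerivAt D D' t) :
    HasDerivAt (fun t => K2 δ (‖A t‖ ^ 2) * vol4 (A t) (B t) (C t) (D t))
      (-4 * ((‖A t‖ ^ 2 + δ ^ 2) ^ 3)⁻¹ * (2 * inner ℝ (A t) A') * vol4 (A t) (B t) (C t) (D t)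
        + K2 δ (‖A t‖ ^ 2) * (vol4 A' (B t) (C t) (D t) + vol4 (A t) B' (C t) (D t)
          + vol4 (A t) (B t) C' (D t) + vol4 (A t) (B t) (C t) D')) t :=
  (keyId_K2 hδ hA).mul (keyId_vol4 hA hB hC hD)

/-! ### Smoothness -/

theorem keyId_contDiff_vol4 {E : Type*} [NormedAddCommGroup E] [NormedSpace ℝ E]
    {n : WithTop ℕ∞} {A B C D : E → E4} (hA : ContDiff ℝ n A) (hB : ContDiff ℝ n B)
    (hC : ContDiff ℝ n C) (hD : ContDiff ℝ n D) :
    ContDiff ℝ n (fun x => vol4 (A x) (B x) (C x) (D x)) := by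
  have a : ∀ i, ContDiff ℝ n (fun x => A x i) := fun i =>
    (EuclideanSpace.proj i : E4 →L[ℝ] ℝ).contDiff.comp hA
  have b : ∀ i, ContDiff ℝ n (fun x => B x i) := fun i =>
    (EuclideanSpace.proj i : E4 →L[ℝ] ℝ).contDiff.comp hB
  have c : ∀ i, ContDiff ℝ n (fun x => C x i) := fun i =>
    (EuclideanSpace.proj i : E4 →L[ℝ] ℝ).contDiff.comp hC
  have d : ∀ i, ContDiff ℝ n (fun x => D x i) := fun i =>
    (EuclideanSpace.proj i : E4 →L[ℝ] ℝ).contDiff.comp hD
  have m : ∀ i j : Fin 4, ContDiff ℝ n (fun x => mnr i j (A x) (B x)) := fun i j =>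
    ((a i).mul (b j)).sub ((a j).mul (b i))
  have k : ∀ i j : Fin 4, ContDiff ℝ n (fun x => mnr i j (C x) (D x)) := fun i j =>
    ((c i).mul (d j)).sub ((c j).mul (d i))
  exact (((((m 0 1).mul (k 2 3)).sub ((m 0 2).mul (k 1 3))).add ((m 0 3).mul (k 1 2))).add
    ((m 1 2).mul (k 0 3))).sub ((m 1 3).mul (k 0 2)) |>.add ((m 2 3).mul (k 0 1))

theorem keyId_contDiff_K2 {E : Type*} [NormedAddCommGroup E] [NormedSpace ℝ E]
    {n : WithTop ℕ∞} {δ : ℝ} (hδ : 0 < δ) {A : E → E4} (hA : ContDiff ℝ n A) :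
    ContDiff ℝ n (fun x => K2 δ (‖A x‖ ^ 2)) := by
  have h1 : ContDiff ℝ n (fun x => (‖A x‖ ^ 2 + δ ^ 2) ^ 2) :=
    ((hA.norm_sq ℝ).add contDiff_const).pow 2
  exact contDiff_const.mul (h1.inv fun x => by positivity)

theorem keyId_contDiff_fderiv {g : E4 → (E4 →L[ℝ] E4)} (hg : ContDiff ℝ ∞ g) :
    ContDiff ℝ ∞ (fderiv ℝ g) := hg.fderiv_right (by simp)

theorem keyId_contDiff_Wp {g : E4 → (E4 →L[ℝ] E4)} (hg : ContDiff ℝ ∞ g) (x : E4) :
    ContDiff ℝ ∞ (fun y => Wp g x y) :=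
  hg.clm_apply (contDiff_const.sub contDiff_id)

theorem keyId_contDiff_aV {g : E4 → (E4 →L[ℝ] E4)} (hg : ContDiff ℝ ∞ g) (x v : E4) :
    ContDiff ℝ ∞ (fun y => aV g x y v) :=
  ((hg.clm_apply contDiff_const).neg).add
    (((keyId_contDiff_fderiv hg).clm_apply contDiff_const).clm_apply
      (contDiff_const.sub contDiff_id))

theorem keyId_contDiff_lam {g : E4 → (E4 →L[ℝ] E4)} (hg : ContDiff ℝ ∞ g) {δ : ℝ} (hδ : 0 < δ)
    (x u w : E4) : ContDiff ℝ ∞ (lam g δ x u w) := by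
  rw [contDiff_clm_apply_iff]
  intro η
  exact (keyId_contDiff_K2 hδ (keyId_contDiff_Wp hg x)).mul
    (keyId_contDiff_vol4 (keyId_contDiff_Wp hg x) (hg.clm_apply contDiff_const)
      (hg.clm_apply contDiff_const) (keyId_contDiff_aV hg x η))

theorem keyId_contDiff_SK (g : E4 → (E4 →L[ℝ] E4)) {δ : ℝ} (hδ : 0 < δ) (y u v v' : E4) :
    ContDiff ℝ ∞ (fun x => SK g δ x y u v v') := by
  have hW : ContDiff ℝ ∞ (fun x => Wp g x y) :=
    (g y).contDiff.comp (contDiff_id.sub contDiff_const)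
  have ha : ∀ η : E4, ContDiff ℝ ∞ (fun x => aV g x y η) := fun η =>
    contDiff_const.add ((fderiv ℝ g y η).contDiff.comp (contDiff_id.sub contDiff_const))
  exact (keyId_contDiff_K2 hδ hW).mul (keyId_contDiff_vol4 hW contDiff_const (ha v) (ha v'))

/-! ### Derivatives along lines -/

theorem keyId_line {F : Type*} [NormedAddCommGroup F] [NormedSpace ℝ F] {f : E4 → F} {x : E4}
    (hf : DifferentiableAt ℝ f x) (u : E4) :
    HasDerivAt (fun t : ℝ => f (x + t • u)) (fderiv ℝ f x u) 0 := by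
  have h1 : HasDerivAt (fun t : ℝ => x + t • u) u 0 := by
    simpa using ((hasDerivAt_id (0 : ℝ)).smul_const u).const_add x
  have h2 : HasFDerivAt f (fderiv ℝ f x) (x + (0 : ℝ) • u) := by
    rw [zero_smul, add_zero]; exact hf.hasFDerivAt
  exact h2.comp_hasDerivAt (0 : ℝ) h1

theorem keyId_pt (x u : E4) : HasDerivAt (fun t : ℝ => x + t • u) u 0 := by
  simpa using ((hasDerivAt_id (0 : ℝ)).smul_const u).const_add x

/-- Derivative of `SK` in the `x` slot. -/
theorem keyId_dSK (g : E4 → (E4 →L[ℝ] E4)) {δ : ℝ} (hδ : 0 < δ) (x y u w v v' : E4) :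
    fderiv ℝ (fun x' => SK g δ x' y w v v') x u =
      -4 * ((‖Wp g x y‖ ^ 2 + δ ^ 2) ^ 3)⁻¹ * (2 * inner ℝ (Wp g x y) (g y u))
          * vol4 (Wp g x y) (g y w) (aV g x y v) (aV g x y v')
        + K2 δ (‖Wp g x y‖ ^ 2) * (vol4 (g y u) (g y w) (aV g x y v) (aV g x y v')
          + vol4 (Wp g x y) 0 (aV g x y v) (aV g x y v')
          + vol4 (Wp g x y) (g y w) (fderiv ℝ g y v u) (aV g x y v')
          + vol4 (Wp g x y) (g y w) (aV g x y v) (fderiv ℝ g y v' u)) := by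
  have h1 := keyId_line (((keyId_contDiff_SK g hδ y w v v').differentiable (by simp)) x) u
  have hW : HasDerivAt (fun t : ℝ => Wp g (x + t • u) y) (g y u) 0 := by
    have := (g y).hasFDerivAt.comp_hasDerivAt (0 : ℝ) ((keyId_pt x u).sub_const y)
    exact this
  have ha : ∀ η : E4, HasDerivAt (fun t : ℝ => aV g (x + t • u) y η) (fderiv ℝ g y η u) 0 := by
    intro η
    have := ((fderiv ℝ g y η).hasFDerivAt.comp_hasDerivAt (0 : ℝ)
      ((keyId_pt x u).sub_const y)).const_add (-(g y η))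
    exact this
  have h2 := keyId_prod hδ hW (hasDerivAt_const (0 : ℝ) (g y w)) (ha v) (ha v')
  have h3 := h1.unique h2
  simp only [zero_smul, add_zero] at h3
  rw [h3]

/-- Derivative of `lam` in the pole slot. -/
theorem keyId_dlam {g : E4 → (E4 →L[ℝ] E4)} (hg : ContDiff ℝ ∞ g) {δ : ℝ} (hδ : 0 < δ)
    (x y u w v v' : E4) :
    fderiv ℝ (lam g δ x u w) y v v' =
      -4 * ((‖Wp g x y‖ ^ 2 + δ ^ 2) ^ 3)⁻¹ * (2 * inner ℝ (Wp g x y) (aV g x y v))
          * vol4 (Wp g x y) (g y u) (g y w) (aV g x y v')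
        + K2 δ (‖Wp g x y‖ ^ 2) * (vol4 (aV g x y v) (g y u) (g y w) (aV g x y v')
          + vol4 (Wp g x y) (fderiv ℝ g y v u) (g y w) (aV g x y v')
          + vol4 (Wp g x y) (g y u) (fderiv ℝ g y v w) (aV g x y v')
          + vol4 (Wp g x y) (g y u) (g y w) (-(fderiv ℝ g y v v')
            + ((fderiv ℝ (fderiv ℝ g) y v v') (x - y) + fderiv ℝ g y v' (-v)))) := by
  have hgd : DifferentiableAt ℝ g y := (hg.differentiable (by simp)) y
  have hgd2 : DifferentiableAt ℝ (fderiv ℝ g) y :=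
    ((keyId_contDiff_fderiv hg).differentiable (by simp)) y
  have hL : DifferentiableAt ℝ (lam g δ x u w) y :=
    ((keyId_contDiff_lam hg hδ x u w).differentiable (by simp)) y
  have h1 : HasDerivAt (fun t : ℝ => lam g δ x u w (y + t • v) v')
      (fderiv ℝ (lam g δ x u w) y v v') 0 := by
    have := (keyId_line hL v).clm_apply (hasDerivAt_const (0 : ℝ) v')
    simpa using this
  have hg1 : HasDerivAt (fun t : ℝ => g (y + t • v)) (fderiv ℝ g y v) 0 := keyId_line hgd v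
  have hg2 : HasDerivAt (fun t : ℝ => fderiv ℝ g (y + t • v)) (fderiv ℝ (fderiv ℝ g) y v) 0 :=
    keyId_line (f := fderiv ℝ g) hgd2 v
  have hxy : HasDerivAt (fun t : ℝ => x - (y + t • v)) (-v) 0 := (keyId_pt y v).const_sub x
  have hW : HasDerivAt (fun t : ℝ => Wp g x (y + t • v)) (aV g x y v) 0 := by
    have := hg1.clm_apply hxy
    simp only [zero_smul, add_zero] at this
    refine this.congr_deriv ?_
    rw [aV, map_neg]; abel
  have hgc : ∀ η : E4, HasDerivAt (fun t : ℝ => g (y + t • v) η) (fderiv ℝ g y v η) 0 := by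
    intro η
    have := hg1.clm_apply (hasDerivAt_const (0 : ℝ) η)
    simpa using this
  have ha : HasDerivAt (fun t : ℝ => aV g x (y + t • v) v') (-(fderiv ℝ g y v v')
      + ((fderiv ℝ (fderiv ℝ g) y v v') (x - y) + fderiv ℝ g y v' (-v))) 0 := by
    have h5 : HasDerivAt (fun t : ℝ => fderiv ℝ g (y + t • v) v')
        (fderiv ℝ (fderiv ℝ g) y v v') 0 := by
      have := hg2.clm_apply (hasDerivAt_const (0 : ℝ) v')
      simpa using this
    have h6 := h5.clm_apply hxy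
    simp only [zero_smul, add_zero] at h6
    exact (hgc v').neg.add h6
  have h2 := keyId_prod hδ hW (hgc u) (hgc w) ha
  have h3 := h1.unique h2
  simp only [zero_smul, add_zero] at h3
  rw [h3]

theorem keyId_alg (k k' : ℝ) (W U X a a' p p' q q' s : E4) :
    (k' * (2 * inner ℝ W U) * vol4 W X a a'
      + k * (vol4 U X a a' + vol4 W 0 a a' + vol4 W X p a' + vol4 W X a p'))
    - (k' * (2 * inner ℝ W X) * vol4 W U a a'
      + k * (vol4 X U a a' + vol4 W 0 a a' + vol4 W U q a' + vol4 W U a q'))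
    + ((k' * (2 * inner ℝ W a) * vol4 W U X a'
      + k * (vol4 a U X a' + vol4 W p X a' + vol4 W U q a' + vol4 W U X s))
    - (k' * (2 * inner ℝ W a') * vol4 W U X a
      + k * (vol4 a' U X a + vol4 W p' X a + vol4 W U q' a + vol4 W U X s)))
    = (4 * k + 2 * k' * ‖W‖ ^ 2) * vol4 U X a a' := by
  have e0 := vol4_contract W U X a a'
  have e1 : vol4 W X p a' + vol4 W p X a' = 0 := by simp only [vol4, mnr]; ring
  have e2 : vol4 W X a p' - vol4 W p' X a = 0 := by simp only [vol4, mnr]; ring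
  have e3 : vol4 W U a q' + vol4 W U q' a = 0 := by simp only [vol4, mnr]; ring
  have e4 : vol4 X U a a' = -vol4 U X a a' := by simp only [vol4, mnr]; ring
  have e5 : vol4 a U X a' = vol4 U X a a' := by simp only [vol4, mnr]; ring
  have e6 : vol4 a' U X a = -vol4 U X a a' := by simp only [vol4, mnr]; ring
  rw [e4, e5, e6]
  linear_combination 2 * k' * e0 + k * e1 + k * e2 - k * e3

/-- **Key identity** (pointwise, constant vectors `u, w` in the `x` slot and `v, v'` in the pole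
slot). It is the component `(u, w; v, v')` of `d (W^* κ) = W^* (d κ)`, where `κ` is the three-form
`κ_z(a,b,c) = K2 δ |z|^2 * vol4 z a b c` on `R^4` and `W : R^4 × R^4 → R^4`, `W(x,y) = g_y (x-y)`.

Direct proof. Derivatives of `W`: in direction `(u,0)` it is `g_y u`, in direction `(0,v)` it is
`aV g x y v`. Second derivatives: `D_{(u,0)}` of `g_y w` is `0`; `D_{(u,0)}` of `aV g x y v` is
`(g'_y v) u`, and `D_{(0,v)}` of `g_y u` is `(g'_y v) u` as well; `D_{(0,v')}` of `aV g x y v` is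
`s(v,v') = -(g'_y v') v - (g'_y v) v' + (g''_y v' v)(x - y)`, symmetric in `v, v'`
(`ContDiffAt.isSymmSndFDerivAt`). Put `k = K2 δ (|W|^2)`, `k' = dK2/dρ = -4 (ρ+δ^2)^{-3}`; then
`D (k vol4 (W,·,·,·))` along a direction with `DW = a1` is
`2 k' <W,a1> vol4 (W,·,·,·) + k vol4 (a1,·,·,·) +` (terms where one of the three other slots is
differentiated). In the alternating sum
`D_u SK(w) - D_w SK(u) + D_v (lam v') - D_{v'} (lam v)` the second derivative terms cancel by
symmetry of `D^2 W` and antisymmetry of `vol4`, the terms with `k` add up to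
`4 k vol4 (g u, g w, a_v, a_{v'})` and the terms with `2k'` give, by `vol4_contract`,
`2 k' ρ vol4 (g u, g w, a_v, a_{v'})`. Finally `4 K2 + 2 ρ K2' = 8 (ρ+δ^2)^{-2} - 8 ρ (ρ+δ^2)^{-3}
= 8 δ^2 (ρ+δ^2)^{-3} = K3`.
(Alternative: `extDeriv_pullback` and `extDeriv_apply` from
`Mathlib.Analysis.Calculus.DifferentialForm.Basic`.) -/
theorem key_identity {g : E4 → (E4 →L[ℝ] E4)} (hg : ContDiff ℝ ∞ g) {δ : ℝ} (hδ : 0 < δ)
    (x y u w v v' : E4) :
    fderiv ℝ (fun x' => SK g δ x' y w v v') x u - fderiv ℝ (fun x' => SK g δ x' y u v v') x w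
      + dF (lam g δ x u w) y v v'
      = K3 δ (‖Wp g x y‖ ^ 2) * vol4 (g y u) (g y w) (aV g x y v) (aV g x y v') := by
  have hsymm : fderiv ℝ (fderiv ℝ g) y v v' = fderiv ℝ (fderiv ℝ g) y v' v :=
    (hg.contDiffAt.isSymmSndFDerivAt (by
      rw [minSmoothness_of_isRCLikeNormedField]; exact ENat.LEInfty.out)) v v'
  have hs : -(fderiv ℝ g y v' v)
      + ((fderiv ℝ (fderiv ℝ g) y v' v) (x - y) + fderiv ℝ g y v (-v'))
      = -(fderiv ℝ g y v v')
        + ((fderiv ℝ (fderiv ℝ g) y v v') (x - y) + fderiv ℝ g y v' (-v)) := by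
    rw [hsymm, map_neg, map_neg]; abel
  rw [dF, keyId_dSK g hδ, keyId_dSK g hδ, keyId_dlam hg hδ, keyId_dlam hg hδ, hs, keyId_alg]
  congr 1
  have hpos : 0 < ‖Wp g x y‖ ^ 2 + δ ^ 2 := by positivity
  simp only [K2, K3]
  field_simp
  ring

end TamedLocal
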