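import Mathlib
import Pool.Agent.W_MP_d8b8b7_gt_L.BoundS
import Pool.Agent.W_MP_d8b8b7_gt_L.KeyId

/-! # The formula for `dS_δ` -/

noncomputable section

open MeasureTheory Set Filter Topology
open scoped ContDiff ENNReal

namespace TamedLocal

variable {g gi J : E4 → (E4 →L[ℝ] E4)} {B r0 L R : ℝ} {χ : E4 → ℝ} {Ω Ω' : Set E4}
  {m : Measure (E4 × E4)}

/-! ### Smoothness of the kernels -/

section Smooth

variable {T : Type*} [NormedAddCommGroup T] [NormedSpace ℝ T]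

theorem dsf_contDiff_vol4 {n : WithTop ℕ∞} {a b c d : T → E4} (ha : ContDiff ℝ n a)
    (hb : ContDiff ℝ n b) (hc : ContDiff ℝ n c) (hd : ContDiff ℝ n d) :
    ContDiff ℝ n fun t => vol4 (a t) (b t) (c t) (d t) := by
  rw [contDiff_euclidean] at ha hb hc hd
  unfold vol4 mnr
  exact (((((((ha 0).mul (hb 1)).sub ((ha 1).mul (hb 0))).mul
    (((hc 2).mul (hd 3)).sub ((hc 3).mul (hd 2)))).sub
    ((((ha 0).mul (hb 2)).sub ((ha 2).mul (hb 0))).mul
    (((hc 1).mul (hd 3)).sub ((hc 3).mul (hd 1))))).add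
    ((((ha 0).mul (hb 3)).sub ((ha 3).mul (hb 0))).mul
    (((hc 1).mul (hd 2)).sub ((hc 2).mul (hd 1))))).add
    ((((ha 1).mul (hb 2)).sub ((ha 2).mul (hb 1))).mul
    (((hc 0).mul (hd 3)).sub ((hc 3).mul (hd 0))))).sub
    ((((ha 1).mul (hb 3)).sub ((ha 3).mul (hb 1))).mul
    (((hc 0).mul (hd 2)).sub ((hc 2).mul (hd 0)))) |>.add
    ((((ha 2).mul (hb 3)).sub ((ha 3).mul (hb 2))).mul
    (((hc 0).mul (hd 1)).sub ((hc 1).mul (hd 0))))

theorem dsf_contDiff_K2 {n : WithTop ℕ∞} {δ : ℝ} (hδ : 0 < δ) {a : T → E4}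
    (ha : ContDiff ℝ n a) : ContDiff ℝ n fun t => K2 δ (‖a t‖ ^ 2) := by
  unfold K2
  refine contDiff_const.mul (ContDiff.inv (((ha.norm_sq ℝ).add contDiff_const).pow 2) ?_)
  intro t
  positivity

theorem dsf_contDiff_K3 {n : WithTop ℕ∞} {δ : ℝ} (hδ : 0 < δ) {a : T → E4}
    (ha : ContDiff ℝ n a) : ContDiff ℝ n fun t => K3 δ (‖a t‖ ^ 2) := by
  unfold K3
  refine contDiff_const.mul (ContDiff.inv (((ha.norm_sq ℝ).add contDiff_const).pow 3) ?_)
  intro t
  positivity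

theorem dsf_contDiff_Wp {g : E4 → (E4 →L[ℝ] E4)} (hg : ContDiff ℝ ∞ g) {x y : T → E4}
    (hx : ContDiff ℝ ∞ x) (hy : ContDiff ℝ ∞ y) :
    ContDiff ℝ ∞ fun t => Wp g (x t) (y t) := by
  unfold Wp
  exact (hg.comp hy).clm_apply (hx.sub hy)

theorem dsf_contDiff_aV {g : E4 → (E4 →L[ℝ] E4)} (hg : ContDiff ℝ ∞ g) {x y v : T → E4}
    (hx : ContDiff ℝ ∞ x) (hy : ContDiff ℝ ∞ y) (hv : ContDiff ℝ ∞ v) :
    ContDiff ℝ ∞ fun t => aV g (x t) (y t) (v t) := by
  unfold aV
  have hdg : ContDiff ℝ ∞ (fderiv ℝ g) := hg.fderiv_right (by norm_num)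
  exact ((hg.comp hy).clm_apply hv).neg.add
    (((hdg.comp hy).clm_apply hv).clm_apply (hx.sub hy))

theorem dsf_contDiff_lam {g : E4 → (E4 →L[ℝ] E4)} (hg : ContDiff ℝ ∞ g) {δ : ℝ} (hδ : 0 < δ)
    (x u w : E4) : ContDiff ℝ ∞ (lam g δ x u w) := by
  rw [contDiff_clm_apply_iff]
  intro η
  change ContDiff ℝ ∞ fun y : E4 =>
    K2 δ (‖Wp g x y‖ ^ 2) * vol4 (Wp g x y) (g y u) (g y w) (aV g x y η)
  have hW : ContDiff ℝ ∞ fun y : E4 => Wp g x y := dsf_contDiff_Wp hg contDiff_const contDiff_id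
  have ha : ContDiff ℝ ∞ fun y : E4 => aV g x y η :=
    dsf_contDiff_aV hg contDiff_const contDiff_id contDiff_const
  exact (dsf_contDiff_K2 hδ hW).mul (dsf_contDiff_vol4 hW (hg.clm_apply contDiff_const)
    (hg.clm_apply contDiff_const) ha)

end Smooth

/-- Exterior derivative of a function times a one-form. -/
theorem dsf_dF_smul {χ : E4 → ℝ} {l : E4 → (E4 →L[ℝ] ℝ)} (hχ : Differentiable ℝ χ)
    (hl : Differentiable ℝ l) (y v v' : E4) :
    dF (fun y => χ y • l y) y v v' = χ y * dF l y v v' + wedge (fderiv ℝ χ y) (l y) v v' := by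
  unfold dF wedge
  rw [fderiv_fun_smul (hχ y) (hl y)]
  simp only [add_apply, smul_apply, ContinuousLinearMap.smulRight_apply, smul_eq_mul]
  ring

/-- A continuous function on the space of pairs which vanishes over the complement of a compact
set is integrable. -/
theorem Setup.dsf_integrable (h : Setup g gi J B χ Ω Ω' r0 L R m) {F : E4 × E4 → ℝ}
    (hF : Continuous F) (h0 : ∀ p : E4 × E4, p.1 ∉ tsupport χ → F p = 0) : Integrable F m := by
  have := h.fin
  have hK : IsCompact (tsupport χ ×ˢ Metric.closedBall (0 : E4) R) :=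
    IsCompact.prod h.χ_compact (isCompact_closedBall 0 R)
  obtain ⟨C, hC⟩ := hK.exists_bound_of_continuousOn hF.continuousOn
  refine Integrable.of_bound hF.aestronglyMeasurable (max C 0) ?_
  filter_upwards [h.vbdd] with p hp
  by_cases hp1 : p.1 ∈ tsupport χ
  · refine (hC p ⟨hp1, ?_⟩).trans (le_max_left _ _)
    rw [mem_closedBall_zero_iff]
    exact hp
  · rw [h0 p hp1, norm_zero]
    exact le_max_right _ _

theorem Setup.dsf_fderiv_χ_zero (_h : Setup g gi J B χ Ω Ω' r0 L R m) {y : E4}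
    (hy : y ∉ tsupport χ) : fderiv ℝ χ y = 0 := by
  by_contra hne
  exact hy (support_fderiv_subset ℝ hne)

/-- Continuity of the differentiated kernel. -/
theorem Setup.dsf_continuous_fderiv_SK (h : Setup g gi J B χ Ω Ω' r0 L R m) {δ : ℝ} (hδ : 0 < δ)
    (x u w : E4) : Continuous fun p : E4 × E4 =>
      fderiv ℝ (fun x' => SK g δ x' p.1 w p.2 (J p.1 p.2)) x u := by
  have hg := h.frame.smooth_g
  have hJ := h.frame.J_smooth
  have hy : ContDiff ℝ ∞ fun q : (E4 × E4) × E4 => q.1.1 := contDiff_fst.comp contDiff_fst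
  have hv : ContDiff ℝ ∞ fun q : (E4 × E4) × E4 => q.1.2 := contDiff_snd.comp contDiff_fst
  have hx : ContDiff ℝ ∞ fun q : (E4 × E4) × E4 => q.2 := contDiff_snd
  have hJv : ContDiff ℝ ∞ fun q : (E4 × E4) × E4 => J q.1.1 q.1.2 := (hJ.comp hy).clm_apply hv
  have hW := dsf_contDiff_Wp hg hx hy
  have h1 : ContDiff ℝ ∞ (Function.uncurry fun (p : E4 × E4) (x' : E4) =>
      SK g δ x' p.1 w p.2 (J p.1 p.2)) := by
    change ContDiff ℝ ∞ fun q : (E4 × E4) × E4 => K2 δ (‖Wp g q.2 q.1.1‖ ^ 2) *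
      vol4 (Wp g q.2 q.1.1) (g q.1.1 w) (aV g q.2 q.1.1 q.1.2) (aV g q.2 q.1.1 (J q.1.1 q.1.2))
    exact (dsf_contDiff_K2 hδ hW).mul (dsf_contDiff_vol4 hW
      ((hg.comp hy).clm_apply contDiff_const) (dsf_contDiff_aV hg hx hy hv)
      (dsf_contDiff_aV hg hx hy hJv))
  have h2 : ContDiff ℝ 0 fun p : E4 × E4 =>
      fderiv ℝ (fun x' => SK g δ x' p.1 w p.2 (J p.1 p.2)) x :=
    ContDiff.fderiv h1 contDiff_const (by norm_num)
  exact (h2.continuous).clm_apply continuous_const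

/-- `dS_δ(x)(u,w) = ∫ χ K3 vol4(g u, g w, a_v, a_{Jv}) dm + ∫ (dχ ∧ λ)(v, Jv) dm`.

Proof. `dF (SPot) x u w = ∫ χ [D_u SK(w) - D_w SK(u)] dm` by `Setup.S_basic`. Apply `key_identity`
with `v' = J y v` (for fixed `y, v`). This gives
`∫ χ K3 vol4(..) dm - ∫ χ dF (lam g δ x u w) y v (J y v) dm`. The one-form
`y ↦ χ y • lam g δ x u w y` is smooth with compact support in `Ω`, so closedness of `m` gives
`∫ χ dF lam y v (J v) dm = - ∫ wedge (fderiv χ y) (lam y) v (J v) dm`. -/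
theorem Setup.dS_formula (h : Setup g gi J B χ Ω Ω' r0 L R m) {δ : ℝ} (hδ : 0 < δ)
    (x u w : E4) :
    dF (SPot g J χ m δ) x u w
      = (∫ p, χ p.1 * (K3 δ (‖Wp g x p.1‖ ^ 2)
            * vol4 (g p.1 u) (g p.1 w) (aV g x p.1 p.2) (aV g x p.1 (J p.1 p.2))) ∂m)
        + ∫ p, wedge (fderiv ℝ χ p.1) (lam g δ x u w p.1) p.2 (J p.1 p.2) ∂m := by
  obtain ⟨-, -, hder⟩ := h.S_basic hδ
  have hg := h.frame.smooth_g
  have hJ := h.frame.J_smooth
  have hl := dsf_contDiff_lam hg hδ x u w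
  have hχ0 : ∀ y : E4, y ∉ tsupport χ → χ y = 0 := fun y hy => image_eq_zero_of_notMem_tsupport hy
  have hcJ : Continuous fun p : E4 × E4 => J p.1 p.2 :=
    (hJ.continuous.comp continuous_fst).clm_apply continuous_snd
  have hcχ : Continuous fun p : E4 × E4 => χ p.1 := h.χ_smooth.continuous.comp continuous_fst
  -- integrability
  have i1 : Integrable (fun p : E4 × E4 => χ p.1 *
      fderiv ℝ (fun x' => SK g δ x' p.1 w p.2 (J p.1 p.2)) x u) m :=
    h.dsf_integrable (hcχ.mul (h.dsf_continuous_fderiv_SK hδ x u w))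
      (fun p hp => by rw [hχ0 _ hp, zero_mul])
  have i2 : Integrable (fun p : E4 × E4 => χ p.1 *
      fderiv ℝ (fun x' => SK g δ x' p.1 u p.2 (J p.1 p.2)) x w) m :=
    h.dsf_integrable (hcχ.mul (h.dsf_continuous_fderiv_SK hδ x w u))
      (fun p hp => by rw [hχ0 _ hp, zero_mul])
  have hcdl : Continuous fun p : E4 × E4 => dF (lam g δ x u w) p.1 p.2 (J p.1 p.2) := by
    have h1 : Continuous (fderiv ℝ (lam g δ x u w)) := hl.continuous_fderiv (by norm_num)
    have h2 : Continuous fun p : E4 × E4 => fderiv ℝ (lam g δ x u w) p.1 := h1.comp continuous_fst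
    unfold dF
    exact ((h2.clm_apply continuous_snd).clm_apply hcJ).sub
      ((h2.clm_apply hcJ).clm_apply continuous_snd)
  have i3 : Integrable (fun p : E4 × E4 => χ p.1 *
      dF (lam g δ x u w) p.1 p.2 (J p.1 p.2)) m :=
    h.dsf_integrable (hcχ.mul hcdl) (fun p hp => by rw [hχ0 _ hp, zero_mul])
  have i4 : Integrable (fun p : E4 × E4 =>
      wedge (fderiv ℝ χ p.1) (lam g δ x u w p.1) p.2 (J p.1 p.2)) m := by
    refine h.dsf_integrable ?_ ?_
    · have h1 : Continuous (fderiv ℝ χ) := h.χ_smooth.continuous_fderiv (by norm_num)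
      have h2 : Continuous fun p : E4 × E4 => fderiv ℝ χ p.1 := h1.comp continuous_fst
      have h3 : Continuous fun p : E4 × E4 => lam g δ x u w p.1 := hl.continuous.comp continuous_fst
      unfold wedge
      exact ((h2.clm_apply continuous_snd).mul (h3.clm_apply hcJ)).sub
        ((h2.clm_apply hcJ).mul (h3.clm_apply continuous_snd))
    · intro p hp
      rw [h.dsf_fderiv_χ_zero hp]
      simp [wedge]
  have i5 : Integrable (fun p : E4 × E4 => χ p.1 * (K3 δ (‖Wp g x p.1‖ ^ 2)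
      * vol4 (g p.1 u) (g p.1 w) (aV g x p.1 p.2) (aV g x p.1 (J p.1 p.2)))) m := by
    refine h.dsf_integrable ?_ (fun p hp => by rw [hχ0 _ hp, zero_mul])
    have hy : ContDiff ℝ ∞ fun q : E4 × E4 => q.1 := contDiff_fst
    have hv : ContDiff ℝ ∞ fun q : E4 × E4 => q.2 := contDiff_snd
    have hJv : ContDiff ℝ ∞ fun q : E4 × E4 => J q.1 q.2 := (hJ.comp hy).clm_apply hv
    have hW : ContDiff ℝ ∞ fun q : E4 × E4 => Wp g x q.1 := dsf_contDiff_Wp hg contDiff_const hy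
    exact hcχ.mul ((dsf_contDiff_K3 hδ hW).mul (dsf_contDiff_vol4
      ((hg.comp hy).clm_apply contDiff_const) ((hg.comp hy).clm_apply contDiff_const)
      (dsf_contDiff_aV hg contDiff_const hy hv)
      (dsf_contDiff_aV hg contDiff_const hy hJv))).continuous
  -- closedness
  have hclosed : (∫ p, χ p.1 * dF (lam g δ x u w) p.1 p.2 (J p.1 p.2) ∂m)
      + ∫ p, wedge (fderiv ℝ χ p.1) (lam g δ x u w p.1) p.2 (J p.1 p.2) ∂m = 0 := by
    have htest : IsTest ⊤ Ω (fun y => χ y • lam g δ x u w y) := by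
      refine ⟨h.χ_smooth.smul hl, h.χ_compact.smul_right, ?_⟩
      refine (closure_mono ?_).trans h.χ_supp
      intro y hy hχy
      exact hy (by simp [hχy])
    have h1 := h.closed _ htest
    have h2 : pairT (fun _ _ _ => 0) (dF (fun y => χ y • lam g δ x u w y)) = 0 := by
      simp [pairT]
    rw [h2, add_zero] at h1
    rw [← integral_add i3 i4, ← h1]
    unfold pairM
    refine integral_congr_ae (Eventually.of_forall fun p => ?_)
    exact (dsf_dF_smul (h.χ_smooth.differentiable (by norm_num)) (hl.differentiable (by norm_num))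
      p.1 p.2 (J p.1 p.2)).symm
  have hmain : dF (SPot g J χ m δ) x u w =
      (∫ p, χ p.1 * (K3 δ (‖Wp g x p.1‖ ^ 2)
            * vol4 (g p.1 u) (g p.1 w) (aV g x p.1 p.2) (aV g x p.1 (J p.1 p.2))) ∂m)
        - ∫ p, χ p.1 * dF (lam g δ x u w) p.1 p.2 (J p.1 p.2) ∂m := by
    have e0 : dF (SPot g J χ m δ) x u w = fderiv ℝ (SPot g J χ m δ) x u w
        - fderiv ℝ (SPot g J χ m δ) x w u := rfl
    rw [e0, hder x u w, hder x w u, ← integral_sub i1 i2, ← integral_sub i5 i3]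
    refine integral_congr_ae (Eventually.of_forall fun p => ?_)
    have hk := key_identity hg hδ x p.1 u w p.2 (J p.1 p.2)
    simp only [dF] at hk ⊢
    rw [← hk]
    ring
  rw [hmain]
  linarith

/-- The second integral in `Setup.dS_formula` is bounded on `Ω'`, uniformly in `δ`: `fderiv χ y = 0`
for `|x-y| < r0`, `Frame.lam_far`, `fderiv χ` bounded, `m` finite. -/
theorem Setup.dS_far (h : Setup g gi J B χ Ω Ω' r0 L R m) :
    ∃ C : ℝ, 0 ≤ C ∧ ∀ δ, 0 < δ → ∀ x ∈ Ω', ∀ u w : E4,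
      |∫ p, wedge (fderiv ℝ χ p.1) (lam g δ x u w p.1) p.2 (J p.1 p.2) ∂m|
        ≤ C * ‖u‖ * ‖w‖ := by
  have := h.fin
  obtain ⟨C0, hC0, hlam⟩ := h.frame.lam_far h.r0_pos L
  have hcfd : Continuous (fderiv ℝ χ) := h.χ_smooth.continuous_fderiv (by norm_num)
  obtain ⟨M, hM⟩ := (h.χ_compact.fderiv ℝ).exists_bound_of_continuous hcfd
  have hM0 : 0 ≤ M := (norm_nonneg _).trans (hM 0)
  have hR0 : 0 ≤ R := zero_le_one.trans h.one_le_R
  have hB0 : 0 ≤ B := zero_le_one.trans h.frame.one_le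
  refine ⟨2 * M * C0 * R * (B ^ 2 * R) * m.real univ, by positivity, ?_⟩
  intro δ hδ x hx u w
  have hbound : ∀ᵐ p ∂m, ‖wedge (fderiv ℝ χ p.1) (lam g δ x u w p.1) p.2 (J p.1 p.2)‖ ≤
      2 * M * C0 * R * (B ^ 2 * R) * ‖u‖ * ‖w‖ := by
    filter_upwards [h.vbdd] with p hp
    by_cases hz : fderiv ℝ χ p.1 = 0
    · rw [hz]
      simp only [wedge, zero_apply, zero_mul, sub_self, norm_zero]
      positivity
    · have hts : p.1 ∈ tsupport χ := by
        by_contra hc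
        exact hz (h.dsf_fderiv_χ_zero hc)
      have hL := h.bdd x hx p.1 hts
      have hr : r0 ≤ ‖x - p.1‖ := by
        by_contra hc
        rw [not_le] at hc
        apply hz
        have h1 : χ =ᶠ[𝓝 p.1] fun _ => (1 : ℝ) := by
          have h2 : ∀ᶠ y in 𝓝 p.1, ‖x - y‖ < r0 :=
            (continuous_const.sub continuous_id).norm.continuousAt.eventually_lt_const hc
          filter_upwards [h2] with y hy
          exact h.near x hx y hy
        rw [h1.fderiv_eq, fderiv_fun_const, Pi.zero_apply]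
      have hJn : ‖J p.1 p.2‖ ≤ B ^ 2 * R :=
        (h.frame.norm_J_le p.1 p.2).trans (mul_le_mul_of_nonneg_left hp (by positivity))
      have e1 : |fderiv ℝ χ p.1 p.2| ≤ M * R :=
        ((fderiv ℝ χ p.1).le_opNorm p.2).trans (mul_le_mul (hM _) hp (norm_nonneg _) hM0)
      have e2 : |fderiv ℝ χ p.1 (J p.1 p.2)| ≤ M * (B ^ 2 * R) :=
        ((fderiv ℝ χ p.1).le_opNorm _).trans (mul_le_mul (hM _) hJn (norm_nonneg _) hM0)
      have e3 : |lam g δ x u w p.1 (J p.1 p.2)| ≤ C0 * ‖u‖ * ‖w‖ * (B ^ 2 * R) :=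
        (hlam δ hδ x p.1 u w _ hr hL).trans (mul_le_mul_of_nonneg_left hJn (by positivity))
      have e4 : |lam g δ x u w p.1 p.2| ≤ C0 * ‖u‖ * ‖w‖ * R :=
        (hlam δ hδ x p.1 u w _ hr hL).trans (mul_le_mul_of_nonneg_left hp (by positivity))
      rw [Real.norm_eq_abs]
      unfold wedge
      calc |fderiv ℝ χ p.1 p.2 * lam g δ x u w p.1 (J p.1 p.2)
            - fderiv ℝ χ p.1 (J p.1 p.2) * lam g δ x u w p.1 p.2|
          ≤ |fderiv ℝ χ p.1 p.2 * lam g δ x u w p.1 (J p.1 p.2)|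
            + |fderiv ℝ χ p.1 (J p.1 p.2) * lam g δ x u w p.1 p.2| := abs_sub _ _
        _ ≤ M * R * (C0 * ‖u‖ * ‖w‖ * (B ^ 2 * R))
            + M * (B ^ 2 * R) * (C0 * ‖u‖ * ‖w‖ * R) := by
          rw [abs_mul, abs_mul]
          exact add_le_add (mul_le_mul e1 e3 (abs_nonneg _) (by positivity))
            (mul_le_mul e2 e4 (abs_nonneg _) (by positivity))
        _ = _ := by ring
  have h3 := norm_integral_le_of_norm_le_const hbound
  rw [Real.norm_eq_abs] at h3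
  calc _ ≤ _ := h3
    _ = _ := by ring

end TamedLocal
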