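import Mathlib
import Pool.Agent.W_MP_d8b8b7_gt_L.DSFormula

/-! # Bounds for `dS_δ` -/

noncomputable section

open MeasureTheory Set Filter Topology
open scoped ContDiff ENNReal

namespace TamedLocal

variable {g gi J : E4 → (E4 →L[ℝ] E4)} {B r0 L R : ℝ} {χ : E4 → ℝ} {Ω Ω' : Set E4}
  {m : Measure (E4 × E4)}

/-- integrability of `χ F` for continuous `F` -/
theorem Setup.integrable_chi (h : Setup g gi J B χ Ω Ω' r0 L R m) {F : E4 × E4 → ℝ}
    (hF : Continuous F) : Integrable (fun p => χ p.1 * F p) m := by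
  have := h.fin
  have hK : IsCompact (tsupport χ ×ˢ Metric.closedBall (0 : E4) R) :=
    h.χ_compact.isCompact.prod (isCompact_closedBall 0 R)
  have hc : Continuous (fun p : E4 × E4 => χ p.1 * F p) :=
    (h.χ_smooth.continuous.comp continuous_fst).mul hF
  obtain ⟨M, hM⟩ := hK.exists_bound_of_continuousOn hc.continuousOn
  refine Integrable.of_bound hc.aestronglyMeasurable (max M 0) ?_
  filter_upwards [h.vbdd] with p hp
  by_cases hp1 : p.1 ∈ tsupport χ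
  · exact (hM p ⟨hp1, by simpa using hp⟩).trans (le_max_left _ _)
  · have h0 : χ p.1 = 0 := image_eq_zero_of_notMem_tsupport hp1
    rw [h0]; simp

/-- the kernel of the first integral in `Setup.dS_formula` -/
def AK (g J : E4 → (E4 →L[ℝ] E4)) (δ : ℝ) (x u w : E4) (p : E4 × E4) : ℝ :=
  K3 δ (‖Wp g x p.1‖ ^ 2)
    * vol4 (g p.1 u) (g p.1 w) (aV g x p.1 p.2) (aV g x p.1 (J p.1 p.2))

theorem Setup.continuous_AK (h : Setup g gi J B χ Ω Ω' r0 L R m) {δ : ℝ} (hδ : 0 < δ)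
    (x u w : E4) : Continuous (AK g J δ x u w) := by
  have hg : Continuous g := h.frame.smooth_g.continuous
  have hdg : Continuous (fderiv ℝ g) := h.frame.smooth_g.continuous_fderiv (by simp)
  have hJ : Continuous J := h.frame.J_continuous
  have hg1 : Continuous fun p : E4 × E4 => g p.1 := hg.comp continuous_fst
  have hdg1 : Continuous fun p : E4 × E4 => fderiv ℝ g p.1 := hdg.comp continuous_fst
  have hJ1 : Continuous fun p : E4 × E4 => J p.1 := hJ.comp continuous_fst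
  have hW : Continuous fun p : E4 × E4 => Wp g x p.1 := by
    unfold Wp
    exact hg1.clm_apply (continuous_const.sub continuous_fst)
  have hgu : Continuous fun p : E4 × E4 => g p.1 u := hg1.clm_apply continuous_const
  have hgw : Continuous fun p : E4 × E4 => g p.1 w := hg1.clm_apply continuous_const
  have hJv : Continuous fun p : E4 × E4 => J p.1 p.2 := hJ1.clm_apply continuous_snd
  have ha : Continuous fun p : E4 × E4 => aV g x p.1 p.2 := by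
    unfold aV
    exact (hg1.clm_apply continuous_snd).neg.add
      ((hdg1.clm_apply continuous_snd).clm_apply (continuous_const.sub continuous_fst))
  have haJ : Continuous fun p : E4 × E4 => aV g x p.1 (J p.1 p.2) := by
    unfold aV
    exact (hg1.clm_apply hJv).neg.add
      ((hdg1.clm_apply hJv).clm_apply (continuous_const.sub continuous_fst))
  have hK : Continuous fun p : E4 × E4 => K3 δ (‖Wp g x p.1‖ ^ 2) := by
    unfold K3
    refine continuous_const.mul (Continuous.inv₀ (((hW.norm.pow 2).add continuous_const).pow 3) ?_)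
    intro p
    positivity
  have hco : ∀ {f : E4 × E4 → E4}, Continuous f → ∀ i : Fin 4, Continuous fun p => f p i :=
    fun {f} hf i => (EuclideanSpace.proj i : E4 →L[ℝ] ℝ).continuous.comp hf
  unfold AK vol4 mnr
  refine hK.mul ?_
  have c1 := hco hgu
  have c2 := hco hgw
  have c3 := hco ha
  have c4 := hco haJ
  have c10 := c1 0
  have c11 := c1 1
  have c12 := c1 2
  have c13 := c1 3
  have c20 := c2 0
  have c21 := c2 1
  have c22 := c2 2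
  have c23 := c2 3
  have c30 := c3 0
  have c31 := c3 1
  have c32 := c3 2
  have c33 := c3 3
  have c40 := c4 0
  have c41 := c4 1
  have c42 := c4 2
  have c43 := c4 3
  clear c1 c2 c3 c4 hco
  fun_prop

theorem K3_nonneg {δ ρ : ℝ} (hδ : 0 < δ) (hρ : 0 ≤ ρ) : 0 ≤ K3 δ ρ := by
  unfold K3; positivity

/-- Lower bound of the (1,1)-part: `dS_δ(x)(u, J_x u) ≥ - C (1 + u_δ(x)) |u|^2` on `Ω'`.
From `Setup.dS_formula`, `Setup.dS_far` (with `w = J_x u`, `|J_x u| ≤ B^2 |u|`), `Frame.pos_est` and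
`Frame.K3_mul_sq_le` (`|x-y| ≤ L` on `tsupport χ`, `χ ≥ 0`, `K3 ≥ 0`). -/
theorem Setup.dS_pos (h : Setup g gi J B χ Ω Ω' r0 L R m) :
    ∃ C : ℝ, 0 ≤ C ∧ ∀ δ, 0 < δ → ∀ x ∈ Ω', ∀ u : E4,
      -(C * (1 + uPot χ m δ x) * ‖u‖ ^ 2) ≤ dF (SPot g J χ m δ) x u (J x u) := by
  obtain ⟨Cf, hCf, hfar⟩ := h.dS_far
  have hB : 0 ≤ B := zero_le_one.trans h.frame.one_le
  have hL : 0 ≤ L := zero_le_one.trans h.one_le_L
  set C1 : ℝ := 8 * B ^ 8 * (2 + L) ^ 2 * (8 * B ^ 6) with hC1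
  have hC1' : 0 ≤ C1 := by positivity
  refine ⟨C1 + Cf * B ^ 2, by positivity, ?_⟩
  intro δ hδ x hx u
  have hu0 : 0 ≤ uPot χ m δ x := (h.uw_basic hδ).2.2.1 x
  have hform := h.dS_formula hδ x u (J x u)
  have hfar' := hfar δ hδ x hx u (J x u)
  have hJu := h.frame.norm_J_le x u
  have hGc : Continuous fun p : E4 × E4 => ‖p.2‖ ^ 2 * (‖x - p.1‖ ^ 2 + δ ^ 2)⁻¹ := by
    refine (continuous_snd.norm.pow 2).mul (Continuous.inv₀
      (((continuous_const.sub continuous_fst).norm.pow 2).add continuous_const) ?_)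
    intro p
    positivity
  have hGi := h.integrable_chi hGc
  have hAi := h.integrable_chi (h.continuous_AK hδ x u (J x u))
  have hpt : ∀ p : E4 × E4, -(C1 * ‖u‖ ^ 2 * (χ p.1 * (‖p.2‖ ^ 2 * (‖x - p.1‖ ^ 2 + δ ^ 2)⁻¹)))
      ≤ χ p.1 * AK g J δ x u (J x u) p := by
    intro p
    by_cases hp : p.1 ∈ tsupport χ
    · have hxy := h.bdd x hx p.1 hp
      have h1 := h.frame.pos_est x p.1 u p.2
      have h2 := h.frame.K3_mul_sq_le hδ x p.1
      have h3 : 0 ≤ K3 δ (‖Wp g x p.1‖ ^ 2) := K3_nonneg hδ (by positivity)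
      have h4 : -(8 * B ^ 8 * (2 + L) ^ 2 * ‖x - p.1‖ ^ 2 * ‖u‖ ^ 2 * ‖p.2‖ ^ 2)
          ≤ vol4 (g p.1 u) (g p.1 (J x u)) (aV g x p.1 p.2) (aV g x p.1 (J p.1 p.2)) := by
        refine le_trans ?_ h1
        have : (2 + ‖x - p.1‖) ^ 2 ≤ (2 + L) ^ 2 := by
          have := norm_nonneg (x - p.1)
          nlinarith
        have h5 : 8 * B ^ 8 * (2 + ‖x - p.1‖) ^ 2 * ‖x - p.1‖ ^ 2 * ‖u‖ ^ 2 * ‖p.2‖ ^ 2
            ≤ 8 * B ^ 8 * (2 + L) ^ 2 * ‖x - p.1‖ ^ 2 * ‖u‖ ^ 2 * ‖p.2‖ ^ 2 := by gcongr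
        linarith
      have h6 : -(C1 * ‖u‖ ^ 2 * (‖p.2‖ ^ 2 * (‖x - p.1‖ ^ 2 + δ ^ 2)⁻¹))
          ≤ AK g J δ x u (J x u) p := by
        unfold AK
        have h7 := mul_le_mul_of_nonneg_left h4 h3
        refine le_trans ?_ h7
        have h8 : 0 ≤ 8 * B ^ 8 * (2 + L) ^ 2 * ‖u‖ ^ 2 * ‖p.2‖ ^ 2 := by positivity
        have h9 := mul_le_mul_of_nonneg_left h2 h8
        rw [hC1]
        nlinarith [h9]
      have h10 := mul_le_mul_of_nonneg_left h6 (h.χ_nonneg p.1)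
      calc _ = χ p.1 * -(C1 * ‖u‖ ^ 2 * (‖p.2‖ ^ 2 * (‖x - p.1‖ ^ 2 + δ ^ 2)⁻¹)) := by ring
        _ ≤ _ := h10
    · have h0 : χ p.1 = 0 := image_eq_zero_of_notMem_tsupport hp
      rw [h0]; simp
  have hint : -(C1 * ‖u‖ ^ 2 * uPot χ m δ x) ≤ ∫ p, χ p.1 * AK g J δ x u (J x u) p ∂m := by
    have h1 := integral_mono (hGi.const_mul (C1 * ‖u‖ ^ 2)).neg hAi hpt
    rw [integral_neg', integral_const_mul] at h1
    have h2 : uPot χ m δ x = ∫ p, χ p.1 * (‖p.2‖ ^ 2 * (‖x - p.1‖ ^ 2 + δ ^ 2)⁻¹) ∂m := by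
      unfold uPot
      refine integral_congr_ae (Filter.Eventually.of_forall fun p => ?_)
      simp only
      ring
    rw [h2]
    exact h1
  rw [hform]
  have hf1 := (abs_le.mp hfar').1
  have hf2 : Cf * ‖u‖ * ‖J x u‖ ≤ Cf * B ^ 2 * ‖u‖ ^ 2 := by
    have := mul_le_mul_of_nonneg_left hJu (mul_nonneg hCf (norm_nonneg u))
    calc _ ≤ Cf * ‖u‖ * (B ^ 2 * ‖u‖) := this
      _ = _ := by ring
  have hf3 : 0 ≤ Cf * B ^ 2 * ‖u‖ ^ 2 * uPot χ m δ x := by positivity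
  have hf4 : 0 ≤ C1 * ‖u‖ ^ 2 := by positivity
  have hint' : -(C1 * ‖u‖ ^ 2 * uPot χ m δ x) ≤ ∫ p, χ p.1 * (K3 δ (‖Wp g x p.1‖ ^ 2)
            * vol4 (g p.1 u) (g p.1 (J x u)) (aV g x p.1 p.2) (aV g x p.1 (J p.1 p.2))) ∂m := hint
  nlinarith [hint', hf1, hf2, hf3, hf4]

/-- The anti-invariant part: `|dS_δ(u,w) - dS_δ(J u, J w)| ≤ C (1 + w_δ) |u||w|` on `Ω'`.
From `Setup.dS_formula`, `Setup.dS_far`, `Frame.anti_est` and `Frame.K3_mul_le`. -/
theorem Setup.dS_anti (h : Setup g gi J B χ Ω Ω' r0 L R m) :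
    ∃ C : ℝ, 0 ≤ C ∧ ∀ δ, 0 < δ → ∀ x ∈ Ω', ∀ u w : E4,
      |dF (SPot g J χ m δ) x u w - dF (SPot g J χ m δ) x (J x u) (J x w)|
        ≤ C * (1 + wPot χ m δ x) * ‖u‖ * ‖w‖ := by
  obtain ⟨Cf, hCf, hfar⟩ := h.dS_far
  obtain ⟨Ca, hCa, hanti⟩ := h.frame.anti_est L
  have hB : 0 ≤ B := zero_le_one.trans h.frame.one_le
  refine ⟨Ca * (8 * B ^ 6) + Cf * (1 + B ^ 4), by positivity, ?_⟩
  intro δ hδ x hx u w
  have hw0 : 0 ≤ wPot χ m δ x := (h.uw_basic hδ).2.2.2 x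
  have hform1 := h.dS_formula hδ x u w
  have hform2 := h.dS_formula hδ x (J x u) (J x w)
  have hfar1 := hfar δ hδ x hx u w
  have hfar2 := hfar δ hδ x hx (J x u) (J x w)
  have hJu := h.frame.norm_J_le x u
  have hJw := h.frame.norm_J_le x w
  have hGc : Continuous fun p : E4 × E4 =>
      ‖p.2‖ ^ 2 * ((Real.sqrt (‖x - p.1‖ ^ 2 + δ ^ 2)) ^ 3)⁻¹ := by
    refine (continuous_snd.norm.pow 2).mul (Continuous.inv₀
      ((Real.continuous_sqrt.comp (((continuous_const.sub continuous_fst).norm.pow 2).add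
        continuous_const)).pow 3) ?_)
    intro p
    have : 0 < Real.sqrt (‖x - p.1‖ ^ 2 + δ ^ 2) := Real.sqrt_pos.mpr (by positivity)
    positivity
  have hGi := h.integrable_chi hGc
  have hA1 := h.integrable_chi (h.continuous_AK hδ x u w)
  have hA2 := h.integrable_chi (h.continuous_AK hδ x (J x u) (J x w))
  have hpt : ∀ p : E4 × E4, ‖χ p.1 * AK g J δ x u w p - χ p.1 * AK g J δ x (J x u) (J x w) p‖
      ≤ Ca * (8 * B ^ 6) * ‖u‖ * ‖w‖
        * (χ p.1 * (‖p.2‖ ^ 2 * ((Real.sqrt (‖x - p.1‖ ^ 2 + δ ^ 2)) ^ 3)⁻¹)) := by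
    intro p
    by_cases hp : p.1 ∈ tsupport χ
    · have hxy := h.bdd x hx p.1 hp
      have h1 := hanti x p.1 u w p.2 hxy
      have h2 := h.frame.K3_mul_le hδ x p.1
      have h3 : 0 ≤ K3 δ (‖Wp g x p.1‖ ^ 2) := K3_nonneg hδ (by positivity)
      have h4 : χ p.1 * AK g J δ x u w p - χ p.1 * AK g J δ x (J x u) (J x w) p
          = χ p.1 * (K3 δ (‖Wp g x p.1‖ ^ 2) *
            (vol4 (g p.1 u) (g p.1 w) (aV g x p.1 p.2) (aV g x p.1 (J p.1 p.2))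
              - vol4 (g p.1 (J x u)) (g p.1 (J x w)) (aV g x p.1 p.2)
                (aV g x p.1 (J p.1 p.2)))) := by
        unfold AK; ring
      rw [h4, Real.norm_eq_abs, abs_mul, abs_mul, abs_of_nonneg (h.χ_nonneg p.1),
        abs_of_nonneg h3]
      have h5 := mul_le_mul_of_nonneg_left h1 h3
      have h6 : 0 ≤ Ca * ‖u‖ * ‖w‖ * ‖p.2‖ ^ 2 := by positivity
      have h7 := mul_le_mul_of_nonneg_left h2 h6
      have h8 : K3 δ (‖Wp g x p.1‖ ^ 2) * (Ca * ‖x - p.1‖ * ‖u‖ * ‖w‖ * ‖p.2‖ ^ 2)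
          ≤ Ca * (8 * B ^ 6) * ‖u‖ * ‖w‖
            * (‖p.2‖ ^ 2 * ((Real.sqrt (‖x - p.1‖ ^ 2 + δ ^ 2)) ^ 3)⁻¹) := by
        calc _ = Ca * ‖u‖ * ‖w‖ * ‖p.2‖ ^ 2 * (K3 δ (‖Wp g x p.1‖ ^ 2) * ‖x - p.1‖) := by ring
          _ ≤ _ := h7
          _ = _ := by ring
      have h9 := mul_le_mul_of_nonneg_left (h5.trans h8) (h.χ_nonneg p.1)
      calc _ ≤ _ := h9
        _ = _ := by ring
    · have h0 : χ p.1 = 0 := image_eq_zero_of_notMem_tsupport hp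
      rw [h0]; simp
  have hint : |(∫ p, χ p.1 * AK g J δ x u w p ∂m)
        - ∫ p, χ p.1 * AK g J δ x (J x u) (J x w) p ∂m|
      ≤ Ca * (8 * B ^ 6) * ‖u‖ * ‖w‖ * wPot χ m δ x := by
    rw [← integral_sub hA1 hA2, ← Real.norm_eq_abs]
    have h1 := norm_integral_le_of_norm_le (hGi.const_mul (Ca * (8 * B ^ 6) * ‖u‖ * ‖w‖))
      (Filter.Eventually.of_forall hpt)
    rw [integral_const_mul] at h1
    have h2 : wPot χ m δ x = ∫ p, χ p.1 *
        (‖p.2‖ ^ 2 * ((Real.sqrt (‖x - p.1‖ ^ 2 + δ ^ 2)) ^ 3)⁻¹) ∂m := by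
      unfold wPot
      refine integral_congr_ae (Filter.Eventually.of_forall fun p => ?_)
      simp only
      ring
    rw [h2]
    exact h1
  have hint' : |(∫ p, χ p.1 * (K3 δ (‖Wp g x p.1‖ ^ 2)
            * vol4 (g p.1 u) (g p.1 w) (aV g x p.1 p.2) (aV g x p.1 (J p.1 p.2))) ∂m)
        - ∫ p, χ p.1 * (K3 δ (‖Wp g x p.1‖ ^ 2)
            * vol4 (g p.1 (J x u)) (g p.1 (J x w)) (aV g x p.1 p.2)
              (aV g x p.1 (J p.1 p.2))) ∂m|
      ≤ Ca * (8 * B ^ 6) * ‖u‖ * ‖w‖ * wPot χ m δ x := hint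
  rw [hform1, hform2]
  have e1 : Cf * ‖J x u‖ * ‖J x w‖ ≤ Cf * B ^ 4 * (‖u‖ * ‖w‖) := by
    have h1 : ‖J x u‖ * ‖J x w‖ ≤ (B ^ 2 * ‖u‖) * (B ^ 2 * ‖w‖) :=
      mul_le_mul hJu hJw (norm_nonneg _) (by positivity)
    calc _ = Cf * (‖J x u‖ * ‖J x w‖) := by ring
      _ ≤ Cf * ((B ^ 2 * ‖u‖) * (B ^ 2 * ‖w‖)) := mul_le_mul_of_nonneg_left h1 hCf
      _ = _ := by ring
  have e2 : 0 ≤ Cf * (1 + B ^ 4) * (‖u‖ * ‖w‖) * wPot χ m δ x := by positivity
  have e3 : 0 ≤ Ca * (8 * B ^ 6) * (‖u‖ * ‖w‖) := by positivity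
  rw [abs_le] at hint' hfar1 hfar2 ⊢
  constructor <;> nlinarith [hint'.1, hint'.2, hfar1.1, hfar1.2, hfar2.1, hfar2.2, e1, e2, e3]

end TamedLocal
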