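import Mathlib
import Pool.Agent.W_MP_d8b8b7_gt_L.Defs

/-! # A radial integral in R^4 -/

noncomputable section

open MeasureTheory Set Filter Topology
open scoped ContDiff ENNReal

namespace TamedLocal

/-- the radial profile -/
def radF (r D δ : ℝ) : ℝ → ℝ :=
  (Ici r).indicator fun s => ((Real.sqrt (s ^ 2 + δ ^ 2)) ^ 3)⁻¹
        * ((Real.sqrt (((s + D) / 4) ^ 2 + δ ^ 2)) ^ 3)⁻¹

theorem radF_nonneg (r D δ s : ℝ) : 0 ≤ radF r D δ s := by
  unfold radF
  refine Set.indicator_nonneg (fun x _ => ?_) s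
  positivity

theorem radF_measurable (r D δ : ℝ) : Measurable (radF r D δ) := by
  unfold radF
  refine Measurable.indicator ?_ measurableSet_Ici
  fun_prop

theorem radF_le {r D δ : ℝ} (hD : 0 ≤ D) (hδ : 0 < δ) {s : ℝ} (hs : 0 < s) :
    s ^ 3 * radF r D δ s ≤
      (Ici r).indicator (fun s => 512 * ((s + (D + δ)) ^ 3)⁻¹) s := by
  unfold radF
  by_cases h : s ∈ Ici r
  · rw [indicator_of_mem h, indicator_of_mem h]
    have h1 : s ≤ Real.sqrt (s ^ 2 + δ ^ 2) := by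
      apply Real.le_sqrt_of_sq_le
      nlinarith [sq_nonneg δ]
    have h2 : (s + (D + δ)) / 8 ≤ Real.sqrt (((s + D) / 4) ^ 2 + δ ^ 2) := by
      apply Real.le_sqrt_of_sq_le
      nlinarith [sq_nonneg (s + D - δ), sq_nonneg δ, sq_nonneg (s + D)]
    have h3 : s ^ 3 * ((Real.sqrt (s ^ 2 + δ ^ 2)) ^ 3)⁻¹ ≤ 1 := by
      have h4 : s ^ 3 ≤ (Real.sqrt (s ^ 2 + δ ^ 2)) ^ 3 := pow_le_pow_left₀ hs.le h1 3
      have h5 : 0 < (Real.sqrt (s ^ 2 + δ ^ 2)) ^ 3 := by positivity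
      rw [← div_eq_mul_inv, div_le_one h5]
      exact h4
    have h6 : ((Real.sqrt (((s + D) / 4) ^ 2 + δ ^ 2)) ^ 3)⁻¹ ≤
        512 * ((s + (D + δ)) ^ 3)⁻¹ := by
      have h7 : 0 < (s + (D + δ)) / 8 := by positivity
      have h8 : ((s + (D + δ)) / 8) ^ 3 ≤ (Real.sqrt (((s + D) / 4) ^ 2 + δ ^ 2)) ^ 3 :=
        pow_le_pow_left₀ h7.le h2 3
      calc ((Real.sqrt (((s + D) / 4) ^ 2 + δ ^ 2)) ^ 3)⁻¹
          ≤ (((s + (D + δ)) / 8) ^ 3)⁻¹ := inv_anti₀ (by positivity) h8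
        _ = 512 * ((s + (D + δ)) ^ 3)⁻¹ := by
          rw [div_pow, inv_div, div_eq_mul_inv]
          norm_num
    calc s ^ 3 * (((Real.sqrt (s ^ 2 + δ ^ 2)) ^ 3)⁻¹
        * ((Real.sqrt (((s + D) / 4) ^ 2 + δ ^ 2)) ^ 3)⁻¹)
        = (s ^ 3 * ((Real.sqrt (s ^ 2 + δ ^ 2)) ^ 3)⁻¹)
          * ((Real.sqrt (((s + D) / 4) ^ 2 + δ ^ 2)) ^ 3)⁻¹ := by ring
      _ ≤ 1 * (512 * ((s + (D + δ)) ^ 3)⁻¹) :=
        mul_le_mul h3 h6 (by positivity) zero_le_one
      _ = _ := one_mul _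
  · rw [indicator_of_notMem h, indicator_of_notMem h, mul_zero]

theorem rad_hasDeriv {c s : ℝ} (h : 0 < s + c) :
    HasDerivAt (fun s : ℝ => -(1 / 2) * ((s + c) ^ 2)⁻¹) (((s + c) ^ 3)⁻¹) s := by
  have h1 : HasDerivAt (fun s : ℝ => (s + c) ^ 2) (2 * (s + c)) s := by
    have h2 := ((hasDerivAt_id' s).add_const c).fun_pow 2
    simpa using h2
  have h3 := (h1.inv (by positivity)).const_mul (-(1 / 2 : ℝ))
  convert! h3 using 1
  field_simp

theorem rad_tendsto (c : ℝ) :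
    Tendsto (fun s : ℝ => -(1 / 2) * ((s + c) ^ 2)⁻¹) atTop (𝓝 0) := by
  have h1 : Tendsto (fun s : ℝ => (s + c) ^ 2) atTop atTop :=
    (tendsto_pow_atTop (by norm_num)).comp (tendsto_atTop_add_const_right _ _ tendsto_id)
  have h2 := (tendsto_inv_atTop_zero.comp h1).const_mul (-(1 / 2 : ℝ))
  simpa using h2

theorem rad_integrableOn {r c : ℝ} (h : 0 < r + c) :
    IntegrableOn (fun s : ℝ => ((s + c) ^ 3)⁻¹) (Ioi r) := by
  refine integrableOn_Ioi_deriv_of_nonneg' (g := fun s : ℝ => -(1 / 2) * ((s + c) ^ 2)⁻¹)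
    (fun x hx => rad_hasDeriv ?_) (fun x hx => ?_) (rad_tendsto c)
  · have : r ≤ x := hx
    linarith
  · have h1 : r < x := hx
    have : 0 < x + c := by linarith
    positivity

theorem rad_integral {r c : ℝ} (h : 0 < r + c) :
    ∫ s in Ioi r, ((s + c) ^ 3)⁻¹ = (1 / 2) * ((r + c) ^ 2)⁻¹ := by
  rw [integral_Ioi_of_hasDerivAt_of_nonneg' (g := fun s : ℝ => -(1 / 2) * ((s + c) ^ 2)⁻¹)
    (fun x hx => rad_hasDeriv ?_) (fun x hx => ?_) (rad_tendsto c)]
  · ring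
  · have : r ≤ x := hx
    linarith
  · have h1 : r < x := hx
    have : 0 < x + c := by linarith
    positivity

/-- One dimensional estimate, in polar coordinates: for `r, D ≥ 0`, `δ > 0`,
`∫_{|z| ≥ r} (|z|^2+δ^2)^{-3/2} (((|z|+D)/4)^2+δ^2)^{-3/2} dz ≤ C (D^2 + (r+δ)^2)^{-1}`.
Proof: polar coordinates in `R^4` (`MeasureTheory.Measure.integral_fun_norm_addHaar` or
`lintegral` version, density `4 vol(B_1) s^3 ds`), `s^3 (s^2+δ^2)^{-3/2} ≤ 1`,
`((s+D)^2/16+δ^2) ≥ ((s+D+δ)^2)/32`, so the integrand is `≤ C (s+D+δ)^{-3}` and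
`∫_r^∞ (s+D+δ)^{-3} ds = (r+D+δ)^{-2}/2`, `(r+D+δ)^2 ≥ D^2 + (r+δ)^2`. -/
theorem radial_estimate : ∃ C : ℝ, 0 < C ∧ ∀ (r D δ : ℝ), 0 ≤ r → 0 ≤ D → 0 < δ →
    ∫⁻ z in {z : E4 | r ≤ ‖z‖}, ENNReal.ofReal (((Real.sqrt (‖z‖ ^ 2 + δ ^ 2)) ^ 3)⁻¹
        * ((Real.sqrt (((‖z‖ + D) / 4) ^ 2 + δ ^ 2)) ^ 3)⁻¹)
      ≤ ENNReal.ofReal (C * (D ^ 2 + (r + δ) ^ 2)⁻¹) := by
  set V : ℝ := (volume : Measure E4).real (Metric.ball 0 1) with hV
  have hV0 : 0 ≤ V := measureReal_nonneg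
  refine ⟨4 * V * 256 + 1, by positivity, ?_⟩
  intro r D δ hr hD hδ
  have hfr : Module.finrank ℝ E4 = 4 := by simp
  have hrc : 0 < r + (D + δ) := by positivity
  -- the dominating function
  have hdom : IntegrableOn ((Ici r).indicator (fun s => 512 * ((s + (D + δ)) ^ 3)⁻¹))
      (Ioi (0 : ℝ)) := by
    refine Integrable.integrableOn ?_
    rw [integrable_indicator_iff measurableSet_Ici, integrableOn_Ici_iff_integrableOn_Ioi]
    exact (rad_integrableOn hrc).const_mul 512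
  have hI1 : IntegrableOn (fun y : ℝ => y ^ (Module.finrank ℝ E4 - 1) • radF r D δ y)
      (Ioi 0) := by
    refine Integrable.mono' hdom ?_ ?_
    · refine Measurable.aestronglyMeasurable ?_
      exact (measurable_id.pow_const _).smul (radF_measurable r D δ)
    · refine (ae_restrict_iff' measurableSet_Ioi).2 (Eventually.of_forall fun s hs => ?_)
      have hs' : 0 < s := hs
      have h1 := radF_le hD hδ hs' (r := r)
      have h2 : 0 ≤ s ^ 3 * radF r D δ s := mul_nonneg (by positivity) (radF_nonneg _ _ _ _)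
      rw [hfr, smul_eq_mul, Real.norm_eq_abs]
      show |s ^ 3 * radF r D δ s| ≤ _
      rw [abs_of_nonneg h2]
      exact h1
  have hI2 : Integrable (fun z : E4 => radF r D δ ‖z‖) volume :=
    (integrable_fun_norm_addHaar (volume : Measure E4) (f := radF r D δ)).2 hI1
  have hS : MeasurableSet {z : E4 | r ≤ ‖z‖} := measurableSet_le measurable_const measurable_norm
  have h1 : ∫⁻ z in {z : E4 | r ≤ ‖z‖}, ENNReal.ofReal (((Real.sqrt (‖z‖ ^ 2 + δ ^ 2)) ^ 3)⁻¹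
        * ((Real.sqrt (((‖z‖ + D) / 4) ^ 2 + δ ^ 2)) ^ 3)⁻¹) =
      ∫⁻ z : E4, ENNReal.ofReal (radF r D δ ‖z‖) := by
    rw [← lintegral_indicator hS]
    refine lintegral_congr fun z => ?_
    unfold radF
    by_cases h : r ≤ ‖z‖
    · rw [indicator_of_mem (show z ∈ {z : E4 | r ≤ ‖z‖} from h),
        indicator_of_mem (show ‖z‖ ∈ Ici r from h)]
    · rw [indicator_of_notMem (show z ∉ {z : E4 | r ≤ ‖z‖} from h),
        indicator_of_notMem (show ‖z‖ ∉ Ici r from h), ENNReal.ofReal_zero]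
  rw [h1, ← ofReal_integral_eq_lintegral_ofReal hI2
    (Eventually.of_forall fun z => radF_nonneg _ _ _ _),
    integral_fun_norm_addHaar (volume : Measure E4) (radF r D δ)]
  refine ENNReal.ofReal_le_ofReal ?_
  have h2 : ∫ y in Ioi (0 : ℝ), y ^ (Module.finrank ℝ E4 - 1) • radF r D δ y ≤
      256 * (D ^ 2 + (r + δ) ^ 2)⁻¹ := by
    calc ∫ y in Ioi (0 : ℝ), y ^ (Module.finrank ℝ E4 - 1) • radF r D δ y
        ≤ ∫ y in Ioi (0 : ℝ), (Ici r).indicator (fun s => 512 * ((s + (D + δ)) ^ 3)⁻¹) y := by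
          refine setIntegral_mono_on hI1 hdom measurableSet_Ioi fun s hs => ?_
          rw [hfr, smul_eq_mul]
          exact radF_le hD hδ hs
      _ = ∫ y in Ioi r, 512 * ((y + (D + δ)) ^ 3)⁻¹ := by
          rw [setIntegral_indicator measurableSet_Ici]
          have h3 : (Ioi (0 : ℝ) ∩ Ici r : Set ℝ) =ᵐ[volume] (Ioi r : Set ℝ) := by
            rcases hr.eq_or_lt with h | h
            · subst h
              have : Ioi (0 : ℝ) ∩ Ici 0 = Ioi 0 := by
                ext x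
                simp only [mem_inter_iff, mem_Ioi, mem_Ici]
                exact ⟨fun h => h.1, fun h => ⟨h, h.le⟩⟩
              rw [this]
            · have : Ioi (0 : ℝ) ∩ Ici r = Ici r := by
                ext x
                simp only [mem_inter_iff, mem_Ioi, mem_Ici]
                exact ⟨fun h => h.2, fun h' => ⟨h.trans_le h', h'⟩⟩
              rw [this]
              exact Ioi_ae_eq_Ici.symm
          exact setIntegral_congr_set h3
      _ = 256 * ((r + (D + δ)) ^ 2)⁻¹ := by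
          rw [integral_const_mul, rad_integral hrc]
          ring
      _ ≤ 256 * (D ^ 2 + (r + δ) ^ 2)⁻¹ := by
          refine mul_le_mul_of_nonneg_left (inv_anti₀ (by positivity) ?_) (by norm_num)
          nlinarith [mul_nonneg hr hD, mul_nonneg hD hδ.le]
  have hfr' : ((Module.finrank ℝ E4 : ℕ) : ℝ) = 4 := by
    rw [hfr]
    norm_num
  rw [nsmul_eq_mul, smul_eq_mul, hfr']
  have h4 : 0 ≤ (D ^ 2 + (r + δ) ^ 2)⁻¹ := by positivity
  have h5 := mul_le_mul_of_nonneg_left h2 (show (0 : ℝ) ≤ 4 * V by positivity)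
  linarith [h5, h4]

end TamedLocal
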