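import Mathlib
import Pool.Agent.W_MP_d8b8b7_gt_L.KernelRadial

/-! # The kernel energy lemma for Riesz type potentials in R^4 -/

noncomputable section

open MeasureTheory Set Filter Topology
open scoped ContDiff ENNReal

namespace TamedLocal

namespace KEn

/-- the kernel of `w` -/
def kk (δ : ℝ) (x y : E4) : ℝ≥0∞ :=
  ENNReal.ofReal (((Real.sqrt (‖x - y‖ ^ 2 + δ ^ 2)) ^ 3)⁻¹)

/-- the kernel of `u` -/
def qq (δ : ℝ) (x y : E4) : ℝ≥0∞ := ENNReal.ofReal ((‖x - y‖ ^ 2 + δ ^ 2)⁻¹)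

/-- product of two kernels, restricted to `|x - y| ≤ |x - y'|` -/
def hh (δ : ℝ) (x y y' : E4) : ℝ≥0∞ :=
  {p : E4 × E4 | ‖x - p.1‖ ≤ ‖x - p.2‖}.indicator (fun p => kk δ x p.1 * kk δ x p.2) (y, y')

theorem meas_kk {α : Type*} [MeasurableSpace α] (δ : ℝ) {f g : α → E4} (hf : Measurable f)
    (hg : Measurable g) : Measurable (fun a => kk δ (f a) (g a)) := by
  unfold kk
  fun_prop

theorem meas_qq {α : Type*} [MeasurableSpace α] (δ : ℝ) {f g : α → E4} (hf : Measurable f)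
    (hg : Measurable g) : Measurable (fun a => qq δ (f a) (g a)) := by
  unfold qq
  fun_prop

theorem meas_hh {α : Type*} [MeasurableSpace α] (δ : ℝ) {f g h : α → E4} (hf : Measurable f)
    (hg : Measurable g) (hh' : Measurable h) : Measurable (fun a => hh δ (f a) (g a) (h a)) := by
  have h1 : (fun a => hh δ (f a) (g a) (h a)) =
      {a : α | ‖f a - g a‖ ≤ ‖f a - h a‖}.indicator
        (fun a => kk δ (f a) (g a) * kk δ (f a) (h a)) := by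
    funext p
    rfl
  rw [h1]
  refine Measurable.indicator ?_ ?_
  · exact (meas_kk δ hf hg).mul (meas_kk δ hf hh')
  · exact measurableSet_le (by fun_prop) (by fun_prop)

theorem sq_le (δ : ℝ) (μ : Measure E4) [IsFiniteMeasure μ] (x : E4) :
    (∫⁻ y, kk δ x y ∂μ) ^ 2 ≤ 2 * ∫⁻ y, ∫⁻ y', hh δ x y y' ∂μ ∂μ := by
  have hk : Measurable (fun y => kk δ x y) := meas_kk δ measurable_const measurable_id
  have hm : Measurable (fun p : E4 × E4 => hh δ x p.1 p.2) :=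
    meas_hh δ measurable_const measurable_fst measurable_snd
  have h1 : (∫⁻ y, kk δ x y ∂μ) ^ 2 = ∫⁻ y, ∫⁻ y', kk δ x y * kk δ x y' ∂μ ∂μ := by
    have h2 : ∀ y, ∫⁻ y', kk δ x y * kk δ x y' ∂μ = kk δ x y * ∫⁻ y', kk δ x y' ∂μ :=
      fun y => lintegral_const_mul _ hk
    simp_rw [h2]
    rw [lintegral_mul_const _ hk, sq]
  have h3 : ∀ y y', kk δ x y * kk δ x y' ≤ hh δ x y y' + hh δ x y' y := by
    intro y y'
    rcases le_total ‖x - y‖ ‖x - y'‖ with h | h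
    · have h4 : hh δ x y y' = kk δ x y * kk δ x y' := by
        unfold hh
        exact Set.indicator_of_mem (show ((y, y') : E4 × E4) ∈
          {p : E4 × E4 | ‖x - p.1‖ ≤ ‖x - p.2‖} from h) _
      rw [h4]
      exact le_self_add
    · have h4 : hh δ x y' y = kk δ x y' * kk δ x y := by
        unfold hh
        exact Set.indicator_of_mem (show ((y', y) : E4 × E4) ∈
          {p : E4 × E4 | ‖x - p.1‖ ≤ ‖x - p.2‖} from h) _
      rw [h4, mul_comm (kk δ x y')]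
      exact le_add_self
  have hmy : ∀ y, Measurable (fun y' => hh δ x y y') :=
    fun y => meas_hh δ measurable_const measurable_const measurable_id
  have hm1 : Measurable (fun y => ∫⁻ y', hh δ x y y' ∂μ) := Measurable.lintegral_prod_right' hm
  have hms : Measurable (fun p : E4 × E4 => hh δ x p.2 p.1) :=
    meas_hh δ measurable_const measurable_snd measurable_fst
  have hswap : ∫⁻ y, ∫⁻ y', hh δ x y' y ∂μ ∂μ = ∫⁻ y, ∫⁻ y', hh δ x y y' ∂μ ∂μ :=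
    lintegral_lintegral_swap (f := fun y y' => hh δ x y' y) hms.aemeasurable
  calc (∫⁻ y, kk δ x y ∂μ) ^ 2 = ∫⁻ y, ∫⁻ y', kk δ x y * kk δ x y' ∂μ ∂μ := h1
    _ ≤ ∫⁻ y, ∫⁻ y', (hh δ x y y' + hh δ x y' y) ∂μ ∂μ :=
        lintegral_mono fun y => lintegral_mono fun y' => h3 y y'
    _ = ∫⁻ y, (∫⁻ y', hh δ x y y' ∂μ + ∫⁻ y', hh δ x y' y ∂μ) ∂μ := by
        refine lintegral_congr fun y => ?_
        exact lintegral_add_left (hmy y) _
    _ = ∫⁻ y, ∫⁻ y', hh δ x y y' ∂μ ∂μ + ∫⁻ y, ∫⁻ y', hh δ x y' y ∂μ ∂μ :=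
        lintegral_add_left hm1 _
    _ = 2 * ∫⁻ y, ∫⁻ y', hh δ x y y' ∂μ ∂μ := by rw [hswap, two_mul]

theorem geom {x y y' : E4} (h : ‖x - y‖ ≤ ‖x - y'‖) :
    (‖x - y‖ + ‖y - y'‖) / 4 ≤ ‖x - y'‖ := by
  have h1 : ‖y - y'‖ ≤ ‖x - y'‖ + ‖x - y‖ := by
    have h2 : y - y' = (x - y') - (x - y) := by abel
    rw [h2]
    exact norm_sub_le _ _
  have h3 := norm_nonneg (x - y)
  linarith

theorem hh_le {δ : ℝ} (hδ : 0 < δ) (x y y' : E4) :
    hh δ x y y' ≤ ENNReal.ofReal (((Real.sqrt (‖x - y‖ ^ 2 + δ ^ 2)) ^ 3)⁻¹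
        * ((Real.sqrt (((‖x - y‖ + ‖y - y'‖) / 4) ^ 2 + δ ^ 2)) ^ 3)⁻¹) := by
  unfold hh
  by_cases h : ‖x - y‖ ≤ ‖x - y'‖
  · rw [Set.indicator_of_mem (show ((y, y') : E4 × E4) ∈ {p : E4 × E4 | ‖x - p.1‖ ≤ ‖x - p.2‖} from h)]
    unfold kk
    rw [← ENNReal.ofReal_mul (by positivity)]
    refine ENNReal.ofReal_le_ofReal ?_
    refine mul_le_mul_of_nonneg_left ?_ (by positivity)
    have h1 := geom h
    have h2 : 0 ≤ (‖x - y‖ + ‖y - y'‖) / 4 := by positivity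
    have h3 : 0 < Real.sqrt (((‖x - y‖ + ‖y - y'‖) / 4) ^ 2 + δ ^ 2) :=
      Real.sqrt_pos.2 (by positivity)
    gcongr
  · rw [Set.indicator_of_notMem (show ((y, y') : E4 × E4) ∉ {p : E4 × E4 | ‖x - p.1‖ ≤ ‖x - p.2‖} from h)]
    exact zero_le

end KEn

open KEn in
/-- **Kernel energy lemma**: with `u = ∫ (|x-y|^2+δ^2)^{-1} dμ`, `w = ∫ (|x-y|^2+δ^2)^{-3/2} dμ`,
`∫_{u ≤ K} w^2 dx ≤ C K μ(R^4)`, with an absolute constant.

Proof. Let `A = {u ≤ K}`; if `A` is empty nothing to prove. Write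
`w(x)^2 = ∫∫ k(x-y) k(x-y') dμ(y) dμ(y') ≤ 2 ∫∫_{|x-y| ≤ |x-y'|} k(x-y) k(x-y') dμ dμ`
(`k(z) = (|z|^2+δ^2)^{-3/2}`). By Tonelli, `∫_A w^2 ≤ 2 ∫dμ(y) ∫dμ(y') I(y,y')`,
`I(y,y') = ∫_{x ∈ A, |x-y| ≤ |x-y'|} k(x-y) k(x-y') dx`. Put `r_y = infDist y A`. For `x ∈ A`,
`|x-y| ≥ r_y`; and `|x-y'| ≥ max(|x-y|, |y-y'|/2) ≥ (|x-y| + |y-y'|)/4`. Substitute `z = x - y` and use
`radial_estimate` with `r = r_y`, `D = |y-y'|`: `I(y,y') ≤ C (D^2+(r_y+δ)^2)^{-1}`. Choose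
`x_y ∈ A` with `|x_y - y| ≤ r_y + δ` (`Metric.infDist_lt_iff`). Then
`|x_y - y'|^2 + δ^2 ≤ 2 (r_y+δ)^2 + 2 D^2 + δ^2 ≤ 3 (D^2 + (r_y+δ)^2)`, so
`∫ I(y,y') dμ(y') ≤ 3 C u(x_y) ≤ 3 C K`. -/
theorem kernel_energy : ∃ C : ℝ, 0 < C ∧ ∀ (μ : Measure E4) [IsFiniteMeasure μ] (δ K : ℝ),
    0 < δ → 0 ≤ K →
    ∫⁻ x in {x | ∫⁻ y, ENNReal.ofReal ((‖x - y‖ ^ 2 + δ ^ 2)⁻¹) ∂μ ≤ ENNReal.ofReal K},
      (∫⁻ y, ENNReal.ofReal (((Real.sqrt (‖x - y‖ ^ 2 + δ ^ 2)) ^ 3)⁻¹) ∂μ) ^ 2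
      ≤ ENNReal.ofReal (C * K) * μ univ := by
  obtain ⟨C, hC, hrad⟩ := radial_estimate
  refine ⟨6 * C, by positivity, fun μ _ δ K hδ hK => ?_⟩
  set A : Set E4 := {x | ∫⁻ y, ENNReal.ofReal ((‖x - y‖ ^ 2 + δ ^ 2)⁻¹) ∂μ ≤ ENNReal.ofReal K}
    with hA
  have hAm : MeasurableSet A :=
    measurableSet_le (Measurable.lintegral_prod_right'
      (f := fun p : E4 × E4 => qq δ p.1 p.2) (meas_qq δ measurable_fst measurable_snd))
      measurable_const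
  rcases A.eq_empty_or_nonempty with hemp | hne
  · rw [hemp]
    simp
  -- the bound of the inner double integral
  have hI : ∀ y y' : E4, ∫⁻ x in A, hh δ x y y' ≤
      ENNReal.ofReal (C * (‖y - y'‖ ^ 2 + (Metric.infDist y A + δ) ^ 2)⁻¹) := by
    intro y y'
    set r : ℝ := Metric.infDist y A with hr
    have hr0 : 0 ≤ r := Metric.infDist_nonneg
    set F : E4 → ℝ≥0∞ := fun z => ENNReal.ofReal (((Real.sqrt (‖z‖ ^ 2 + δ ^ 2)) ^ 3)⁻¹
        * ((Real.sqrt (((‖z‖ + ‖y - y'‖) / 4) ^ 2 + δ ^ 2)) ^ 3)⁻¹) with hF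
    have hFm : Measurable F := by
      rw [hF]
      fun_prop
    have hSm : MeasurableSet {z : E4 | r ≤ ‖z‖} := measurableSet_le measurable_const measurable_norm
    calc ∫⁻ x in A, hh δ x y y' = ∫⁻ x, A.indicator (fun x => hh δ x y y') x :=
          (lintegral_indicator hAm _).symm
      _ ≤ ∫⁻ x, ({z : E4 | r ≤ ‖z‖}.indicator F) (x - y) := by
          refine lintegral_mono fun x => ?_
          by_cases hx : x ∈ A
          · have h1 : x - y ∈ {z : E4 | r ≤ ‖z‖} := by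
              have h2 : r ≤ dist y x := Metric.infDist_le_dist_of_mem hx
              rw [dist_comm, dist_eq_norm] at h2
              exact h2
            rw [Set.indicator_of_mem hx, Set.indicator_of_mem h1]
            exact hh_le hδ x y y'
          · rw [Set.indicator_of_notMem hx]
            exact zero_le
      _ = ∫⁻ z, ({z : E4 | r ≤ ‖z‖}.indicator F) z := lintegral_sub_right_eq_self _ y
      _ = ∫⁻ z in {z : E4 | r ≤ ‖z‖}, F z := lintegral_indicator hSm _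
      _ ≤ ENNReal.ofReal (C * (‖y - y'‖ ^ 2 + (r + δ) ^ 2)⁻¹) :=
          hrad r ‖y - y'‖ δ hr0 (norm_nonneg _) hδ
  have hJ : ∀ y : E4, ∫⁻ y', ∫⁻ x in A, hh δ x y y' ∂volume ∂μ ≤ ENNReal.ofReal (3 * C * K) := by
    intro y
    set r : ℝ := Metric.infDist y A with hr
    have hr0 : 0 ≤ r := Metric.infDist_nonneg
    obtain ⟨a, ha, hya⟩ := (Metric.infDist_lt_iff (x := y) (r := r + δ) hne).1 (by linarith)
    have h1 : ∀ y', ENNReal.ofReal (C * (‖y - y'‖ ^ 2 + (r + δ) ^ 2)⁻¹) ≤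
        ENNReal.ofReal (3 * C) * qq δ a y' := by
      intro y'
      unfold qq
      rw [← ENNReal.ofReal_mul (by positivity)]
      refine ENNReal.ofReal_le_ofReal ?_
      have h2 : ‖a - y'‖ ≤ (r + δ) + ‖y - y'‖ := by
        have h3 : a - y' = (a - y) + (y - y') := by abel
        rw [h3]
        refine (norm_add_le _ _).trans ?_
        rw [dist_comm, dist_eq_norm] at hya
        linarith
      have h4 : ‖a - y'‖ ^ 2 + δ ^ 2 ≤ 3 * (‖y - y'‖ ^ 2 + (r + δ) ^ 2) := by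
        have h5 : ‖a - y'‖ ^ 2 ≤ ((r + δ) + ‖y - y'‖) ^ 2 :=
          pow_le_pow_left₀ (norm_nonneg _) h2 2
        have h6 : δ ^ 2 ≤ (r + δ) ^ 2 := pow_le_pow_left₀ hδ.le (by linarith) 2
        nlinarith [sq_nonneg ((r + δ) - ‖y - y'‖), sq_nonneg ‖y - y'‖]
      have h7 : 0 < ‖a - y'‖ ^ 2 + δ ^ 2 := by positivity
      have h8 : (‖y - y'‖ ^ 2 + (r + δ) ^ 2)⁻¹ ≤ 3 * (‖a - y'‖ ^ 2 + δ ^ 2)⁻¹ := by
        rw [inv_le_comm₀ (by positivity) (by positivity), mul_inv, inv_inv]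
        linarith
      calc C * (‖y - y'‖ ^ 2 + (r + δ) ^ 2)⁻¹ ≤ C * (3 * (‖a - y'‖ ^ 2 + δ ^ 2)⁻¹) :=
            mul_le_mul_of_nonneg_left h8 hC.le
        _ = 3 * C * (‖a - y'‖ ^ 2 + δ ^ 2)⁻¹ := by ring
    calc ∫⁻ y', ∫⁻ x in A, hh δ x y y' ∂volume ∂μ ≤
          ∫⁻ y', ENNReal.ofReal (3 * C) * qq δ a y' ∂μ :=
          lintegral_mono fun y' => (hI y y').trans (h1 y')
      _ = ENNReal.ofReal (3 * C) * ∫⁻ y', qq δ a y' ∂μ :=
          lintegral_const_mul _ (meas_qq δ measurable_const measurable_id)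
      _ ≤ ENNReal.ofReal (3 * C) * ENNReal.ofReal K := by
          refine mul_le_mul_right ?_ _
          exact ha
      _ = ENNReal.ofReal (3 * C * K) := (ENNReal.ofReal_mul (by positivity)).symm
  have hm3 : Measurable (fun p : E4 × E4 => ∫⁻ y', hh δ p.1 p.2 y' ∂μ) :=
    Measurable.lintegral_prod_right' (f := fun p : (E4 × E4) × E4 => hh δ p.1.1 p.1.2 p.2)
      (meas_hh δ (measurable_fst.comp measurable_fst) (measurable_snd.comp measurable_fst)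
        measurable_snd)
  have hm4 : Measurable (fun x : E4 => ∫⁻ y, ∫⁻ y', hh δ x y y' ∂μ ∂μ) :=
    Measurable.lintegral_prod_right' (f := fun p : E4 × E4 => ∫⁻ y', hh δ p.1 p.2 y' ∂μ) hm3
  calc ∫⁻ x in A, (∫⁻ y, kk δ x y ∂μ) ^ 2 ≤
        ∫⁻ x in A, 2 * ∫⁻ y, ∫⁻ y', hh δ x y y' ∂μ ∂μ := lintegral_mono fun x => sq_le δ μ x
    _ = 2 * ∫⁻ x in A, ∫⁻ y, ∫⁻ y', hh δ x y y' ∂μ ∂μ :=
        lintegral_const_mul _ hm4
    _ = 2 * ∫⁻ y, ∫⁻ x in A, ∫⁻ y', hh δ x y y' ∂μ ∂volume ∂μ :=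
        congrArg (fun t => 2 * t) (lintegral_lintegral_swap
          (f := fun x y => ∫⁻ y', hh δ x y y' ∂μ) hm3.aemeasurable)
    _ = 2 * ∫⁻ y, ∫⁻ y', ∫⁻ x in A, hh δ x y y' ∂volume ∂μ ∂μ := by
        congr 1
        refine lintegral_congr fun y => ?_
        have hm5 : Measurable (fun p : E4 × E4 => hh δ p.1 y p.2) :=
          meas_hh δ measurable_fst measurable_const measurable_snd
        exact lintegral_lintegral_swap (f := fun x y' => hh δ x y y') hm5.aemeasurable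
    _ ≤ 2 * ∫⁻ _, ENNReal.ofReal (3 * C * K) ∂μ := by
        gcongr with y
        exact hJ y
    _ = ENNReal.ofReal (6 * C * K) * μ univ := by
        rw [lintegral_const, ← mul_assoc]
        congr 1
        rw [show (2 : ℝ≥0∞) = ENNReal.ofReal 2 by simp, ← ENNReal.ofReal_mul (by norm_num)]
        congr 1
        ring

end TamedLocal
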