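import Mathlib
import Pool.Agent.W_MP_d8b8b7_gt_L.BoundF
import Pool.Agent.W_MP_d8b8b7_gt_L.KernelEnergy
import Pool.Agent.W_MP_d8b8b7_gt_L.NewtonAE

/-! # Application of the kernel energy lemma, and the limit `δ → 0` of the potentials -/

noncomputable section

open MeasureTheory Set Filter Topology
open scoped ContDiff ENNReal

namespace TamedLocal

variable {g gi J : E4 → (E4 →L[ℝ] E4)} {B r0 L R : ℝ} {χ : E4 → ℝ} {Ω Ω' : Set E4}
  {m : Measure (E4 × E4)}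

/-- The finite measure on `R^4` behind the potentials. -/
def e2Nu (χ : E4 → ℝ) (m : Measure (E4 × E4)) : Measure E4 :=
  Measure.map Prod.fst (m.withDensity (fun p => ENNReal.ofReal (χ p.1 * ‖p.2‖ ^ 2)))

theorem Setup.e2_meas (h : Setup g gi J B χ Ω Ω' r0 L R m) :
    Measurable (fun p : E4 × E4 => ENNReal.ofReal (χ p.1 * ‖p.2‖ ^ 2)) := by
  have h1 : Continuous χ := h.χ_smooth.continuous
  have h2 : Continuous (fun p : E4 × E4 => χ p.1 * ‖p.2‖ ^ 2) := by fun_prop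
  exact ENNReal.measurable_ofReal.comp h2.measurable

theorem Setup.e2_lint (h : Setup g gi J B χ Ω Ω' r0 L R m) {k : E4 → ℝ} (hk : Continuous k) :
    ∫⁻ y, ENNReal.ofReal (k y) ∂(e2Nu χ m) =
      ∫⁻ p, ENNReal.ofReal (χ p.1 * ‖p.2‖ ^ 2 * k p.1) ∂m := by
  have h1 : Measurable (fun y => ENNReal.ofReal (k y)) :=
    ENNReal.measurable_ofReal.comp hk.measurable
  unfold e2Nu
  rw [lintegral_map h1 measurable_fst,
    lintegral_withDensity_eq_lintegral_mul m h.e2_meas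
      (g := fun p : E4 × E4 => ENNReal.ofReal (k p.1)) (h1.comp measurable_fst)]
  refine lintegral_congr fun p => ?_
  simp only [Pi.mul_apply]
  rw [ENNReal.ofReal_mul (mul_nonneg (h.χ_nonneg _) (sq_nonneg _))]

theorem Setup.e2_int (h : Setup g gi J B χ Ω Ω' r0 L R m) {k : E4 → ℝ} (hk : Continuous k)
    (h0 : ∀ y, 0 ≤ k y) {M : ℝ} (hM : ∀ y, k y ≤ M) :
    ENNReal.ofReal (∫ p, χ p.1 * ‖p.2‖ ^ 2 * k p.1 ∂m) =
      ∫⁻ y, ENNReal.ofReal (k y) ∂(e2Nu χ m) := by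
  have := h.fin
  have hM0 : 0 ≤ M := (h0 0).trans (hM 0)
  have hc : Continuous χ := h.χ_smooth.continuous
  have h2 : Continuous (fun p : E4 × E4 => χ p.1 * ‖p.2‖ ^ 2 * k p.1) := by fun_prop
  rw [h.e2_lint hk]
  refine ofReal_integral_eq_lintegral_ofReal ?_ (ae_of_all _ fun p =>
    mul_nonneg (mul_nonneg (h.χ_nonneg _) (sq_nonneg _)) (h0 _))
  refine Integrable.of_bound h2.aestronglyMeasurable (R ^ 2 * M) ?_
  filter_upwards [h.vbdd] with p hp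
  rw [Real.norm_of_nonneg (mul_nonneg (mul_nonneg (h.χ_nonneg _) (sq_nonneg _)) (h0 _))]
  have h3 : χ p.1 * ‖p.2‖ ^ 2 ≤ R ^ 2 := by
    have h4 : ‖p.2‖ ^ 2 ≤ R ^ 2 := pow_le_pow_left₀ (norm_nonneg _) hp 2
    have h5 := h.χ_le_one p.1
    have h6 := h.χ_nonneg p.1
    nlinarith [sq_nonneg ‖p.2‖]
  exact mul_le_mul h3 (hM _) (h0 _) (sq_nonneg _)

theorem Setup.e2_fin (h : Setup g gi J B χ Ω Ω' r0 L R m) : IsFiniteMeasure (e2Nu χ m) := by
  have := h.fin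
  refine ⟨?_⟩
  have h1 := h.e2_int (k := fun _ => 1) continuous_const (fun _ => zero_le_one) (M := 1)
    (fun _ => le_rfl)
  have h2 : ∫⁻ _ : E4, ENNReal.ofReal 1 ∂(e2Nu χ m) = (e2Nu χ m) univ := by simp
  rw [← h2, ← h1]
  exact ENNReal.ofReal_lt_top

theorem Setup.e2_sub (h : Setup g gi J B χ Ω Ω' r0 L R m) : volume Ω' ≠ ⊤ := by
  have h1 : Ω' ⊆ tsupport χ := by
    intro x hx
    apply subset_tsupport
    have h2 := h.near x hx x (by simpa using h.r0_pos)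
    rw [Function.mem_support, h2]
    exact one_ne_zero
  have h3 : IsCompact (tsupport χ) := h.χ_compact
  exact ((measure_mono h1).trans_lt h3.measure_lt_top).ne

/-- `∫_{Ω' ∩ {f_δ > -2k}} (1 + w_δ)^2 dx ≤ C k` for `k ≥ 1`, uniformly in `δ`.
Proof. Let `ν` be the push-forward under `Prod.fst` of `m.withDensity (χ(y) |v|^2)`, a finite measure
(total mass `≤ R^2 m(univ)`). Then `uPot`, `wPot` are the (real) integrals of the kernels against `ν`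
(`integral_map`, `integral_withDensity_eq_integral_toReal_smul`,
`ofReal_integral_eq_lintegral_ofReal`). By `Setup.f_compare`, `f_δ > -2k` implies
`u_δ ≤ 2 B^4 k`. `kernel_energy` with `K = 2 B^4 k`; `(1+w)^2 ≤ 2 + 2 w^2`; `Ω' ⊆ tsupport χ` has finite
volume (if `x ∈ Ω'` then `χ x = 1`). -/
theorem Setup.e2 (h : Setup g gi J B χ Ω Ω' r0 L R m) :
    ∃ C : ℝ, 0 ≤ C ∧ ∀ δ, 0 < δ → ∀ k : ℝ, 1 ≤ k →
      ∫⁻ x in {x | x ∈ Ω' ∧ -(2 * k) < fPot g χ m δ x}, ENNReal.ofReal ((1 + wPot χ m δ x) ^ 2)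
        ≤ ENNReal.ofReal (C * k) := by
  obtain ⟨C0, hC0, hE⟩ := kernel_energy
  have := h.e2_fin
  have hV := h.e2_sub
  have hN : (e2Nu χ m) univ ≠ ⊤ := measure_ne_top _ _
  set V : ℝ := (volume Ω').toReal with hVdef
  set N : ℝ := ((e2Nu χ m) univ).toReal with hNdef
  have hV0 : 0 ≤ V := ENNReal.toReal_nonneg
  have hN0 : 0 ≤ N := ENNReal.toReal_nonneg
  have hB : (0 : ℝ) ≤ B := zero_le_one.trans h.frame.one_le
  have hB4 : (0 : ℝ) ≤ B ^ 4 := pow_nonneg hB 4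
  refine ⟨2 * V + 2 * (C0 * (2 * B ^ 4)) * N, by positivity, ?_⟩
  intro δ hδ k hk
  have hk0 : 0 ≤ k := zero_le_one.trans hk
  have hu : ∀ x, ENNReal.ofReal (uPot χ m δ x) =
      ∫⁻ y, ENNReal.ofReal ((‖x - y‖ ^ 2 + δ ^ 2)⁻¹) ∂(e2Nu χ m) := by
    intro x
    have hpos : ∀ y : E4, 0 < ‖x - y‖ ^ 2 + δ ^ 2 := fun y => by positivity
    refine h.e2_int (k := fun y => (‖x - y‖ ^ 2 + δ ^ 2)⁻¹) ?_ (fun y => (inv_pos.mpr (hpos y)).le)
      (M := (δ ^ 2)⁻¹) ?_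
    · exact Continuous.inv₀ (by fun_prop) fun y => (hpos y).ne'
    · intro y
      exact inv_anti₀ (by positivity) (by nlinarith [sq_nonneg ‖x - y‖])
  have hw : ∀ x, ENNReal.ofReal (wPot χ m δ x) =
      ∫⁻ y, ENNReal.ofReal (((Real.sqrt (‖x - y‖ ^ 2 + δ ^ 2)) ^ 3)⁻¹) ∂(e2Nu χ m) := by
    intro x
    have hpos : ∀ y : E4, 0 < ‖x - y‖ ^ 2 + δ ^ 2 := fun y => by positivity
    have hpos3 : ∀ y : E4, 0 < Real.sqrt (‖x - y‖ ^ 2 + δ ^ 2) ^ 3 := fun y =>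
      pow_pos (Real.sqrt_pos.mpr (hpos y)) 3
    refine h.e2_int (k := fun y => ((Real.sqrt (‖x - y‖ ^ 2 + δ ^ 2)) ^ 3)⁻¹) ?_
      (fun y => (inv_pos.mpr (hpos3 y)).le) (M := (δ ^ 3)⁻¹) ?_
    · exact Continuous.inv₀ (by fun_prop) fun y => (hpos3 y).ne'
    · intro y
      refine inv_anti₀ (by positivity) (pow_le_pow_left₀ hδ.le ?_ 3)
      refine Real.le_sqrt_of_sq_le ?_
      nlinarith [sq_nonneg ‖x - y‖]
  have hw0 := (h.uw_basic hδ).2.2.2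
  set W : E4 → ℝ≥0∞ := fun x =>
    ∫⁻ y, ENNReal.ofReal (((Real.sqrt (‖x - y‖ ^ 2 + δ ^ 2)) ^ 3)⁻¹) ∂(e2Nu χ m) with hWdef
  set S : Set E4 := {x | x ∈ Ω' ∧ -(2 * k) < fPot g χ m δ x} with hS
  set A : Set E4 := {x | ∫⁻ y, ENNReal.ofReal ((‖x - y‖ ^ 2 + δ ^ 2)⁻¹) ∂(e2Nu χ m) ≤
    ENNReal.ofReal (2 * B ^ 4 * k)} with hA
  have hSA : S ⊆ A := by
    intro x hx
    have h1 := (h.f_compare hδ x).2.1
    have h2 : uPot χ m δ x ≤ 2 * B ^ 4 * k := by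
      have h3 : -fPot g χ m δ x ≤ 2 * k := by linarith [hx.2]
      nlinarith [mul_le_mul_of_nonneg_left h3 hB4]
    show ∫⁻ y, ENNReal.ofReal ((‖x - y‖ ^ 2 + δ ^ 2)⁻¹) ∂(e2Nu χ m) ≤ _
    rw [← hu x]
    exact ENNReal.ofReal_le_ofReal h2
  have hpt : ∀ x, ENNReal.ofReal ((1 + wPot χ m δ x) ^ 2) ≤ 2 + 2 * W x ^ 2 := by
    intro x
    have h1 : (1 + wPot χ m δ x) ^ 2 ≤ 2 + 2 * wPot χ m δ x ^ 2 := by
      nlinarith [sq_nonneg (1 - wPot χ m δ x)]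
    refine (ENNReal.ofReal_le_ofReal h1).trans ?_
    rw [ENNReal.ofReal_add (by norm_num) (by positivity), ENNReal.ofReal_mul (by norm_num),
      ENNReal.ofReal_pow (hw0 x), hw x]
    simp [hWdef]
  calc ∫⁻ x in S, ENNReal.ofReal ((1 + wPot χ m δ x) ^ 2)
      ≤ ∫⁻ x in S, (2 + 2 * W x ^ 2) := lintegral_mono hpt
    _ = 2 * volume S + 2 * ∫⁻ x in S, W x ^ 2 := by
        rw [lintegral_add_left measurable_const, lintegral_const_mul' _ _ (by norm_num)]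
        simp
    _ ≤ 2 * volume Ω' + 2 * ∫⁻ x in A, W x ^ 2 := by
        gcongr
        · exact fun x hx => hx.1
    _ ≤ 2 * volume Ω' + 2 * (ENNReal.ofReal (C0 * (2 * B ^ 4 * k)) * (e2Nu χ m) univ) := by
        gcongr
        exact hE (e2Nu χ m) δ (2 * B ^ 4 * k) hδ (by positivity)
    _ = ENNReal.ofReal (2 * V + 2 * (C0 * (2 * B ^ 4 * k) * N)) := by
        have hX : 0 ≤ C0 * (2 * B ^ 4 * k) := by positivity
        have hVe : volume Ω' = ENNReal.ofReal V := (ENNReal.ofReal_toReal hV).symm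
        have hNe : (e2Nu χ m) univ = ENNReal.ofReal N := (ENNReal.ofReal_toReal hN).symm
        rw [hVe, hNe, ← ENNReal.ofReal_mul hX, show (2 : ℝ≥0∞) = ENNReal.ofReal 2 by simp,
          ← ENNReal.ofReal_mul zero_le_two, ← ENNReal.ofReal_mul zero_le_two,
          ← ENNReal.ofReal_add (by positivity) (by positivity)]
    _ ≤ ENNReal.ofReal ((2 * V + 2 * (C0 * (2 * B ^ 4)) * N) * k) := by
        refine ENNReal.ofReal_le_ofReal ?_
        have : V ≤ V * k := le_mul_of_one_le_right hV0 hk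
        nlinarith

end TamedLocal
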