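import Mathlib
import Pool.Agent.W_MP_d8b8b7_gt_L.BoundDS
import Pool.Agent.W_MP_d8b8b7_gt_L.E2Apply

/-! # All kernel estimates together -/

noncomputable section

open MeasureTheory Set Filter Topology
open scoped ContDiff ENNReal

namespace TamedLocal

/-- All kernel estimates together. `Pot` with a constant independent of `δ ∈ (0, 1]` — take the
maximum of the constants of `Setup.f_grad` (`b2`), `Setup.S_compare` + `Setup.f_compare` (`b3`),
`Setup.dS_pos` (`b4`), `Setup.dS_anti` (`b5`), `Setup.e2`. -/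
theorem Setup.pot {g gi J : E4 → (E4 →L[ℝ] E4)} {B r0 L R : ℝ} {χ : E4 → ℝ} {Ω Ω' : Set E4}
    {m : Measure (E4 × E4)} (h : Setup g gi J B χ Ω Ω' r0 L R m) :
    ∃ C : ℝ, ∀ δ, 0 < δ → Pot J Ω' C (fPot g χ m δ) (SPot g J χ m δ) (wPot χ m δ) := by
  obtain ⟨C1, hC1, h1⟩ := h.S_compare
  obtain ⟨C2, hC2, h2⟩ := h.dS_pos
  obtain ⟨C3, hC3, h3⟩ := h.dS_anti
  obtain ⟨C4, hC4, h4⟩ := h.e2
  have hB : 1 ≤ B := h.frame.one_le
  have hB4 : (1 : ℝ) ≤ B ^ 4 := one_le_pow₀ hB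
  have hB8 : (0 : ℝ) ≤ 2 * B ^ 8 := by positivity
  have hp1 : 0 ≤ C1 * B ^ 4 := by positivity
  have hp2 : 0 ≤ C2 * B ^ 4 := by positivity
  refine ⟨C1 * B ^ 4 + C2 * B ^ 4 + C3 + C4 + 2 * B ^ 8, fun δ hδ => ?_⟩
  obtain ⟨-, hwc, hu0, hw0⟩ := h.uw_basic hδ
  have key : ∀ x, 1 + uPot χ m δ x ≤ B ^ 4 * (1 - fPot g χ m δ x) := by
    intro x
    have := (h.f_compare hδ x).2.1
    linarith
  have hf0 : ∀ x, 0 ≤ 1 - fPot g χ m δ x := fun x => by
    have := (h.f_compare hδ x).1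
    linarith
  refine
    { f_C1 := (h.f_deriv hδ).1
      S_C1 := (h.S_basic hδ).1
      w_cont := hwc
      w_nonneg := hw0
      f_nonpos := fun x => (h.f_compare hδ x).1
      b2 := ?_
      b3 := ?_
      b4 := ?_
      b5 := ?_
      e2 := ?_ }
  · intro x _
    refine (h.f_grad hδ x).trans ?_
    exact mul_le_mul_of_nonneg_right (by linarith) (hw0 x)
  · intro x hx
    refine (h1 δ hδ x hx).trans ?_
    calc C1 * (1 + uPot χ m δ x) ≤ C1 * (B ^ 4 * (1 - fPot g χ m δ x)) :=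
          mul_le_mul_of_nonneg_left (key x) hC1
      _ = C1 * B ^ 4 * (1 - fPot g χ m δ x) := by ring
      _ ≤ _ := mul_le_mul_of_nonneg_right (by linarith) (hf0 x)
  · intro x hx v
    refine le_trans ?_ (h2 δ hδ x hx v)
    rw [neg_le_neg_iff]
    refine mul_le_mul_of_nonneg_right ?_ (sq_nonneg _)
    calc C2 * (1 + uPot χ m δ x) ≤ C2 * (B ^ 4 * (1 - fPot g χ m δ x)) :=
          mul_le_mul_of_nonneg_left (key x) hC2
      _ = C2 * B ^ 4 * (1 - fPot g χ m δ x) := by ring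
      _ ≤ _ := mul_le_mul_of_nonneg_right (by linarith) (hf0 x)
  · intro x hx u v
    refine (h3 δ hδ x hx u v).trans ?_
    refine mul_le_mul_of_nonneg_right (mul_le_mul_of_nonneg_right ?_ (norm_nonneg _))
      (norm_nonneg _)
    exact mul_le_mul_of_nonneg_right (by linarith) (by have := hw0 x; linarith)
  · intro k hk
    refine (h4 δ hδ k hk).trans (ENNReal.ofReal_le_ofReal ?_)
    exact mul_le_mul_of_nonneg_right (by linarith) (by linarith)

end TamedLocal
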