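import Mathlib
import Pool.Agent.W_MP_d8b8b7_gt_L.BoundF

/-! # Limit of the potentials as the regularisation tends to 0 -/

noncomputable section

open MeasureTheory Set Filter Topology
open scoped ContDiff ENNReal

namespace TamedLocal

variable {g gi J : E4 → (E4 →L[ℝ] E4)} {B r0 L R : ℝ} {χ : E4 → ℝ} {Ω Ω' : Set E4}
  {m : Measure (E4 × E4)}

/-! ### auxiliary facts -/

theorem Frame.pl_norm_g (h : Frame g gi J B) (y v : E4) : ‖g y v‖ ≤ B * ‖v‖ :=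
  ((g y).le_opNorm v).trans (mul_le_mul_of_nonneg_right (h.bound_g y) (norm_nonneg _))

theorem Frame.pl_norm_gi (h : Frame g gi J B) (y v : E4) : ‖v‖ ≤ B * ‖g y v‖ := by
  have h1 := (gi y).le_opNorm (g y v)
  rw [h.left_inv] at h1
  exact h1.trans (mul_le_mul_of_nonneg_right (h.bound_gi y) (norm_nonneg _))

/-- the integrand -/
def plA (g : E4 → (E4 →L[ℝ] E4)) (χ : E4 → ℝ) (δ : ℝ) (x : E4) (p : E4 × E4) : ℝ :=
  χ p.1 * K1 δ (‖Wp g x p.1‖ ^ 2) * ‖g p.1 p.2‖ ^ 2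

theorem plA_nonneg (hχ : ∀ y, 0 ≤ χ y) (δ : ℝ) (x : E4) (p : E4 × E4) : 0 ≤ plA g χ δ x p := by
  unfold plA K1
  have := hχ p.1
  positivity

theorem Setup.plA_cont (h : Setup g gi J B χ Ω Ω' r0 L R m) {δ : ℝ} (hδ : 0 < δ) (x : E4) :
    Continuous (plA g χ δ x) := by
  have hg : Continuous g := h.frame.smooth_g.continuous
  have hχ : Continuous χ := h.χ_smooth.continuous
  have h1 : Continuous fun p : E4 × E4 => g p.1 (x - p.1) :=
    (hg.comp continuous_fst).clm_apply (continuous_const.sub continuous_fst)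
  have h2 : Continuous fun p : E4 × E4 => g p.1 p.2 :=
    (hg.comp continuous_fst).clm_apply continuous_snd
  unfold plA K1 Wp
  refine ((hχ.comp continuous_fst).mul (Continuous.inv₀ ?_ ?_)).mul (h2.norm.pow 2)
  · exact (h1.norm.pow 2).add continuous_const
  · intro p
    positivity

theorem Setup.plA_int (h : Setup g gi J B χ Ω Ω' r0 L R m) {δ : ℝ} (hδ : 0 < δ) (x : E4) :
    Integrable (plA g χ δ x) m := by
  have := h.fin
  refine Integrable.of_bound (h.plA_cont hδ x).aestronglyMeasurable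
    ((δ ^ 2)⁻¹ * (B * R) ^ 2) ?_
  filter_upwards [h.vbdd] with p hp
  rw [Real.norm_eq_abs, abs_of_nonneg (plA_nonneg h.χ_nonneg δ x p)]
  unfold plA K1
  have hB : 0 ≤ B := zero_le_one.trans h.frame.one_le
  have h1 : ‖g p.1 p.2‖ ≤ B * R :=
    (h.frame.pl_norm_g _ _).trans (mul_le_mul_of_nonneg_left hp hB)
  have h2 : ‖g p.1 p.2‖ ^ 2 ≤ (B * R) ^ 2 := pow_le_pow_left₀ (norm_nonneg _) h1 2
  have h3 : (‖Wp g x p.1‖ ^ 2 + δ ^ 2)⁻¹ ≤ (δ ^ 2)⁻¹ := by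
    apply inv_anti₀ (by positivity)
    nlinarith [sq_nonneg ‖Wp g x p.1‖]
  have h4 : χ p.1 * (‖Wp g x p.1‖ ^ 2 + δ ^ 2)⁻¹ ≤ (δ ^ 2)⁻¹ := by
    calc χ p.1 * (‖Wp g x p.1‖ ^ 2 + δ ^ 2)⁻¹ ≤ 1 * (δ ^ 2)⁻¹ :=
          mul_le_mul (h.χ_le_one _) h3 (by positivity) zero_le_one
      _ = (δ ^ 2)⁻¹ := one_mul _
  exact mul_le_mul h4 h2 (by positivity) (by positivity)

theorem plA_mono (hχ : ∀ y, 0 ≤ χ y) {δ δ' : ℝ} (hδ : 0 < δ) (hδ' : δ ≤ δ') (x : E4)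
    (p : E4 × E4) : plA g χ δ' x p ≤ plA g χ δ x p := by
  unfold plA K1
  refine mul_le_mul_of_nonneg_right (mul_le_mul_of_nonneg_left ?_ (hχ _)) (by positivity)
  apply inv_anti₀ (by positivity)
  have : δ ^ 2 ≤ δ' ^ 2 := pow_le_pow_left₀ hδ.le hδ' 2
  linarith

theorem fPot_eq_plA (δ : ℝ) (x : E4) : fPot g χ m δ x = -∫ p, plA g χ δ x p ∂m := rfl

theorem pl_delta_pos (n : ℕ) : (0 : ℝ) < 1 / ((n : ℝ) + 1) := by positivity

theorem pl_delta_anti {n n' : ℕ} (h : n ≤ n') : (1 : ℝ) / ((n' : ℝ) + 1) ≤ 1 / ((n : ℝ) + 1) := by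
  apply one_div_le_one_div_of_le (by positivity)
  have : (n : ℝ) ≤ n' := by exact_mod_cast h
  linarith

/-- the density of the Newton potential -/
def plN (x : E4) (p : E4 × E4) : ℝ≥0∞ :=
  ENNReal.ofReal (‖p.2‖ ^ 2) * (ENNReal.ofReal (‖x - p.1‖ ^ 2))⁻¹

theorem plN_meas (x : E4) : Measurable (plN x) := by
  unfold plN
  refine Measurable.mul ?_ ?_
  · exact (ENNReal.continuous_ofReal.measurable).comp ((continuous_snd.norm.pow 2).measurable)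
  · refine Measurable.inv ?_
    exact (ENNReal.continuous_ofReal.measurable).comp
      (((continuous_const.sub continuous_fst).norm.pow 2).measurable)

theorem pl_newton_eq (m : Measure (E4 × E4)) (x : E4) : newton (trM m) x = ∫⁻ p, plN x p ∂m := by
  unfold newton trM
  have h1 : Measurable fun y : E4 => (ENNReal.ofReal (‖x - y‖ ^ 2))⁻¹ := by
    refine Measurable.inv ?_
    exact (ENNReal.continuous_ofReal.measurable).comp
      (((continuous_const.sub continuous_id).norm.pow 2).measurable)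
  have h2 : Measurable fun p : E4 × E4 => ENNReal.ofReal (‖p.2‖ ^ 2) :=
    (ENNReal.continuous_ofReal.measurable).comp ((continuous_snd.norm.pow 2).measurable)
  rw [lintegral_map h1 measurable_fst]
  exact lintegral_withDensity_eq_lintegral_mul m h2 (h1.comp measurable_fst)

/-- upper bound of the integrand -/
theorem Setup.plA_le (h : Setup g gi J B χ Ω Ω' r0 L R m) {δ : ℝ} (hδ : 0 < δ) (x : E4)
    (p : E4 × E4) :
    ENNReal.ofReal (plA g χ δ x p) ≤ ENNReal.ofReal (B ^ 4) * plN x p := by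
  have hB : 1 ≤ B := h.frame.one_le
  have hB0 : 0 < B := by linarith
  have h1 := h.frame.pl_norm_g p.1 p.2
  by_cases hv : p.2 = 0
  · have : plA g χ δ x p = 0 := by unfold plA; rw [hv]; simp
    rw [this]; simp
  by_cases hx : x - p.1 = 0
  · have h2 : plN x p = ⊤ := by
      unfold plN
      rw [hx]
      simp only [norm_zero, ne_eq, OfNat.ofNat_ne_zero, not_false_eq_true, zero_pow,
        ENNReal.ofReal_zero, ENNReal.inv_zero]
      apply ENNReal.mul_top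
      rw [ne_eq, ENNReal.ofReal_eq_zero, not_le]
      have := norm_pos_iff.mpr hv
      positivity
    rw [h2, ENNReal.mul_top]
    · exact le_top
    · rw [ne_eq, ENNReal.ofReal_eq_zero, not_le]; positivity
  · have hxp : 0 < ‖x - p.1‖ := norm_pos_iff.mpr hx
    have h3 := h.frame.pl_norm_gi p.1 (x - p.1)
    unfold plN
    rw [← ENNReal.ofReal_inv_of_pos (by positivity), ← ENNReal.ofReal_mul (by positivity),
      ← ENNReal.ofReal_mul (by positivity)]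
    apply ENNReal.ofReal_le_ofReal
    unfold plA K1
    have h4 : ‖x - p.1‖ ^ 2 ≤ B ^ 2 * (‖Wp g x p.1‖ ^ 2 + δ ^ 2) := by
      have : ‖x - p.1‖ ^ 2 ≤ (B * ‖Wp g x p.1‖) ^ 2 := pow_le_pow_left₀ (norm_nonneg _) h3 2
      nlinarith [sq_nonneg (B * δ)]
    have h5 : (‖Wp g x p.1‖ ^ 2 + δ ^ 2)⁻¹ ≤ B ^ 2 * (‖x - p.1‖ ^ 2)⁻¹ := by
      have hpos : 0 < ‖Wp g x p.1‖ ^ 2 + δ ^ 2 := by positivity
      rw [inv_le_iff_one_le_mul₀ hpos]
      have hne : (‖x - p.1‖ ^ 2) ≠ 0 := by positivity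
      calc (1 : ℝ) = ‖x - p.1‖ ^ 2 * (‖x - p.1‖ ^ 2)⁻¹ := (mul_inv_cancel₀ hne).symm
        _ ≤ B ^ 2 * (‖Wp g x p.1‖ ^ 2 + δ ^ 2) * (‖x - p.1‖ ^ 2)⁻¹ :=
            mul_le_mul_of_nonneg_right h4 (by positivity)
        _ = B ^ 2 * (‖x - p.1‖ ^ 2)⁻¹ * (‖Wp g x p.1‖ ^ 2 + δ ^ 2) := by ring
    have h6 : ‖g p.1 p.2‖ ^ 2 ≤ B ^ 2 * ‖p.2‖ ^ 2 := by
      rw [← mul_pow]; exact pow_le_pow_left₀ (norm_nonneg _) h1 2
    calc χ p.1 * (‖Wp g x p.1‖ ^ 2 + δ ^ 2)⁻¹ * ‖g p.1 p.2‖ ^ 2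
        ≤ (1 * (B ^ 2 * (‖x - p.1‖ ^ 2)⁻¹)) * (B ^ 2 * ‖p.2‖ ^ 2) := by
          refine mul_le_mul (mul_le_mul (h.χ_le_one _) h5 (by positivity) zero_le_one) h6
            (by positivity) (by positivity)
      _ = B ^ 4 * (‖p.2‖ ^ 2 * (‖x - p.1‖ ^ 2)⁻¹) := by ring

theorem Setup.plA_lint (h : Setup g gi J B χ Ω Ω' r0 L R m) {δ : ℝ} (hδ : 0 < δ) (x : E4) :
    ∫ p, plA g χ δ x p ∂m = (∫⁻ p, ENNReal.ofReal (plA g χ δ x p) ∂m).toReal := by
  rw [integral_eq_lintegral_of_nonneg_ae (Filter.Eventually.of_forall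
    fun p => plA_nonneg h.χ_nonneg δ x p) (h.plA_cont hδ x).aestronglyMeasurable]

theorem Setup.plA_lint_ne_top (h : Setup g gi J B χ Ω Ω' r0 L R m) {δ : ℝ} (hδ : 0 < δ) (x : E4) :
    ∫⁻ p, ENNReal.ofReal (plA g χ δ x p) ∂m ≠ ⊤ := by
  have h1 := (h.plA_int hδ x).hasFiniteIntegral
  rw [hasFiniteIntegral_iff_ofReal (Filter.Eventually.of_forall
    fun p => plA_nonneg h.χ_nonneg δ x p)] at h1
  exact h1.ne

/-- Limit of `f_{δ_n}`, `δ_n = 1/(n+1)`, at points of `Ω'` where the Newton potential is finite.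
The integrands `χ K1 δ |W|^2 |g v|^2` increase as `δ` decreases; they are dominated by
`B^4 |v|^2 |x-y|^{-2}`, integrable because `newton (trM m) x < ⊤` (note that then
`trM m {x} = 0`, so the diagonal is negligible for `|v|^2 dm`). -/
theorem Setup.lim_finite (h : Setup g gi J B χ Ω Ω' r0 L R m) {x : E4}
    (hx : newton (trM m) x < ⊤) :
    ∃ l : ℝ, Tendsto (fun n : ℕ => fPot g χ m (1 / (n + 1)) x) atTop (𝓝 l) := by
  have hanti : Antitone fun n : ℕ => fPot g χ m (1 / (n + 1)) x := by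
    intro n n' hnn
    simp only [fPot_eq_plA]
    apply neg_le_neg
    exact integral_mono (h.plA_int (pl_delta_pos n) x) (h.plA_int (pl_delta_pos n') x)
      fun p => plA_mono h.χ_nonneg (pl_delta_pos n') (pl_delta_anti hnn) x p
  have hbdd : BddBelow (Set.range fun n : ℕ => fPot g χ m (1 / (n + 1)) x) := by
    refine ⟨-(ENNReal.ofReal (B ^ 4) * newton (trM m) x).toReal, ?_⟩
    rintro _ ⟨n, rfl⟩
    simp only [fPot_eq_plA]
    apply neg_le_neg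
    rw [h.plA_lint (pl_delta_pos n) x]
    apply ENNReal.toReal_mono
    · exact (ENNReal.mul_lt_top ENNReal.ofReal_lt_top hx).ne
    · rw [pl_newton_eq, ← lintegral_const_mul _ (plN_meas x)]
      exact lintegral_mono fun p => h.plA_le (pl_delta_pos n) x p
  exact ⟨_, tendsto_atTop_ciInf hanti hbdd⟩

/-- the limit integrand -/
def plI (g : E4 → (E4 →L[ℝ] E4)) (χ : E4 → ℝ) (x : E4) (p : E4 × E4) : ℝ≥0∞ :=
  ENNReal.ofReal (χ p.1) * (ENNReal.ofReal (‖Wp g x p.1‖ ^ 2))⁻¹ *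
    ENNReal.ofReal (‖g p.1 p.2‖ ^ 2)

theorem plA_tendsto (hχ : ∀ y, 0 ≤ χ y) (x : E4) (p : E4 × E4) :
    Tendsto (fun n : ℕ => ENNReal.ofReal (plA g χ (1 / (n + 1)) x p)) atTop
      (𝓝 (plI g χ x p)) := by
  have h1 : ∀ n : ℕ, ENNReal.ofReal (plA g χ (1 / (n + 1)) x p) = ENNReal.ofReal (χ p.1) *
      (ENNReal.ofReal (‖Wp g x p.1‖ ^ 2 + (1 / ((n : ℝ) + 1)) ^ 2))⁻¹ *
        ENNReal.ofReal (‖g p.1 p.2‖ ^ 2) := by
    intro n
    have hp := pl_delta_pos n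
    have := hχ p.1
    unfold plA K1
    rw [ENNReal.ofReal_mul (by positivity), ENNReal.ofReal_mul (hχ _),
      ENNReal.ofReal_inv_of_pos (by positivity)]
  simp only [h1]
  unfold plI
  refine ENNReal.Tendsto.mul_const (ENNReal.Tendsto.const_mul ?_ (Or.inr ENNReal.ofReal_ne_top))
    (Or.inr ENNReal.ofReal_ne_top)
  have h2 : Tendsto (fun n : ℕ => ‖Wp g x p.1‖ ^ 2 + (1 / ((n : ℝ) + 1)) ^ 2) atTop
      (𝓝 (‖Wp g x p.1‖ ^ 2)) := by
    have h3 := (tendsto_one_div_add_atTop_nhds_zero_nat (𝕜 := ℝ)).pow 2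
    have h4 := h3.const_add (‖Wp g x p.1‖ ^ 2)
    simpa using h4
  exact ((ENNReal.continuous_ofReal.tendsto _).comp h2).inv

/-- lower bound near the pole -/
theorem Setup.plI_ge (h : Setup g gi J B χ Ω Ω' r0 L R m) {x : E4} (hx' : x ∈ Ω') (p : E4 × E4)
    (hp : ‖x - p.1‖ < r0) :
    ((ENNReal.ofReal (B ^ 2))⁻¹ * (ENNReal.ofReal (B ^ 2))⁻¹) * plN x p ≤ plI g χ x p := by
  have hB : 1 ≤ B := h.frame.one_le
  have hB0 : 0 < B := by linarith
  have hc0 : ENNReal.ofReal (B ^ 2) ≠ 0 := by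
    rw [ne_eq, ENNReal.ofReal_eq_zero, not_le]; positivity
  have hct : ENNReal.ofReal (B ^ 2) ≠ ⊤ := ENNReal.ofReal_ne_top
  have hχ : χ p.1 = 1 := h.near x hx' p.1 hp
  have h1 : ENNReal.ofReal (‖Wp g x p.1‖ ^ 2) ≤
      ENNReal.ofReal (B ^ 2) * ENNReal.ofReal (‖x - p.1‖ ^ 2) := by
    rw [← ENNReal.ofReal_mul (by positivity)]
    apply ENNReal.ofReal_le_ofReal
    rw [← mul_pow]
    exact pow_le_pow_left₀ (norm_nonneg _) (h.frame.pl_norm_g p.1 (x - p.1)) 2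
  have h2 : (ENNReal.ofReal (B ^ 2))⁻¹ * (ENNReal.ofReal (‖x - p.1‖ ^ 2))⁻¹ ≤
      (ENNReal.ofReal (‖Wp g x p.1‖ ^ 2))⁻¹ := by
    rw [← ENNReal.mul_inv (Or.inl hc0) (Or.inl hct)]
    exact ENNReal.inv_le_inv.mpr h1
  have h3 : (ENNReal.ofReal (B ^ 2))⁻¹ * ENNReal.ofReal (‖p.2‖ ^ 2) ≤
      ENNReal.ofReal (‖g p.1 p.2‖ ^ 2) := by
    have h4 : ENNReal.ofReal (‖p.2‖ ^ 2) ≤
        ENNReal.ofReal (B ^ 2) * ENNReal.ofReal (‖g p.1 p.2‖ ^ 2) := by
      rw [← ENNReal.ofReal_mul (by positivity)]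
      apply ENNReal.ofReal_le_ofReal
      rw [← mul_pow]
      exact pow_le_pow_left₀ (norm_nonneg _) (h.frame.pl_norm_gi p.1 p.2) 2
    calc (ENNReal.ofReal (B ^ 2))⁻¹ * ENNReal.ofReal (‖p.2‖ ^ 2)
        ≤ (ENNReal.ofReal (B ^ 2))⁻¹ *
          (ENNReal.ofReal (B ^ 2) * ENNReal.ofReal (‖g p.1 p.2‖ ^ 2)) := mul_le_mul_right h4 _
      _ = ENNReal.ofReal (‖g p.1 p.2‖ ^ 2) := by
          rw [← mul_assoc, ENNReal.inv_mul_cancel hc0 hct, one_mul]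
  unfold plI plN
  rw [hχ, ENNReal.ofReal_one, one_mul]
  calc (ENNReal.ofReal (B ^ 2))⁻¹ * (ENNReal.ofReal (B ^ 2))⁻¹ *
        (ENNReal.ofReal (‖p.2‖ ^ 2) * (ENNReal.ofReal (‖x - p.1‖ ^ 2))⁻¹)
      = ((ENNReal.ofReal (B ^ 2))⁻¹ * (ENNReal.ofReal (‖x - p.1‖ ^ 2))⁻¹) *
        ((ENNReal.ofReal (B ^ 2))⁻¹ * ENNReal.ofReal (‖p.2‖ ^ 2)) := by ring
    _ ≤ _ := mul_le_mul' h2 h3

theorem Setup.pl_far (h : Setup g gi J B χ Ω Ω' r0 L R m) (x : E4) :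
    ∫⁻ p in {p : E4 × E4 | ‖x - p.1‖ < r0}ᶜ, plN x p ∂m < ⊤ := by
  have := h.fin
  have hr := h.r0_pos
  have hR : 0 ≤ R := zero_le_one.trans h.one_le_R
  have h1 : ∀ᵐ p ∂m, p ∈ {p : E4 × E4 | ‖x - p.1‖ < r0}ᶜ →
      plN x p ≤ ENNReal.ofReal (R ^ 2) * (ENNReal.ofReal (r0 ^ 2))⁻¹ := by
    filter_upwards [h.vbdd] with p hp hfar
    have hfar' : r0 ≤ ‖x - p.1‖ := not_lt.mp hfar
    unfold plN
    refine mul_le_mul' (ENNReal.ofReal_le_ofReal (pow_le_pow_left₀ (norm_nonneg _) hp 2)) ?_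
    exact ENNReal.inv_le_inv.mpr (ENNReal.ofReal_le_ofReal (pow_le_pow_left₀ hr.le hfar' 2))
  have hmeas : MeasurableSet {p : E4 × E4 | ‖x - p.1‖ < r0} :=
    (isOpen_lt (continuous_const.sub continuous_fst).norm continuous_const).measurableSet
  calc ∫⁻ p in {p : E4 × E4 | ‖x - p.1‖ < r0}ᶜ, plN x p ∂m
      ≤ ∫⁻ _p in {p : E4 × E4 | ‖x - p.1‖ < r0}ᶜ,
          ENNReal.ofReal (R ^ 2) * (ENNReal.ofReal (r0 ^ 2))⁻¹ ∂m :=
        setLIntegral_mono_ae' hmeas.compl h1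
    _ = ENNReal.ofReal (R ^ 2) * (ENNReal.ofReal (r0 ^ 2))⁻¹ *
          m {p : E4 × E4 | ‖x - p.1‖ < r0}ᶜ := setLIntegral_const _ _
    _ < ⊤ := by
        refine ENNReal.mul_lt_top (ENNReal.mul_lt_top ENNReal.ofReal_lt_top ?_)
          (measure_lt_top _ _)
        rw [ENNReal.inv_lt_top, ENNReal.ofReal_pos]
        positivity

/-- Limit of `f_{δ_n}` at points of `Ω'` where the Newton potential is infinite: `-∞`.
`- f_δ(x) ≥ B^{-4} ∫_{|x-y| < r0} |v|^2 (|x-y|^2+δ^2)^{-1} dm` (as `χ = 1` on the ball), which tends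
to `B^{-4} ∫_{|x-y|<r0} |v|^2 |x-y|^{-2} dm = ∞` by monotone convergence, because the part
`|x-y| ≥ r0` of the Newton potential is at most `r0^{-2} R^2 m(univ)`. -/
theorem Setup.lim_infinite (h : Setup g gi J B χ Ω Ω' r0 L R m) {x : E4} (hx' : x ∈ Ω')
    (hx : newton (trM m) x = ⊤) :
    Tendsto (fun n : ℕ => fPot g χ m (1 / (n + 1)) x) atTop atBot := by
  have hB0 : 0 < B := by have := h.frame.one_le; linarith
  have hmeas : MeasurableSet {p : E4 × E4 | ‖x - p.1‖ < r0} :=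
    (isOpen_lt (continuous_const.sub continuous_fst).norm continuous_const).measurableSet
  -- monotone convergence
  have hlim : Tendsto (fun n : ℕ => ∫⁻ p, ENNReal.ofReal (plA g χ (1 / (n + 1)) x p) ∂m) atTop
      (𝓝 (∫⁻ p, plI g χ x p ∂m)) := by
    refine lintegral_tendsto_of_tendsto_of_monotone (fun n => ?_) ?_ ?_
    · exact ((h.plA_cont (pl_delta_pos n) x).measurable.ennreal_ofReal).aemeasurable
    · refine Filter.Eventually.of_forall fun p => ?_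
      intro n n' hnn
      exact ENNReal.ofReal_le_ofReal
        (plA_mono h.χ_nonneg (pl_delta_pos n') (pl_delta_anti hnn) x p)
    · exact Filter.Eventually.of_forall fun p => plA_tendsto h.χ_nonneg x p
  -- the limit is infinite
  have hnear : ∫⁻ p in {p : E4 × E4 | ‖x - p.1‖ < r0}, plN x p ∂m = ⊤ := by
    have h1 := lintegral_add_compl (μ := m) (plN x) hmeas
    rw [← pl_newton_eq m x, hx] at h1
    by_contra hne
    exact (ENNReal.add_lt_top.mpr ⟨lt_top_iff_ne_top.mpr hne, h.pl_far x⟩).ne h1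
  have htop : ∫⁻ p, plI g χ x p ∂m = ⊤ := by
    rw [eq_top_iff]
    have hc : (ENNReal.ofReal (B ^ 2))⁻¹ * (ENNReal.ofReal (B ^ 2))⁻¹ ≠ 0 := by
      rw [ne_eq, mul_eq_zero, not_or, ENNReal.inv_eq_zero]
      exact ⟨ENNReal.ofReal_ne_top, ENNReal.ofReal_ne_top⟩
    calc (⊤ : ℝ≥0∞) = ((ENNReal.ofReal (B ^ 2))⁻¹ * (ENNReal.ofReal (B ^ 2))⁻¹) *
          ∫⁻ p in {p : E4 × E4 | ‖x - p.1‖ < r0}, plN x p ∂m := by
            rw [hnear, ENNReal.mul_top hc]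
      _ = ∫⁻ p in {p : E4 × E4 | ‖x - p.1‖ < r0},
          ((ENNReal.ofReal (B ^ 2))⁻¹ * (ENNReal.ofReal (B ^ 2))⁻¹) * plN x p ∂m := by
            rw [lintegral_const_mul _ (plN_meas x)]
      _ ≤ ∫⁻ p in {p : E4 × E4 | ‖x - p.1‖ < r0}, plI g χ x p ∂m :=
          setLIntegral_mono' hmeas fun p hp => h.plI_ge hx' p hp
      _ ≤ ∫⁻ p, plI g χ x p ∂m := setLIntegral_le_lintegral _ _
  rw [htop, ENNReal.tendsto_nhds_top_iff_nnreal] at hlim
  have hat : Tendsto (fun n : ℕ => ∫ p, plA g χ (1 / (n + 1)) x p ∂m) atTop atTop := by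
    rw [tendsto_atTop]
    intro b
    filter_upwards [hlim b.toNNReal] with n hn
    rw [h.plA_lint (pl_delta_pos n) x]
    have h1 : ENNReal.ofReal b ≤ ∫⁻ p, ENNReal.ofReal (plA g χ (1 / (n + 1)) x p) ∂m := hn.le
    exact (ENNReal.ofReal_le_iff_le_toReal (h.plA_lint_ne_top (pl_delta_pos n) x)).mp h1
  exact tendsto_neg_atTop_atBot.comp hat

end TamedLocal
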