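import Mathlib
import Pool.Agent.W_MP_d8b8b7_gt_L.PotAll
import Pool.Agent.W_MP_d8b8b7_gt_L.PotLimit
import Pool.Agent.W_MP_d8b8b7_gt_L.NewtonAE
import Pool.Agent.W_MP_d8b8b7_gt_L.CutLimit

/-! # Local El Mir lemma, global frame -/

noncomputable section

open MeasureTheory Set Filter Topology
open scoped ContDiff ENNReal

namespace TamedLocal

/-- The set where the Newton potential of the trace measure is finite. -/
def finSet (m : Measure (E4 × E4)) : Set E4 := {x | newton (trM m) x < ⊤}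

/-- `J` in terms of the frame. -/
theorem elMirFrame_J_eq {g gi J : E4 → (E4 →L[ℝ] E4)} {B : ℝ} (hF : Frame g gi J B) :
    J = fun y => (gi y).comp (J0.comp (g y)) := by
  funext y
  ext1 v
  exact hF.J_eq y v

theorem elMirFrame_continuous_J {g gi J : E4 → (E4 →L[ℝ] E4)} {B : ℝ} (hF : Frame g gi J B) :
    Continuous J := by
  rw [elMirFrame_J_eq hF]
  exact hF.smooth_gi.continuous.clm_comp (continuous_const.clm_comp hF.smooth_g.continuous)

theorem elMirFrame_J0_sq (v : E4) : J0 (J0 v) = -v := by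
  ext i
  fin_cases i <;> simp [J0]

theorem elMirFrame_J_sq {g gi J : E4 → (E4 →L[ℝ] E4)} {B : ℝ} (hF : Frame g gi J B) (y v : E4) :
    J y (J y v) = -v := by
  rw [hF.J_eq, hF.J_eq, hF.right_inv, elMirFrame_J0_sq, map_neg, hF.left_inv]

/-- A smooth cut-off function between thickenings of a compact set. -/
theorem elMirFrame_cutoff {K : Set E4} (hK : IsCompact K) {r : ℝ} (hr : 0 < r) :
    ∃ χ : E4 → ℝ, ContDiff ℝ ∞ χ ∧ HasCompactSupport χ ∧
      tsupport χ ⊆ Metric.cthickening (4 * r) K ∧ (∀ y, 0 ≤ χ y) ∧ (∀ y, χ y ≤ 1) ∧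
      ∀ y ∈ Metric.cthickening (3 * r) K, χ y = 1 := by
  have hsub : Metric.cthickening (3 * r) K ⊆ interior (Metric.cthickening (4 * r) K) :=
    (Metric.cthickening_subset_thickening' (by linarith) (by linarith) K).trans
      (Metric.thickening_subset_interior_cthickening _ _)
  obtain ⟨f, h1, h0, hf⟩ := exists_contMDiffMap_one_nhds_of_subset_interior
    (modelWithCornersSelf ℝ E4) (n := ⊤) Metric.isClosed_cthickening hsub
  have hsupp : tsupport (f : E4 → ℝ) ⊆ Metric.cthickening (4 * r) K := by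
    refine closure_minimal ?_ Metric.isClosed_cthickening
    intro x hx
    by_contra hc
    exact hx (h0 x hc)
  refine ⟨f, f.contMDiff.contDiff, ?_, hsupp, fun y => (hf y).1, fun y => (hf y).2, ?_⟩
  · exact (hK.cthickening).of_isClosed_subset (isClosed_tsupport _) hsupp
  · intro y hy
    exact h1.self_of_nhdsSet y hy

/-- The trace measure of a finite measure on bounded vectors is finite. -/
theorem elMirFrame_finite_trM {m : Measure (E4 × E4)} [IsFiniteMeasure m] {R : ℝ}
    (hR : ∀ᵐ p ∂m, ‖p.2‖ ≤ R) : IsFiniteMeasure (trM m) := by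
  have h1 : ∫⁻ p, ENNReal.ofReal (‖p.2‖ ^ 2) ∂m ≠ ⊤ := by
    have h2 : ∫⁻ p, ENNReal.ofReal (‖p.2‖ ^ 2) ∂m ≤ ∫⁻ _, ENNReal.ofReal (R ^ 2) ∂m := by
      refine lintegral_mono_ae ?_
      filter_upwards [hR] with p hp
      exact ENNReal.ofReal_le_ofReal (pow_le_pow_left₀ (norm_nonneg _) hp 2)
    refine (h2.trans_lt ?_).ne
    rw [lintegral_const]
    exact ENNReal.mul_lt_top ENNReal.ofReal_lt_top (measure_lt_top m _)
  have h3 : IsFiniteMeasure (m.withDensity (fun p => ENNReal.ofReal (‖p.2‖ ^ 2))) :=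
    isFiniteMeasure_withDensity h1
  unfold trM
  infer_instance

/-- **Local El Mir lemma, global frame.** Let `α` be a smooth test form on `Ω`,
`K = tsupport α`. Choose `r0 > 0` with `cthickening (4 r0) K ⊆ Ω`, `Ω' = thickening r0 K`, `χ` smooth with
compact support in `Ω`, `χ = 1` on `thickening (3 r0) K`. Then `Setup` holds (with `R ≥ 1`,
`L` large); `Setup.pot`, `closedOn1_of_closedOn` for `(mT, τ)` on `Ω` (hence on `Ω'`), and
`cut_limit` with `f n = fPot g χ mP (1/(n+1))`, `G = finSet mP`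
(`Setup.lim_finite`, `Setup.lim_infinite`, `newton_ae_lt_top`, `measurable_newton`; the measure
`trM mP` is finite because `|v| ≤ R`). -/
theorem elMir_frame {g gi J : E4 → (E4 →L[ℝ] E4)} {B : ℝ} (hF : Frame g gi J B) {Ω : Set E4}
    (hΩ : IsOpen Ω) {mP mT : Measure (E4 × E4)} [IsFiniteMeasure mP] [IsFiniteMeasure mT] {R : ℝ}
    (hRP : ∀ᵐ p ∂mP, ‖p.2‖ ≤ R) (hRT : ∀ᵐ p ∂mT, ‖p.2‖ ≤ R)
    {τ : E4 → Fin 4 → Fin 4 → ℝ} (hτ : AntiInv J Ω τ)
    (hP : ClosedOn J Ω mP (fun _ _ _ => 0)) (hT : ClosedOn J Ω mT τ)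
    {α : E4 → (E4 →L[ℝ] ℝ)} (hα : IsTest ⊤ Ω α) :
    pairM J mT (fun y u v => (finSet mP).indicator (fun _ => (1 : ℝ)) y * dF α y u v)
      + pairT τ (dF α) = 0 := by
  have hK : IsCompact (tsupport α) := hα.compact
  obtain ⟨δ, hδ, hδΩ⟩ := hK.exists_cthickening_subset_open hΩ hα.supp
  set r : ℝ := δ / 4 with hr
  have hr0 : 0 < r := by positivity
  have h4 : 4 * r = δ := by rw [hr]; ring
  obtain ⟨χ, hχ1, hχ2, hχ3, hχ4, hχ5, hχ6⟩ := elMirFrame_cutoff hK hr0
  have hcl4 : Metric.cthickening (4 * r) (tsupport α) ⊆ Ω := by rw [h4]; exact hδΩ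
  set Ω' : Set E4 := Metric.thickening r (tsupport α) with hΩ'
  have hΩ'4 : Ω' ⊆ Metric.cthickening (4 * r) (tsupport α) :=
    Metric.thickening_subset_cthickening_of_le (by linarith) _
  have hΩ'Ω : Ω' ⊆ Ω := hΩ'4.trans hcl4
  have hΩ'o : IsOpen Ω' := Metric.isOpen_thickening
  have hJc : Continuous J := elMirFrame_continuous_J hF
  obtain ⟨L, hL⟩ := Metric.isBounded_iff.1 (hK.cthickening (r := 4 * r)).isBounded
  have hset : Setup g gi J B χ Ω Ω' r (max L 1) (max R 1) mP :=
    { frame := hF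
      open_Ω := hΩ
      open_Ω' := hΩ'o
      χ_smooth := hχ1
      χ_compact := hχ2
      χ_supp := hχ3.trans hcl4
      χ_nonneg := hχ4
      χ_le_one := hχ5
      r0_pos := hr0
      near := by
        intro x hx y hxy
        apply hχ6
        rw [hΩ', Metric.mem_thickening_iff] at hx
        obtain ⟨z, hz, hxz⟩ := hx
        refine Metric.mem_cthickening_of_dist_le y z _ _ hz ?_
        have h1 : dist y x < r := by rw [dist_comm, dist_eq_norm]; exact hxy
        have h2 := dist_triangle y x z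
        linarith
      one_le_L := le_max_right _ _
      bdd := by
        intro x hx y hy
        have h1 := hL (hΩ'4 hx) (hχ3 hy)
        rw [dist_eq_norm] at h1
        exact h1.trans (le_max_left _ _)
      one_le_R := le_max_right _ _
      fin := inferInstance
      vbdd := hRP.mono fun p hp => hp.trans (le_max_left _ _)
      closed := hP }
  obtain ⟨C, hC⟩ := hset.pot
  have hτ' : AntiInv J Ω' τ :=
    { memLp := hτ.memLp
      anti := hτ.anti.mono fun y hy hyΩ => hy (hΩ'Ω hyΩ) }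
  have hT' : ClosedOn J Ω' mT τ := fun β hβ =>
    hT β { smooth := hβ.smooth, compact := hβ.compact, supp := hβ.supp.trans hΩ'Ω }
  have hcl : ClosedOn1 J Ω' mT τ := closedOn1_of_closedOn hJc hΩ'o hRT hτ.memLp hT'
  have hfinm : IsFiniteMeasure (trM mP) := elMirFrame_finite_trM hRP
  refine cut_limit hJc hΩ'o (fun y _ v => elMirFrame_J_sq hF y v) hRT hτ' hcl
    (f := fun n => fPot g χ mP (1 / ((n : ℝ) + 1)))
    (S := fun n => SPot g J χ mP (1 / ((n : ℝ) + 1)))
    (w := fun n => wPot χ mP (1 / ((n : ℝ) + 1))) (C := C)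
    (fun n => hC _ (by positivity)) (G := finSet mP) ?_ ?_ ?_ ?_ ?_
  · exact measurableSet_lt (measurable_newton _) measurable_const
  · rintro x ⟨-, hx⟩
    exact hset.lim_finite hx
  · rintro x ⟨hx, hxG⟩
    exact hset.lim_infinite hx (not_lt_top_iff.1 hxG)
  · have h1 := newton_ae_lt_top (trM mP)
    refine measure_mono_null ?_ (ae_iff.1 h1)
    rintro x ⟨-, hx⟩
    exact hx
  · exact
      { smooth := hα.smooth.of_le (by exact_mod_cast le_top)
        compact := hα.compact
        supp := Metric.self_subset_thickening hr0 _ }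

end TamedLocal
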