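import Mathlib
import Pool.Agent.W_MP_d8b8b7_gt_L.Algebra

/-! # Local frames adapted to an almost complex structure -/

noncomputable section

open MeasureTheory Set Filter Topology
open scoped ContDiff ENNReal

namespace TamedLocal

/-- Linear complex structures on real vector spaces of the same finite dimension are conjugate. -/
theorem conj_aux {V W : Type} [AddCommGroup V] [Module ℝ V] [FiniteDimensional ℝ V]
    [AddCommGroup W] [Module ℝ W] [FiniteDimensional ℝ W]
    (hdim : Module.finrank ℝ V = Module.finrank ℝ W)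
    (J : Module.End ℝ V) (hJ : ∀ v, J (J v) = -v) (K : Module.End ℝ W)
    (hK : ∀ w, K (K w) = -w) :
    ∃ e : V ≃ₗ[ℝ] W, ∀ v, e (J v) = K (e v) := by
  have hJ' : J * J = -1 := by
    ext v
    simpa using hJ v
  have hK' : K * K = -1 := by
    ext v
    simpa using hK v
  let fJ : ℂ →ₐ[ℝ] Module.End ℝ V := Complex.lift ⟨J, hJ'⟩
  let fK : ℂ →ₐ[ℝ] Module.End ℝ W := Complex.lift ⟨K, hK'⟩
  let mV : Module ℂ V := Module.compHom V fJ.toRingHom
  let mW : Module ℂ W := Module.compHom W fK.toRingHom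
  have sV : ∀ (z : ℂ) (v : V), z • v = fJ z v := fun z v => rfl
  have sW : ∀ (z : ℂ) (v : W), z • v = fK z v := fun z v => rfl
  have tV : IsScalarTower ℝ ℂ V := ⟨fun r z v => by
    rw [sV, sV, map_smul]; rfl⟩
  have tW : IsScalarTower ℝ ℂ W := ⟨fun r z v => by
    rw [sW, sW, map_smul]; rfl⟩
  have : FiniteDimensional ℂ V := FiniteDimensional.right ℝ ℂ V
  have : FiniteDimensional ℂ W := FiniteDimensional.right ℝ ℂ W
  have h1 := Module.finrank_mul_finrank ℝ ℂ V
  have h2 := Module.finrank_mul_finrank ℝ ℂ W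
  rw [Complex.finrank_real_complex] at h1 h2
  have h3 : Module.finrank ℂ V = Module.finrank ℂ W := by omega
  let e : V ≃ₗ[ℂ] W := LinearEquiv.ofFinrankEq V W h3
  refine ⟨e.restrictScalars ℝ, fun v => ?_⟩
  have h4 : J v = Complex.I • v := by
    rw [sV]
    simp [fJ]
  have h5 : ∀ w : W, K w = Complex.I • w := by
    intro w
    rw [sW]
    simp [fK]
  rw [h4, h5]
  simp

/-- Every linear complex structure on `R^4` is conjugate to `J0`.
Proof. Pick `v1 ≠ 0`; `v1, J1 v1` are independent; pick `v3` outside their span, then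
`v1, J1 v1, v3, J1 v3` is a basis (if `a v3 + b J1 v3` lies in the `J1`-invariant plane
`span (v1, J1 v1)` with `(a,b) ≠ 0`, apply `a - b J1` to get `v3` in it). Let `Bi` map
`e0,e1,e2,e3` to `v1, J1 v1, v3, J1 v3` and let `B0` be its inverse. -/
theorem exists_conj (J1 : E4 →L[ℝ] E4) (h : ∀ v, J1 (J1 v) = -v) :
    ∃ B0 Bi : E4 →L[ℝ] E4, (∀ v, Bi (B0 v) = v) ∧ (∀ v, B0 (Bi v) = v) ∧
      ∀ v, B0 (J1 v) = J0 (B0 v) := by
  obtain ⟨e, he⟩ := conj_aux (V := E4) (W := E4) rfl (J1 : E4 →ₗ[ℝ] E4) h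
    (J0 : E4 →ₗ[ℝ] E4) (fun w => by
      ext i
      fin_cases i <;> simp [J0])
  refine ⟨LinearMap.toContinuousLinearMap (e : E4 →ₗ[ℝ] E4),
    LinearMap.toContinuousLinearMap (e.symm : E4 →ₗ[ℝ] E4), ?_, ?_, ?_⟩
  · intro v; simp
  · intro v; simp
  · intro v
    exact he v

/-- A continuous function which is constant outside a compact set is bounded. -/
theorem bdd_of_const_outside {F : Type} [NormedAddCommGroup F] {f : E4 → F} (hf : Continuous f)
    {x0 : E4} {R : ℝ} {c : F} (hc : ∀ y, y ∉ Metric.closedBall x0 R → f y = c) :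
    ∃ C, ∀ y, ‖f y‖ ≤ C := by
  obtain ⟨C, hC⟩ := (isCompact_closedBall x0 R).exists_bound_of_continuousOn
    (f := f) hf.continuousOn
  refine ⟨max C ‖c‖, fun y => ?_⟩
  by_cases hy : y ∈ Metric.closedBall x0 R
  · exact (hC y hy).trans (le_max_left _ _)
  · rw [hc y hy]; exact le_max_right _ _

/-- Near every point of `Ω`, `J` coincides with an almost complex structure defined on all of `R^4`
by a frame with uniform bounds.
Proof. `B0` from `exists_conj` for `J1 = J x0`; on `Ω` put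
`g1 y = (1/2) B0 ∘ (1 - J1 ∘ J y)`. Then `g1 y ∘ J y = (1/2) B0 (J y + J1) = J0 ∘ g1 y`
(`J0 B0 = B0 J1`, `J1 J1 = -1`), `g1 x0 = B0`. Let `η` be a smooth bump, `0 ≤ η ≤ 1`, `η = 1` on
`closedBall x0 r`, supported in `ball x0 (2r)`, and `g y = B0 + η y • (g1 y - B0)`; for `r` small
`‖Bi‖ ‖g y - B0‖ ≤ 1/2` for all `y`, so `g y = B0 (1 + Bi (g y - B0))` is invertible
(Neumann series, `Units.oneSub` / `Ring.inverse`; smoothness of the inverse:
`contDiffAt_ringInverse`, `ContDiff.clm..`), with `‖gi y‖ ≤ 2 ‖Bi‖`. `J' y := gi y ∘ J0 ∘ g y`. On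
`closedBall x0 r` `g = g1` and so `J' = J`. The derivatives of `g` and `gi` have compact support,
hence are bounded; take `B` the maximum of the bounds and `1`. -/
theorem exists_frame {Ω : Set E4} (hΩ : IsOpen Ω) {J : E4 → (E4 →L[ℝ] E4)}
    (hJ : ContDiffOn ℝ ∞ J Ω) (hJ2 : ∀ y ∈ Ω, ∀ v, J y (J y v) = -v) {x0 : E4} (hx0 : x0 ∈ Ω) :
    ∃ (r : ℝ) (g gi J' : E4 → (E4 →L[ℝ] E4)) (B : ℝ), 0 < r ∧ Metric.ball x0 r ⊆ Ω ∧
      Frame g gi J' B ∧ ∀ y ∈ Metric.ball x0 r, J' y = J y := by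
  obtain ⟨B0, Bi, hB1, hB2, hB3⟩ := exists_conj (J x0) (hJ2 x0 hx0)
  set g1 : E4 → (E4 →L[ℝ] E4) := fun y => (1 / 2 : ℝ) • (B0 * (1 - J x0 * J y)) with hg1
  have hJat : ∀ y ∈ Ω, ContDiffAt ℝ ∞ J y := fun y hy => hJ.contDiffAt (hΩ.mem_nhds hy)
  have hg1at : ∀ y ∈ Ω, ContDiffAt ℝ ∞ g1 y := by
    intro y hy
    have h1 := hJat y hy
    have h2 : ContDiffAt ℝ ∞ (fun y => J x0 * J y) y := contDiffAt_const.mul h1
    have h3 : ContDiffAt ℝ ∞ (fun y => (1 : E4 →L[ℝ] E4) - J x0 * J y) y :=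
      contDiffAt_const.sub h2
    exact (contDiffAt_const.mul h3).const_smul (1 / 2 : ℝ)
  have hg1x0 : g1 x0 = B0 := by
    ext1 v
    have h1 : g1 x0 v = (1 / 2 : ℝ) • B0 (v - J x0 (J x0 v)) := rfl
    rw [h1, hJ2 x0 hx0 v, sub_neg_eq_add, ← two_smul ℝ v, map_smul, smul_smul]
    norm_num
  -- the radius
  have hcont : ContinuousAt (fun y => ‖Bi‖ * ‖g1 y - B0‖) x0 :=
    continuousAt_const.mul (((hg1at x0 hx0).continuousAt.sub continuousAt_const).norm)
  have hev : ∀ᶠ y in 𝓝 x0, ‖Bi‖ * ‖g1 y - B0‖ < 1 / 2 := by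
    have h0 : (fun y => ‖Bi‖ * ‖g1 y - B0‖) x0 < 1 / 2 := by
      simp [hg1x0]
    exact hcont.eventually (gt_mem_nhds h0)
  obtain ⟨ε, hε, hball⟩ := Metric.eventually_nhds_iff_ball.1
    (hev.and (hΩ.mem_nhds hx0))
  obtain ⟨r, hr⟩ : ∃ r, r = ε / 3 := ⟨_, rfl⟩
  have hr0 : 0 < r := by rw [hr]; positivity
  let η : ContDiffBump x0 := ⟨r, 2 * r, hr0, by linarith⟩
  have hsub : Metric.closedBall x0 (2 * r) ⊆ Metric.ball x0 ε :=
    Metric.closedBall_subset_ball (by rw [hr]; linarith)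
  set g : E4 → (E4 →L[ℝ] E4) := fun y => B0 + η y • (g1 y - B0) with hg
  have hη0 : ∀ y, y ∉ Metric.closedBall x0 (2 * r) → η y = 0 := by
    intro y hy
    apply η.zero_of_le_dist
    simp only [Metric.mem_closedBall, not_le] at hy
    exact hy.le
  have hgout : ∀ y, y ∉ Metric.closedBall x0 (2 * r) → g y = B0 := by
    intro y hy
    have h1 : g y = B0 + η y • (g1 y - B0) := rfl
    have h2 : η y • (g1 y - B0) = 0 := by
      rw [hη0 y hy]
      exact zero_smul ℝ (g1 y - B0)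
    rw [h1, h2, add_zero]
  have hgout' : ∀ y, y ∉ Metric.closedBall x0 (2 * r) → g =ᶠ[𝓝 y] fun _ => B0 := by
    intro y hy
    filter_upwards [Metric.isClosed_closedBall.isOpen_compl.mem_nhds hy] with z hz
    exact hgout z hz
  have hgs : ContDiff ℝ ∞ g := by
    rw [contDiff_iff_contDiffAt]
    intro y
    by_cases hy : y ∈ Metric.closedBall x0 (2 * r)
    · have hyΩ : y ∈ Ω := (hball y (hsub hy)).2
      exact contDiffAt_const.add
        (η.contDiffAt.smul ((hg1at y hyΩ).sub contDiffAt_const))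
    · exact contDiffAt_const.congr_of_eventuallyEq (hgout' y hy)
  have hsmall : ∀ y, ‖Bi‖ * ‖g y - B0‖ ≤ 1 / 2 := by
    intro y
    by_cases hy : y ∈ Metric.closedBall x0 (2 * r)
    · have h1 := (hball y (hsub hy)).1
      have h2 : g y - B0 = η y • (g1 y - B0) := by simp [hg]
      rw [h2, norm_smul]
      have h3 : ‖η y‖ ≤ 1 := by
        rw [Real.norm_eq_abs, abs_of_nonneg η.nonneg]
        exact η.le_one
      have h4 : ‖Bi‖ * (‖η y‖ * ‖g1 y - B0‖) = ‖η y‖ * (‖Bi‖ * ‖g1 y - B0‖) := by ring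
      rw [h4]
      calc ‖η y‖ * (‖Bi‖ * ‖g1 y - B0‖) ≤ 1 * (‖Bi‖ * ‖g1 y - B0‖) := by gcongr
        _ ≤ 1 / 2 := by linarith
    · rw [hgout y hy]; simp
  have hBB : B0 * Bi = 1 := by ext1 v; simpa using hB2 v
  have hBB' : Bi * B0 = 1 := by ext1 v; simpa using hB1 v
  have hunit : ∀ y, IsUnit (g y) := by
    intro y
    have h1 : ‖-(Bi * (g y - B0))‖ < 1 := by
      rw [norm_neg]
      have := (norm_mul_le Bi (g y - B0)).trans (hsmall y)
      linarith
    have h2 : IsUnit (1 - -(Bi * (g y - B0))) := isUnit_one_sub_of_norm_lt_one h1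
    have h3 : IsUnit B0 := ⟨⟨B0, Bi, hBB, hBB'⟩, rfl⟩
    have h4 : g y = B0 * (1 - -(Bi * (g y - B0))) := by
      rw [sub_neg_eq_add, mul_add, mul_one, ← mul_assoc, hBB, one_mul]
      abel
    rw [h4]
    exact h3.mul h2
  set gi : E4 → (E4 →L[ℝ] E4) := fun y => Ring.inverse (g y) with hgi
  have hgis : ContDiff ℝ ∞ gi := by
    rw [contDiff_iff_contDiffAt]
    intro y
    obtain ⟨u, hu⟩ := hunit y
    have h1 : ContDiffAt ℝ ∞ Ring.inverse (g y) := by
      rw [← hu]; exact contDiffAt_ringInverse ℝ u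
    exact h1.comp y hgs.contDiffAt
  have hli : ∀ y, gi y * g y = 1 := fun y => Ring.inverse_mul_cancel _ (hunit y)
  have hri : ∀ y, g y * gi y = 1 := fun y => Ring.mul_inverse_cancel _ (hunit y)
  have hgiout' : ∀ y, y ∉ Metric.closedBall x0 (2 * r) → gi =ᶠ[𝓝 y] fun _ => Ring.inverse B0 := by
    intro y hy
    filter_upwards [hgout' y hy] with z hz
    simp only [hgi, hz]
  obtain ⟨C1, hC1⟩ := bdd_of_const_outside hgs.continuous hgout
  obtain ⟨C2, hC2⟩ := bdd_of_const_outside hgis.continuous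
    (fun y hy => (hgiout' y hy).eq_of_nhds)
  obtain ⟨C3, hC3⟩ := bdd_of_const_outside (f := fderiv ℝ g) (c := 0) (x0 := x0) (R := 2 * r)
    (hgs.continuous_fderiv (by simp))
    (fun y hy => by rw [(hgout' y hy).fderiv_eq]; simp)
  obtain ⟨C4, hC4⟩ := bdd_of_const_outside (f := fderiv ℝ gi) (c := 0) (x0 := x0) (R := 2 * r)
    (hgis.continuous_fderiv (by simp))
    (fun y hy => by rw [(hgiout' y hy).fderiv_eq]; simp)
  refine ⟨r, g, gi, fun y => gi y * (J0 * g y), max 1 (max (max C1 C2) (max C3 C4)), hr0, ?_,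
    ⟨hgs, hgis, ?_, ?_, ?_, le_max_left _ _, ?_, ?_, ?_, ?_⟩, ?_⟩
  · intro y hy
    apply (hball y _).2
    apply hsub
    exact Metric.closedBall_subset_closedBall (by linarith) (Metric.ball_subset_closedBall hy)
  · intro y v
    have := congrArg (fun T : E4 →L[ℝ] E4 => T v) (hli y)
    simpa using this
  · intro y v
    have := congrArg (fun T : E4 →L[ℝ] E4 => T v) (hri y)
    simpa using this
  · intro y v
    simp
  · intro y
    exact (hC1 y).trans (((le_max_left _ _).trans (le_max_left _ _)).trans (le_max_right _ _))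
  · intro y
    exact (hC2 y).trans (((le_max_right _ _).trans (le_max_left _ _)).trans (le_max_right _ _))
  · intro y
    exact (hC3 y).trans (((le_max_left _ _).trans (le_max_right _ _)).trans (le_max_right _ _))
  · intro y
    exact (hC4 y).trans (((le_max_right _ _).trans (le_max_right _ _)).trans (le_max_right _ _))
  · intro y hy
    have hyc : y ∈ Metric.closedBall x0 (2 * r) :=
      Metric.closedBall_subset_closedBall (by linarith) (Metric.ball_subset_closedBall hy)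
    have hyΩ : y ∈ Ω := (hball y (hsub hyc)).2
    have hη1 : η y = 1 := η.one_of_mem_closedBall (Metric.ball_subset_closedBall hy)
    have hgy : g y = g1 y := by simp [hg, hη1]
    have hkey : J0 * g y = g y * J y := by
      rw [hgy]
      ext1 v
      have h1 : (J0 * g1 y) v = J0 ((1 / 2 : ℝ) • B0 (v - J x0 (J y v))) := rfl
      have h2 : (g1 y * J y) v = (1 / 2 : ℝ) • B0 (J y v - J x0 (J y (J y v))) := rfl
      rw [h1, h2, map_smul, ← hB3, hJ2 y hyΩ v, map_sub (J x0), hJ2 x0 hx0, map_neg (J x0),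
        sub_neg_eq_add, sub_neg_eq_add, add_comm]
    show gi y * (J0 * g y) = J y
    rw [hkey, ← mul_assoc, hli, one_mul]

end TamedLocal
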