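import Mathlib
import Pool.Agent.W_MP_d8b8b7_gt_L.ElMirFrame
import Pool.Agent.W_MP_d8b8b7_gt_L.FrameExt

/-! # Local El Mir lemma -/

noncomputable section

open MeasureTheory Set Filter Topology
open scoped ContDiff ENNReal Manifold

namespace TamedLocal

namespace ElMirLoc

section General
variable {E F : Type} [NormedAddCommGroup E] [NormedSpace ℝ E] [NormedAddCommGroup F]
  [NormedSpace ℝ F]

theorem exists_decomp_gen [FiniteDimensional ℝ E] {α : E → F}
    (hαs : ContDiff ℝ ∞ α) (hαc : HasCompactSupport α) (r : E → ℝ)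
    (hr : ∀ x ∈ tsupport α, 0 < r x) :
    ∃ (t : Finset E) (β : {x // x ∈ t} → E → F),
      (∀ i : {x // x ∈ t}, (i : E) ∈ tsupport α) ∧
      (∀ i : {x // x ∈ t}, ContDiff ℝ ∞ (β i) ∧ HasCompactSupport (β i) ∧
        tsupport (β i) ⊆ Metric.ball (i : E) (r i)) ∧
      ∀ y, α y = ∑ i, β i y := by
  obtain ⟨t, htK, hcov⟩ := hαc.elim_nhds_subcover (fun x => Metric.ball x (r x))
    (fun x hx => Metric.ball_mem_nhds x (hr x hx))
  have hcov' : tsupport α ⊆ ⋃ i : {x // x ∈ t}, Metric.ball (i : E) (r i) := by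
    intro y hy
    have := hcov hy
    simp only [mem_iUnion] at this ⊢
    obtain ⟨x, hx, hyx⟩ := this
    exact ⟨⟨x, hx⟩, hyx⟩
  obtain ⟨f, hf⟩ := SmoothPartitionOfUnity.exists_isSubordinate 𝓘(ℝ, E) (isClosed_tsupport α)
    (fun i : {x // x ∈ t} => Metric.ball (i : E) (r i)) (fun i => Metric.isOpen_ball) hcov'
  refine ⟨t, fun (i : {x // x ∈ t}) y => f i y • α y, fun i => htK i i.2,
    fun i => ⟨?_, ?_, ?_⟩, ?_⟩
  · exact ((f i).contMDiff.contDiff).smul hαs
  · exact hαc.smul_left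
  · exact (tsupport_smul_subset_left (f i) α).trans (hf i)
  · intro y
    by_cases hy : y ∈ tsupport α
    · have h1 := f.sum_eq_one hy
      rw [finsum_eq_sum_of_fintype] at h1
      rw [← Finset.sum_smul, h1, one_smul]
    · have h0 : α y = 0 := image_eq_zero_of_notMem_tsupport hy
      simp [h0]

end General

theorem dF_zero_of_notMem {α : E4 → (E4 →L[ℝ] ℝ)} {y : E4} (hy : y ∉ tsupport α) (u w : E4) :
    dF α y u w = 0 := by
  have h : fderiv ℝ α y = 0 := by
    by_contra hne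
    exact hy (support_fderiv_subset ℝ (Function.mem_support.2 hne))
  simp [dF, h]

theorem dF_sum {ι : Type} [Fintype ι] {β : ι → E4 → (E4 →L[ℝ] ℝ)}
    (hβ : ∀ i, Differentiable ℝ (β i)) (y u w : E4) :
    dF (fun z => ∑ i, β i z) y u w = ∑ i, dF (β i) y u w := by
  have h : fderiv ℝ (fun z => ∑ i, β i z) y = ∑ i, fderiv ℝ (β i) y := by
    rw [fderiv_fun_sum]
    intro i _
    exact (hβ i) y
  simp only [dF, h, sum_apply]
  simp [Finset.sum_sub_distrib]

theorem continuous_dF {α : E4 → (E4 →L[ℝ] ℝ)} (hα : ContDiff ℝ 1 α) {X : Type}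
    [TopologicalSpace X] {a b c : X → E4} (ha : Continuous a) (hb : Continuous b)
    (hc : Continuous c) : Continuous fun p => dF α (a p) (b p) (c p) := by
  have h1 : Continuous (fderiv ℝ α) := hα.continuous_fderiv (by simp)
  unfold dF
  have h2 : Continuous fun p => fderiv ℝ α (a p) := h1.comp ha
  exact ((h2.clm_apply hb).clm_apply hc).sub ((h2.clm_apply hc).clm_apply hb)

theorem frame_J_continuous {g gi J : E4 → (E4 →L[ℝ] E4)} {B : ℝ} (hF : Frame g gi J B) :
    Continuous J := by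
  have h : J = fun y => (gi y).comp (J0.comp (g y)) := by
    funext y
    ext1 v
    simp [hF.J_eq y v]
  rw [h]
  exact (hF.smooth_gi.continuous).clm_comp (continuous_const.clm_comp hF.smooth_g.continuous)

/-- Integrability of the pairing density for the measure part. -/
theorem integrable_m {J : E4 → (E4 →L[ℝ] E4)} (hJ : Continuous J)
    {m : Measure (E4 × E4)} [IsFiniteMeasure m] {R : ℝ} (hR : ∀ᵐ p ∂m, ‖p.2‖ ≤ R)
    {G : Set E4} (hG : MeasurableSet G) {β : E4 → (E4 →L[ℝ] ℝ)} (hβ : ContDiff ℝ 1 β)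
    (hc : HasCompactSupport β) :
    Integrable (fun p : E4 × E4 => G.indicator (fun _ => (1 : ℝ)) p.1
      * dF β p.1 p.2 (J p.1 p.2)) m := by
  have hcont : Continuous fun p : E4 × E4 => dF β p.1 p.2 (J p.1 p.2) :=
    continuous_dF hβ continuous_fst continuous_snd
        ((hJ.comp continuous_fst).clm_apply continuous_snd)
  obtain ⟨M, hM⟩ := (hc.isCompact.prod
    (isCompact_closedBall (0 : E4) R)).exists_bound_of_continuousOn hcont.continuousOn
  have hmeas : AEStronglyMeasurable (fun p : E4 × E4 => G.indicator (fun _ => (1 : ℝ)) p.1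
      * dF β p.1 p.2 (J p.1 p.2)) m := by
    apply AEStronglyMeasurable.mul
    · exact ((measurable_const.indicator hG).comp measurable_fst).aestronglyMeasurable
    · exact hcont.aestronglyMeasurable
  refine Integrable.of_bound hmeas (max M 0) ?_
  filter_upwards [hR] with p hp
  have h1 : ‖G.indicator (fun _ => (1 : ℝ)) p.1‖ ≤ 1 := by
    by_cases hx : p.1 ∈ G
    · simp [hx]
    · simp [hx]
  rw [norm_mul]
  by_cases hK : p.1 ∈ tsupport β
  · have h2 := hM p ⟨hK, by simpa using hp⟩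
    calc _ ≤ 1 * M := mul_le_mul h1 h2 (norm_nonneg _) zero_le_one
      _ ≤ max M 0 := by rw [one_mul]; exact le_max_left _ _
  · rw [dF_zero_of_notMem hK, norm_zero, mul_zero]
    exact le_max_right _ _

theorem integrable_t {τ : E4 → Fin 4 → Fin 4 → ℝ}
    (hτ : ∀ i j, MemLp (fun y => τ y i j) 2 volume) {β : E4 → (E4 →L[ℝ] ℝ)}
    (hβ : ContDiff ℝ 1 β) (hc : HasCompactSupport β) :
    Integrable (fun y => ∑ i, ∑ j, τ y i j * dF β y (ee i) (ee j)) := by
  refine integrable_finsetSum _ fun i _ => integrable_finsetSum _ fun j _ => ?_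
  have h1 : Continuous fun y => dF β y (ee i) (ee j) :=
    continuous_dF hβ continuous_id continuous_const continuous_const
  have h2 : HasCompactSupport fun y => dF β y (ee i) (ee j) := by
    refine HasCompactSupport.intro hc fun y hy => ?_
    exact dF_zero_of_notMem hy _ _
  have h3 : MemLp (fun y => dF β y (ee i) (ee j)) 2 volume :=
    h1.memLp_of_hasCompactSupport h2
  exact (hτ i j).integrable_mul h3

theorem finite_trM {m : Measure (E4 × E4)} [IsFiniteMeasure m] {R : ℝ}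
    (hR : ∀ᵐ p ∂m, ‖p.2‖ ≤ R) : IsFiniteMeasure (trM m) := by
  refine ⟨?_⟩
  have hms : Measurable (Prod.fst : E4 × E4 → E4) := measurable_fst
  rw [trM, Measure.map_apply hms MeasurableSet.univ, preimage_univ,
    withDensity_apply _ MeasurableSet.univ, setLIntegral_univ]
  calc ∫⁻ p, ENNReal.ofReal (‖p.2‖ ^ 2) ∂m ≤ ∫⁻ p, ENNReal.ofReal (R ^ 2) ∂m := by
        refine lintegral_mono_ae ?_
        filter_upwards [hR] with p hp
        exact ENNReal.ofReal_le_ofReal (pow_le_pow_left₀ (norm_nonneg _) hp 2)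
    _ = ENNReal.ofReal (R ^ 2) * m univ := by rw [lintegral_const]
    _ < ⊤ := ENNReal.mul_lt_top ENNReal.ofReal_lt_top (measure_lt_top _ _)

theorem measurableSet_finSet {m : Measure (E4 × E4)} [IsFiniteMeasure m] {R : ℝ}
    (hR : ∀ᵐ p ∂m, ‖p.2‖ ≤ R) : MeasurableSet (finSet m) := by
  have := finite_trM hR
  exact measurableSet_lt (measurable_newton (trM m)) measurable_const

/-- Replacing `J` by `J'` where they agree on the support. -/
theorem pairM_congr {J J' : E4 → (E4 →L[ℝ] E4)} {U : Set E4} (hJJ : ∀ y ∈ U, J' y = J y)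
    {m : Measure (E4 × E4)} {φ : E4 → ℝ} {β : E4 → (E4 →L[ℝ] ℝ)} (hs : tsupport β ⊆ U) :
    pairM J' m (fun y u v => φ y * dF β y u v) = pairM J m (fun y u v => φ y * dF β y u v) := by
  unfold pairM
  congr 1
  funext p
  by_cases hp : p.1 ∈ U
  · simp only [hJJ p.1 hp]
  · have : p.1 ∉ tsupport β := fun h => hp (hs h)
    simp only [dF_zero_of_notMem this, mul_zero]

theorem pairM_congr' {J J' : E4 → (E4 →L[ℝ] E4)} {U : Set E4} (hJJ : ∀ y ∈ U, J' y = J y)
    {m : Measure (E4 × E4)} {β : E4 → (E4 →L[ℝ] ℝ)} (hs : tsupport β ⊆ U) :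
    pairM J' m (dF β) = pairM J m (dF β) := by
  have := pairM_congr (m := m) hJJ (φ := fun _ => 1) hs
  simpa using this

theorem closedOn_congr {J J' : E4 → (E4 →L[ℝ] E4)} {U Ω : Set E4} (hU : U ⊆ Ω)
    (hJJ : ∀ y ∈ U, J' y = J y) {m : Measure (E4 × E4)} {τ : E4 → Fin 4 → Fin 4 → ℝ}
    (h : ClosedOn J Ω m τ) : ClosedOn J' U m τ := by
  intro β hβ
  rw [pairM_congr' hJJ hβ.supp]
  exact h β ⟨hβ.smooth, hβ.compact, hβ.supp.trans hU⟩

theorem antiInv_congr {J J' : E4 → (E4 →L[ℝ] E4)} {U Ω : Set E4} (hU : U ⊆ Ω)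
    (hJJ : ∀ y ∈ U, J' y = J y) {τ : E4 → Fin 4 → Fin 4 → ℝ}
    (h : AntiInv J Ω τ) : AntiInv J' U τ := by
  refine ⟨h.memLp, ?_⟩
  filter_upwards [h.anti] with y hy hyU
  rw [hJJ y hyU]
  exact hy (hU hyU)



/-- Data of one piece: a ball on which `J` comes from a global frame. -/
structure Piece (Ω : Set E4) (J : E4 → (E4 →L[ℝ] E4)) (x : E4) (r : ℝ) : Prop where
  pos : 0 < r
  sub : Metric.ball x r ⊆ Ω
  ex : ∃ (g gi J' : E4 → (E4 →L[ℝ] E4)) (B : ℝ), Frame g gi J' B ∧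
    ∀ y ∈ Metric.ball x r, J' y = J y

theorem exists_piece {Ω : Set E4} (hΩ : IsOpen Ω) {J : E4 → (E4 →L[ℝ] E4)}
    (hJ : ContDiffOn ℝ ∞ J Ω) (hJ2 : ∀ y ∈ Ω, ∀ v, J y (J y v) = -v) (K : Set E4)
    (hK : K ⊆ Ω) : ∃ r : E4 → ℝ, ∀ x ∈ K, Piece Ω J x (r x) := by
  have hex : ∀ x : E4, ∃ r : ℝ, x ∈ K → Piece Ω J x r := by
    intro x
    by_cases hx : x ∈ K
    · obtain ⟨r, g, gi, J', B, h1, h2, h3, h4⟩ := exists_frame hΩ hJ hJ2 (hK hx)
      exact ⟨r, fun _ => ⟨h1, h2, g, gi, J', B, h3, h4⟩⟩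
    · exact ⟨0, fun h => absurd h hx⟩
  choose r hr using hex
  exact ⟨r, hr⟩

theorem piece_main {Ω : Set E4} {J : E4 → (E4 →L[ℝ] E4)} {x : E4} {r : ℝ}
    (hp : Piece Ω J x r)
    {mP mT : Measure (E4 × E4)} [IsFiniteMeasure mP] [IsFiniteMeasure mT] {R : ℝ}
    (hRP : ∀ᵐ p ∂mP, ‖p.2‖ ≤ R) (hRT : ∀ᵐ p ∂mT, ‖p.2‖ ≤ R)
    {τ : E4 → Fin 4 → Fin 4 → ℝ} (hτ : AntiInv J Ω τ)
    (hP : ClosedOn J Ω mP (fun _ _ _ => 0)) (hT : ClosedOn J Ω mT τ)
    {β : E4 → (E4 →L[ℝ] ℝ)} (hβ : IsTest ⊤ (Metric.ball x r) β) :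
    pairM J mT (fun y u v => (finSet mP).indicator (fun _ => (1 : ℝ)) y * dF β y u v)
      + pairT τ (dF β) = 0 ∧
    Integrable (fun p : E4 × E4 => (finSet mP).indicator (fun _ => (1 : ℝ)) p.1
      * dF β p.1 p.2 (J p.1 p.2)) mT := by
  obtain ⟨hr, hsub, g, gi, J', B, hFr, hJJ⟩ := hp
  have hβ1 : ContDiff ℝ 1 β := hβ.smooth.of_le (by exact_mod_cast le_top)
  constructor
  · have h := elMir_frame hFr Metric.isOpen_ball hRP hRT (antiInv_congr hsub hJJ hτ)
      (closedOn_congr hsub hJJ hP) (closedOn_congr hsub hJJ hT) hβ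
    rwa [pairM_congr hJJ hβ.supp] at h
  · have h := integrable_m (frame_J_continuous hFr) hRT (measurableSet_finSet hRP) hβ1 hβ.compact
    refine h.congr (Eventually.of_forall fun p => ?_)
    by_cases hp : p.1 ∈ Metric.ball x r
    · simp only [hJJ p.1 hp]
    · have : p.1 ∉ tsupport β := fun h => hp (hβ.supp h)
      simp only [dF_zero_of_notMem this, mul_zero]

end ElMirLoc

open ElMirLoc in
/-- **Local El Mir lemma** for an almost complex structure `J` which is only given on the open set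
`Ω`. Proof: by `exists_frame` every point of `K = tsupport α` has a ball on which `J` comes from a
global frame; take a finite smooth partition of unity `ρ_i` on `K` subordinate to these balls and
apply `elMir_frame` on each ball `U_i` to `ρ_i • α` (hypotheses restrict from `Ω` to `U_i`, and `J`
may be replaced by `J'` there because all forms vanish outside `tsupport`), then sum:
`α = ∑ ρ_i • α` and both sides are additive in `α` (`dF` is additive, all integrands are
integrable). -/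
theorem elMir_local {Ω : Set E4} (hΩ : IsOpen Ω) {J : E4 → (E4 →L[ℝ] E4)}
    (hJ : ContDiffOn ℝ ∞ J Ω) (hJ2 : ∀ y ∈ Ω, ∀ v, J y (J y v) = -v)
    {mP mT : Measure (E4 × E4)} [IsFiniteMeasure mP] [IsFiniteMeasure mT] {R : ℝ}
    (hRP : ∀ᵐ p ∂mP, ‖p.2‖ ≤ R) (hRT : ∀ᵐ p ∂mT, ‖p.2‖ ≤ R)
    {τ : E4 → Fin 4 → Fin 4 → ℝ} (hτ : AntiInv J Ω τ)
    (hP : ClosedOn J Ω mP (fun _ _ _ => 0)) (hT : ClosedOn J Ω mT τ)
    {α : E4 → (E4 →L[ℝ] ℝ)} (hα : IsTest ⊤ Ω α) :
    pairM J mT (fun y u v => (finSet mP).indicator (fun _ => (1 : ℝ)) y * dF α y u v)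
      + pairT τ (dF α) = 0 := by
  obtain ⟨r, hr⟩ := exists_piece hΩ hJ hJ2 (tsupport α) hα.supp
  obtain ⟨t, β, htK, hβ, hαβ⟩ := exists_decomp_gen hα.smooth hα.compact r
    fun x hx => (hr x hx).pos
  have hβt : ∀ i : {x // x ∈ t}, IsTest ⊤ (Metric.ball (i : E4) (r i)) (β i) := fun i =>
    ⟨(hβ i).1, (hβ i).2.1, (hβ i).2.2⟩
  have hβ1 : ∀ i, ContDiff ℝ 1 (β i) := fun i => (hβ i).1.of_le (by exact_mod_cast le_top)
  have hαβ' : α = fun y => ∑ i, β i y := funext hαβ
  have hdF : ∀ y u w, dF α y u w = ∑ i, dF (β i) y u w := by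
    intro y u w
    rw [hαβ']
    exact dF_sum (fun i => (hβ1 i).differentiable (by simp)) y u w
  have hpiece := fun i : {x // x ∈ t} => piece_main (hr i (htK i)) hRP hRT hτ hP hT (hβt i)
  have hintt := fun i => integrable_t hτ.memLp (hβ1 i) (hβ i).2.1
  have hM : pairM J mT (fun y u v => (finSet mP).indicator (fun _ => (1 : ℝ)) y * dF α y u v)
      = ∑ i, pairM J mT
          (fun y u v => (finSet mP).indicator (fun _ => (1 : ℝ)) y * dF (β i) y u v) := by
    unfold pairM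
    rw [← integral_finsetSum _ fun i _ => (hpiece i).2]
    congr 1
    funext p
    simp only [hdF, Finset.mul_sum]
  have hTt : pairT τ (dF α) = ∑ i, pairT τ (dF (β i)) := by
    unfold pairT
    rw [← integral_finsetSum _ fun i _ => hintt i]
    congr 1
    funext y
    simp only [hdF, Finset.mul_sum]
    symm
    rw [Finset.sum_comm]
    refine Finset.sum_congr rfl fun a _ => ?_
    exact Finset.sum_comm
  rw [hM, hTt, ← Finset.sum_add_distrib]
  exact Finset.sum_eq_zero fun i _ => (hpiece i).1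

end TamedLocal
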